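import Pool.Agent.KS6_22.MF.Loc

/-!
# Local means over random polynomials

Owner helper22.
-/

set_option autoImplicit false
set_option linter.unusedSectionVars false
set_option linter.unusedVariables false
set_option linter.style.haveILetI false

open Polynomial NumberField IsDedekindDomain
open Pool.Agent.T6.H9.MV (Good LD LD_bounds LD_Lam pair_Lam Lam one_le_Lam rho0 rho0_pos rho0_lt_one
  rho0_sq rho0_sq_le prs ex Np Nt EPhi Phi local_estimate exists_prod_zpow_bound norm_zpow_le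
  norm_zpow_sub_one fmean fmean_eq fmean_comp fmean_pi fmean_sub trF epF good_fin card_pts Om
  LD_real_pos)

namespace Pool.Agent.KS6_22.MF

lemma exists_prod_bound {ι : Type} [DecidableEq ι] (n : ι → ℤ) {Λ : ℝ} (hΛ : 1 ≤ Λ)
    (S : Finset ι) : ∃ C : ℝ, 0 ≤ C ∧ ∀ (z : ι → ℂ) (x : ℝ), 0 ≤ x →
      (∀ i ∈ S, Λ⁻¹ ≤ ‖z i‖ ∧ ‖z i‖ ≤ Λ ∧ ‖z i - 1‖ ≤ x) → ‖∏ i ∈ S, z i ^ n i - 1‖ ≤ C * x := by
  induction S using Finset.induction_on with
  | empty => exact ⟨0, le_rfl, fun z x hx h => by simp⟩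
  | insert k s hk ih =>
    obtain ⟨C, hC0, hC⟩ := ih
    refine ⟨C * Λ ^ (n k).natAbs + (n k).natAbs * Λ ^ (2 * (n k).natAbs), by positivity,
      fun z x hx h => ?_⟩
    rw [Finset.prod_insert hk]
    have h1 : z k ^ n k * ∏ j ∈ s, z j ^ n j - 1 =
        (∏ j ∈ s, z j ^ n j - 1) * z k ^ n k + (z k ^ n k - 1) := by ring
    rw [h1]
    refine (norm_add_le _ _).trans ?_
    rw [norm_mul]
    have h2 := hC z x hx fun j hj => h j (Finset.mem_insert_of_mem hj)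
    have hk' := h k (Finset.mem_insert_self _ _)
    have h3 := norm_zpow_le hk'.1 hk'.2.1 hΛ (n k)
    have h4 := norm_zpow_sub_one hΛ hk'.1 hk'.2.1 hk'.2.2 (n k)
    have h5 : ‖∏ j ∈ s, z j ^ n j - 1‖ * ‖z k ^ n k‖ ≤ (C * x) * Λ ^ (n k).natAbs :=
      mul_le_mul h2 h3 (norm_nonneg _) (by positivity)
    linarith

section est

variable {r : ℕ}

theorem Zk_est (n : Fin r → ℤ) : ∃ C : ℝ, 0 ≤ C ∧ ∀ (q : ℕ), 2 ≤ q → ∀ (s : Fin r → ℂ) (σ : ℝ),
    3 / 4 ≤ σ → (∀ j, σ ≤ (s j).re) → ‖Zk n s q - 1‖ ≤ C * (q : ℝ) ^ (1 - 2 * σ) := by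
  classical
  obtain ⟨C, hC0, hC⟩ := exists_prod_bound (ex n) (one_le_Lam rho0) (prs r)
  refine ⟨C, hC0, fun q hq s σ hσ hs => ?_⟩
  unfold Zk
  refine hC (fun p => 1 - (q : ℂ) ^ (-(s p.1 + s p.2 - 1))) _ (by positivity) fun p _ => ?_
  obtain ⟨b1, b2⟩ := Zf_bounds hq (hσ.trans (hs p.1)) (hσ.trans (hs p.2))
  exact ⟨b1, b2, Zf_sub_one hq (hs p.1) (hs p.2)⟩

lemma Mk_mul_Zk {k : Type} [Field k] [Fintype k] (n : Fin r → ℤ) (s : Fin r → ℂ) {tr ep : k × k → ℝ}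
    (hlf : ∀ (t : k × k) (s : ℂ),
      lf k t s = (LD (Nat.card k : ℝ) (tr t) (ep t) ((Nat.card k : ℂ) ^ (-s)))⁻¹) :
    Mk n s k * Zk n s (Nat.card k) =
      EPhi n (Nat.card k : ℝ) tr ep (fun j => (Nat.card k : ℂ) ^ (-(s j))) := by
  classical
  unfold Mk
  rw [fmean_eq, EPhi, div_mul_eq_mul_div, Finset.sum_mul]
  congr 1
  refine Finset.sum_congr rfl fun t _ => ?_
  unfold Ph Phi Zk
  congr 1
  · refine Finset.prod_congr rfl fun j _ => ?_
    rw [hlf, zpow_neg, inv_zpow]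
  · refine Finset.prod_congr rfl fun p _ => ?_
    rw [← cpow_two' (two_le_card (k := k)) (s p.1) (s p.2)]
    push_cast
    rfl

/-- **The local estimate** -/
theorem MZ_est (n : Fin r → ℤ) : ∃ C : ℝ, 0 ≤ C ∧ ∀ (k : Type) [Field k] [Finite k],
    (6 : k) ≠ 0 → ∀ (s : Fin r → ℂ) (δ : ℝ), 0 < δ → (∀ j, 3 / 4 + δ ≤ (s j).re) →
      ‖Mk n s k * Zk n s (Nat.card k) - 1‖ ≤
        C * ((Nat.card k : ℝ) ^ (-(3 / 2 + 2 * δ)) + (Nat.card k : ℝ) ^ (-(1 + 4 * δ))) := by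
  classical
  obtain ⟨C, hC0, hC⟩ := local_estimate n rho0_pos rho0_lt_one
  refine ⟨C, hC0, ?_⟩
  intro k _ _ h6 s δ hδ hs
  haveI := Fintype.ofFinite k
  obtain ⟨tr, ep, hG, hlf⟩ := good_k h6
  rw [Mk_mul_Zk n s hlf]
  have hq2 := two_le_card (k := k)
  have hq0 : (0 : ℝ) < Nat.card k := by exact_mod_cast (by omega : 0 < Nat.card k)
  have hq1 : (1 : ℝ) ≤ Nat.card k := by exact_mod_cast (by omega : 1 ≤ Nat.card k)
  have hq2' : (2 : ℝ) ≤ Nat.card k := by exact_mod_cast hq2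
  set κ : ℝ := (Nat.card k : ℝ) ^ (-(1 / 4) - δ) with hκ
  have hκ0 : 0 < κ := by positivity
  have hκρ : κ ≤ rho0 ^ 2 := by
    rw [rho0_sq, hκ]
    calc (Nat.card k : ℝ) ^ (-(1 / 4) - δ) ≤ (Nat.card k : ℝ) ^ (-(1 / 4) : ℝ) :=
          Real.rpow_le_rpow_of_exponent_le hq1 (by linarith)
      _ ≤ _ := Real.rpow_le_rpow_of_nonpos (by norm_num) hq2' (by norm_num)
  have hT : ∀ j, √(Nat.card k : ℝ) * ‖(Nat.card k : ℂ) ^ (-(s j))‖ ≤ κ := by
    intro j
    rw [kap _ hq2, hκ]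
    exact Real.rpow_le_rpow_of_exponent_le hq1 (by linarith [hs j])
  have hmain := hC (k × k) (Nat.card k) tr ep hG κ hκ0 hκρ
    (fun j => (Nat.card k : ℂ) ^ (-(s j))) hT
  have e1 : κ ^ 2 / (Nat.card k : ℝ) = (Nat.card k : ℝ) ^ (-(3 / 2 + 2 * δ)) := by
    rw [hκ, ← Real.rpow_natCast, ← Real.rpow_mul hq0.le]
    nth_rewrite 2 [← Real.rpow_one (Nat.card k : ℝ)]
    rw [← Real.rpow_sub hq0]
    congr 1
    push_cast
    ring
  have e2 : κ ^ 4 = (Nat.card k : ℝ) ^ (-(1 + 4 * δ)) := by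
    rw [hκ, ← Real.rpow_natCast, ← Real.rpow_mul hq0.le]
    congr 1
    push_cast
    ring
  rwa [e1, e2] at hmain

theorem Mk_est (n : Fin r → ℤ) : ∃ C : ℝ, 0 ≤ C ∧ ∀ (k : Type) [Field k] [Finite k],
    (6 : k) ≠ 0 → ∀ (s : Fin r → ℂ) (δ : ℝ), 0 < δ → (∀ j, 3 / 4 + δ ≤ (s j).re) →
      ‖Mk n s k - 1‖ ≤ C * (Nat.card k : ℝ) ^ (-(1 / 2 + 2 * δ)) := by
  obtain ⟨C1, hC1, h1⟩ := MZ_est n
  obtain ⟨C2, hC2, h2⟩ := Zk_est n
  have hL := one_le_Lam rho0
  refine ⟨(2 * C1 + C2) * Lam rho0 ^ Np n, by positivity, ?_⟩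
  intro k _ _ h6 s δ hδ hs
  have hq2 := two_le_card (k := k)
  have hq1 : (1 : ℝ) ≤ Nat.card k := by exact_mod_cast (by omega : 1 ≤ Nat.card k)
  have hs' : ∀ j, 3 / 4 ≤ (s j).re := fun j => by linarith [hs j]
  have hZ := Zk_ne n hs' hq2
  have hZi := Zk_inv n hs' hq2
  have e1 := h1 k h6 s δ hδ hs
  have e2 := h2 (Nat.card k) hq2 s (3 / 4 + δ) (by linarith) hs
  have e3 : (1 : ℝ) - 2 * (3 / 4 + δ) = -(1 / 2 + 2 * δ) := by ring
  rw [e3] at e2
  set X : ℝ := (Nat.card k : ℝ) ^ (-(1 / 2 + 2 * δ)) with hX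
  have a1 : (Nat.card k : ℝ) ^ (-(3 / 2 + 2 * δ)) ≤ X :=
    Real.rpow_le_rpow_of_exponent_le hq1 (by linarith)
  have a2 : (Nat.card k : ℝ) ^ (-(1 + 4 * δ)) ≤ X :=
    Real.rpow_le_rpow_of_exponent_le hq1 (by linarith)
  have e4 : ‖Mk n s k * Zk n s (Nat.card k) - 1‖ ≤ 2 * C1 * X := by
    refine e1.trans ?_
    nlinarith
  have e5 : Mk n s k - 1 = ((Mk n s k * Zk n s (Nat.card k) - 1) - (Zk n s (Nat.card k) - 1)) *
      (Zk n s (Nat.card k))⁻¹ := by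
    field_simp
    ring
  rw [e5, norm_mul]
  have e6 : ‖(Mk n s k * Zk n s (Nat.card k) - 1) - (Zk n s (Nat.card k) - 1)‖ ≤
      (2 * C1 + C2) * X := by
    refine (norm_sub_le _ _).trans ?_
    linarith
  calc _ ≤ ((2 * C1 + C2) * X) * Lam rho0 ^ Np n :=
        mul_le_mul e6 hZi (norm_nonneg _) (by positivity)
    _ = _ := by ring

end est

/-! ### products over the simple factors -/

lemma prod_second {ι : Type} [DecidableEq ι] (S : Finset ι) (x : ι → ℂ) {y : ℝ} (hy : 0 ≤ y)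
    (h : ∀ i ∈ S, ‖x i‖ ≤ y) :
    ‖∏ i ∈ S, (1 + x i) - 1 - ∑ i ∈ S, x i‖ ≤ (S.card : ℝ) ^ 2 * y ^ 2 * (1 + y) ^ S.card := by
  induction S using Finset.induction_on with
  | empty => simp
  | insert j S hj ih =>
    have ih' := ih fun i hi => h i (Finset.mem_insert_of_mem hi)
    have hj' := h j (Finset.mem_insert_self _ _)
    rw [Finset.prod_insert hj, Finset.sum_insert hj, Finset.card_insert_of_notMem hj]
    have h1 : (1 + x j) * ∏ i ∈ S, (1 + x i) - 1 - (x j + ∑ i ∈ S, x i) =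
        (∏ i ∈ S, (1 + x i) - 1 - ∑ i ∈ S, x i) * (1 + x j) + x j * ∑ i ∈ S, x i := by ring
    rw [h1]
    have h2 : ‖∑ i ∈ S, x i‖ ≤ S.card * y := by
      refine (norm_sum_le _ _).trans ?_
      refine (Finset.sum_le_sum fun i hi => h i (Finset.mem_insert_of_mem hi)).trans ?_
      rw [Finset.sum_const, nsmul_eq_mul]
    have h3 : ‖1 + x j‖ ≤ 1 + y := by
      refine (norm_add_le _ _).trans ?_
      rw [norm_one]
      linarith
    have h4 : (1 : ℝ) ≤ (1 + y) ^ (S.card + 1) := one_le_pow₀ (by linarith)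
    calc ‖(∏ i ∈ S, (1 + x i) - 1 - ∑ i ∈ S, x i) * (1 + x j) + x j * ∑ i ∈ S, x i‖
        ≤ ‖∏ i ∈ S, (1 + x i) - 1 - ∑ i ∈ S, x i‖ * ‖1 + x j‖ + ‖x j‖ * ‖∑ i ∈ S, x i‖ := by
          refine (norm_add_le _ _).trans ?_
          rw [norm_mul, norm_mul]
      _ ≤ ((S.card : ℝ) ^ 2 * y ^ 2 * (1 + y) ^ S.card) * (1 + y) + y * (S.card * y) := by
          gcongr
      _ = (S.card : ℝ) ^ 2 * y ^ 2 * (1 + y) ^ (S.card + 1) + S.card * y ^ 2 * 1 := by ring
      _ ≤ (S.card : ℝ) ^ 2 * y ^ 2 * (1 + y) ^ (S.card + 1) +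
            S.card * y ^ 2 * (1 + y) ^ (S.card + 1) := by gcongr
      _ ≤ ((S.card + 1 : ℕ) : ℝ) ^ 2 * y ^ 2 * (1 + y) ^ (S.card + 1) := by
          have h5 : (0 : ℝ) ≤ y ^ 2 * (1 + y) ^ (S.card + 1) := by positivity
          have h6 : (S.card : ℝ) ^ 2 + S.card ≤ ((S.card + 1 : ℕ) : ℝ) ^ 2 := by
            push_cast
            nlinarith [(Nat.cast_nonneg S.card : (0 : ℝ) ≤ S.card)]
          nlinarith [mul_le_mul_of_nonneg_right h6 h5]

section mean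

variable {k : Type} [Field k] [Finite k] {n : ℕ}

/-- **The mean over all polynomials of a product over the simple factors.** -/
theorem mean_factors (hn : 0 < n) (x : k[X] → ℂ) (x₁ : ℂ) {y z : ℝ} (hy : 0 ≤ y) (hz : 0 ≤ z)
    (h1 : ∀ g : k[X], Irreducible g → g.Monic → g.natDegree = 1 → x g = x₁)
    (h2 : ∀ g : k[X], Irreducible g → g.Monic → ‖x g‖ ≤ y)
    (h3 : ∀ g : k[X], Irreducible g → g.Monic → 2 ≤ g.natDegree → ‖x g‖ ≤ z) :
    ‖fmean (fun c : Fin n → k => ∏ g ∈ SF (mon c), (1 + x g)) - (1 + x₁)‖ ≤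
      (n : ℝ) ^ 2 * y ^ 2 * (1 + y) ^ n + n * z + y / Nat.card k := by
  classical
  have hx₁ : ‖x₁‖ ≤ y := by
    rw [← h1 X irreducible_X monic_X natDegree_X]
    exact h2 X irreducible_X monic_X
  have hfac : ∀ (c : Fin n → k) (g : k[X]), g ∈ SF (mon c) → Irreducible g ∧ g.Monic := by
    intro c g hg
    have := (mem_SF (mon_monic c).ne_zero).1 hg
    exact ⟨this.1.1, this.1.2.1⟩
  have hcard : ∀ c : Fin n → k, ((SF (mon c)).card : ℝ) ≤ n := by
    intro c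
    have h := card_SF_le (mon_monic c).ne_zero
    rw [mon_natDegree] at h
    exact_mod_cast h
  -- the pointwise error
  have hpt : ∀ c : Fin n → k, ‖∏ g ∈ SF (mon c), (1 + x g) - 1 - ((S1 (mon c)).card : ℂ) * x₁‖ ≤
      (n : ℝ) ^ 2 * y ^ 2 * (1 + y) ^ n + n * z := by
    intro c
    have e1 : ((S1 (mon c)).card : ℂ) * x₁ =
        ∑ g ∈ SF (mon c), if g.natDegree = 1 then x g else 0 := by
      rw [← Finset.sum_filter]
      unfold S1
      rw [Finset.sum_congr rfl (g := fun _ => x₁)]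
      · rw [Finset.sum_const, nsmul_eq_mul]
      · intro g hg
        rw [Finset.mem_filter] at hg
        exact h1 g (hfac c g hg.1).1 (hfac c g hg.1).2 hg.2
    have e2 : ∏ g ∈ SF (mon c), (1 + x g) - 1 - ((S1 (mon c)).card : ℂ) * x₁ =
        (∏ g ∈ SF (mon c), (1 + x g) - 1 - ∑ g ∈ SF (mon c), x g) +
          ∑ g ∈ SF (mon c), (if g.natDegree = 1 then 0 else x g) := by
      rw [e1]
      have e3 : ∑ g ∈ SF (mon c), x g = (∑ g ∈ SF (mon c), if g.natDegree = 1 then x g else 0) +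
          ∑ g ∈ SF (mon c), (if g.natDegree = 1 then 0 else x g) := by
        rw [← Finset.sum_add_distrib]
        refine Finset.sum_congr rfl fun g _ => ?_
        split_ifs <;> simp
      rw [e3]
      ring
    rw [e2]
    refine (norm_add_le _ _).trans (add_le_add ?_ ?_)
    · refine (prod_second _ _ hy fun g hg => h2 g (hfac c g hg).1 (hfac c g hg).2).trans ?_
      have h4 := hcard c
      have h5 : (SF (mon c)).card ≤ n := by exact_mod_cast h4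
      have h6 : (1 + y) ^ (SF (mon c)).card ≤ (1 + y) ^ n :=
        pow_le_pow_right₀ (by linarith) h5
      gcongr
    · refine (norm_sum_le _ _).trans ?_
      have h4 : ∀ g ∈ SF (mon c), ‖if g.natDegree = 1 then (0 : ℂ) else x g‖ ≤ z := by
        intro g hg
        split_ifs with h5
        · rw [norm_zero]
          exact hz
        · have h6 := (hfac c g hg).1.natDegree_pos
          exact h3 g (hfac c g hg).1 (hfac c g hg).2 (by omega)
      refine (Finset.sum_le_sum h4).trans ?_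
      rw [Finset.sum_const, nsmul_eq_mul]
      exact mul_le_mul_of_nonneg_right (hcard c) hz
  -- the mean
  have e1 : fmean (fun c : Fin n → k => ∏ g ∈ SF (mon c), (1 + x g)) - (1 + x₁) =
      fmean (fun c : Fin n → k =>
        ∏ g ∈ SF (mon c), (1 + x g) - 1 - ((S1 (mon c)).card : ℂ) * x₁) +
      (fmean (fun c : Fin n → k => ((S1 (mon c)).card : ℂ)) - 1) * x₁ := by
    have e2 : fmean (fun c : Fin n → k =>
        ∏ g ∈ SF (mon c), (1 + x g) - 1 - ((S1 (mon c)).card : ℂ) * x₁) =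
        fmean (fun c : Fin n → k => ∏ g ∈ SF (mon c), (1 + x g)) - 1 -
          fmean (fun c : Fin n → k => ((S1 (mon c)).card : ℂ)) * x₁ := by
      rw [fmean_sub (fun c : Fin n → k => ∏ g ∈ SF (mon c), (1 + x g) - 1)
        (fun c => ((S1 (mon c)).card : ℂ) * x₁),
        fmean_sub (fun c : Fin n → k => ∏ g ∈ SF (mon c), (1 + x g)) (fun _ => 1), fmean_const,
        fmean_mul_const]
    rw [e2]
    ring
  rw [e1]
  refine (norm_add_le _ _).trans (add_le_add (norm_fmean_le hpt) ?_)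
  rw [norm_mul]
  have e3 := mean_S1 (k := k) hn
  calc _ ≤ (1 / (Nat.card k : ℝ)) * y := mul_le_mul e3 hx₁ (norm_nonneg _) (by positivity)
    _ = _ := by ring

end mean

end Pool.Agent.KS6_22.MF
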