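import Pool.Agent.KS6_22.MF.Mean

/-!
# The residue fields of the simple factors and the two local means

Owner helper22.
-/

set_option autoImplicit false
set_option linter.unusedSectionVars false
set_option linter.unusedVariables false
set_option linter.style.haveILetI false

open Polynomial NumberField IsDedekindDomain
open Pool.Agent.T6.H9.MV (Good LD LD_bounds LD_Lam pair_Lam Lam one_le_Lam rho0 rho0_pos rho0_lt_one
  rho0_sq rho0_sq_le prs ex Np Nt EPhi Phi local_estimate exists_prod_zpow_bound norm_zpow_le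
  norm_zpow_sub_one fmean fmean_eq fmean_comp fmean_pi fmean_sub trF epF good_fin card_pts Om
  LD_real_pos)

namespace Pool.Agent.KS6_22.MF

section adj

variable {k : Type} [Field k] [Finite k]

lemma adj_finite {g : k[X]} (hg : g.Monic) : Finite (AdjoinRoot g) := by
  haveI : Module.Finite k (AdjoinRoot g) := hg.finite_adjoinRoot
  exact Module.finite_of_finite k

lemma adj_card {g : k[X]} (hg : g.Monic) :
    Nat.card (AdjoinRoot g) = Nat.card k ^ g.natDegree := by
  haveI : Module.Finite k (AdjoinRoot g) := hg.finite_adjoinRoot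
  haveI := adj_finite hg
  have h1 : Module.finrank k (AdjoinRoot g) = g.natDegree := finrank_quotient_span_eq_natDegree
  rw [← h1]
  exact Module.natCard_eq_pow_finrank

lemma adj_six {g : k[X]} (hg : Irreducible g) (h6 : (6 : k) ≠ 0) : (6 : AdjoinRoot g) ≠ 0 := by
  haveI : Fact (Irreducible g) := ⟨hg⟩
  have h1 : (6 : AdjoinRoot g) = AdjoinRoot.of g 6 := (map_ofNat _ 6).symm
  rw [h1]
  exact fun h => h6 ((AdjoinRoot.of g).injective (by rw [h, map_zero]))

/-- for a factor of degree one the residue field is `k` -/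
noncomputable def adjIso {g : k[X]} (hg : Irreducible g) (hm : g.Monic) (h1 : g.natDegree = 1) :
    k ≃+* AdjoinRoot g :=
  haveI : Fact (Irreducible g) := ⟨hg⟩
  haveI := adj_finite hm
  RingEquiv.ofBijective (AdjoinRoot.of g) ((AdjoinRoot.of g).injective.bijective_of_nat_card_le
    (by rw [adj_card hm, h1, pow_one]))

lemma adjIso_apply {g : k[X]} (hg : Irreducible g) (hm : g.Monic) (h1 : g.natDegree = 1) (x : k) :
    adjIso hg hm h1 x = AdjoinRoot.of g x := rfl

lemma Mk_equiv {r : ℕ} (m : Fin r → ℤ) (s : Fin r → ℂ) {A B : Type} [CommRing A] [CommRing B]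
    [Finite A] [Finite B] (e : A ≃+* B) : Mk m s A = Mk m s B := by
  unfold Mk
  rw [← fmean_equiv (e.toEquiv.prodCongr e.toEquiv) (Ph m s B)]
  congr 1
  funext t
  exact Ph_equiv m s e t

lemma pow_deg {g : k[X]} (hm : g.Monic) {x : ℝ} (hx : 0 ≤ x) {d : ℕ} (hd : d ≤ g.natDegree) :
    (Nat.card (AdjoinRoot g) : ℝ) ^ (-x) ≤ (Nat.card k : ℝ) ^ (-(d * x)) := by
  rw [adj_card hm]
  have hq2 := two_le_card (k := k)
  have hq0 : (0 : ℝ) ≤ Nat.card k := Nat.cast_nonneg _
  have hq1 : (1 : ℝ) ≤ Nat.card k := by exact_mod_cast (by omega : 1 ≤ Nat.card k)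
  push_cast
  rw [← Real.rpow_natCast, ← Real.rpow_mul hq0]
  refine Real.rpow_le_rpow_of_exponent_le hq1 ?_
  have : (d : ℝ) ≤ g.natDegree := by exact_mod_cast hd
  nlinarith

end adj

section two

variable {r : ℕ}

/-- the mean of the local factors over all polynomials of degree `N` and all curves -/
noncomputable def EA (N : ℕ) (m : Fin r → ℤ) (s : Fin r → ℂ) (k : Type) [Field k] : ℂ :=
  fmean fun c : Fin N → k => ∏ g ∈ SF (mon c), Mk m s (AdjoinRoot g)

theorem EA_est {N : ℕ} (hN : 0 < N) (m : Fin r → ℤ) : ∃ C : ℝ, 0 ≤ C ∧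
    ∀ (k : Type) [Field k] [Finite k], (6 : k) ≠ 0 → ∀ (s : Fin r → ℂ) (δ : ℝ), 0 < δ →
      (∀ j, 3 / 4 + δ ≤ (s j).re) → ‖EA N m s k - Mk m s k‖ ≤
        C * ((Nat.card k : ℝ) ^ (-(3 / 2 + 2 * δ)) + (Nat.card k : ℝ) ^ (-(1 + 4 * δ))) := by
  obtain ⟨C, hC0, hC⟩ := Mk_est m
  refine ⟨(N : ℝ) ^ 2 * C ^ 2 * (1 + C) ^ N + N * C + C, by positivity, ?_⟩
  intro k _ _ h6 s δ hδ hs
  have hq2 := two_le_card (k := k)
  have hq0 : (0 : ℝ) < Nat.card k := by exact_mod_cast (by omega : 0 < Nat.card k)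
  have hq1 : (1 : ℝ) ≤ Nat.card k := by exact_mod_cast (by omega : 1 ≤ Nat.card k)
  set X : ℝ := (Nat.card k : ℝ) ^ (-(1 / 2 + 2 * δ)) with hX
  have hX0 : 0 < X := by positivity
  have hX1 : X ≤ 1 := Real.rpow_le_one_of_one_le_of_nonpos hq1 (by linarith)
  have hX2 : X ^ 2 = (Nat.card k : ℝ) ^ (-(1 + 4 * δ)) := by
    rw [hX, ← Real.rpow_natCast, ← Real.rpow_mul hq0.le]
    congr 1
    push_cast
    ring
  have hX3 : X / Nat.card k = (Nat.card k : ℝ) ^ (-(3 / 2 + 2 * δ)) := by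
    rw [hX]
    nth_rewrite 2 [← Real.rpow_one (Nat.card k : ℝ)]
    rw [← Real.rpow_sub hq0]
    congr 1
    ring
  have hg : ∀ g : k[X], Irreducible g → g.Monic → ‖Mk m s (AdjoinRoot g) - 1‖ ≤
      C * (Nat.card (AdjoinRoot g) : ℝ) ^ (-(1 / 2 + 2 * δ)) := by
    intro g hg hm
    haveI : Fact (Irreducible g) := ⟨hg⟩
    haveI := adj_finite hm
    exact hC (AdjoinRoot g) (adj_six hg h6) s δ hδ hs
  have h := mean_factors (k := k) hN (fun g => Mk m s (AdjoinRoot g) - 1) (Mk m s k - 1)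
    (y := C * X) (z := C * X ^ 2) (by positivity) (by positivity) (fun g hg hm h1 => by
      haveI := adj_finite hm
      beta_reduce
      rw [Mk_equiv m s (adjIso hg hm h1)]) (fun g hg' hm => by
      refine (hg g hg' hm).trans (mul_le_mul_of_nonneg_left ?_ hC0)
      have h2 := pow_deg hm (x := 1 / 2 + 2 * δ) (by linarith) (d := 1) hg'.natDegree_pos
      rw [Nat.cast_one, one_mul] at h2
      exact h2) (fun g hg' hm h2 => by
      refine (hg g hg' hm).trans (mul_le_mul_of_nonneg_left ?_ hC0)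
      have h3 := pow_deg hm (x := 1 / 2 + 2 * δ) (by linarith) (d := 2) h2
      rw [hX2]
      refine h3.trans (le_of_eq ?_)
      congr 1
      push_cast
      ring)
  have e1 : (fun c : Fin N → k => ∏ g ∈ SF (mon c), (1 + (Mk m s (AdjoinRoot g) - 1))) =
      fun c => ∏ g ∈ SF (mon c), Mk m s (AdjoinRoot g) := by
    funext c
    exact Finset.prod_congr rfl fun g _ => by ring
  rw [e1] at h
  have e2 : (1 : ℂ) + (Mk m s k - 1) = Mk m s k := by ring
  rw [e2] at h
  unfold EA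
  refine h.trans ?_
  rw [← hX2, ← hX3]
  have hy : (1 + C * X) ^ N ≤ (1 + C) ^ N := by
    refine pow_le_pow_left₀ (by positivity) ?_ N
    nlinarith
  have hD : 0 ≤ (N : ℝ) ^ 2 * C ^ 2 * (1 + C) ^ N := by positivity
  calc (N : ℝ) ^ 2 * (C * X) ^ 2 * (1 + C * X) ^ N + N * (C * X ^ 2) + C * X / Nat.card k
      ≤ (N : ℝ) ^ 2 * (C * X) ^ 2 * (1 + C) ^ N + N * (C * X ^ 2) + C * X / Nat.card k := by
        gcongr
    _ = ((N : ℝ) ^ 2 * C ^ 2 * (1 + C) ^ N + N * C) * X ^ 2 + C * (X / Nat.card k) := by ring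
    _ ≤ _ := by
        have h1 : 0 ≤ X / Nat.card k := by positivity
        have h2 : 0 ≤ X ^ 2 := by positivity
        have h3 : 0 ≤ (N : ℝ) * C := by positivity
        nlinarith [mul_nonneg hD h1, mul_nonneg h3 h1, mul_nonneg hC0 h2]

/-- the mean of the local factors over all polynomials of degree `N`, for one curve -/
noncomputable def EB (N : ℕ) (m : Fin r → ℤ) (s : Fin r → ℂ) (k : Type) [Field k] (t : k × k) : ℂ :=
  fmean fun c : Fin N → k => ∏ g ∈ SF (mon c),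
    Ph m s (AdjoinRoot g) (AdjoinRoot.of g t.1, AdjoinRoot.of g t.2)

theorem EB_est {N : ℕ} (hN : 0 < N) (m : Fin r → ℤ) : ∃ C : ℝ, 0 ≤ C ∧
    ∀ (k : Type) [Field k] [Finite k], (6 : k) ≠ 0 → ∀ (s : Fin r → ℂ) (σ : ℝ), 3 / 4 ≤ σ →
      (∀ j, σ ≤ (s j).re) → ∀ t : k × k, ‖EB N m s k t - Ph m s k t‖ ≤
        C * ((Nat.card k : ℝ) ^ (1 - 2 * σ) + (Nat.card k : ℝ) ^ (-(1 / 2 + σ))) := by
  obtain ⟨C, hC0, hC⟩ := Ph_est m
  refine ⟨(N : ℝ) ^ 2 * C ^ 2 * (1 + C) ^ N + N * C + C, by positivity, ?_⟩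
  intro k _ _ h6 s σ hσ hs t
  have hq2 := two_le_card (k := k)
  have hq0 : (0 : ℝ) < Nat.card k := by exact_mod_cast (by omega : 0 < Nat.card k)
  have hq1 : (1 : ℝ) ≤ Nat.card k := by exact_mod_cast (by omega : 1 ≤ Nat.card k)
  set X : ℝ := (Nat.card k : ℝ) ^ (1 / 2 - σ) with hX
  have hX0 : 0 < X := by positivity
  have hX1 : X ≤ 1 := Real.rpow_le_one_of_one_le_of_nonpos hq1 (by linarith)
  have hX2 : X ^ 2 = (Nat.card k : ℝ) ^ (1 - 2 * σ) := by
    rw [hX, ← Real.rpow_natCast, ← Real.rpow_mul hq0.le]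
    congr 1
    push_cast
    ring
  have hX3 : X / Nat.card k = (Nat.card k : ℝ) ^ (-(1 / 2 + σ)) := by
    rw [hX]
    nth_rewrite 2 [← Real.rpow_one (Nat.card k : ℝ)]
    rw [← Real.rpow_sub hq0]
    congr 1
    ring
  have hg : ∀ g : k[X], Irreducible g → g.Monic →
      ‖Ph m s (AdjoinRoot g) (AdjoinRoot.of g t.1, AdjoinRoot.of g t.2) - 1‖ ≤
      C * (Nat.card (AdjoinRoot g) : ℝ) ^ (-(σ - 1 / 2)) := by
    intro g hg hm
    haveI : Fact (Irreducible g) := ⟨hg⟩
    haveI := adj_finite hm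
    have h1 := hC (AdjoinRoot g) (adj_six hg h6) s σ hσ hs
      (AdjoinRoot.of g t.1, AdjoinRoot.of g t.2)
    have h2 : -(σ - 1 / 2) = 1 / 2 - σ := by ring
    rwa [h2]
  have h := mean_factors (k := k) hN
    (fun g => Ph m s (AdjoinRoot g) (AdjoinRoot.of g t.1, AdjoinRoot.of g t.2) - 1)
    (Ph m s k t - 1)
    (y := C * X) (z := C * X ^ 2) (by positivity) (by positivity) (fun g hg hm h1 => by
      beta_reduce
      rw [Ph_equiv m s (adjIso hg hm h1)]
      rfl) (fun g hg' hm => by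
      refine (hg g hg' hm).trans (mul_le_mul_of_nonneg_left ?_ hC0)
      have h2 := pow_deg hm (x := σ - 1 / 2) (by linarith) (d := 1) hg'.natDegree_pos
      rw [Nat.cast_one, one_mul] at h2
      refine h2.trans (le_of_eq ?_)
      rw [hX]
      congr 1
      ring) (fun g hg' hm h2 => by
      refine (hg g hg' hm).trans (mul_le_mul_of_nonneg_left ?_ hC0)
      have h3 := pow_deg hm (x := σ - 1 / 2) (by linarith) (d := 2) h2
      rw [hX2]
      refine h3.trans (le_of_eq ?_)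
      congr 1
      push_cast
      ring)
  have e1 : (fun c : Fin N → k => ∏ g ∈ SF (mon c),
      (1 + (Ph m s (AdjoinRoot g) (AdjoinRoot.of g t.1, AdjoinRoot.of g t.2) - 1))) =
      fun c => ∏ g ∈ SF (mon c),
        Ph m s (AdjoinRoot g) (AdjoinRoot.of g t.1, AdjoinRoot.of g t.2) := by
    funext c
    exact Finset.prod_congr rfl fun g _ => by ring
  rw [e1] at h
  have e2 : (1 : ℂ) + (Ph m s k t - 1) = Ph m s k t := by ring
  rw [e2] at h
  unfold EB
  refine h.trans ?_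
  rw [← hX2, ← hX3]
  have hy : (1 + C * X) ^ N ≤ (1 + C) ^ N := by
    refine pow_le_pow_left₀ (by positivity) ?_ N
    nlinarith
  have hD : 0 ≤ (N : ℝ) ^ 2 * C ^ 2 * (1 + C) ^ N := by positivity
  calc (N : ℝ) ^ 2 * (C * X) ^ 2 * (1 + C * X) ^ N + N * (C * X ^ 2) + C * X / Nat.card k
      ≤ (N : ℝ) ^ 2 * (C * X) ^ 2 * (1 + C) ^ N + N * (C * X ^ 2) + C * X / Nat.card k := by
        gcongr
    _ = ((N : ℝ) ^ 2 * C ^ 2 * (1 + C) ^ N + N * C) * X ^ 2 + C * (X / Nat.card k) := by ring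
    _ ≤ _ := by
        have h1 : 0 ≤ X / Nat.card k := by positivity
        have h2 : 0 ≤ X ^ 2 := by positivity
        have h3 : 0 ≤ (N : ℝ) * C := by positivity
        nlinarith [mul_nonneg hD h1, mul_nonneg h3 h1, mul_nonneg hC0 h2]

end two

end Pool.Agent.KS6_22.MF
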