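import Pool.Agent.KS6_22.MF.Fin

/-!
# Mean values over all elliptic curves over all extensions of degree `N`

Owner helper22.
-/

set_option autoImplicit false
set_option linter.unusedSectionVars false
set_option linter.unusedVariables false
set_option linter.style.haveILetI false

open Polynomial NumberField IsDedekindDomain Filter Topology
open Pool.Agent.T6.H9.MV (Lam one_le_Lam rho0 rho0_pos rho0_lt_one prs ex Np Nt
  norm_zpow_le fmean fmean_eq fmean_comp fmean_sub kv qv card_kv qv_ne_zero two_le_qv summable_qv Om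
  multipliable_of_bound tprod_ne_zero' hasProd_zpow exists_sigma six_ne avg box card_box_pos
  mem_box el isOpen_Om ball_Om exists_delta diff_prod diff_div finite_six hasProd_Zl Zl
  tendstoUniformlyOn_prod differentiableOn_of_tendstoUniformlyOn norm_tprod_le)
open Pool.Agent.KS6_22.NB (Ab fib mem_fib fib_finite six_mem)

namespace Pool.Agent.KS6_22.MF

attribute [local instance] fldv

section split

variable {N : ℕ}

/-- the three vectors -/
def pt3 {R : Type} (p : Fin 3 × Fin N → R) (i : Fin 3) : Fin N → R := fun j => p (i, j)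

/-- the three vectors -/
def e3 (R : Type) : (Fin 3 × Fin N → R) ≃ (Fin N → R) × ((Fin N → R) × (Fin N → R)) where
  toFun p := (pt3 p 0, (pt3 p 1, pt3 p 2))
  invFun q := fun y => (![q.1, q.2.1, q.2.2] : Fin 3 → Fin N → R) y.1 y.2
  left_inv p := by
    funext y
    obtain ⟨i, j⟩ := y
    fin_cases i <;> rfl
  right_inv q := rfl

lemma fmean_e3 {k : Type} [Finite k] (G : (Fin N → k) → (Fin N → k) → (Fin N → k) → ℂ) :
    fmean (fun t : Fin 3 × Fin N → k => G (pt3 t 0) (pt3 t 1) (pt3 t 2)) =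
      fmean fun c => fmean fun a => fmean fun b => G c a b := by
  have h1 := fmean_equiv (e3 (N := N) k) (fun q => G q.1 q.2.1 q.2.2)
  rw [fmean_prod] at h1
  rw [show (fun t : Fin 3 × Fin N → k => G (pt3 t 0) (pt3 t 1) (pt3 t 2)) =
    fun t => (fun q : (Fin N → k) × ((Fin N → k) × (Fin N → k)) => G q.1 q.2.1 q.2.2)
      (e3 (N := N) k t) from rfl, h1]
  congr 1
  funext c
  exact fmean_prod (fun q : (Fin N → k) × (Fin N → k) => G c q.1 q.2)

lemma fmean_e3' {k : Type} [Finite k] (G : (Fin N → k) → (Fin N → k) × (Fin N → k) → ℂ) :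
    fmean (fun t : Fin 3 × Fin N → k => G (pt3 t 0) (pt3 t 1, pt3 t 2)) =
      fmean fun c => fmean fun q => G c q := by
  have h1 := fmean_equiv (e3 (N := N) k) (fun q => G q.1 q.2)
  rw [fmean_prod] at h1
  exact h1

end split

section diff

variable {r : ℕ}

lemma diff_fmean {α : Type} [Finite α] {f : (Fin r → ℂ) → α → ℂ} {x : Fin r → ℂ}
    (h : ∀ t, DifferentiableAt ℂ (fun s => f s t) x) :
    DifferentiableAt ℂ (fun s => fmean (f s)) x := by
  haveI := Fintype.ofFinite α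
  have h2 : (fun s => fmean (f s)) = fun s => (∑ t, f s t) / (Fintype.card α : ℂ) := by
    funext s
    rw [fmean_eq]
  rw [h2]
  exact diff_div (DifferentiableAt.fun_sum fun t _ => h t) _

lemma fmean_pos {α : Type} [Finite α] [Nonempty α] {f : α → ℂ}
    (h : ∀ t, ∃ y : ℝ, 0 < y ∧ f t = y) : ∃ y : ℝ, 0 < y ∧ fmean f = y := by
  haveI := Fintype.ofFinite α
  choose y hy0 hy using h
  have hc : (0 : ℝ) < Fintype.card α := by exact_mod_cast Fintype.card_pos
  refine ⟨(∑ t, y t) / Fintype.card α, div_pos (Finset.sum_pos (fun t _ => hy0 t)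
    Finset.univ_nonempty) hc, ?_⟩
  rw [fmean_eq]
  push_cast
  simp only [hy]

lemma prod_pos' {ι : Type} {S : Finset ι} {f : ι → ℂ} (h : ∀ i ∈ S, ∃ y : ℝ, 0 < y ∧ f i = y) :
    ∃ y : ℝ, 0 < y ∧ ∏ i ∈ S, f i = y := by
  classical
  induction S using Finset.induction_on with
  | empty => exact ⟨1, one_pos, by simp⟩
  | insert i S hi ih =>
    obtain ⟨y, hy0, hy⟩ := ih fun j hj => h j (Finset.mem_insert_of_mem hj)
    obtain ⟨z, hz0, hz⟩ := h i (Finset.mem_insert_self _ _)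
    refine ⟨z * y, mul_pos hz0 hy0, ?_⟩
    rw [Finset.prod_insert hi, hz, hy]
    push_cast
    rfl

variable {k : Type} [Field k] [Finite k]

lemma Mk_diff (m : Fin r → ℤ) {x : Fin r → ℂ} (hx : x ∈ Om r (3 / 4)) (h6 : (6 : k) ≠ 0) :
    DifferentiableAt ℂ (fun s => Mk m s k) x := by
  unfold Mk
  exact diff_fmean fun t => Ph_diff m hx h6 t

lemma Mk_real (m : Fin r → ℤ) {s : Fin r → ℂ} (hs : ∀ j, 3 / 4 ≤ (s j).re)
    (hs0 : ∀ j, (s j).im = 0) (h6 : (6 : k) ≠ 0) : ∃ y : ℝ, 0 < y ∧ Mk m s k = y := by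
  unfold Mk
  exact fmean_pos fun t => Ph_real m hs hs0 h6 t

lemma EA_diff {N : ℕ} (m : Fin r → ℤ) {x : Fin r → ℂ} (hx : x ∈ Om r (3 / 4)) (h6 : (6 : k) ≠ 0) :
    DifferentiableAt ℂ (fun s => EA N m s k) x := by
  unfold EA
  refine diff_fmean fun c => diff_prod _ fun g hg => ?_
  have hg' := (mem_SF (mon_monic c).ne_zero).1 hg
  haveI : Fact (Irreducible g) := ⟨hg'.1.1⟩
  haveI := adj_finite hg'.1.2.1
  exact Mk_diff m hx (adj_six hg'.1.1 h6)

lemma EA_real {N : ℕ} (m : Fin r → ℤ) {s : Fin r → ℂ} (hs : ∀ j, 3 / 4 ≤ (s j).re)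
    (hs0 : ∀ j, (s j).im = 0) (h6 : (6 : k) ≠ 0) : ∃ y : ℝ, 0 < y ∧ EA N m s k = y := by
  unfold EA
  refine fmean_pos fun c => prod_pos' fun g hg => ?_
  have hg' := (mem_SF (mon_monic c).ne_zero).1 hg
  haveI : Fact (Irreducible g) := ⟨hg'.1.1⟩
  haveI := adj_finite hg'.1.2.1
  exact Mk_real m hs hs0 (adj_six hg'.1.1 h6)

end diff

section loc

variable {F : Type} [Field F] [NumberField F] {N r : ℕ}

/-- the local function -/
noncomputable def hA (m : Fin r → ℤ) (s : Fin r → ℂ) (v : HeightOneSpectrum (𝓞 F))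
    (t : Fin 3 × Fin N → kv v) : ℂ := hv m s v (mon (pt3 t 0)) (pol (pt3 t 1)) (pol (pt3 t 2))

open Classical in
/-- the local mean -/
noncomputable def eA (N : ℕ) (m : Fin r → ℤ) (s : Fin r → ℂ) (v : HeightOneSpectrum (𝓞 F)) : ℂ :=
  if (6 : 𝓞 F) ∈ v.asIdeal then 1 else EA N m s (kv v)

lemma fmean_hA (m : Fin r → ℤ) (s : Fin r → ℂ) (v : HeightOneSpectrum (𝓞 F)) :
    fmean (hA (N := N) m s v) = eA N m s v := by
  unfold eA
  split_ifs with h6
  · have h1 : hA (N := N) m s v = fun _ => 1 := by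
      funext t
      unfold hA hv
      rw [if_pos h6]
    rw [h1, fmean_const]
  · have h2 := fmean_e3' (N := N) (k := kv v) (fun c q =>
      ∏ g ∈ SF (mon c), Ph m s (AdjoinRoot g) (AdjoinRoot.mk g (pol q.1), AdjoinRoot.mk g (pol q.2)))
    have h1 : hA (N := N) m s v = fun t => ∏ g ∈ SF (mon (pt3 t 0)),
        Ph m s (AdjoinRoot g) (AdjoinRoot.mk g (pol (pt3 t 1)), AdjoinRoot.mk g (pol (pt3 t 2))) := by
      funext t
      unfold hA hv
      rw [if_neg h6]
    rw [h1]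
    refine h2.trans ?_
    unfold EA
    congr 1
    funext c
    exact fmean_factors (mon_monic c) (mon_natDegree c) (fun g => Ph m s (AdjoinRoot g))

/-- the correction factor -/
noncomputable def lA (N : ℕ) (m : Fin r → ℤ) (s : Fin r → ℂ) (v : HeightOneSpectrum (𝓞 F)) : ℂ :=
  eA N m s v * Zk m s (qv v)

theorem lA_bound (hN : 0 < N) (m : Fin r → ℤ) {δ : ℝ} (hδ : 0 < δ) :
    ∃ β : HeightOneSpectrum (𝓞 F) → ℝ, Summable β ∧
      ∀ s : Fin r → ℂ, (∀ j, 3 / 4 + δ < (s j).re) → ∀ v, ‖lA N m s v - 1‖ ≤ β v := by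
  classical
  obtain ⟨C1, hC1, h1⟩ := EA_est hN m
  obtain ⟨C2, hC2, h2⟩ := MZ_est m
  set M : ℝ := Lam rho0 ^ Np m + 1 with hM
  have hL := one_le_Lam rho0
  have hM0 : 0 ≤ M := by positivity
  refine ⟨fun v => (C1 * M + C2) * ((qv v : ℝ) ^ (-(3 / 2 + 2 * δ)) + (qv v : ℝ) ^ (-(1 + 4 * δ))) +
    (if (6 : 𝓞 F) ∈ v.asIdeal then M else 0), ?_, ?_⟩
  · refine Summable.add ?_ ?_
    · refine Summable.mul_left _ (Summable.add ?_ ?_)
      · exact summable_qv (by linarith)
      · exact summable_qv (by linarith)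
    · refine summable_of_hasFiniteSupport (finite_six (K := F) |>.subset fun v hv => ?_)
      rw [Function.mem_support] at hv
      by_contra h
      exact hv (if_neg h)
  · intro s hs v
    have hs' : ∀ j, 3 / 4 ≤ (s j).re := fun j => by linarith [hs j]
    have hs2 : ∀ j, 3 / 4 + δ ≤ (s j).re := fun j => (hs j).le
    have hZ : ‖Zk m s (qv v)‖ ≤ M := (Zk_norm m hs' (two_le_qv v)).trans (by rw [hM]; linarith)
    have hX0 : 0 ≤ (qv v : ℝ) ^ (-(3 / 2 + 2 * δ)) + (qv v : ℝ) ^ (-(1 + 4 * δ)) := by positivity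
    beta_reduce
    unfold lA eA
    by_cases h6 : (6 : 𝓞 F) ∈ v.asIdeal
    · rw [if_pos h6, if_pos h6, one_mul]
      have h3 : ‖Zk m s (qv v) - 1‖ ≤ M := by
        refine (norm_sub_le _ _).trans ?_
        rw [norm_one]
        exact add_le_add (Zk_norm m hs' (two_le_qv v)) le_rfl
      have h4 : 0 ≤ (C1 * M + C2) * ((qv v : ℝ) ^ (-(3 / 2 + 2 * δ)) + (qv v : ℝ) ^ (-(1 + 4 * δ))) :=
        by positivity
      linarith
    · rw [if_neg h6, if_neg h6, add_zero]
      have h6' := six_kv h6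
      have e1 := h1 (kv v) h6' s δ hδ hs2
      have e2 := h2 (kv v) h6' s δ hδ hs2
      rw [card_kv] at e1 e2
      have e3 : EA N m s (kv v) * Zk m s (qv v) - 1 =
          (EA N m s (kv v) - Mk m s (kv v)) * Zk m s (qv v) +
            (Mk m s (kv v) * Zk m s (qv v) - 1) := by ring
      rw [e3]
      refine (norm_add_le _ _).trans ?_
      rw [norm_mul, add_mul]
      refine add_le_add ?_ e2
      calc _ ≤ (C1 * ((qv v : ℝ) ^ (-(3 / 2 + 2 * δ)) + (qv v : ℝ) ^ (-(1 + 4 * δ)))) * M :=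
            mul_le_mul e1 hZ (norm_nonneg _) (by positivity)
        _ = _ := by ring

lemma lA_diff (m : Fin r → ℤ) (v : HeightOneSpectrum (𝓞 F)) {x : Fin r → ℂ}
    (hx : x ∈ Om r (3 / 4)) : DifferentiableAt ℂ (fun s => lA N m s v) x := by
  have h2 : DifferentiableAt ℂ (fun s => Zk m s (qv v)) x := by
    unfold Zk
    refine diff_prod _ fun p _ => ?_
    have h0 : (qv v : ℂ) ≠ 0 := by exact_mod_cast qv_ne_zero v
    have hf : DifferentiableAt ℂ (fun s : Fin r → ℂ => -(s p.1 + s p.2 - 1)) x := by fun_prop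
    have h3 : DifferentiableAt ℂ
        (fun s : Fin r → ℂ => 1 - (qv v : ℂ) ^ (-(s p.1 + s p.2 - 1))) x :=
      (differentiableAt_const _).sub (hf.const_cpow (Or.inl h0))
    refine h3.zpow (Or.inl ?_)
    have h4 := (Zf_bounds (two_le_qv v) (hx p.1).le (hx p.2).le).1
    have hL := one_le_Lam rho0
    exact norm_pos_iff.1 (lt_of_lt_of_le (by positivity) h4)
  unfold lA eA
  by_cases h6 : (6 : 𝓞 F) ∈ v.asIdeal
  · simp only [if_pos h6, one_mul]
    exact h2
  · simp only [if_neg h6]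
    exact (EA_diff m hx (six_kv h6)).mul h2

lemma lA_ne (m : Fin r → ℤ) (v : HeightOneSpectrum (𝓞 F)) {s : Fin r → ℂ}
    (hs : s ∈ Om r (3 / 4)) (hs0 : ∀ j, (s j).im = 0) : lA N m s v ≠ 0 := by
  have hs' : ∀ j, 3 / 4 ≤ (s j).re := fun j => (hs j).le
  unfold lA eA
  refine mul_ne_zero ?_ (Zk_ne m hs' (two_le_qv v))
  split_ifs with h6
  · exact one_ne_zero
  · obtain ⟨y, hy0, hy⟩ := EA_real (k := kv v) (N := N) m hs' hs0 (six_kv h6)
    rw [hy]
    exact_mod_cast hy0.ne'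

variable (F) in
/-- the correction function -/
noncomputable def HA (N : ℕ) (m : Fin r → ℤ) (s : Fin r → ℂ) : ℂ :=
  ∏' v : HeightOneSpectrum (𝓞 F), lA N m s v

theorem HA_diff (hN : 0 < N) (m : Fin r → ℤ) : DifferentiableOn ℂ (HA F N m) (Om r (3 / 4)) := by
  intro x hx
  obtain ⟨δ, hδ, hxδ⟩ := exists_delta hx
  obtain ⟨β, hβ, hb⟩ := lA_bound (F := F) hN m hδ
  have h1 : TendstoUniformlyOn (fun (D : Finset (HeightOneSpectrum (𝓞 F))) s =>
      ∏ v ∈ D, lA N m s v) (HA F N m) atTop (Om r (3 / 4 + δ)) :=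
    tendstoUniformlyOn_prod hβ fun v s hs => hb s hs v
  have h2 := differentiableOn_of_tendstoUniformlyOn (U := Om r (3 / 4 + δ))
    (V := Om r (3 / 4 + δ + δ)) hδ (isOpen_Om _ _) (fun y hy => ball_Om hy) (fun D => by
      intro y hy
      have hy' : y ∈ Om r (3 / 4) := fun k => by linarith [hy k]
      exact (diff_prod D fun v _ => lA_diff m v hy').differentiableWithinAt) h1
  exact ((h2 x hxδ).differentiableAt ((isOpen_Om _ _).mem_nhds hxδ)).differentiableWithinAt

theorem HA_ne (hN : 0 < N) (m : Fin r → ℤ) {s : Fin r → ℂ} (hs : s ∈ Om r (3 / 4))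
    (hs0 : ∀ j, (s j).im = 0) : HA F N m s ≠ 0 := by
  obtain ⟨δ, hδ, hxδ⟩ := exists_delta hs
  obtain ⟨β, hβ, hb⟩ := lA_bound (F := F) hN m hδ
  exact tprod_ne_zero' hβ (fun v => hb s (fun k => by linarith [hxδ k]) v)
    fun v => lA_ne m v hs hs0

/-- the factorisation of the limit -/
lemma limA (hN : 0 < N) (m : Fin r → ℤ) {s : Fin r → ℂ} (hs : s ∈ Om r (3 / 2)) :
    ∏' v : HeightOneSpectrum (𝓞 F), fmean (hA (N := N) m s v) =
      (∏ p ∈ prs r, dedekindZeta F (s p.1 + s p.2 - 1) ^ ex m p) * HA F N m s := by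
  obtain ⟨β, hβ, hb⟩ := lA_bound (F := F) hN m (δ := 1 / 2) (by norm_num)
  have h1 : HasProd (fun v : HeightOneSpectrum (𝓞 F) => lA N m s v) (HA F N m s) :=
    (multipliable_of_bound hβ fun v => hb s (fun k => by linarith [hs k]) v).hasProd
  have h2 := (hasProd_Zl (K := F) m hs).mul h1
  rw [← h2.tprod_eq]
  refine tprod_congr fun v => ?_
  rw [fmean_hA]
  have hZ : Zk m s (qv v) ≠ 0 := Zk_ne m (fun j => by linarith [hs j]) (two_le_qv v)
  have hZ' : Zl m s v = Zk m s (qv v) := rfl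
  rw [hZ']
  unfold lA
  field_simp

end loc

end Pool.Agent.KS6_22.MF
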