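import Pool.Agent.KS6_22.MF.Def

/-!
# One elliptic curve over all extensions of given degree: definitions

Owner helper22.
-/

set_option autoImplicit false

open Polynomial NumberField IsDedekindDomain

namespace Pool.Agent.KS6_22.MF

/-- The Euler factor of the symmetric square of the curve `y ^ 2 = x ^ 3 + a x + b`, `t = (a, b)`,
over a finite field `A` with `q` elements:
`((1 - q q ^ (-u)) (1 - (a_A ^ 2 - 2 q) q ^ (-u) + q ^ 2 q ^ (-2 u)))⁻¹`, where `q - a_A` is the
number of the affine points over `A`. If `α`, `β` are the eigenvalues of Frobenius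
(`α + β = a_A`, `α β = q`), then this is the inverse of
`(1 - α ^ 2 q ^ (-u)) (1 - α β q ^ (-u)) (1 - β ^ 2 q ^ (-u))`. -/
noncomputable def symLocal (A : Type) [CommRing A] (t : A × A) (u : ℂ) : ℂ :=
  ((1 - (Nat.card A : ℂ) * (Nat.card A : ℂ) ^ (-u)) *
    (1 - (((Nat.card A : ℂ) - (Nat.card {P : A × A // P.2 ^ 2 = P.1 ^ 3 + t.1 * P.1 + t.2} : ℂ)) ^ 2 -
      2 * (Nat.card A : ℂ)) * (Nat.card A : ℂ) ^ (-u) +
      (Nat.card A : ℂ) ^ 2 * ((Nat.card A : ℂ) ^ (-u)) ^ 2))⁻¹

variable {F : Type} [Field F] [NumberField F] {n : ℕ}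

open Classical in
/-- the Euler factor at `v` of the symmetric square; it is omitted if `v` divides
`6 (4 a ^ 3 + 27 b ^ 2)` -/
noncomputable def symFactor (a b : 𝓞 F) (v : HeightOneSpectrum (𝓞 F)) (u : ℂ) : ℂ :=
  if 6 * (4 * a ^ 3 + 27 * b ^ 2) ∈ v.asIdeal then 1 else
    symLocal (𝓞 F ⧸ v.asIdeal) (Ideal.Quotient.mk v.asIdeal a, Ideal.Quotient.mk v.asIdeal b) u

/-- The L-function of the symmetric square of the curve `y ^ 2 = x ^ 3 + a x + b` over `F`, without
the Euler factors at the primes which divide `6 (4 a ^ 3 + 27 b ^ 2)`. -/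
noncomputable def LSym (a b : 𝓞 F) (u : ℂ) : ℂ := ∏' v : HeightOneSpectrum (𝓞 F), symFactor a b v u

open Classical in
/-- The L-function of the curve `y ^ 2 = x ^ 3 + a x + b` over `F(θ)`, where `θ` is a root of the
polynomial `f` with the lower coefficients `c`, without the Euler factors at the finitely many primes
which divide `6 f'(θ)`. Here `a`, `b` are integers of `F`. -/
noncomputable def Lbase (a b : 𝓞 F) (c : Fin n → 𝓞 F) (s : ℂ) : ℂ :=
  if h : Irreducible (fpoly c) then
    haveI : Fact (Irreducible (fpoly c)) := ⟨h⟩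
    Lser (6 * aeval (theta c) (derivative (mon c))) (algebraMap (𝓞 F) (𝓞 (Fld c)) a)
      (algebraMap (𝓞 F) (𝓞 (Fld c)) b) s
  else 1

/-- All irreducible polynomials of degree `n` whose lower coefficients have coordinates bounded by
`B`. -/
def FamB {ι : Type} [Fintype ι] (ω : Module.Basis ι ℤ (𝓞 F)) (B : Fin n → ι → ℕ) :
    Set (Fin n → 𝓞 F) :=
  {c | (∀ i l, |ω.repr (c i) l| ≤ B i l) ∧ Irreducible (fpoly c)}

end Pool.Agent.KS6_22.MF
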