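import Pool.Agent.KS6_22.MF.Loc2

/-!
# The symmetric square and the local estimate for one curve

Owner helper22.
-/

set_option autoImplicit false
set_option linter.unusedSectionVars false
set_option linter.unusedVariables false
set_option linter.style.haveILetI false

open Polynomial NumberField IsDedekindDomain
open Pool.Agent.T6.H9.MV (Good LD LD_bounds LD_Lam pair_Lam Lam one_le_Lam rho0 rho0_pos rho0_lt_one
  rho0_sq rho0_sq_le prs ex Np Nt exists_prod_zpow_bound norm_zpow_le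
  norm_zpow_sub_one fmean fmean_eq fmean_comp fmean_pi fmean_sub trF epF good_fin card_pts Om
  LD_real_pos Sab quad_identity)

namespace Pool.Agent.KS6_22.MF

section abs

/-- the combination of the estimates -/
lemma combine {CP CS CX CE CZ Λ κ e0 : ℝ} {P EBv x S X X0 Z G0 : ℂ} (hCP : 0 ≤ CP) (hCS : 0 ≤ CS)
    (hCX : 0 ≤ CX) (hCE : 0 ≤ CE) (hCZ : 0 ≤ CZ) (hΛ : 0 ≤ Λ) (hκ : 0 ≤ κ) (hκ1 : κ ≤ 1)
    (he0 : 0 ≤ e0) (hP : P = 1 + x) (hP0 : P ≠ 0) (hPi : ‖P⁻¹‖ ≤ Λ) (hx : ‖x‖ ≤ CP * κ)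
    (hxS : ‖x - S‖ ≤ CS * κ ^ 2) (hX : ‖X‖ ≤ CX * κ ^ 2) (hX0 : ‖X - X0‖ ≤ CX * κ ^ 4)
    (hE : ‖EBv - (1 + x + 1 / 2 * x ^ 2 + 1 / 2 * X)‖ ≤ CE * (κ ^ 3 + e0))
    (hG0 : G0 = (S ^ 2 + X0) / 2) (hZ : ‖Z - 1 + G0‖ ≤ CZ * κ ^ 4) :
    ‖EBv / P * Z - 1‖ ≤ (CZ + CS * (2 * CP + CS) + CX +
      (CP ^ 2 + CX) * (CP ^ 2 + 2 * CX + CS * (2 * CP + CS) + CZ) +
      (CE + (CP ^ 2 + CX) * CP) * Λ * (1 + (CP ^ 2 + 2 * CX + CS * (2 * CP + CS) + CZ))) *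
        (κ ^ 3 + e0) := by
  set G : ℂ := 1 / 2 * x ^ 2 + 1 / 2 * X with hG
  set E : ℂ := EBv - (1 + x + 1 / 2 * x ^ 2 + 1 / 2 * X) with hEd
  have hκ2 : κ ^ 2 ≤ 1 := pow_le_one₀ hκ hκ1
  have hκ43 : κ ^ 4 ≤ κ ^ 3 := by nlinarith [pow_nonneg hκ 3]
  have hκ42 : κ ^ 4 ≤ κ ^ 2 := by nlinarith [pow_nonneg hκ 2]
  have hκ32 : κ ^ 3 ≤ κ ^ 2 := by nlinarith [pow_nonneg hκ 2]
  have hκ30 : 0 ≤ κ ^ 3 := pow_nonneg hκ 3
  have hκ20 : 0 ≤ κ ^ 2 := pow_nonneg hκ 2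
  -- the second order terms
  have n1 : ‖G‖ ≤ (CP ^ 2 + CX) * κ ^ 2 := by
    rw [hG]
    refine (norm_add_le _ _).trans ?_
    rw [norm_mul, norm_mul, norm_pow]
    have h2 : ‖(1 / 2 : ℂ)‖ = 1 / 2 := by norm_num
    rw [h2]
    have h3 : ‖x‖ ^ 2 ≤ (CP * κ) ^ 2 := pow_le_pow_left₀ (norm_nonneg _) hx 2
    have h4 : 0 ≤ CP ^ 2 * κ ^ 2 := by positivity
    have h5 : 0 ≤ CX * κ ^ 2 := by positivity
    nlinarith
  have n2 : ‖G - G0‖ ≤ CS * (2 * CP + CS) * κ ^ 3 + CX * κ ^ 4 := by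
    have h1 : G - G0 = 1 / 2 * ((x - S) * (2 * x - (x - S))) + 1 / 2 * (X - X0) := by
      rw [hG, hG0]
      ring
    rw [h1]
    refine (norm_add_le _ _).trans ?_
    have h2 : ‖(1 / 2 : ℂ)‖ = 1 / 2 := by norm_num
    have h3 : ‖2 * x - (x - S)‖ ≤ (2 * CP + CS) * κ := by
      refine (norm_sub_le _ _).trans ?_
      rw [norm_mul]
      have h4 : ‖(2 : ℂ)‖ = 2 := by norm_num
      rw [h4]
      have h5 : CS * κ ^ 2 ≤ CS * κ := mul_le_mul_of_nonneg_left (by nlinarith) hCS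
      linarith
    have h6 : ‖(1 / 2 : ℂ) * ((x - S) * (2 * x - (x - S)))‖ ≤
        1 / 2 * ((CS * κ ^ 2) * ((2 * CP + CS) * κ)) := by
      rw [norm_mul, norm_mul, h2]
      gcongr
    have h7 : ‖(1 / 2 : ℂ) * (X - X0)‖ ≤ 1 / 2 * (CX * κ ^ 4) := by
      rw [norm_mul, h2]
      gcongr
    have h8 : 0 ≤ CS * (2 * CP + CS) * κ ^ 3 := by positivity
    have h9 : 0 ≤ CX * κ ^ 4 := by positivity
    have h10 : (CS * κ ^ 2) * ((2 * CP + CS) * κ) = CS * (2 * CP + CS) * κ ^ 3 := by ring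
    rw [h10] at h6
    linarith
  have n3 : ‖Z - 1‖ ≤ (CP ^ 2 + 2 * CX + CS * (2 * CP + CS) + CZ) * κ ^ 2 := by
    have h1 : Z - 1 = (Z - 1 + G0) + (G - G0) - G := by ring
    rw [h1]
    refine (norm_sub_le _ _).trans ((add_le_add ((norm_add_le _ _).trans (add_le_add hZ n2)) n1).trans
      ?_)
    have h2 : CZ * κ ^ 4 ≤ CZ * κ ^ 2 := mul_le_mul_of_nonneg_left hκ42 hCZ
    have h3 : CS * (2 * CP + CS) * κ ^ 3 ≤ CS * (2 * CP + CS) * κ ^ 2 :=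
      mul_le_mul_of_nonneg_left hκ32 (by positivity)
    have h4 : CX * κ ^ 4 ≤ CX * κ ^ 2 := mul_le_mul_of_nonneg_left hκ42 hCX
    linarith
  set D : ℝ := CP ^ 2 + 2 * CX + CS * (2 * CP + CS) + CZ with hD
  have hD0 : 0 ≤ D := by positivity
  have n4 : ‖Z‖ ≤ 1 + D := by
    have h1 : Z = 1 + (Z - 1) := by ring
    rw [h1]
    refine (norm_add_le _ _).trans ?_
    rw [norm_one]
    nlinarith
  have n5 : ‖(E - G * x) * P⁻¹‖ ≤ (CE * (κ ^ 3 + e0) + (CP ^ 2 + CX) * CP * κ ^ 3) * Λ := by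
    rw [norm_mul]
    refine mul_le_mul ?_ hPi (norm_nonneg _) (by positivity)
    refine (norm_sub_le _ _).trans (add_le_add hE ?_)
    rw [norm_mul]
    calc ‖G‖ * ‖x‖ ≤ ((CP ^ 2 + CX) * κ ^ 2) * (CP * κ) :=
          mul_le_mul n1 hx (norm_nonneg _) (by positivity)
      _ = _ := by ring
  have hid : EBv / P * Z - 1 = (Z - 1 + G0) + (G - G0) + G * (Z - 1) +
      ((E - G * x) * P⁻¹) * Z := by
    have h1 : EBv = P + G + E := by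
      rw [hEd, hG, hP]
      ring
    have h2 : x = P - 1 := by rw [hP]; ring
    rw [h1]
    field_simp
    rw [h2]
    ring
  rw [hid]
  have t1 : ‖G * (Z - 1)‖ ≤ ((CP ^ 2 + CX) * D) * κ ^ 3 := by
    rw [norm_mul]
    calc ‖G‖ * ‖Z - 1‖ ≤ ((CP ^ 2 + CX) * κ ^ 2) * (D * κ ^ 2) :=
          mul_le_mul n1 n3 (norm_nonneg _) (by positivity)
      _ = ((CP ^ 2 + CX) * D) * κ ^ 4 := by ring
      _ ≤ _ := mul_le_mul_of_nonneg_left hκ43 (by positivity)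
  have t2 : ‖((E - G * x) * P⁻¹) * Z‖ ≤
      ((CE * (κ ^ 3 + e0) + (CP ^ 2 + CX) * CP * κ ^ 3) * Λ) * (1 + D) := by
    rw [norm_mul]
    exact mul_le_mul n5 n4 (norm_nonneg _) (by positivity)
  refine (norm_add_le _ _).trans ((add_le_add ((norm_add_le _ _).trans (add_le_add
    ((norm_add_le _ _).trans (add_le_add hZ n2)) t1)) t2).trans ?_)
  have u1 : CZ * κ ^ 4 ≤ CZ * (κ ^ 3 + e0) := mul_le_mul_of_nonneg_left (by linarith) hCZ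
  have u2 : CS * (2 * CP + CS) * κ ^ 3 ≤ CS * (2 * CP + CS) * (κ ^ 3 + e0) :=
    mul_le_mul_of_nonneg_left (by linarith) (by positivity)
  have u3 : CX * κ ^ 4 ≤ CX * (κ ^ 3 + e0) := mul_le_mul_of_nonneg_left (by linarith) hCX
  have u4 : ((CP ^ 2 + CX) * D) * κ ^ 3 ≤ ((CP ^ 2 + CX) * D) * (κ ^ 3 + e0) :=
    mul_le_mul_of_nonneg_left (by linarith) (by positivity)
  have u5 : ((CE * (κ ^ 3 + e0) + (CP ^ 2 + CX) * CP * κ ^ 3) * Λ) * (1 + D) ≤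
      ((CE + (CP ^ 2 + CX) * CP) * Λ * (1 + D)) * (κ ^ 3 + e0) := by
    have h1 : (CP ^ 2 + CX) * CP * κ ^ 3 ≤ (CP ^ 2 + CX) * CP * (κ ^ 3 + e0) :=
      mul_le_mul_of_nonneg_left (by linarith) (by positivity)
    calc ((CE * (κ ^ 3 + e0) + (CP ^ 2 + CX) * CP * κ ^ 3) * Λ) * (1 + D)
        ≤ ((CE * (κ ^ 3 + e0) + (CP ^ 2 + CX) * CP * (κ ^ 3 + e0)) * Λ) * (1 + D) := by gcongr
      _ = _ := by ring
  nlinarith

end abs

section sym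

variable {r : ℕ}

/-- the inverse of the Euler factor of the symmetric square -/
noncomputable def SI (k : Type) [Field k] (t : k × k) (u : ℂ) : ℂ :=
  (1 - (Nat.card k : ℂ) * (Nat.card k : ℂ) ^ (-u)) *
    LD ((Nat.card k : ℝ) ^ 2) (trk k t ^ 2 - 2 * Nat.card k) 1 ((Nat.card k : ℂ) ^ (-u))

/-- the product for the pairs -/
noncomputable def Yk (m : Fin r → ℤ) (s : Fin r → ℂ) (k : Type) [Field k] (t : k × k) : ℂ :=
  ∏ p ∈ prs r, SI k t (s p.1 + s p.2) ^ ex (fun j => - m j) p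

lemma cpow_pair {q : ℕ} (hq : 2 ≤ q) (s s' : ℂ) :
    (q : ℂ) ^ (-(s + s')) = (q : ℂ) ^ (-s) * (q : ℂ) ^ (-s') := by
  have h0 : (q : ℂ) ≠ 0 := by exact_mod_cast (by omega : q ≠ 0)
  rw [← Complex.cpow_add _ _ h0]
  congr 1
  ring

lemma tr_sq {k : Type} [Field k] [Finite k] (h6 : (6 : k) ≠ 0) (t : k × k) :
    trk k t ^ 2 ≤ 4 * Nat.card k := by
  haveI := Fintype.ofFinite k
  have h1 := (good_trk h6).bound t
  have h2 : |trk k t| ^ 2 ≤ (2 * √(Nat.card k : ℝ)) ^ 2 := pow_le_pow_left₀ (abs_nonneg _) h1 2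
  rw [sq_abs, mul_pow, Real.sq_sqrt (Nat.cast_nonneg _)] at h2
  linarith

/-- the bounds for the inverse Euler factor -/
lemma SI_bounds {k : Type} [Field k] [Finite k] (h6 : (6 : k) ≠ 0) (t : k × k) {s s' : ℂ} {σ : ℝ}
    (hσ : 3 / 4 ≤ σ) (hs : σ ≤ s.re) (hs' : σ ≤ s'.re) :
    (Lam rho0 ^ 2)⁻¹ ≤ ‖SI k t (s + s')‖ ∧ ‖SI k t (s + s')‖ ≤ Lam rho0 ^ 2 ∧
      ‖SI k t (s + s') - 1‖ ≤ 7 * ((Nat.card k : ℝ) ^ (1 / 2 - σ)) ^ 2 ∧
      ‖SI k t (s + s') - 1 - (-((trk k t ^ 2 - Nat.card k : ℝ) *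
        ((Nat.card k : ℂ) ^ (-s) * (Nat.card k : ℂ) ^ (-s'))))‖ ≤
        7 * (((Nat.card k : ℝ) ^ (1 / 2 - σ)) ^ 2) ^ 2 := by
  have hq2 := two_le_card (k := k)
  have hq0 : (0 : ℝ) < Nat.card k := by exact_mod_cast (by omega : 0 < Nat.card k)
  have hq1 : (1 : ℝ) ≤ Nat.card k := by exact_mod_cast (by omega : 1 ≤ Nat.card k)
  have hL := one_le_Lam rho0
  have hL0 : 0 < Lam rho0 := by linarith
  set q : ℝ := (Nat.card k : ℝ) with hq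
  have hqc : (Nat.card k : ℂ) = ((q : ℝ) : ℂ) := by rw [hq]; push_cast; rfl
  set κ : ℝ := q ^ (1 / 2 - σ) with hκ
  have hκ0 : 0 ≤ κ := by positivity
  have hκ1 : κ ≤ 1 := Real.rpow_le_one_of_one_le_of_nonpos hq1 (by linarith)
  have htr := tr_sq h6 t
  have hT : ∀ z : ℂ, σ ≤ z.re → √q * ‖(Nat.card k : ℂ) ^ (-z)‖ ≤ κ := by
    intro z hz
    rw [hq, kap _ hq2]
    exact Real.rpow_le_rpow_of_exponent_le hq1 (by linarith)
  set T : ℂ := (Nat.card k : ℂ) ^ (-s) with hTd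
  set T' : ℂ := (Nat.card k : ℂ) ^ (-s') with hTd'
  have h1 := hT s hs
  have h2 := hT s' hs'
  have hU : q * ‖T * T'‖ ≤ κ ^ 2 := by
    rw [norm_mul]
    calc q * (‖T‖ * ‖T'‖) = (√q * ‖T‖) * (√q * ‖T'‖) := by
          have h3 : √q * √q = q := Real.mul_self_sqrt hq0.le
          calc q * (‖T‖ * ‖T'‖) = (√q * √q) * (‖T‖ * ‖T'‖) := by rw [h3]
            _ = _ := by ring
      _ ≤ κ * κ := mul_le_mul h1 h2 (by positivity) hκ0
      _ = _ := by ring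
  have hκρ : κ ≤ rho0 := by
    refine le_trans ?_ rho0_sq_le
    rw [rho0_sq]
    have h3 : (2 : ℝ) ≤ q := by rw [hq]; exact_mod_cast hq2
    calc κ ≤ q ^ (-(1 / 4) : ℝ) := Real.rpow_le_rpow_of_exponent_le hq1 (by linarith)
      _ ≤ _ := Real.rpow_le_rpow_of_nonpos (by norm_num) h3 (by norm_num)
  have hκ2ρ : κ ^ 2 ≤ rho0 := by nlinarith
  have hSI : SI k t (s + s') = (1 - (q : ℂ) * (T * T')) *
      LD (q ^ 2) (trk k t ^ 2 - 2 * q) 1 (T * T') := by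
    unfold SI
    rw [cpow_pair hq2, ← hTd, ← hTd', hqc]
  have habs : |trk k t ^ 2 - 2 * q| ≤ 2 * √(q ^ 2) := by
    rw [Real.sqrt_sq hq0.le, abs_le]
    constructor <;> nlinarith [sq_nonneg (trk k t)]
  obtain ⟨a1, a2⟩ := pair_Lam hq0 (h1.trans hκρ) (h2.trans hκρ) rho0_lt_one
  obtain ⟨b1, b2⟩ := LD_Lam (q := q ^ 2) (a := trk k t ^ 2 - 2 * q) (e := 1) (T := T * T')
    (by positivity) habs (Or.inl rfl) (by rw [Real.sqrt_sq hq0.le]; exact hU.trans hκ2ρ) rho0_lt_one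
  have hw : ‖SI k t (s + s') - 1 - (-((trk k t ^ 2 - q : ℝ) * (T * T')))‖ ≤ 4 * (κ ^ 2) ^ 2 := by
    have hid : SI k t (s + s') - 1 - (-((trk k t ^ 2 - q : ℝ) * (T * T'))) =
        ((q : ℂ) * (T * T')) ^ 2 + (q : ℂ) * (T * T') * (((trk k t ^ 2 - 2 * q : ℝ) : ℂ) * (T * T')) -
          ((q : ℂ) * (T * T')) ^ 3 := by
      rw [hSI]
      unfold LD
      push_cast
      ring
    rw [hid]
    have c1 : ‖(q : ℂ) * (T * T')‖ ≤ κ ^ 2 := by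
      rw [norm_mul, Complex.norm_real, Real.norm_eq_abs, abs_of_pos hq0]
      exact hU
    have c2 : ‖((trk k t ^ 2 - 2 * q : ℝ) : ℂ) * (T * T')‖ ≤ 2 * κ ^ 2 := by
      rw [norm_mul, Complex.norm_real, Real.norm_eq_abs]
      have h3 : |trk k t ^ 2 - 2 * q| ≤ 2 * q := by
        rw [Real.sqrt_sq hq0.le] at habs
        exact habs
      calc |trk k t ^ 2 - 2 * q| * ‖T * T'‖ ≤ (2 * q) * ‖T * T'‖ :=
            mul_le_mul_of_nonneg_right h3 (norm_nonneg _)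
        _ = 2 * (q * ‖T * T'‖) := by ring
        _ ≤ _ := by linarith
    have hk2 : κ ^ 2 ≤ 1 := pow_le_one₀ hκ0 hκ1
    refine (norm_sub_le _ _).trans ?_
    have t1 : ‖((q : ℂ) * (T * T')) ^ 2 +
        (q : ℂ) * (T * T') * (((trk k t ^ 2 - 2 * q : ℝ) : ℂ) * (T * T'))‖ ≤
        (κ ^ 2) ^ 2 + κ ^ 2 * (2 * κ ^ 2) := by
      refine (norm_add_le _ _).trans ?_
      rw [norm_pow, norm_mul ((q : ℂ) * (T * T'))]
      gcongr
    have t2 : ‖((q : ℂ) * (T * T')) ^ 3‖ ≤ (κ ^ 2) ^ 2 * 1 := by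
      rw [norm_pow]
      calc ‖(q : ℂ) * (T * T')‖ ^ 3 ≤ (κ ^ 2) ^ 3 := by gcongr
        _ = (κ ^ 2) ^ 2 * κ ^ 2 := by ring
        _ ≤ _ := by gcongr
    nlinarith
  refine ⟨?_, ?_, ?_, hw.trans ?_⟩
  · rw [hSI, norm_mul, sq (Lam rho0), mul_inv]
    exact mul_le_mul a1 b1 (by positivity) (norm_nonneg _)
  · rw [hSI, norm_mul, sq (Lam rho0)]
    exact mul_le_mul a2 b2 (norm_nonneg _) hL0.le
  · have h3 : SI k t (s + s') - 1 = (SI k t (s + s') - 1 - (-((trk k t ^ 2 - q : ℝ) * (T * T')))) +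
        (-((trk k t ^ 2 - q : ℝ) * (T * T'))) := by ring
    rw [h3]
    refine (norm_add_le _ _).trans ?_
    have h4 : ‖-(((trk k t ^ 2 - q : ℝ) : ℂ) * (T * T'))‖ ≤ 3 * κ ^ 2 := by
      rw [norm_neg, norm_mul, Complex.norm_real, Real.norm_eq_abs]
      have h5 : |trk k t ^ 2 - q| ≤ 3 * q := by
        rw [abs_le]
        constructor <;> nlinarith [sq_nonneg (trk k t)]
      calc |trk k t ^ 2 - q| * ‖T * T'‖ ≤ (3 * q) * ‖T * T'‖ :=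
            mul_le_mul_of_nonneg_right h5 (norm_nonneg _)
        _ = 3 * (q * ‖T * T'‖) := by ring
        _ ≤ _ := by linarith
    have hk2 : κ ^ 2 ≤ 1 := pow_le_one₀ hκ0 hκ1
    nlinarith [sq_nonneg κ]
  · nlinarith [sq_nonneg (κ ^ 2)]

lemma rpow_sq_eq {q : ℝ} (hq : 0 ≤ q) (σ : ℝ) : (q ^ (1 / 2 - σ)) ^ 2 = q ^ (1 - 2 * σ) := by
  rw [← Real.rpow_natCast, ← Real.rpow_mul hq]
  congr 1
  push_cast
  ring

theorem Zk_second (m : Fin r → ℤ) : ∃ C : ℝ, 0 ≤ C ∧ ∀ (q : ℕ), 2 ≤ q → ∀ (s : Fin r → ℂ) (σ : ℝ),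
    3 / 4 ≤ σ → (∀ j, σ ≤ (s j).re) →
      ‖Zk m s q - 1‖ ≤ C * ((q : ℝ) ^ (1 / 2 - σ)) ^ 2 ∧
      ‖Zk m s q - 1 - (-((q : ℂ) * (((∑ j, m j * (q : ℂ) ^ (-(s j))) ^ 2 -
        ∑ j, m j * ((q : ℂ) ^ (-(s j))) ^ 2) / 2)))‖ ≤
        C * (((q : ℝ) ^ (1 / 2 - σ)) ^ 2) ^ 2 := by
  classical
  have hL := one_le_Lam rho0
  obtain ⟨C1, hC1, h1⟩ := Zk_est m
  obtain ⟨C2, hC2, h2⟩ := prod_zpow_second (ex m) hL (K := 1) zero_le_one (prs r)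
  refine ⟨C1 + C2, by positivity, fun q hq s σ hσ hs => ?_⟩
  have hq0 : (0 : ℝ) ≤ q := Nat.cast_nonneg _
  have hq1 : (1 : ℝ) ≤ q := by exact_mod_cast (by omega : 1 ≤ q)
  set κ : ℝ := (q : ℝ) ^ (1 / 2 - σ) with hκ
  have hκ0 : 0 ≤ κ := by positivity
  have hκ1 : κ ≤ 1 := Real.rpow_le_one_of_one_le_of_nonpos hq1 (by linarith)
  constructor
  · have := h1 q hq s σ hσ hs
    rw [← rpow_sq_eq hq0, ← hκ] at this
    refine this.trans ?_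
    nlinarith [sq_nonneg κ]
  · have h3 := h2 (fun p => 1 - (q : ℂ) ^ (-(s p.1 + s p.2 - 1)))
      (fun p => -((q : ℂ) * ((q : ℂ) ^ (-(s p.1)) * (q : ℂ) ^ (-(s p.2))))) (κ ^ 2) (sq_nonneg κ)
      (pow_le_one₀ hκ0 hκ1) (fun p _ => by
        obtain ⟨b1, b2⟩ := Zf_bounds hq (hσ.trans (hs p.1)) (hσ.trans (hs p.2))
        refine ⟨b1, b2, ?_, ?_⟩
        · rw [one_mul, hκ, rpow_sq_eq hq0]
          exact Zf_sub_one hq (hs p.1) (hs p.2)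
        · rw [cpow_two' hq]
          have h4 : 1 - (q : ℂ) ^ (-(s p.1 + s p.2 - 1)) - 1 - (-(q : ℂ) ^ (-(s p.1 + s p.2 - 1))) =
              0 := by ring
          rw [h4, norm_zero]
          positivity)
    have h4 : ∑ p ∈ prs r, (ex m p : ℂ) * (-((q : ℂ) * ((q : ℂ) ^ (-(s p.1)) *
        (q : ℂ) ^ (-(s p.2))))) = -((q : ℂ) * (((∑ j, m j * (q : ℂ) ^ (-(s j))) ^ 2 -
        ∑ j, m j * ((q : ℂ) ^ (-(s j))) ^ 2) / 2)) := by
      rw [← quad_identity m (fun j => (q : ℂ) ^ (-(s j))), Finset.mul_sum, ← Finset.sum_neg_distrib]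
      refine Finset.sum_congr rfl fun p _ => ?_
      ring
    rw [h4] at h3
    unfold Zk
    refine h3.trans ?_
    have : 0 ≤ (κ ^ 2) ^ 2 := by positivity
    nlinarith

theorem Yk_second (m : Fin r → ℤ) : ∃ C : ℝ, 0 ≤ C ∧ ∀ (k : Type) [Field k] [Finite k],
    (6 : k) ≠ 0 → ∀ (s : Fin r → ℂ) (σ : ℝ), 3 / 4 ≤ σ → (∀ j, σ ≤ (s j).re) → ∀ t : k × k,
      ‖Yk m s k t - 1‖ ≤ C * ((Nat.card k : ℝ) ^ (1 / 2 - σ)) ^ 2 ∧
      ‖Yk m s k t - 1 - (-((trk k t ^ 2 - Nat.card k : ℝ) *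
        (((∑ j, m j * (Nat.card k : ℂ) ^ (-(s j))) ^ 2 +
        ∑ j, m j * ((Nat.card k : ℂ) ^ (-(s j))) ^ 2) / 2)))‖ ≤
        C * (((Nat.card k : ℝ) ^ (1 / 2 - σ)) ^ 2) ^ 2 := by
  classical
  have hL := one_le_Lam rho0
  have hL2 : 1 ≤ Lam rho0 ^ 2 := one_le_pow₀ hL
  obtain ⟨C1, hC1, h1⟩ := exists_prod_bound (ex fun j => - m j) hL2 (prs r)
  obtain ⟨C2, hC2, h2⟩ := prod_zpow_second (ex fun j => - m j) hL2 (K := 7) (by norm_num) (prs r)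
  refine ⟨C1 * 7 + C2, by positivity, ?_⟩
  intro k _ _ h6 s σ hσ hs t
  have hq2 := two_le_card (k := k)
  have hq1 : (1 : ℝ) ≤ Nat.card k := by exact_mod_cast (by omega : 1 ≤ Nat.card k)
  set κ : ℝ := (Nat.card k : ℝ) ^ (1 / 2 - σ) with hκ
  have hκ0 : 0 ≤ κ := by positivity
  have hκ1 : κ ≤ 1 := Real.rpow_le_one_of_one_le_of_nonpos hq1 (by linarith)
  have hb : ∀ p ∈ prs r, _ := fun (p : Fin r × Fin r) _ =>
    SI_bounds (k := k) h6 t (s := s p.1) (s' := s p.2) hσ (hs p.1) (hs p.2)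
  constructor
  · unfold Yk
    refine (h1 _ (7 * κ ^ 2) (by positivity) fun p hp => ⟨(hb p hp).1, (hb p hp).2.1,
      (hb p hp).2.2.1⟩).trans ?_
    nlinarith [sq_nonneg κ]
  · have h3 := h2 (fun p => SI k t (s p.1 + s p.2)) (fun p => -((trk k t ^ 2 - Nat.card k : ℝ) *
        ((Nat.card k : ℂ) ^ (-(s p.1)) * (Nat.card k : ℂ) ^ (-(s p.2))))) (κ ^ 2) (sq_nonneg κ)
      (pow_le_one₀ hκ0 hκ1) hb
    have h4 : ∑ p ∈ prs r, (ex (fun j => - m j) p : ℂ) * (-((trk k t ^ 2 - Nat.card k : ℝ) *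
        ((Nat.card k : ℂ) ^ (-(s p.1)) * (Nat.card k : ℂ) ^ (-(s p.2))))) =
        -((trk k t ^ 2 - Nat.card k : ℝ) *
        (((∑ j, m j * (Nat.card k : ℂ) ^ (-(s j))) ^ 2 +
        ∑ j, m j * ((Nat.card k : ℂ) ^ (-(s j))) ^ 2) / 2)) := by
      have h5 := quad_identity (fun j => - m j) (fun j => (Nat.card k : ℂ) ^ (-(s j)))
      have h6 : (∑ j, ((-m j : ℤ) : ℂ) * (Nat.card k : ℂ) ^ (-(s j))) =
          -∑ j, m j * (Nat.card k : ℂ) ^ (-(s j)) := by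
        rw [← Finset.sum_neg_distrib]
        refine Finset.sum_congr rfl fun j _ => ?_
        push_cast
        ring
      have h7 : (∑ j, ((-m j : ℤ) : ℂ) * ((Nat.card k : ℂ) ^ (-(s j))) ^ 2) =
          -∑ j, m j * ((Nat.card k : ℂ) ^ (-(s j))) ^ 2 := by
        rw [← Finset.sum_neg_distrib]
        refine Finset.sum_congr rfl fun j _ => ?_
        push_cast
        ring
      rw [h6, h7, neg_sq, sub_neg_eq_add] at h5
      rw [← h5, Finset.mul_sum, ← Finset.sum_neg_distrib]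
      refine Finset.sum_congr rfl fun p _ => ?_
      ring
    rw [h4] at h3
    unfold Yk
    refine h3.trans ?_
    have : 0 ≤ (κ ^ 2) ^ 2 := by positivity
    nlinarith

/-- **The local estimate for one curve** -/
theorem LB_est {N : ℕ} (hN : 2 ≤ N) (m : Fin r → ℤ) : ∃ C : ℝ, 0 ≤ C ∧
    ∀ (k : Type) [Field k] [Finite k], (6 : k) ≠ 0 → ∀ (s : Fin r → ℂ) (σ : ℝ), 3 / 4 ≤ σ →
      (∀ j, σ ≤ (s j).re) → ∀ t : k × k, 4 * t.1 ^ 3 + 27 * t.2 ^ 2 ≠ 0 →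
      ‖EB N m s k t / Ph m s k t * (Zk m s (Nat.card k) * Yk m s k t) - 1‖ ≤
        C * (((Nat.card k : ℝ) ^ (1 / 2 - σ)) ^ 3 + (Nat.card k : ℝ) ^ (1 / 2 - σ) / Nat.card k) := by
  obtain ⟨CP, hCP, hP⟩ := Ph_est m
  obtain ⟨CS, hCS, hS⟩ := Ph_second m
  obtain ⟨CX, hCX, hX⟩ := Ph2_est m
  obtain ⟨CE, hCE, hE⟩ := EB_third hN m
  obtain ⟨C1, hC1, h1⟩ := Zk_second m
  obtain ⟨C2, hC2, h2⟩ := Yk_second m
  have hL := one_le_Lam rho0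
  set CZ := C1 + C2 + C1 * C2 with hCZ
  set Λ := Lam rho0 ^ Nt m with hΛ
  refine ⟨CZ + CS * (2 * CP + CS) + CX +
      (CP ^ 2 + CX) * (CP ^ 2 + 2 * CX + CS * (2 * CP + CS) + CZ) +
      (CE + (CP ^ 2 + CX) * CP) * Λ * (1 + (CP ^ 2 + 2 * CX + CS * (2 * CP + CS) + CZ)),
    by positivity, ?_⟩
  intro k _ _ h6 s σ hσ hs t ht
  have hq2 := two_le_card (k := k)
  have hq1 : (1 : ℝ) ≤ Nat.card k := by exact_mod_cast (by omega : 1 ≤ Nat.card k)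
  have hs' : ∀ j, 3 / 4 ≤ (s j).re := fun j => hσ.trans (hs j)
  have hep : epk k t = 1 := by
    unfold epk
    rw [if_neg ht]
  obtain ⟨x1, x2⟩ := hX k h6 s σ hσ hs t
  obtain ⟨z1, z2⟩ := h1 (Nat.card k) hq2 s σ hσ hs
  obtain ⟨y1, y2⟩ := h2 k h6 s σ hσ hs t
  have p1 := hP k h6 s σ hσ hs t
  have p2 := hS k h6 s σ hσ hs t
  have e1 := hE k h6 s σ hσ hs t
  set κ : ℝ := (Nat.card k : ℝ) ^ (1 / 2 - σ) with hκ
  have hκ0 : 0 ≤ κ := by positivity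
  have hκ1 : κ ≤ 1 := Real.rpow_le_one_of_one_le_of_nonpos hq1 (by linarith)
  set A : ℂ := ∑ j, m j * (Nat.card k : ℂ) ^ (-(s j)) with hA
  set B : ℂ := ∑ j, m j * ((Nat.card k : ℂ) ^ (-(s j))) ^ 2 with hB
  have hS' : ∑ j, m j * (trk k t * (Nat.card k : ℂ) ^ (-(s j))) = trk k t * A := by
    rw [hA, Finset.mul_sum]
    exact Finset.sum_congr rfl fun j _ => by ring
  have hX' : ∑ j, m j * ((trk k t ^ 2 - 2 * Nat.card k * epk k t : ℝ) *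
      ((Nat.card k : ℂ) ^ (-(s j))) ^ 2) = ((trk k t ^ 2 - 2 * Nat.card k : ℝ) : ℂ) * B := by
    rw [hB, hep, Finset.mul_sum]
    refine Finset.sum_congr rfl fun j _ => ?_
    push_cast
    ring
  rw [hS'] at p2
  rw [hX'] at x2
  refine combine (x := Ph m s k t - 1) (S := trk k t * A) (X := Ph2 m s k t - 1)
    (X0 := ((trk k t ^ 2 - 2 * Nat.card k : ℝ) : ℂ) * B)
    (G0 := ((trk k t * A) ^ 2 + ((trk k t ^ 2 - 2 * Nat.card k : ℝ) : ℂ) * B) / 2)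
    hCP hCS hCX hCE (by positivity) (by positivity) hκ0 hκ1 (by positivity) (by ring)
    (Ph_ne m hs' h6 t) ?_ p1 p2 x1 x2 e1 rfl ?_
  · rw [Ph_inv]
    have h3 := Ph_norm (fun j => - m j) hs' h6 t
    have h4 : Nt (fun j => - m j) = Nt m := by
      unfold Nt
      exact Finset.sum_congr rfl fun j _ => Int.natAbs_neg _
    rw [h4] at h3
    exact h3
  · have hid : Zk m s (Nat.card k) * Yk m s k t - 1 +
        ((trk k t * A) ^ 2 + ((trk k t ^ 2 - 2 * Nat.card k : ℝ) : ℂ) * B) / 2 =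
        (Zk m s (Nat.card k) - 1 - (-((Nat.card k : ℂ) * ((A ^ 2 - B) / 2)))) +
        (Yk m s k t - 1 - (-((trk k t ^ 2 - Nat.card k : ℝ) * ((A ^ 2 + B) / 2)))) +
        (Zk m s (Nat.card k) - 1) * (Yk m s k t - 1) := by
      push_cast
      ring
    rw [hid]
    have t1 : ‖(Zk m s (Nat.card k) - 1) * (Yk m s k t - 1)‖ ≤ (C1 * κ ^ 2) * (C2 * κ ^ 2) := by
      rw [norm_mul]
      exact mul_le_mul z1 y1 (norm_nonneg _) (by positivity)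
    refine (norm_add_le _ _).trans ((add_le_add ((norm_add_le _ _).trans (add_le_add z2 y2))
      t1).trans (le_of_eq ?_))
    rw [hCZ]
    ring

end sym

end Pool.Agent.KS6_22.MF
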