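import Pool.Agent.KS6_22.MF.FinA
import Pool.Agent.KS6_22.MF.Sym
import Pool.Agent.KS6_22.MF.DefB

/-!
# Mean values over all extensions of degree `N`, for one elliptic curve

Owner helper22.
-/

set_option autoImplicit false
set_option linter.unusedSectionVars false
set_option linter.unusedVariables false
set_option linter.style.haveILetI false

open Polynomial NumberField IsDedekindDomain Filter Topology
open Pool.Agent.T6.H9.MV (Lam one_le_Lam rho0 rho0_pos rho0_lt_one prs ex Np Nt LD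
  norm_zpow_le fmean fmean_eq fmean_comp fmean_sub kv qv card_kv qv_ne_zero two_le_qv summable_qv Om
  multipliable_of_bound tprod_ne_zero' hasProd_zpow exists_sigma six_ne avg box card_box_pos
  mem_box el isOpen_Om ball_Om exists_delta diff_prod diff_div finite_six hasProd_Zl Zl
  tendstoUniformlyOn_prod differentiableOn_of_tendstoUniformlyOn norm_tprod_le)
open Pool.Agent.KS6_22.NB (Ab fib mem_fib fib_finite six_mem)

namespace Pool.Agent.KS6_22.MF

attribute [local instance] fldv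

section loc

variable {k : Type} [Field k] [Finite k] {r N : ℕ}

lemma EB_diff (m : Fin r → ℤ) {x : Fin r → ℂ} (hx : x ∈ Om r (3 / 4)) (h6 : (6 : k) ≠ 0)
    (t : k × k) : DifferentiableAt ℂ (fun s => EB N m s k t) x := by
  unfold EB
  refine diff_fmean fun c => diff_prod _ fun g hg => ?_
  have hg' := (mem_SF (mon_monic c).ne_zero).1 hg
  haveI : Fact (Irreducible g) := ⟨hg'.1.1⟩
  haveI := adj_finite hg'.1.2.1
  exact Ph_diff m hx (adj_six hg'.1.1 h6) _

lemma EB_real (m : Fin r → ℤ) {s : Fin r → ℂ} (hs : ∀ j, 3 / 4 ≤ (s j).re)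
    (hs0 : ∀ j, (s j).im = 0) (h6 : (6 : k) ≠ 0) (t : k × k) :
    ∃ y : ℝ, 0 < y ∧ EB N m s k t = y := by
  unfold EB
  refine fmean_pos fun c => prod_pos' fun g hg => ?_
  have hg' := (mem_SF (mon_monic c).ne_zero).1 hg
  haveI : Fact (Irreducible g) := ⟨hg'.1.1⟩
  haveI := adj_finite hg'.1.2.1
  exact Ph_real m hs hs0 (adj_six hg'.1.1 h6) _

lemma EB_div_norm (hN : 0 < N) (m : Fin r → ℤ) : ∃ C : ℝ, 0 ≤ C ∧ ∀ (k : Type) [Field k] [Finite k],
    (6 : k) ≠ 0 → ∀ (s : Fin r → ℂ), (∀ j, 3 / 4 ≤ (s j).re) → ∀ t : k × k,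
      ‖EB N m s k t / Ph m s k t‖ ≤ C := by
  obtain ⟨C, hC0, hC⟩ := EB_est hN m
  have hL := one_le_Lam rho0
  refine ⟨(Lam rho0 ^ Nt m + C * 2) * Lam rho0 ^ Nt m, by positivity, ?_⟩
  intro k _ _ h6 s hs t
  have hq2 := two_le_card (k := k)
  have hq1 : (1 : ℝ) ≤ Nat.card k := by exact_mod_cast (by omega : 1 ≤ Nat.card k)
  have h1 := hC k h6 s (3 / 4) le_rfl hs t
  have a1 : (Nat.card k : ℝ) ^ (1 - 2 * (3 / 4) : ℝ) ≤ 1 :=
    Real.rpow_le_one_of_one_le_of_nonpos hq1 (by norm_num)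
  have a2 : (Nat.card k : ℝ) ^ (-(1 / 2 + 3 / 4) : ℝ) ≤ 1 :=
    Real.rpow_le_one_of_one_le_of_nonpos hq1 (by norm_num)
  have h2 : ‖EB N m s k t‖ ≤ Lam rho0 ^ Nt m + C * 2 := by
    have h3 : EB N m s k t = Ph m s k t + (EB N m s k t - Ph m s k t) := by ring
    rw [h3]
    refine (norm_add_le _ _).trans (add_le_add (Ph_norm m hs h6 t) (h1.trans ?_))
    refine mul_le_mul_of_nonneg_left ?_ hC0
    linarith
  rw [div_eq_mul_inv, norm_mul, Ph_inv]
  have h3 := Ph_norm (fun j => - m j) hs h6 t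
  have h4 : Nt (fun j => - m j) = Nt m := by
    unfold Nt
    exact Finset.sum_congr rfl fun j _ => Int.natAbs_neg _
  rw [h4] at h3
  exact mul_le_mul h2 h3 (norm_nonneg _) (by positivity)

lemma SI_ne (h6 : (6 : k) ≠ 0) (t : k × k) {s s' : ℂ} (hs : 3 / 4 ≤ s.re) (hs' : 3 / 4 ≤ s'.re) :
    SI k t (s + s') ≠ 0 := by
  have h := (SI_bounds h6 t (σ := 3 / 4) le_rfl hs hs').1
  have hL := one_le_Lam rho0
  exact norm_pos_iff.1 (lt_of_lt_of_le (by positivity) h)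

lemma Yk_ne (m : Fin r → ℤ) {s : Fin r → ℂ} (hs : ∀ j, 3 / 4 ≤ (s j).re) (h6 : (6 : k) ≠ 0)
    (t : k × k) : Yk m s k t ≠ 0 :=
  Finset.prod_ne_zero_iff.2 fun p _ => zpow_ne_zero _ (SI_ne h6 t (hs p.1) (hs p.2))

lemma Yk_diff (m : Fin r → ℤ) {x : Fin r → ℂ} (hx : x ∈ Om r (3 / 4)) (h6 : (6 : k) ≠ 0)
    (t : k × k) : DifferentiableAt ℂ (fun s => Yk m s k t) x := by
  unfold Yk
  refine diff_prod _ fun p _ => ?_
  have h0 : (Nat.card k : ℂ) ≠ 0 := card_ne
  have hf : DifferentiableAt ℂ (fun s : Fin r → ℂ => -(s p.1 + s p.2)) x := by fun_prop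
  have h1 : DifferentiableAt ℂ (fun s : Fin r → ℂ => (Nat.card k : ℂ) ^ (-(s p.1 + s p.2))) x :=
    hf.const_cpow (Or.inl h0)
  have h2 : DifferentiableAt ℂ (fun s : Fin r → ℂ => SI k t (s p.1 + s p.2)) x := by
    unfold SI LD
    fun_prop
  exact h2.zpow (Or.inl (SI_ne h6 t (hx p.1).le (hx p.2).le))

end loc

section glob

variable {F : Type} [Field F] [NumberField F] {N r : ℕ}

lemma finite_dvd {x : 𝓞 F} (hx : x ≠ 0) :
    {v : HeightOneSpectrum (𝓞 F) | x ∈ v.asIdeal}.Finite := by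
  have h := Ideal.finite_factors (R := 𝓞 F) (I := Ideal.span {x}) (by
    rw [Ne, Ideal.zero_eq_bot, Ideal.span_singleton_eq_bot]
    exact hx)
  refine h.subset fun v hv => ?_
  change v.asIdeal ∣ Ideal.span {x}
  rw [Ideal.dvd_span_singleton]
  exact hv

/-- the reduction of the curve -/
def tv (a b : 𝓞 F) (v : HeightOneSpectrum (𝓞 F)) : kv v × kv v :=
  (Ideal.Quotient.mk v.asIdeal a, Ideal.Quotient.mk v.asIdeal b)

lemma tv_disc {a b : 𝓞 F} {v : HeightOneSpectrum (𝓞 F)}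
    (h : 6 * (4 * a ^ 3 + 27 * b ^ 2) ∉ v.asIdeal) :
    4 * (tv a b v).1 ^ 3 + 27 * (tv a b v).2 ^ 2 ≠ 0 := by
  have h1 : 4 * (tv a b v).1 ^ 3 + 27 * (tv a b v).2 ^ 2 =
      Ideal.Quotient.mk v.asIdeal (4 * a ^ 3 + 27 * b ^ 2) := by
    unfold tv
    rw [map_add, map_mul, map_mul, map_pow, map_pow, map_ofNat, map_ofNat]
  rw [h1, Ne, Ideal.Quotient.eq_zero_iff_mem]
  exact fun h2 => h (v.asIdeal.mul_mem_left _ h2)

lemma six_of {a b : 𝓞 F} {v : HeightOneSpectrum (𝓞 F)}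
    (h : 6 * (4 * a ^ 3 + 27 * b ^ 2) ∉ v.asIdeal) : (6 : 𝓞 F) ∉ v.asIdeal :=
  fun h2 => h (v.asIdeal.mul_mem_right _ h2)

/-- the local function -/
noncomputable def hB (a b : 𝓞 F) (m : Fin r → ℤ) (s : Fin r → ℂ) (v : HeightOneSpectrum (𝓞 F))
    (t : Fin N → kv v) : ℂ := hv m s v (mon t) (C (tv a b v).1) (C (tv a b v).2)

open Classical in
/-- the local mean -/
noncomputable def eB (a b : 𝓞 F) (N : ℕ) (m : Fin r → ℤ) (s : Fin r → ℂ)
    (v : HeightOneSpectrum (𝓞 F)) : ℂ :=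
  if (6 : 𝓞 F) ∈ v.asIdeal then 1 else EB N m s (kv v) (tv a b v)

lemma fmean_hB (a b : 𝓞 F) (m : Fin r → ℤ) (s : Fin r → ℂ) (v : HeightOneSpectrum (𝓞 F)) :
    fmean (hB (N := N) a b m s v) = eB a b N m s v := by
  unfold eB
  split_ifs with h6
  · have h1 : hB (N := N) a b m s v = fun _ => 1 := by
      funext t
      unfold hB hv
      rw [if_pos h6]
    rw [h1, fmean_const]
  · unfold EB
    congr 1
    funext t
    unfold hB hv
    rw [if_neg h6]
    refine Finset.prod_congr rfl fun g _ => ?_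
    rw [AdjoinRoot.mk_C, AdjoinRoot.mk_C]

open Classical in
/-- the local factor of the curve over `F` -/
noncomputable def pB (a b : 𝓞 F) (m : Fin r → ℤ) (s : Fin r → ℂ) (v : HeightOneSpectrum (𝓞 F)) : ℂ :=
  if (6 : 𝓞 F) ∈ v.asIdeal then 1 else Ph m s (kv v) (tv a b v)

open Classical in
/-- the local factor of the symmetric square -/
noncomputable def yB (a b : 𝓞 F) (m : Fin r → ℤ) (s : Fin r → ℂ) (v : HeightOneSpectrum (𝓞 F)) : ℂ :=
  if 6 * (4 * a ^ 3 + 27 * b ^ 2) ∈ v.asIdeal then 1 else Yk m s (kv v) (tv a b v)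

/-- the correction factor -/
noncomputable def lB (a b : 𝓞 F) (N : ℕ) (m : Fin r → ℤ) (s : Fin r → ℂ)
    (v : HeightOneSpectrum (𝓞 F)) : ℂ :=
  eB a b N m s v / pB a b m s v * (Zk m s (qv v) * yB a b m s v)

theorem lB_bound {a b : 𝓞 F} (hab : 4 * a ^ 3 + 27 * b ^ 2 ≠ 0) (hN : 2 ≤ N) (m : Fin r → ℤ)
    {δ : ℝ} (hδ : 0 < δ) :
    ∃ β : HeightOneSpectrum (𝓞 F) → ℝ, Summable β ∧
      ∀ s : Fin r → ℂ, (∀ j, 5 / 6 + δ < (s j).re) → ∀ v, ‖lB a b N m s v - 1‖ ≤ β v := by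
  classical
  obtain ⟨C1, hC1, h1⟩ := LB_est hN m
  obtain ⟨C2, hC2, h2⟩ := EB_div_norm (N := N) (by omega) m
  have hL := one_le_Lam rho0
  have h6ab : (6 : 𝓞 F) * (4 * a ^ 3 + 27 * b ^ 2) ≠ 0 := mul_ne_zero (by norm_num) hab
  set M : ℝ := (C2 + 1) * Lam rho0 ^ Np m + 1 with hM
  have hM0 : 0 ≤ M := by positivity
  refine ⟨fun v => C1 * ((qv v : ℝ) ^ (-(1 + 3 * δ)) + (qv v : ℝ) ^ (-(4 / 3 + δ))) +
    (if 6 * (4 * a ^ 3 + 27 * b ^ 2) ∈ v.asIdeal then M else 0), ?_, ?_⟩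
  · refine Summable.add ?_ ?_
    · refine Summable.mul_left _ (Summable.add ?_ ?_)
      · exact summable_qv (by linarith)
      · exact summable_qv (by linarith)
    · refine summable_of_hasFiniteSupport (finite_dvd h6ab |>.subset fun v hv => ?_)
      rw [Function.mem_support] at hv
      by_contra h
      exact hv (if_neg h)
  · intro s hs v
    have hs' : ∀ j, 3 / 4 ≤ (s j).re := fun j => by linarith [hs j]
    have hs2 : ∀ j, 5 / 6 + δ ≤ (s j).re := fun j => (hs j).le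
    have hX0 : 0 ≤ C1 * ((qv v : ℝ) ^ (-(1 + 3 * δ)) + (qv v : ℝ) ^ (-(4 / 3 + δ))) := by positivity
    have hq0 : (0 : ℝ) < qv v := by exact_mod_cast Nat.pos_of_ne_zero (qv_ne_zero v)
    beta_reduce
    by_cases hb : 6 * (4 * a ^ 3 + 27 * b ^ 2) ∈ v.asIdeal
    · rw [if_pos hb]
      have hZ := Zk_norm m hs' (two_le_qv v)
      have h3 : ‖lB a b N m s v‖ ≤ (C2 + 1) * Lam rho0 ^ Np m := by
        unfold lB yB
        rw [if_pos hb, mul_one, norm_mul]
        refine mul_le_mul ?_ hZ (norm_nonneg _) (by positivity)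
        unfold eB pB
        by_cases h6 : (6 : 𝓞 F) ∈ v.asIdeal
        · rw [if_pos h6, if_pos h6, div_one, norm_one]
          linarith
        · rw [if_neg h6, if_neg h6]
          exact (h2 (kv v) (six_kv h6) s hs' (tv a b v)).trans (by linarith)
      have h4 : ‖lB a b N m s v - 1‖ ≤ M := by
        refine (norm_sub_le _ _).trans ?_
        rw [norm_one, hM]
        linarith
      linarith
    · rw [if_neg hb, add_zero]
      have h6 := six_of hb
      have e1 := h1 (kv v) (six_kv h6) s (5 / 6 + δ) (by linarith) hs2 (tv a b v) (tv_disc hb)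
      rw [card_kv] at e1
      unfold lB eB pB yB
      rw [if_neg h6, if_neg h6, if_neg hb]
      have e2 : ((qv v : ℝ) ^ (1 / 2 - (5 / 6 + δ))) ^ 3 = (qv v : ℝ) ^ (-(1 + 3 * δ)) := by
        rw [← Real.rpow_natCast, ← Real.rpow_mul hq0.le]
        congr 1
        push_cast
        ring
      have e3 : (qv v : ℝ) ^ (1 / 2 - (5 / 6 + δ)) / (qv v : ℝ) = (qv v : ℝ) ^ (-(4 / 3 + δ)) := by
        nth_rewrite 2 [← Real.rpow_one (qv v : ℝ)]
        rw [← Real.rpow_sub hq0]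
        congr 1
        ring
      rw [e2, e3] at e1
      exact e1

lemma lB_diff (a b : 𝓞 F) (m : Fin r → ℤ) (v : HeightOneSpectrum (𝓞 F)) {x : Fin r → ℂ}
    (hx : x ∈ Om r (3 / 4)) : DifferentiableAt ℂ (fun s => lB a b N m s v) x := by
  have h2 : DifferentiableAt ℂ (fun s => Zk m s (qv v)) x := by
    unfold Zk
    refine diff_prod _ fun p _ => ?_
    have h0 : (qv v : ℂ) ≠ 0 := by exact_mod_cast qv_ne_zero v
    have hf : DifferentiableAt ℂ (fun s : Fin r → ℂ => -(s p.1 + s p.2 - 1)) x := by fun_prop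
    have h3 : DifferentiableAt ℂ
        (fun s : Fin r → ℂ => 1 - (qv v : ℂ) ^ (-(s p.1 + s p.2 - 1))) x :=
      (differentiableAt_const _).sub (hf.const_cpow (Or.inl h0))
    refine h3.zpow (Or.inl ?_)
    have h4 := (Zf_bounds (two_le_qv v) (hx p.1).le (hx p.2).le).1
    have hL := one_le_Lam rho0
    exact norm_pos_iff.1 (lt_of_lt_of_le (by positivity) h4)
  have h3 : DifferentiableAt ℂ (fun s => yB a b m s v) x := by
    unfold yB
    by_cases hb : 6 * (4 * a ^ 3 + 27 * b ^ 2) ∈ v.asIdeal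
    · simp only [if_pos hb]
      exact differentiableAt_const _
    · simp only [if_neg hb]
      exact Yk_diff m hx (six_kv (six_of hb)) _
  unfold lB
  refine DifferentiableAt.mul ?_ (h2.mul h3)
  unfold eB pB
  by_cases h6 : (6 : 𝓞 F) ∈ v.asIdeal
  · simp only [if_pos h6]
    exact differentiableAt_const _
  · simp only [if_neg h6]
    have h7 : (fun s => EB N m s (kv v) (tv a b v) / Ph m s (kv v) (tv a b v)) =
        fun s => EB N m s (kv v) (tv a b v) * Ph (fun j => - m j) s (kv v) (tv a b v) := by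
      funext s
      rw [div_eq_mul_inv, Ph_inv]
    rw [h7]
    exact (EB_diff m hx (six_kv h6) _).mul (Ph_diff _ hx (six_kv h6) _)

lemma lB_ne (a b : 𝓞 F) (m : Fin r → ℤ) (v : HeightOneSpectrum (𝓞 F)) {s : Fin r → ℂ}
    (hs : s ∈ Om r (3 / 4)) (hs0 : ∀ j, (s j).im = 0) : lB a b N m s v ≠ 0 := by
  have hs' : ∀ j, 3 / 4 ≤ (s j).re := fun j => (hs j).le
  unfold lB
  refine mul_ne_zero ?_ (mul_ne_zero (Zk_ne m hs' (two_le_qv v)) ?_)
  · unfold eB pB
    split_ifs with h6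
    · rw [div_one]
      exact one_ne_zero
    · obtain ⟨y, hy0, hy⟩ := EB_real (k := kv v) (N := N) m hs' hs0 (six_kv h6) (tv a b v)
      rw [hy]
      exact div_ne_zero (by exact_mod_cast hy0.ne') (Ph_ne m hs' (six_kv h6) _)
  · unfold yB
    split_ifs with hb
    · exact one_ne_zero
    · exact Yk_ne m hs' (six_kv (six_of hb)) _

/-- the correction function -/
noncomputable def HB (a b : 𝓞 F) (N : ℕ) (m : Fin r → ℤ) (s : Fin r → ℂ) : ℂ :=
  ∏' v : HeightOneSpectrum (𝓞 F), lB a b N m s v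

theorem HB_diff {a b : 𝓞 F} (hab : 4 * a ^ 3 + 27 * b ^ 2 ≠ 0) (hN : 2 ≤ N) (m : Fin r → ℤ) :
    DifferentiableOn ℂ (HB a b N m) (Om r (5 / 6)) := by
  intro x hx
  obtain ⟨δ, hδ, hxδ⟩ := exists_delta hx
  obtain ⟨β, hβ, hb⟩ := lB_bound hab hN m hδ
  have h1 : TendstoUniformlyOn (fun (D : Finset (HeightOneSpectrum (𝓞 F))) s =>
      ∏ v ∈ D, lB a b N m s v) (HB a b N m) atTop (Om r (5 / 6 + δ)) :=
    tendstoUniformlyOn_prod hβ fun v s hs => hb s hs v
  have h2 := differentiableOn_of_tendstoUniformlyOn (U := Om r (5 / 6 + δ))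
    (V := Om r (5 / 6 + δ + δ)) hδ (isOpen_Om _ _) (fun y hy => ball_Om hy) (fun D => by
      intro y hy
      have hy' : y ∈ Om r (3 / 4) := fun k => by linarith [hy k]
      exact (diff_prod D fun v _ => lB_diff a b m v hy').differentiableWithinAt) h1
  exact ((h2 x hxδ).differentiableAt ((isOpen_Om _ _).mem_nhds hxδ)).differentiableWithinAt

theorem HB_ne {a b : 𝓞 F} (hab : 4 * a ^ 3 + 27 * b ^ 2 ≠ 0) (hN : 2 ≤ N) (m : Fin r → ℤ)
    {s : Fin r → ℂ} (hs : s ∈ Om r (5 / 6)) (hs0 : ∀ j, (s j).im = 0) : HB a b N m s ≠ 0 := by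
  obtain ⟨δ, hδ, hxδ⟩ := exists_delta hs
  obtain ⟨β, hβ, hb⟩ := lB_bound hab hN m hδ
  exact tprod_ne_zero' hβ (fun v => hb s (fun k => by linarith [hxδ k]) v)
    fun v => lB_ne a b m v (fun k => by linarith [hs k]) hs0

end glob

end Pool.Agent.KS6_22.MF
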