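import Pool.Graph.R_pool_sql_team_seeded_47a924f7.T6.H9.MV.Fam

/-!
# Means of Euler products over vectors of algebraic integers

Owner helper22.
-/

set_option autoImplicit false
set_option linter.unusedSectionVars false
set_option linter.unusedVariables false
set_option linter.style.haveILetI false

open Filter Topology NumberField IsDedekindDomain
open Pool.Agent.T6.H9.MV

namespace Pool.Agent.KS6_22.MF

variable {K : Type} [Field K] [NumberField K] {ι : Type} [Fintype ι] [DecidableEq ι]
  {J : Type} [Fintype J] [DecidableEq J]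

/-- the vector of algebraic integers with given coordinates -/
noncomputable def vec (ω : Module.Basis ι ℤ (𝓞 K)) : (J × ι → ℤ) →+ (J → 𝓞 K) where
  toFun x := fun j => el ω fun i => x (j, i)
  map_zero' := by
    funext j
    exact map_zero ω.equivFun.symm
  map_add' x y := by
    funext j
    exact map_add ω.equivFun.symm _ _

lemma vec_apply (ω : Module.Basis ι ℤ (𝓞 K)) (x : J × ι → ℤ) (j : J) :
    vec ω x j = el ω fun i => x (j, i) := rfl

lemma vec_surj (ω : Module.Basis ι ℤ (𝓞 K)) :
    Function.Surjective (vec ω : (J × ι → ℤ) →+ (J → 𝓞 K)) := by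
  intro p
  refine ⟨fun y => ω.equivFun (p y.1) y.2, ?_⟩
  funext j
  rw [vec_apply]
  exact ω.equivFun.symm_apply_apply (p j)

/-- the reduction modulo `v` -/
def rd (v : HeightOneSpectrum (𝓞 K)) : (J → 𝓞 K) →+ (J → kv v) where
  toFun p := fun j => Ideal.Quotient.mk v.asIdeal (p j)
  map_zero' := by
    funext j
    exact map_zero _
  map_add' x y := by
    funext j
    exact map_add _ _ _

lemma rd_apply (v : HeightOneSpectrum (𝓞 K)) (p : J → 𝓞 K) (j : J) :
    rd v p j = Ideal.Quotient.mk v.asIdeal (p j) := rfl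

/-- the reduction to finitely many primes -/
noncomputable def phi (ω : Module.Basis ι ℤ (𝓞 K)) (D : Finset (HeightOneSpectrum (𝓞 K))) :
    (J × ι → ℤ) →+ (∀ v : D, J → kv v.1) :=
  (AddMonoidHom.pi fun v : D => rd v.1).comp (vec ω)

lemma phi_apply (ω : Module.Basis ι ℤ (𝓞 K)) (D : Finset (HeightOneSpectrum (𝓞 K)))
    (x : J × ι → ℤ) (v : D) : phi ω D x v = rd v.1 (vec ω x) := rfl

lemma phi_surj (ω : Module.Basis ι ℤ (𝓞 K)) (D : Finset (HeightOneSpectrum (𝓞 K))) :
    Function.Surjective (phi ω D : (J × ι → ℤ) →+ (∀ v : D, J → kv v.1)) := by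
  classical
  intro c
  have hprime : ∀ v ∈ D, Prime v.asIdeal := fun v _ => v.prime
  have hcop : ∀ᵉ (v ∈ D) (w ∈ D), v ≠ w → v.asIdeal ≠ w.asIdeal := by
    intro v _ w _ hvw h
    exact hvw (HeightOneSpectrum.ext h)
  have h1 : ∀ j : J, ∃ y : 𝓞 K, ∀ v (hv : v ∈ D), Ideal.Quotient.mk v.asIdeal y = c ⟨v, hv⟩ j := by
    intro j
    have hz : ∀ v : D, ∃ z : 𝓞 K, Ideal.Quotient.mk v.1.asIdeal z = c v j :=
      fun v => Ideal.Quotient.mk_surjective _
    choose z hz using hz
    obtain ⟨y, hy⟩ := IsDedekindDomain.exists_forall_sub_mem_ideal (s := D)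
      (fun v => v.asIdeal) (fun _ => 1) hprime hcop z
    refine ⟨y, fun v hv => ?_⟩
    have h2 := hy v hv
    rw [pow_one] at h2
    rw [← hz ⟨v, hv⟩, Ideal.Quotient.eq]
    exact h2
  choose y hy using h1
  obtain ⟨x, hx⟩ := vec_surj (J := J) ω y
  refine ⟨x, ?_⟩
  funext v j
  rw [phi_apply, hx, rd_apply]
  exact hy j v.1 v.2

theorem tendsto_fin (ω : Module.Basis ι ℤ (𝓞 K))
    (h : ∀ v : HeightOneSpectrum (𝓞 K), (J → kv v) → ℂ) (D : Finset (HeightOneSpectrum (𝓞 K))) :
    Tendsto (fun B : J × ι → ℕ => avg (box B) (fun x => ∏ v ∈ D, h v (rd v (vec ω x)))) atTop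
      (𝓝 (∏ v ∈ D, fmean (h v))) := by
  classical
  have h1 := tendsto_avg_hom' (phi ω D) (phi_surj (J := J) ω D) (fun c => ∏ v : D, h v.1 (c v))
  rw [fmean_pi (fun v : D => h v.1)] at h1
  have h3 : ∏ v : D, fmean (h v.1) = ∏ v ∈ D, fmean (h v) :=
    Finset.prod_coe_sort D (fun v => fmean (h v))
  rw [h3] at h1
  refine h1.congr fun B => ?_
  unfold avg
  congr 1
  refine Finset.sum_congr rfl fun x _ => ?_
  exact (Finset.prod_coe_sort D (fun v => h v (rd v (vec ω x))))

/-- **Means of Euler products.** -/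
theorem tendsto_all (ω : Module.Basis ι ℤ (𝓞 K))
    (h : ∀ v : HeightOneSpectrum (𝓞 K), (J → kv v) → ℂ)
    {β : HeightOneSpectrum (𝓞 K) → ℝ} (hβ : Summable β) (hb : ∀ v t, ‖h v t - 1‖ ≤ β v) :
    Tendsto (fun B : J × ι → ℕ => avg (box B) (fun x => ∏' v, h v (rd v (vec ω x)))) atTop
      (𝓝 (∏' v, fmean (h v))) := by
  classical
  have hm : ∀ v : HeightOneSpectrum (𝓞 K), ‖fmean (h v) - 1‖ ≤ β v :=
    fun v => norm_fmean_sub_one_le (hb v)
  have hL := (multipliable_of_bound hβ hm).hasProd
  refine tendsto_of_approx (FD := fun D B => avg (box B)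
    (fun x => ∏ v ∈ D, h v (rd v (vec ω x))))
    (L := fun D => ∏ v ∈ D, fmean (h v)) ?_ (fun D => tendsto_fin ω h D) hL
  intro ε hε
  filter_upwards [(tendsto_errP hβ).eventually (gt_mem_nhds hε)] with D hD
  refine Eventually.of_forall fun B => ?_
  have hcard : (0 : ℝ) < (box B).card := by exact_mod_cast card_box_pos _
  unfold avg
  rw [← sub_div, ← Finset.sum_sub_distrib, norm_div, Complex.norm_natCast, div_le_iff₀ hcard]
  refine (norm_sum_le _ _).trans ?_
  refine (Finset.sum_le_sum fun x _ =>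
    (norm_tprod_sub_prod_le hβ (fun v => hb v _) D).trans hD.le).trans ?_
  rw [Finset.sum_const, nsmul_eq_mul, mul_comm]

/-- restriction to a set of density one -/
theorem tendsto_sub {α : Type} [DecidableEq α] {β : Type} {l : Filter β} {S : β → Finset α}
    (hS : ∀ b, 0 < (S b).card) (P : α → Prop) [DecidablePred P] {F : α → ℂ} {M : ℝ}
    (hF : ∀ x, ‖F x‖ ≤ M) {ℓ : ℂ} (h : Tendsto (fun b => avg (S b) F) l (𝓝 ℓ))
    (hP : Tendsto (fun b => avg (S b) (fun x => if P x then (0 : ℂ) else 1)) l (𝓝 0)) :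
    Tendsto (fun b => avg ((S b).filter P) F) l (𝓝 ℓ) := by
  have hM : ∀ x, ‖F x‖ ≤ |M| := fun x => (hF x).trans (le_abs_self M)
  -- the mean of the indicator
  have h1 : Tendsto (fun b => avg (S b) (fun x => if P x then (1 : ℂ) else 0)) l (𝓝 1) := by
    have h2 : ∀ b, avg (S b) (fun x => if P x then (1 : ℂ) else 0) =
        1 - avg (S b) (fun x => if P x then (0 : ℂ) else 1) := by
      intro b
      have hc : ((S b).card : ℂ) ≠ 0 := by exact_mod_cast (hS b).ne'
      unfold avg
      rw [eq_sub_iff_add_eq, ← add_div, ← Finset.sum_add_distrib, div_eq_one_iff_eq hc]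
      have h3 : ∀ x ∈ S b, ((if P x then (1 : ℂ) else 0) + if P x then (0 : ℂ) else 1) = 1 := by
        intro x _
        split_ifs <;> simp
      rw [Finset.sum_congr rfl h3]
      simp
    have h4 := hP.const_sub 1
    rw [sub_zero] at h4
    exact h4.congr fun b => (h2 b).symm
  -- the mean of the product
  have h2 : Tendsto (fun b => avg (S b) (fun x => if P x then F x else 0)) l (𝓝 ℓ) := by
    have h3 : Tendsto (fun b => avg (S b) F - avg (S b) (fun x => if P x then 0 else F x)) l
        (𝓝 (ℓ - 0)) := by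
      refine h.sub ?_
      have h5 := (tendsto_zero_iff_norm_tendsto_zero.1 hP).const_mul |M|
      rw [mul_zero] at h5
      refine squeeze_zero_norm (fun b => ?_) h5
      have hc : (0 : ℝ) < (S b).card := by exact_mod_cast hS b
      have h6 : avg (S b) (fun x => if P x then (0 : ℂ) else 1) =
          ((∑ x ∈ S b, (if P x then (0 : ℝ) else 1)) / (S b).card : ℝ) := by
        unfold avg
        push_cast
        congr 1
        refine Finset.sum_congr rfl fun x _ => ?_
        split_ifs <;> simp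
      have h7 : (0 : ℝ) ≤ (∑ x ∈ S b, (if P x then (0 : ℝ) else 1)) / (S b).card := by
        refine div_nonneg (Finset.sum_nonneg fun x _ => ?_) hc.le
        split_ifs <;> norm_num
      rw [h6, Complex.norm_real, Real.norm_eq_abs, abs_of_nonneg h7]
      unfold avg
      rw [norm_div, Complex.norm_natCast, mul_div_assoc', Finset.mul_sum]
      refine div_le_div_of_nonneg_right ((norm_sum_le _ _).trans (Finset.sum_le_sum fun x _ => ?_))
        hc.le
      split_ifs
      · simp
      · rw [mul_one]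
        exact hM x
    rw [sub_zero] at h3
    refine h3.congr fun b => ?_
    unfold avg
    rw [← sub_div, ← Finset.sum_sub_distrib]
    congr 1
    refine Finset.sum_congr rfl fun x _ => ?_
    beta_reduce
    by_cases hx : P x
    · rw [if_pos hx, if_pos hx, sub_zero]
    · rw [if_neg hx, if_neg hx, sub_self]
  have h3 := h2.div h1 one_ne_zero
  rw [div_one] at h3
  refine h3.congr fun b => ?_
  have hc : ((S b).card : ℂ) ≠ 0 := by exact_mod_cast (hS b).ne'
  change avg (S b) (fun x => if P x then F x else 0) / avg (S b) (fun x => if P x then (1 : ℂ) else 0) = _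
  unfold avg
  rw [div_div_div_cancel_right₀ hc]
  congr 1
  · rw [Finset.sum_filter]
  · rw [Finset.sum_boole]

end Pool.Agent.KS6_22.MF
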