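import Mathlib

/-!
# Elliptic curves over the extensions of a number field: definitions

Owner helper22.

`F` is a number field, `c` the vector of the lower coefficients of a monic polynomial of degree `n`
over the integers of `F`, irreducible over `F`, and `Fld c = F(θ)` the extension of degree `n`
generated by a root `θ` of it. Polynomials `a(θ)`, `b(θ)` of degree less than `n` in `θ` give the
curve `y ^ 2 = x ^ 3 + a(θ) x + b(θ)` over `F(θ)`. Every extension of degree `n` of `F` and every
elliptic curve over it arises in this way.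
-/

set_option autoImplicit false

open Polynomial NumberField IsDedekindDomain

namespace Pool.Agent.KS6_22.MF

/-- the polynomial `a_0 + a_1 X + … + a_(n-1) X ^ (n-1)` -/
noncomputable def pol {R : Type} [CommRing R] {n : ℕ} (a : Fin n → R) : R[X] :=
  ∑ i : Fin n, C (a i) * X ^ (i : ℕ)

/-- the monic polynomial `X ^ n + c_(n-1) X ^ (n-1) + … + c_0` -/
noncomputable def mon {R : Type} [CommRing R] {n : ℕ} (c : Fin n → R) : R[X] := X ^ n + pol c

open Classical in
/-- The Euler factor of the curve `y ^ 2 = x ^ 3 + a x + b`, `t = (a, b)`, over a finite field `A`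
with `q` elements: `(1 - a_A q ^ (-s) + e q ^ (1 - 2 s))⁻¹`, where `q - a_A` is the number of the
affine points over `A`, and `e = 1` if `4 a ^ 3 + 27 b ^ 2 ≠ 0` and `e = 0` otherwise. -/
noncomputable def lf (A : Type) [CommRing A] (t : A × A) (s : ℂ) : ℂ :=
  (1 - ((Nat.card A : ℂ) - (Nat.card {P : A × A // P.2 ^ 2 = P.1 ^ 3 + t.1 * P.1 + t.2} : ℂ)) *
    (Nat.card A : ℂ) ^ (-s) +
    (if 4 * t.1 ^ 3 + 27 * t.2 ^ 2 = 0 then 0 else 1) * (Nat.card A : ℂ) ^ (1 - 2 * s))⁻¹

open Classical in
/-- The Euler factor at `w` of the curve `y ^ 2 = x ^ 3 + α x + β` over the number field `L`; it is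
omitted (replaced by `1`) if `w` divides `δ`. -/
noncomputable def factorOff {L : Type} [Field L] [NumberField L] (δ α β : 𝓞 L)
    (w : HeightOneSpectrum (𝓞 L)) (s : ℂ) : ℂ :=
  if δ ∈ w.asIdeal then 1 else
    lf (𝓞 L ⧸ w.asIdeal) (Ideal.Quotient.mk w.asIdeal α, Ideal.Quotient.mk w.asIdeal β) s

/-- The L-function of the curve `y ^ 2 = x ^ 3 + α x + β` over the number field `L` without the
Euler factors at the primes which divide `δ`. -/
noncomputable def Lser {L : Type} [Field L] [NumberField L] (δ α β : 𝓞 L) (s : ℂ) : ℂ :=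
  ∏' w : HeightOneSpectrum (𝓞 L), factorOff δ α β w s

variable {F : Type} [Field F] [NumberField F] {n : ℕ}

/-- the polynomial over `F` -/
noncomputable abbrev fpoly (c : Fin n → 𝓞 F) : F[X] := (mon c).map (algebraMap (𝓞 F) F)

/-- the field generated over `F` by a root of the polynomial -/
abbrev Fld (c : Fin n → 𝓞 F) : Type := AdjoinRoot (fpoly c)

instance instNumberFieldFld (c : Fin n → 𝓞 F) [Fact (Irreducible (fpoly c))] :
    NumberField (Fld c) := by
  haveI : CharZero (Fld c) := charZero_of_injective_algebraMap (algebraMap F (Fld c)).injective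
  haveI : Module.Finite F (Fld c) :=
    Module.Finite.of_basis (AdjoinRoot.powerBasis (Fact.out : Irreducible (fpoly c)).ne_zero).basis
  haveI : IsScalarTower ℚ F (Fld c) := by infer_instance
  exact { to_charZero := inferInstance, to_finiteDimensional := Module.Finite.trans F (Fld c) }

lemma isIntegral_root (c : Fin n → 𝓞 F) : IsIntegral (𝓞 F) (AdjoinRoot.root (fpoly c)) := by
  refine ⟨mon c, ?_, ?_⟩
  · exact monic_X_pow_add (degree_sum_fin_lt c)
  · have h1 := AdjoinRoot.eval₂_root (fpoly c)
    rw [eval₂_map] at h1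
    exact h1

/-- the root -/
noncomputable def theta (c : Fin n → 𝓞 F) [Fact (Irreducible (fpoly c))] : 𝓞 (Fld c) :=
  ⟨AdjoinRoot.root (fpoly c), isIntegral_trans _ (isIntegral_root c)⟩

/-- `c`, `a`, `b` define an elliptic curve over an extension of degree `n` of `F`: the polynomial
with the lower coefficients `c` is irreducible, and the discriminant of the curve
`y ^ 2 = x ^ 3 + a(θ) x + b(θ)` is not zero. -/
def IsCurve (c a b : Fin n → 𝓞 F) : Prop :=
  ∃ _ : Fact (Irreducible (fpoly c)),
    4 * (aeval (theta c) (pol a)) ^ 3 + 27 * (aeval (theta c) (pol b)) ^ 2 ≠ 0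

open Classical in
/-- The L-function of the curve `y ^ 2 = x ^ 3 + a(θ) x + b(θ)` over `F(θ)`, where `θ` is a root of
the polynomial `f` with the lower coefficients `c`, without the Euler factors at the finitely many
primes which divide `6 f'(θ)`. -/
noncomputable def Lfn (c a b : Fin n → 𝓞 F) (s : ℂ) : ℂ :=
  if h : Irreducible (fpoly c) then
    haveI : Fact (Irreducible (fpoly c)) := ⟨h⟩
    Lser (6 * aeval (theta c) (derivative (mon c))) (aeval (theta c) (pol a))
      (aeval (theta c) (pol b)) s
  else 1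

/-- All elliptic curves `y ^ 2 = x ^ 3 + a(θ) x + b(θ)` over all extensions `F(θ)` of degree `n` of
`F`, where the coordinates of the coefficients `c i`, `a i`, `b i` with respect to the integral
basis `ω` are bounded by `B 0 i`, `B 1 i`, `B 2 i`. -/
def Fam {ι : Type} [Fintype ι] (ω : Module.Basis ι ℤ (𝓞 F)) (B : Fin 3 → Fin n → ι → ℕ) :
    Set ((Fin n → 𝓞 F) × (Fin n → 𝓞 F) × (Fin n → 𝓞 F)) :=
  {p | (∀ i l, |ω.repr (p.1 i) l| ≤ B 0 i l) ∧ (∀ i l, |ω.repr (p.2.1 i) l| ≤ B 1 i l) ∧
    (∀ i l, |ω.repr (p.2.2 i) l| ≤ B 2 i l) ∧ IsCurve p.1 p.2.1 p.2.2}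

/-- the mean of a function over a finite set -/
noncomputable def mean {α : Type} (S : Set α) (f : α → ℂ) : ℂ := (∑ᶠ p ∈ S, f p) / (S.ncard : ℂ)

end Pool.Agent.KS6_22.MF
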