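import Pool.Agent.KS6_22.MF.Third

/-!
# Products of integral powers up to second order

Owner helper22.
-/

set_option autoImplicit false
set_option linter.unusedSectionVars false
set_option linter.unusedVariables false
set_option linter.style.haveILetI false

open Polynomial
open Pool.Agent.T6.H9.MV (norm_zpow_le norm_zpow_sub_one)

namespace Pool.Agent.KS6_22.MF

lemma npow_second {Λ : ℝ} (hΛ : 1 ≤ Λ) (n : ℕ) : ∃ C : ℝ, 0 ≤ C ∧ ∀ z : ℂ, ‖z‖ ≤ Λ →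
    ‖z ^ n - 1 - n * (z - 1)‖ ≤ C * ‖z - 1‖ ^ 2 := by
  refine ⟨(n : ℝ) ^ 2 * (2 + Λ) ^ n, by positivity, fun z hz => ?_⟩
  have h := pow_second (z - 1) (y := ‖z - 1‖) le_rfl n
  have h1 : (1 : ℂ) + (z - 1) = z := by ring
  rw [h1] at h
  refine h.trans ?_
  have h2 : ‖z - 1‖ ≤ Λ + 1 := by
    refine (norm_sub_le _ _).trans ?_
    rw [norm_one]
    linarith
  calc (n : ℝ) ^ 2 * ‖z - 1‖ ^ 2 * (1 + ‖z - 1‖) ^ n
      ≤ (n : ℝ) ^ 2 * ‖z - 1‖ ^ 2 * (2 + Λ) ^ n := by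
        refine mul_le_mul_of_nonneg_left ?_ (by positivity)
        exact pow_le_pow_left₀ (by positivity) (by linarith) n
    _ = _ := by ring

lemma zpow_second {Λ : ℝ} (hΛ : 1 ≤ Λ) (n : ℤ) : ∃ C : ℝ, 0 ≤ C ∧ ∀ z : ℂ, Λ⁻¹ ≤ ‖z‖ →
    ‖z‖ ≤ Λ → ‖z ^ n - 1 - n * (z - 1)‖ ≤ C * ‖z - 1‖ ^ 2 := by
  have hΛ0 : 0 < Λ := by linarith
  rcases Int.eq_nat_or_neg n with ⟨n, rfl | rfl⟩
  · obtain ⟨C, hC0, hC⟩ := npow_second hΛ n
    refine ⟨C, hC0, fun z _ hz => ?_⟩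
    have := hC z hz
    simpa using this
  · obtain ⟨C, hC0, hC⟩ := npow_second hΛ n
    refine ⟨C * Λ ^ 2 + n * Λ, by positivity, fun z hz1 hz => ?_⟩
    have hz0 : z ≠ 0 := norm_pos_iff.1 (lt_of_lt_of_le (by positivity) hz1)
    have hinv : ‖z⁻¹‖ ≤ Λ := by
      rw [norm_inv]
      exact inv_le_of_inv_le₀ hΛ0 hz1
    have h1 := hC z⁻¹ hinv
    have h2 : z⁻¹ - 1 = -((z - 1) * z⁻¹) := by
      field_simp
      ring
    have h3 : z ^ (-(n : ℤ)) - 1 - ((-(n : ℤ) : ℤ) : ℂ) * (z - 1) =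
        ((z⁻¹) ^ n - 1 - n * (z⁻¹ - 1)) + n * ((z - 1) ^ 2 * z⁻¹) := by
      rw [zpow_neg, zpow_natCast, inv_pow]
      push_cast
      field_simp
      ring
    rw [h3]
    refine (norm_add_le _ _).trans ?_
    have h4 : ‖z⁻¹ - 1‖ ≤ Λ * ‖z - 1‖ := by
      rw [h2, norm_neg, norm_mul, mul_comm]
      exact mul_le_mul_of_nonneg_right hinv (norm_nonneg _)
    have h5 : ‖(n : ℂ) * ((z - 1) ^ 2 * z⁻¹)‖ ≤ n * Λ * ‖z - 1‖ ^ 2 := by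
      rw [norm_mul, norm_mul, norm_pow, Complex.norm_natCast]
      calc (n : ℝ) * (‖z - 1‖ ^ 2 * ‖z⁻¹‖) ≤ n * (‖z - 1‖ ^ 2 * Λ) := by gcongr
        _ = _ := by ring
    calc _ ≤ C * ‖z⁻¹ - 1‖ ^ 2 + n * Λ * ‖z - 1‖ ^ 2 := add_le_add h1 h5
      _ ≤ C * (Λ * ‖z - 1‖) ^ 2 + n * Λ * ‖z - 1‖ ^ 2 := by gcongr
      _ = _ := by ring

/-- **Products of integral powers up to second order** -/
theorem prod_zpow_second {ι : Type} [DecidableEq ι] (n : ι → ℤ) {Λ K : ℝ} (hΛ : 1 ≤ Λ)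
    (hK : 0 ≤ K) (S : Finset ι) : ∃ C : ℝ, 0 ≤ C ∧ ∀ (z w : ι → ℂ) (y : ℝ), 0 ≤ y → y ≤ 1 →
      (∀ i ∈ S, Λ⁻¹ ≤ ‖z i‖ ∧ ‖z i‖ ≤ Λ ∧ ‖z i - 1‖ ≤ K * y ∧ ‖z i - 1 - w i‖ ≤ K * y ^ 2) →
        ‖∏ i ∈ S, z i ^ n i - 1 - ∑ i ∈ S, n i * w i‖ ≤ C * y ^ 2 := by
  induction S using Finset.induction_on with
  | empty => exact ⟨0, le_rfl, fun z w y hy hy1 h => by simp⟩
  | insert k s hk ih =>
    obtain ⟨C, hC0, hC⟩ := ih
    obtain ⟨C1, hC10, hC1⟩ := exists_prod_bound n hΛ s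
    obtain ⟨C2, hC20, hC2⟩ := zpow_second hΛ (n k)
    refine ⟨(C1 * K) * ((n k).natAbs * Λ ^ (2 * (n k).natAbs) * K) + C +
      (C2 * K ^ 2 + (n k).natAbs * K), by positivity, fun z w y hy hy1 h => ?_⟩
    obtain ⟨b1, b2, b3, b4⟩ := h k (Finset.mem_insert_self _ _)
    have hs : ∀ i ∈ s, Λ⁻¹ ≤ ‖z i‖ ∧ ‖z i‖ ≤ Λ ∧ ‖z i - 1‖ ≤ K * y ∧ ‖z i - 1 - w i‖ ≤ K * y ^ 2 :=
      fun i hi => h i (Finset.mem_insert_of_mem hi)
    have e1 := hC z w y hy hy1 hs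
    have e2 := hC1 z (K * y) (by positivity) fun i hi => ⟨(hs i hi).1, (hs i hi).2.1, (hs i hi).2.2.1⟩
    have e3 := hC2 (z k) b1 b2
    have e4 := norm_zpow_sub_one hΛ b1 b2 b3 (n k)
    rw [Finset.prod_insert hk, Finset.sum_insert hk]
    have hid : z k ^ n k * ∏ j ∈ s, z j ^ n j - 1 - (n k * w k + ∑ i ∈ s, n i * w i) =
        (∏ j ∈ s, z j ^ n j - 1) * (z k ^ n k - 1) +
        (∏ j ∈ s, z j ^ n j - 1 - ∑ i ∈ s, n i * w i) +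
        ((z k ^ n k - 1 - n k * (z k - 1)) + n k * (z k - 1 - w k)) := by ring
    rw [hid]
    have t1 : ‖(∏ j ∈ s, z j ^ n j - 1) * (z k ^ n k - 1)‖ ≤
        (C1 * (K * y)) * ((n k).natAbs * Λ ^ (2 * (n k).natAbs) * (K * y)) := by
      rw [norm_mul]
      exact mul_le_mul e2 e4 (norm_nonneg _) (by positivity)
    have t2 : ‖(z k ^ n k - 1 - n k * (z k - 1)) + n k * (z k - 1 - w k)‖ ≤
        C2 * (K * y) ^ 2 + (n k).natAbs * (K * y ^ 2) := by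
      refine (norm_add_le _ _).trans (add_le_add (e3.trans ?_) ?_)
      · gcongr
      · rw [norm_mul]
        refine mul_le_mul (le_of_eq ?_) b4 (norm_nonneg _) (by positivity)
        rw [Complex.norm_intCast, Nat.cast_natAbs, Int.cast_abs]
    calc _ ≤ (C1 * (K * y)) * ((n k).natAbs * Λ ^ (2 * (n k).natAbs) * (K * y)) + C * y ^ 2 +
          (C2 * (K * y) ^ 2 + (n k).natAbs * (K * y ^ 2)) :=
          (norm_add_le _ _).trans (add_le_add ((norm_add_le _ _).trans (add_le_add t1 e1)) t2)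
      _ = _ := by ring

end Pool.Agent.KS6_22.MF
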