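import Pool.Agent.KS6_22.MF.Glob

/-!
# The field generated by a root; bounds for the local functions

Owner helper22.
-/

set_option autoImplicit false
set_option linter.unusedSectionVars false
set_option linter.unusedVariables false
set_option linter.style.haveILetI false

open Polynomial NumberField IsDedekindDomain Filter Topology
open Pool.Agent.T6.H9.MV (Lam one_le_Lam rho0 rho0_pos rho0_lt_one prs ex Np Nt
  norm_zpow_le fmean fmean_eq fmean_comp kv qv card_kv qv_ne_zero two_le_qv summable_qv Om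
  multipliable_of_bound tprod_ne_zero' hasProd_zpow exists_sigma six_ne avg box card_box_pos)
open Pool.Agent.KS6_22.NB (Ab fib mem_fib fib_finite six_mem)

namespace Pool.Agent.KS6_22.MF

attribute [local instance] fldv

section gen

variable {F : Type} [Field F] [NumberField F] {n : ℕ}

theorem dt_theta (c : Fin n → 𝓞 F) [Fact (Irreducible (fpoly c))] : Dt (mon c) (theta c) := by
  have hirr : Irreducible (fpoly c) := Fact.out
  have hroot : algebraMap (𝓞 (Fld c)) (Fld c) (theta c) = AdjoinRoot.root (fpoly c) := rfl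
  refine dt_of_gen (mon_monic c) ?_ ?_
  · have hint : IsIntegral (𝓞 F) (theta c) := Algebra.IsIntegral.isIntegral _
    have h1 : minpoly F (algebraMap (𝓞 (Fld c)) (Fld c) (theta c)) =
        (minpoly (𝓞 F) (theta c)).map (algebraMap (𝓞 F) F) :=
      minpoly.isIntegrallyClosed_eq_field_fractions F (Fld c) hint
    have h2 : minpoly F (AdjoinRoot.root (fpoly c)) = fpoly c := by
      rw [AdjoinRoot.minpoly_root hirr.ne_zero, ((mon_monic c).map _).leadingCoeff, inv_one, C_1,
        mul_one]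
    rw [hroot, h2] at h1
    exact (map_injective (algebraMap (𝓞 F) F) (FaithfulSMul.algebraMap_injective (𝓞 F) F) h1).symm
  · rw [hroot]
    exact AdjoinRoot.adjoinRoot_eq_top

lemma isCurve_iff (c a b : Fin n → 𝓞 F) : IsCurve c a b ↔
    Irreducible (fpoly c) ∧ ¬ mon c ∣ 4 * pol a ^ 3 + 27 * pol b ^ 2 := by
  have key : ∀ [Fact (Irreducible (fpoly c))],
      4 * (aeval (theta c) (pol a)) ^ 3 + 27 * (aeval (theta c) (pol b)) ^ 2 = 0 ↔
        mon c ∣ 4 * pol a ^ 3 + 27 * pol b ^ 2 := by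
    intro _
    have h1 : 4 * (aeval (theta c) (pol a)) ^ 3 + 27 * (aeval (theta c) (pol b)) ^ 2 =
        aeval (theta c) (4 * pol a ^ 3 + 27 * pol b ^ 2) := by
      rw [map_add, map_mul, map_mul, map_pow, map_pow, map_ofNat, map_ofNat]
    rw [h1]
    constructor
    · exact (dt_theta c).min _
    · rintro ⟨Q, hQ⟩
      rw [hQ, map_mul, (dt_theta c).root, zero_mul]
  constructor
  · rintro ⟨h, h2⟩
    exact ⟨h.out, fun h3 => h2 (key.2 h3)⟩
  · rintro ⟨h, h2⟩
    exact ⟨⟨h⟩, fun h3 => by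
      haveI : Fact (Irreducible (fpoly c)) := ⟨h⟩
      exact h2 (key.1 h3)⟩

end gen

section bound

variable {F : Type} [Field F] [NumberField F] {r : ℕ}

lemma norm_prod_SF {k : Type} [Field k] {N : ℕ} {f : k[X]} (hf : f.Monic) (hN : f.natDegree = N)
    (x : k[X] → ℂ) {y C : ℝ} (hy : 0 ≤ y) (hyC : y ≤ C) (h : ∀ g ∈ SF f, ‖x g‖ ≤ y) :
    ‖∏ g ∈ SF f, (1 + x g) - 1‖ ≤ ((N : ℝ) ^ 2 * C * (1 + C) ^ N + N) * y := by
  classical
  have h1 := prod_second (SF f) x hy h
  have hc := card_SF_le hf.ne_zero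
  rw [hN] at hc
  have hc' : ((SF f).card : ℝ) ≤ N := by exact_mod_cast hc
  have h2 : ‖∑ g ∈ SF f, x g‖ ≤ N * y := by
    refine (norm_sum_le _ _).trans ((Finset.sum_le_sum h).trans ?_)
    rw [Finset.sum_const, nsmul_eq_mul]
    exact mul_le_mul_of_nonneg_right hc' hy
  have h3 : ∏ g ∈ SF f, (1 + x g) - 1 = (∏ g ∈ SF f, (1 + x g) - 1 - ∑ g ∈ SF f, x g) +
      ∑ g ∈ SF f, x g := by ring
  rw [h3]
  refine (norm_add_le _ _).trans ?_
  have hC : 0 ≤ C := hy.trans hyC
  have h4 : ((SF f).card : ℝ) ^ 2 * y ^ 2 * (1 + y) ^ (SF f).card ≤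
      ((N : ℝ) ^ 2 * C * (1 + C) ^ N) * y := by
    have q1 : (1 + y) ^ (SF f).card ≤ (1 + C) ^ N :=
      (pow_le_pow_left₀ (by linarith) (by linarith) _).trans
        (pow_le_pow_right₀ (by linarith) hc)
    have q2 : ((SF f).card : ℝ) ^ 2 ≤ (N : ℝ) ^ 2 := pow_le_pow_left₀ (Nat.cast_nonneg _) hc' 2
    calc ((SF f).card : ℝ) ^ 2 * y ^ 2 * (1 + y) ^ (SF f).card
        ≤ (N : ℝ) ^ 2 * y ^ 2 * (1 + C) ^ N :=
          mul_le_mul (mul_le_mul_of_nonneg_right q2 (sq_nonneg _)) q1
            (pow_nonneg (by linarith) _) (mul_nonneg (sq_nonneg _) (sq_nonneg _))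
      _ = (N : ℝ) ^ 2 * y * (1 + C) ^ N * y := by ring
      _ ≤ (N : ℝ) ^ 2 * C * (1 + C) ^ N * y := by gcongr
  linarith

theorem hv_bound (N : ℕ) (m : Fin r → ℤ) {s : Fin r → ℂ} (hs : s ∈ Om r (3 / 2)) :
    ∃ β : HeightOneSpectrum (𝓞 F) → ℝ, Summable β ∧ ∀ (v : HeightOneSpectrum (𝓞 F))
      (f a b : (kv v)[X]), f.Monic → f.natDegree = N → ‖hv m s v f a b - 1‖ ≤ β v := by
  obtain ⟨σ, hσ, hsσ⟩ := exists_sigma hs
  obtain ⟨C, hC0, hC⟩ := Ph_est m
  set D : ℝ := (N : ℝ) ^ 2 * C * (1 + C) ^ N + N with hD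
  have hD0 : 0 ≤ D := by positivity
  refine ⟨fun v => D * (C * (qv v : ℝ) ^ (1 / 2 - σ)), ?_, ?_⟩
  · have h1 := summable_qv (K := F) (x := σ - 1 / 2) (by linarith)
    refine ((h1.mul_left C).mul_left D).congr fun v => ?_
    have : -(σ - 1 / 2) = 1 / 2 - σ := by ring
    rw [this]
  · intro v f a b hf hN
    have hq1 : (1 : ℝ) ≤ qv v := by exact_mod_cast (by have := two_le_qv v; omega : 1 ≤ qv v)
    have hX1 : (qv v : ℝ) ^ (1 / 2 - σ) ≤ 1 :=
      Real.rpow_le_one_of_one_le_of_nonpos hq1 (by linarith)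
    unfold hv
    split_ifs with h6
    · rw [sub_self, norm_zero]
      positivity
    · have h6' := six_kv h6
      have h1 := norm_prod_SF (k := kv v) hf hN
        (fun g => Ph m s (AdjoinRoot g) (AdjoinRoot.mk g a, AdjoinRoot.mk g b) - 1)
        (y := C * (qv v : ℝ) ^ (1 / 2 - σ)) (C := C) (by positivity) (by nlinarith) (fun g hg => by
          have hg' := (mem_SF hf.ne_zero).1 hg
          haveI : Fact (Irreducible g) := ⟨hg'.1.1⟩
          haveI := adj_finite hg'.1.2.1
          refine (hC (AdjoinRoot g) (adj_six hg'.1.1 h6') s σ (by linarith) hsσ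
            (AdjoinRoot.mk g a, AdjoinRoot.mk g b)).trans (mul_le_mul_of_nonneg_left ?_ hC0)
          have h2 := pow_deg hg'.1.2.1 (x := σ - 1 / 2) (by linarith) (d := 1)
            hg'.1.1.natDegree_pos
          rw [card_kv] at h2
          have h3 : -(σ - 1 / 2) = 1 / 2 - σ := by ring
          have h4 : -((1 : ℕ) * (σ - 1 / 2)) = 1 / 2 - σ := by push_cast; ring
          rw [h3, h4] at h2
          exact h2)
      have h2 : ∏ g ∈ SF f, (1 + (Ph m s (AdjoinRoot g) (AdjoinRoot.mk g a, AdjoinRoot.mk g b) - 1)) =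
          ∏ g ∈ SF f, Ph m s (AdjoinRoot g) (AdjoinRoot.mk g a, AdjoinRoot.mk g b) :=
        Finset.prod_congr rfl fun g _ => by ring
      rw [h2] at h1
      exact h1

end bound

section sing

variable {k : Type} [Field k] [Finite k] {N : ℕ}

lemma exists_irr_factor {f : k[X]} (hf : f.Monic) (h0 : 0 < f.natDegree) :
    ∃ g : k[X], Irreducible g ∧ g.Monic ∧ g ∣ f := by
  classical
  have h1 : ¬ IsUnit f := fun h => by
    have := natDegree_eq_zero_of_isUnit h
    omega
  obtain ⟨g, hg, hgf⟩ := WfDvdMonoid.exists_irreducible_factor h1 hf.ne_zero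
  refine ⟨normalize g, (associated_normalize g).irreducible hg, monic_normalize hg.ne_zero, ?_⟩
  exact (normalize_associated g).dvd.trans hgf

/-- the reduction of one polynomial modulo one factor -/
noncomputable def toR (N : ℕ) (g : k[X]) : (Fin N → k) →+ AdjoinRoot g where
  toFun a := AdjoinRoot.mk g (pol a)
  map_zero' := by rw [pol_zero, map_zero]
  map_add' a b := by rw [pol_add, map_add]

lemma toR_surj {g : k[X]} (hg : g.Monic) (hN : g.natDegree ≤ N) : Function.Surjective (toR N g) := by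
  intro t
  obtain ⟨A, rfl⟩ := AdjoinRoot.mk_surjective t
  have hdeg : (A %ₘ g).degree < (N : WithBot ℕ) := by
    have h1 := degree_modByMonic_lt A hg
    rw [degree_eq_natDegree hg.ne_zero] at h1
    exact h1.trans_le (by exact_mod_cast hN)
  obtain ⟨a, ha⟩ := exists_pol hdeg
  refine ⟨a, ?_⟩
  change AdjoinRoot.mk g (pol a) = AdjoinRoot.mk g A
  rw [ha, AdjoinRoot.mk_eq_mk]
  have h3 : A %ₘ g - A = -(g * (A /ₘ g)) := by
    have := modByMonic_add_div A g
    linear_combination this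
  rw [h3]
  exact (dvd_mul_right _ _).neg_right

open Classical in
/-- singular curves are rare -/
lemma sing_one {c : Fin N → k} (hN : 0 < N) (h6 : (6 : k) ≠ 0) (a : Fin N → k) :
    ‖fmean (fun b : Fin N → k => if mon c ∣ 4 * pol a ^ 3 + 27 * pol b ^ 2 then (1 : ℂ) else 0)‖ ≤
      2 / (Nat.card k : ℝ) := by
  haveI := Fintype.ofFinite k
  obtain ⟨g, hg, hgm, hgc⟩ := exists_irr_factor (mon_monic c) (by rw [mon_natDegree]; exact hN)
  haveI : Fact (Irreducible g) := ⟨hg⟩
  haveI := adj_finite hgm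
  haveI := Fintype.ofFinite (AdjoinRoot g)
  have hdeg : g.natDegree ≤ N := by
    have := natDegree_le_of_dvd hgc (mon_monic c).ne_zero
    rwa [mon_natDegree] at this
  have hq : Nat.card k ≤ Nat.card (AdjoinRoot g) := by
    rw [adj_card hgm]
    exact Nat.le_self_pow hg.natDegree_pos.ne' _
  have hq0 : (0 : ℝ) < Nat.card k := by exact_mod_cast Nat.card_pos (α := k)
  set A : AdjoinRoot g := AdjoinRoot.mk g (pol a) with hA
  let G : AdjoinRoot g → ℝ := fun B => if 4 * A ^ 3 + 27 * B ^ 2 = 0 then 1 else 0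
  have h1 := fmean_comp (toR N g) (toR_surj hgm hdeg) (fun B => (G B : ℂ))
  -- bound for the mean over the residue field
  have h27 : (27 : AdjoinRoot g) ≠ 0 := by
    have h3 : (3 : AdjoinRoot g) ≠ 0 := by
      intro h
      apply adj_six hg h6
      have : (6 : AdjoinRoot g) = 2 * 3 := by norm_num
      rw [this, h, mul_zero]
    have : (27 : AdjoinRoot g) = 3 ^ 3 := by norm_num
    rw [this]
    exact pow_ne_zero _ h3
  have h2 : ∑ B, G B ≤ 2 := by
    rw [Finset.sum_boole]
    by_cases he : ∃ B₀ : AdjoinRoot g, 4 * A ^ 3 + 27 * B₀ ^ 2 = 0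
    · obtain ⟨B₀, hB₀⟩ := he
      have h3 : (Finset.univ.filter fun B : AdjoinRoot g => 4 * A ^ 3 + 27 * B ^ 2 = 0) ⊆
          {B₀, -B₀} := by
        intro B hB
        rw [Finset.mem_filter] at hB
        have h4 : 27 * ((B - B₀) * (B + B₀)) = 0 := by linear_combination hB.2 - hB₀
        rw [mul_eq_zero, or_iff_right h27, mul_eq_zero] at h4
        rw [Finset.mem_insert, Finset.mem_singleton]
        rcases h4 with h4 | h4
        · left
          exact sub_eq_zero.1 h4
        · right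
          exact eq_neg_of_add_eq_zero_left h4
      have h4 := (Finset.card_le_card h3).trans Finset.card_le_two
      exact_mod_cast h4
    · push Not at he
      rw [Finset.filter_false_of_mem fun B _ => he B]
      simp
  have hG0 : ∀ B, 0 ≤ G B := by
    intro B
    simp only [G]
    split_ifs <;> norm_num
  -- compare
  have hreal : ∀ {α : Type} [Fintype α] (f : α → ℝ), fmean (fun x => (f x : ℂ)) =
      (((∑ x, f x) / (Fintype.card α : ℝ) : ℝ) : ℂ) := by
    intro α _ f
    rw [fmean_eq]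
    push_cast
    rfl
  let H : (Fin N → k) → ℝ := fun b => if mon c ∣ 4 * pol a ^ 3 + 27 * pol b ^ 2 then 1 else 0
  have e1 : (fun b : Fin N → k => if mon c ∣ 4 * pol a ^ 3 + 27 * pol b ^ 2 then (1 : ℂ) else 0) =
      fun b => (H b : ℂ) := by
    funext b
    simp only [H]
    split_ifs <;> simp
  have hH : ∀ b, 0 ≤ H b ∧ H b ≤ G (toR N g b) := by
    intro b
    simp only [H, G]
    by_cases h : mon c ∣ 4 * pol a ^ 3 + 27 * pol b ^ 2
    · have h3 : 4 * A ^ 3 + 27 * (toR N g b) ^ 2 = 0 := by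
        have h4 : 4 * A ^ 3 + 27 * (toR N g b) ^ 2 =
            AdjoinRoot.mk g (4 * pol a ^ 3 + 27 * pol b ^ 2) := by
          rw [map_add, map_mul, map_mul, map_pow, map_pow, map_ofNat, map_ofNat]
          rfl
        rw [h4, AdjoinRoot.mk_eq_zero]
        exact hgc.trans h
      rw [if_pos h, if_pos h3]
      exact ⟨zero_le_one, le_rfl⟩
    · rw [if_neg h]
      refine ⟨le_rfl, ?_⟩
      split_ifs <;> norm_num
  have e2 : ∑ b, H b ≤ ∑ b, G (toR N g b) := Finset.sum_le_sum fun b _ => (hH b).2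
  have hcN : (0 : ℝ) < Fintype.card (Fin N → k) := by exact_mod_cast Fintype.card_pos
  rw [hreal, hreal] at h1
  have h1' := Complex.ofReal_injective h1
  rw [e1, hreal, Complex.norm_real, Real.norm_eq_abs, abs_of_nonneg
    (div_nonneg (Finset.sum_nonneg fun b _ => (hH b).1) hcN.le)]
  calc (∑ b, H b) / (Fintype.card (Fin N → k) : ℝ)
      ≤ (∑ b, G (toR N g b)) / (Fintype.card (Fin N → k) : ℝ) :=
        div_le_div_of_nonneg_right e2 hcN.le
    _ = (∑ B, G B) / (Fintype.card (AdjoinRoot g) : ℝ) := h1'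
    _ ≤ 2 / (Fintype.card (AdjoinRoot g) : ℝ) := div_le_div_of_nonneg_right h2 (by positivity)
    _ ≤ 2 / (Nat.card k : ℝ) := by
        rw [← Nat.card_eq_fintype_card]
        have : (Nat.card k : ℝ) ≤ Nat.card (AdjoinRoot g) := by exact_mod_cast hq
        gcongr

end sing

end Pool.Agent.KS6_22.MF
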