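import Pool.Agent.KS6_22.MF.AsmA

/-!
# The mean value theorem over all elliptic curves over all extensions of degree `N`

Owner helper22.
-/

set_option autoImplicit false
set_option linter.unusedSectionVars false
set_option linter.unusedVariables false
set_option linter.style.haveILetI false

open Polynomial NumberField IsDedekindDomain Filter Topology
open Pool.Agent.T6.H9.MV (Lam one_le_Lam rho0 rho0_pos rho0_lt_one prs ex Np Nt
  norm_zpow_le fmean fmean_eq fmean_comp fmean_sub kv qv card_kv qv_ne_zero two_le_qv summable_qv Om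
  multipliable_of_bound tprod_ne_zero' hasProd_zpow exists_sigma six_ne avg box card_box_pos
  mem_box el isOpen_Om ball_Om exists_delta diff_prod diff_div finite_six hasProd_Zl Zl
  tendstoUniformlyOn_prod differentiableOn_of_tendstoUniformlyOn norm_tprod_le)

namespace Pool.Agent.KS6_22.MF

attribute [local instance] fldv

section general

variable {K : Type} [Field K] [NumberField K]

lemma q_fin (X : ℝ) : {v : HeightOneSpectrum (𝓞 K) | (qv v : ℝ) ≤ X}.Finite := by
  rcases le_or_gt X 0 with hX | hX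
  · refine Set.finite_empty.subset fun v hv => ?_
    have h1 : (qv v : ℝ) ≤ X := hv
    have h2 : (0 : ℝ) < qv v := by exact_mod_cast Nat.pos_of_ne_zero (qv_ne_zero v)
    linarith
  have h1 : Summable fun v : HeightOneSpectrum (𝓞 K) => (qv v : ℝ) ^ (-(2 : ℝ)) :=
    summable_qv (by norm_num)
  have h2 : ∀ᶠ v in Filter.cofinite, (qv v : ℝ) ^ (-(2 : ℝ)) < X ^ (-(2 : ℝ)) :=
    h1.tendsto_cofinite_zero.eventually (gt_mem_nhds (by positivity))
  refine Set.Finite.subset h2 fun v hv => ?_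
  have hv' : (qv v : ℝ) ≤ X := hv
  change ¬ ((qv v : ℝ) ^ (-(2 : ℝ)) < X ^ (-(2 : ℝ)))
  rw [not_lt]
  have hpos : (0 : ℝ) < qv v := by exact_mod_cast Nat.pos_of_ne_zero (qv_ne_zero v)
  exact Real.rpow_le_rpow_of_nonpos hpos hv' (by norm_num)

lemma exists_big (X : ℝ) : ∃ v : HeightOneSpectrum (𝓞 K), (6 : 𝓞 K) ∉ v.asIdeal ∧ X < qv v := by
  classical
  obtain ⟨v, hv⟩ := exists_prime ((finite_six (K := K)).toFinset ∪ (q_fin (K := K) X).toFinset)
  rw [Finset.mem_union, not_or, Set.Finite.mem_toFinset, Set.Finite.mem_toFinset] at hv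
  exact ⟨v, hv.1, not_le.1 hv.2⟩

/-- the mean of a function over a finite set as a mean over an index set -/
lemma mean_image {α β : Type} [DecidableEq β] (T : Finset α) (f : α → β)
    (hf : Function.Injective f) (G : β → ℂ) : mean (f '' (T : Set α)) G = avg T (fun x => G (f x)) := by
  unfold mean avg
  have h1 : f '' (T : Set α) = ((T.image f : Finset β) : Set β) := by
    rw [Finset.coe_image]
  rw [h1, finsum_mem_coe_finset, Set.ncard_coe_finset, Finset.card_image_of_injective _ hf,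
    Finset.sum_image fun x _ y _ h => hf h]

lemma tendsto_uncurry {ι : Type} {N M : ℕ} :
    Tendsto (fun B : Fin M → Fin N → ι → ℕ => (fun y : (Fin M × Fin N) × ι => B y.1.1 y.1.2 y.2))
      atTop atTop :=
  tendsto_atTop.2 fun b => (eventually_ge_atTop (fun i j l => b ((i, j), l))).mono
    fun B hB y => hB y.1.1 y.1.2 y.2

end general

variable {F : Type} [Field F] [NumberField F] {ι : Type} [Fintype ι] [DecidableEq ι] {N r : ℕ}

/-- the data with given coordinates -/
noncomputable def vA (ω : Module.Basis ι ℤ (𝓞 F)) (x : (Fin 3 × Fin N) × ι → ℤ) :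
    (Fin N → 𝓞 F) × (Fin N → 𝓞 F) × (Fin N → 𝓞 F) :=
  (pt3 (vec ω x) 0, pt3 (vec ω x) 1, pt3 (vec ω x) 2)

lemma vA_inj (ω : Module.Basis ι ℤ (𝓞 F)) : Function.Injective (vA (N := N) ω) := by
  intro x y h
  have h1 : vec ω x = vec ω y := by
    apply (e3 (N := N) (𝓞 F)).injective
    exact h
  funext z
  obtain ⟨j, l⟩ := z
  have h2 := congrFun h1 j
  rw [vec_apply, vec_apply] at h2
  exact congrFun (ω.equivFun.symm.injective h2) l

lemma prod_eq (ω : Module.Basis ι ℤ (𝓞 F)) (m : Fin r → ℤ) {s : Fin r → ℂ} (hs : s ∈ Om r (3 / 2))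
    {x : (Fin 3 × Fin N) × ι → ℤ} (hx : IsCurve (vA ω x).1 (vA ω x).2.1 (vA ω x).2.2) :
    ∏' v : HeightOneSpectrum (𝓞 F), hA m s v (rd v (vec ω x)) =
      ∏ j, Lfn (vA ω x).1 (vA ω x).2.1 (vA ω x).2.2 (s j) ^ m j := by
  have hirr := ((isCurve_iff _ _ _).1 hx).1
  haveI : Fact (Irreducible (fpoly (vA ω x).1)) := ⟨hirr⟩
  have h1 := hasProd_hv (dt_theta (vA ω x).1) (pol (vA ω x).2.1) (pol (vA ω x).2.2) m hs
  have h2 : ∀ j, Lfn (vA ω x).1 (vA ω x).2.1 (vA ω x).2.2 (s j) =
      Lser (6 * aeval (theta (vA ω x).1) (derivative (mon (vA ω x).1)))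
        (aeval (theta (vA ω x).1) (pol (vA ω x).2.1))
        (aeval (theta (vA ω x).1) (pol (vA ω x).2.2)) (s j) := by
    intro j
    unfold Lfn
    rw [dif_pos hirr]
  rw [Finset.prod_congr rfl fun j _ => by rw [h2 j], ← h1.tprod_eq]
  refine tprod_congr fun v => ?_
  unfold hA fb
  rw [mon_map, pol_map, pol_map]
  rfl

open Classical in
lemma avg_mono {α : Type} (T : Finset α) {f g : α → ℝ} (h0 : ∀ x, 0 ≤ f x) (h : ∀ x, f x ≤ g x) :
    ‖avg T (fun x => (f x : ℂ))‖ ≤ ‖avg T (fun x => (g x : ℂ))‖ := by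
  have hreal : ∀ F : α → ℝ, avg T (fun x => (F x : ℂ)) =
      (((∑ x ∈ T, F x) / T.card : ℝ) : ℂ) := by
    intro F
    unfold avg
    push_cast
    rfl
  have hc : (0 : ℝ) ≤ T.card := Nat.cast_nonneg _
  rw [hreal, hreal, Complex.norm_real, Complex.norm_real, Real.norm_eq_abs, Real.norm_eq_abs,
    abs_of_nonneg (div_nonneg (Finset.sum_nonneg fun x _ => h0 x) hc),
    abs_of_nonneg (div_nonneg (Finset.sum_nonneg fun x _ => (h0 x).trans (h x)) hc)]
  exact div_le_div_of_nonneg_right (Finset.sum_le_sum fun x _ => h x) hc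

open Classical in
/-- singular curves have density zero -/
lemma sing_density (ω : Module.Basis ι ℤ (𝓞 F)) (hN : 0 < N) :
    Tendsto (fun B : (Fin 3 × Fin N) × ι → ℕ => avg (box B) (fun x =>
      if mon (vA ω x).1 ∣ 4 * pol (vA ω x).2.1 ^ 3 + 27 * pol (vA ω x).2.2 ^ 2 then (1 : ℂ) else 0))
      atTop (𝓝 0) := by
  rw [Metric.tendsto_nhds]
  intro ε hε
  obtain ⟨v, h6, hv⟩ := exists_big (K := F) (4 / ε)
  have h6' := six_kv h6
  have hq0 : (0 : ℝ) < qv v := by exact_mod_cast Nat.pos_of_ne_zero (qv_ne_zero v)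
  let G : (Fin 3 × Fin N → kv v) → ℝ := fun t =>
    if mon (pt3 t 0) ∣ 4 * pol (pt3 t 1) ^ 3 + 27 * pol (pt3 t 2) ^ 2 then 1 else 0
  let g : ∀ w : HeightOneSpectrum (𝓞 F), (Fin 3 × Fin N → kv w) → ℂ := fun w t =>
    if mon (pt3 t 0) ∣ 4 * pol (pt3 t 1) ^ 3 + 27 * pol (pt3 t 2) ^ 2 then 1 else 0
  have hG : g v = fun t => (G t : ℂ) := by
    funext t
    simp only [g, G]
    split_ifs <;> simp
  have h1 := tendsto_fin (J := Fin 3 × Fin N) ω g {v}
  simp only [Finset.prod_singleton] at h1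
  have h2 : ‖fmean (g v)‖ < ε / 2 := by
    have h3 : fmean (g v) = fmean fun c => fmean fun a => fmean fun b : Fin N → kv v =>
        if mon c ∣ 4 * pol a ^ 3 + 27 * pol b ^ 2 then (1 : ℂ) else 0 :=
      fmean_e3 (N := N) (k := kv v) (fun c a b =>
        if mon c ∣ 4 * pol a ^ 3 + 27 * pol b ^ 2 then (1 : ℂ) else 0)
    rw [h3]
    have h4 : (2 : ℝ) / (Nat.card (kv v) : ℝ) < ε / 2 := by
      rw [card_kv, div_lt_div_iff₀ hq0 (by norm_num)]
      rw [div_lt_iff₀ hε] at hv
      linarith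
    refine lt_of_le_of_lt ?_ h4
    exact norm_fmean_le fun c => norm_fmean_le fun a => sing_one hN h6' a
  filter_upwards [(Metric.tendsto_nhds.1 h1) (ε / 2) (half_pos hε)] with B hB
  have h3 : ‖avg (box B) (fun x => g v (rd v (vec ω x)))‖ < ε := by
    have h4 := norm_sub_norm_le (avg (box B) (fun x => g v (rd v (vec ω x)))) (fmean (g v))
    rw [dist_eq_norm] at hB
    linarith
  rw [dist_zero_right]
  refine lt_of_le_of_lt ?_ h3
  let H : ((Fin 3 × Fin N) × ι → ℤ) → ℝ := fun x =>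
    if mon (vA ω x).1 ∣ 4 * pol (vA ω x).2.1 ^ 3 + 27 * pol (vA ω x).2.2 ^ 2 then 1 else 0
  have e1 : (fun x => if mon (vA ω x).1 ∣ 4 * pol (vA ω x).2.1 ^ 3 + 27 * pol (vA ω x).2.2 ^ 2 then
      (1 : ℂ) else 0) = fun x => (H x : ℂ) := by
    funext x
    simp only [H]
    split_ifs <;> simp
  rw [e1, hG]
  refine avg_mono (box B) (fun x => ?_) fun x => ?_
  · simp only [H]
    split_ifs <;> norm_num
  · simp only [H, G]
    by_cases h : mon (vA ω x).1 ∣ 4 * pol (vA ω x).2.1 ^ 3 + 27 * pol (vA ω x).2.2 ^ 2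
    · have h5 : mon (pt3 (rd v (vec ω x)) 0) ∣
          4 * pol (pt3 (rd v (vec ω x)) 1) ^ 3 + 27 * pol (pt3 (rd v (vec ω x)) 2) ^ 2 := by
        have h6 := Polynomial.map_dvd (Ideal.Quotient.mk v.asIdeal) h
        rw [mon_map, Polynomial.map_add, Polynomial.map_mul, Polynomial.map_mul,
          Polynomial.map_pow, Polynomial.map_pow, pol_map, pol_map, Polynomial.map_ofNat,
          Polynomial.map_ofNat] at h6
        exact h6
      rw [if_pos h, if_pos h5]
    · rw [if_neg h]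
      split_ifs <;> norm_num

open Classical in
/-- almost all data define elliptic curves -/
lemma curve_density (ω : Module.Basis ι ℤ (𝓞 F)) (hN : 0 < N) :
    Tendsto (fun B : (Fin 3 × Fin N) × ι → ℕ => avg (box B) (fun x =>
      if IsCurve (vA ω x).1 (vA ω x).2.1 (vA ω x).2.2 then (0 : ℂ) else 1)) atTop (𝓝 0) := by
  have he : Function.Injective (fun i : Fin N => ((0 : Fin 3), i)) := by
    intro i j h
    exact (Prod.mk.injEq _ _ _ _ ▸ h).2
  have h1 := irr_density (J := Fin 3 × Fin N) ω hN he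
  have h2 := sing_density (N := N) ω hN
  have h3 := h1.add h2
  rw [add_zero] at h3
  have h4 := tendsto_zero_iff_norm_tendsto_zero.1 h3
  refine squeeze_zero_norm (fun B => ?_) h4
  let H1 : ((Fin 3 × Fin N) × ι → ℤ) → ℝ := fun x =>
    if IsCurve (vA ω x).1 (vA ω x).2.1 (vA ω x).2.2 then 0 else 1
  let H2 : ((Fin 3 × Fin N) × ι → ℤ) → ℝ := fun x =>
    (if Irreducible (fpoly (vA ω x).1) then 0 else 1) +
      if mon (vA ω x).1 ∣ 4 * pol (vA ω x).2.1 ^ 3 + 27 * pol (vA ω x).2.2 ^ 2 then 1 else 0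
  have e1 : (fun x => if IsCurve (vA ω x).1 (vA ω x).2.1 (vA ω x).2.2 then (0 : ℂ) else 1) =
      fun x => (H1 x : ℂ) := by
    funext x
    simp only [H1]
    split_ifs <;> simp
  have e2 : avg (box B) (fun x =>
      if Irreducible ((mon fun i => vec ω x ((0 : Fin 3), i)).map (algebraMap (𝓞 F) F)) then
        (0 : ℂ) else 1) + avg (box B) (fun x =>
      if mon (vA ω x).1 ∣ 4 * pol (vA ω x).2.1 ^ 3 + 27 * pol (vA ω x).2.2 ^ 2 then (1 : ℂ) else 0) =
      avg (box B) (fun x => (H2 x : ℂ)) := by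
    unfold avg
    rw [← add_div, ← Finset.sum_add_distrib]
    congr 1
    refine Finset.sum_congr rfl fun x _ => ?_
    simp only [H2]
    push_cast
    congr 1
    · have h5 : ((mon fun i => vec ω x ((0 : Fin 3), i)).map (algebraMap (𝓞 F) F)) =
          fpoly (vA ω x).1 := rfl
      rw [h5]
      split_ifs <;> simp
    · split_ifs <;> simp
  rw [e1, e2]
  refine avg_mono (box B) (fun x => ?_) fun x => ?_
  · simp only [H1]
    split_ifs <;> norm_num
  · simp only [H1, H2]
    by_cases hc : IsCurve (vA ω x).1 (vA ω x).2.1 (vA ω x).2.2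
    · rw [if_pos hc]
      split_ifs <;> norm_num
    · rw [if_neg hc]
      rw [isCurve_iff, not_and_or, not_not] at hc
      rcases hc with hc | hc
      · rw [if_neg hc]
        split_ifs <;> norm_num
      · rw [if_pos hc]
        split_ifs <;> norm_num

open Classical in
lemma fam_eq (ω : Module.Basis ι ℤ (𝓞 F)) (B : Fin 3 → Fin N → ι → ℕ) :
    Fam ω B = vA ω '' (((box (fun y : (Fin 3 × Fin N) × ι => B y.1.1 y.1.2 y.2)).filter fun x =>
      IsCurve (vA ω x).1 (vA ω x).2.1 (vA ω x).2.2 : Finset _) : Set _) := by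
  ext p
  rw [Set.mem_image]
  constructor
  · rintro ⟨h0, h1, h2, h3⟩
    obtain ⟨x, hx⟩ := vec_surj (J := Fin 3 × Fin N) ω ((e3 (N := N) (𝓞 F)).symm p)
    have hp : vA ω x = p := by
      change e3 (N := N) (𝓞 F) (vec ω x) = p
      rw [hx, Equiv.apply_symm_apply]
    refine ⟨x, ?_, hp⟩
    rw [Finset.mem_coe, Finset.mem_filter, hp, mem_box]
    refine ⟨?_, h3⟩
    rintro ⟨⟨i, j⟩, l⟩
    have hr : ∀ y : Fin 3 × Fin N, ω.repr (vec ω x y) l = x (y, l) := by
      intro y
      rw [vec_apply, ← Module.Basis.equivFun_apply]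
      exact congrFun (ω.equivFun.apply_symm_apply fun i => x (y, i)) l
    rw [← hr (i, j)]
    rw [← hp] at h0 h1 h2
    fin_cases i
    · exact h0 j l
    · exact h1 j l
    · exact h2 j l
  · rintro ⟨x, hx, rfl⟩
    rw [Finset.mem_coe, Finset.mem_filter, mem_box] at hx
    have hr : ∀ (y : Fin 3 × Fin N) (l : ι), ω.repr (vec ω x y) l = x (y, l) := by
      intro y l
      rw [vec_apply, ← Module.Basis.equivFun_apply]
      exact congrFun (ω.equivFun.apply_symm_apply fun i => x (y, i)) l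
    refine ⟨fun i l => ?_, fun i l => ?_, fun i l => ?_, hx.2⟩
    · change |ω.repr (vec ω x (0, i)) l| ≤ _
      rw [hr]
      exact hx.1 ((0, i), l)
    · change |ω.repr (vec ω x (1, i)) l| ≤ _
      rw [hr]
      exact hx.1 ((1, i), l)
    · change |ω.repr (vec ω x (2, i)) l| ≤ _
      rw [hr]
      exact hx.1 ((2, i), l)

/-- **The mean value theorem.** -/
theorem tendsto_mainA (ω : Module.Basis ι ℤ (𝓞 F)) (hN : 0 < N) (m : Fin r → ℤ) {s : Fin r → ℂ}
    (hs : s ∈ Om r (3 / 2)) :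
    Tendsto (fun B : Fin 3 → Fin N → ι → ℕ => mean (Fam ω B)
      fun p => ∏ j, Lfn p.1 p.2.1 p.2.2 (s j) ^ m j) atTop
      (𝓝 ((∏ p ∈ prs r, dedekindZeta F (s p.1 + s p.2 - 1) ^ ex m p) * HA F N m s)) := by
  classical
  obtain ⟨β, hβ, hb⟩ := hv_bound (F := F) N m hs
  have hb' : ∀ (v : HeightOneSpectrum (𝓞 F)) (t : Fin 3 × Fin N → kv v), ‖hA m s v t - 1‖ ≤ β v :=
    fun v t => hb v _ _ _ (mon_monic _) (mon_natDegree _)
  have h1 := tendsto_all (J := Fin 3 × Fin N) ω (fun v t => hA m s v t) hβ hb'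
  rw [limA hN m hs] at h1
  have h2 := tendsto_sub (fun B : (Fin 3 × Fin N) × ι → ℕ => card_box_pos B)
    (fun x => IsCurve (vA ω x).1 (vA ω x).2.1 (vA ω x).2.2)
    (fun x => norm_tprod_le hβ (fun v => hb' v (rd v (vec ω x)))) h1 (curve_density ω hN)
  have h3 := h2.comp (tendsto_uncurry (ι := ι) (N := N) (M := 3))
  refine h3.congr fun B => ?_
  rw [fam_eq, mean_image _ _ (vA_inj ω)]
  simp only [Function.comp_apply]
  unfold avg
  congr 1
  refine Finset.sum_congr rfl fun x hx => ?_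
  exact prod_eq ω m hs (Finset.mem_filter.1 hx).2

end Pool.Agent.KS6_22.MF
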