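import Pool.Agent.KS6_22.MF.AsmB

/-!
# The mean value theorem over all extensions of degree `N`, for one elliptic curve

Owner helper22.
-/

set_option autoImplicit false
set_option linter.unusedSectionVars false
set_option linter.unusedVariables false
set_option linter.style.haveILetI false

open Polynomial NumberField IsDedekindDomain Filter Topology
open Pool.Agent.T6.H9.MV (Lam one_le_Lam rho0 rho0_pos rho0_lt_one prs ex Np Nt LD
  norm_zpow_le fmean fmean_eq fmean_comp fmean_sub kv qv card_kv qv_ne_zero two_le_qv summable_qv Om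
  multipliable_of_bound tprod_ne_zero' hasProd_zpow exists_sigma six_ne avg box card_box_pos
  mem_box el isOpen_Om ball_Om exists_delta diff_prod diff_div finite_six hasProd_Zl Zl
  hasProd_zeta zeta_ne_zero
  tendstoUniformlyOn_prod differentiableOn_of_tendstoUniformlyOn norm_tprod_le)
open Pool.Agent.KS6_22.NB (Ab fib mem_fib fib_finite six_mem)

namespace Pool.Agent.KS6_22.MF

attribute [local instance] fldv

section sym

variable {F : Type} [Field F] [NumberField F] {N r : ℕ}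

lemma symLocal_eq {k : Type} [Field k] (t : k × k) (u : ℂ) : symLocal k t u = (SI k t u)⁻¹ := by
  unfold symLocal SI LD trk
  congr 2
  push_cast
  ring

open Classical in
lemma symFactor_eq (a b : 𝓞 F) (v : HeightOneSpectrum (𝓞 F)) (u : ℂ) :
    symFactor a b v u = if 6 * (4 * a ^ 3 + 27 * b ^ 2) ∈ v.asIdeal then 1 else
      (SI (kv v) (tv a b v) u)⁻¹ := by
  unfold symFactor
  split_ifs with h
  · rfl
  · exact symLocal_eq (k := kv v) (tv a b v) u

lemma hasProd_LSym (a b : 𝓞 F) {s s' : ℂ} (hs : 1 < s.re) (hs' : 1 < s'.re) :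
    HasProd (fun v => symFactor a b v (s + s')) (LSym a b (s + s')) ∧ LSym a b (s + s') ≠ 0 := by
  classical
  obtain ⟨σ, hσ, h1, h2⟩ : ∃ σ : ℝ, 1 < σ ∧ σ ≤ s.re ∧ σ ≤ s'.re :=
    ⟨min s.re s'.re, lt_min hs hs', min_le_left _ _, min_le_right _ _⟩
  have hL := one_le_Lam rho0
  have hL0 : 0 < Lam rho0 ^ 2 := by positivity
  have hβ : Summable fun v : HeightOneSpectrum (𝓞 F) =>
      7 * Lam rho0 ^ 2 * (qv v : ℝ) ^ (1 - 2 * σ) := by
    have h3 := summable_qv (K := F) (x := 2 * σ - 1) (by linarith)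
    refine (h3.mul_left (7 * Lam rho0 ^ 2)).congr fun v => ?_
    have : -(2 * σ - 1) = 1 - 2 * σ := by ring
    rw [this]
  have key : ∀ v : HeightOneSpectrum (𝓞 F), ‖symFactor a b v (s + s') - 1‖ ≤
      7 * Lam rho0 ^ 2 * (qv v : ℝ) ^ (1 - 2 * σ) ∧ symFactor a b v (s + s') ≠ 0 := by
    intro v
    rw [symFactor_eq]
    split_ifs with h
    · rw [sub_self, norm_zero]
      exact ⟨by positivity, one_ne_zero⟩
    · obtain ⟨b1, b2, b3, -⟩ := SI_bounds (six_kv (six_of h)) (tv a b v) (σ := σ) (by linarith) h1 h2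
      have hne : SI (kv v) (tv a b v) (s + s') ≠ 0 :=
        norm_pos_iff.1 (lt_of_lt_of_le (by positivity) b1)
      refine ⟨?_, inv_ne_zero hne⟩
      have hid : (SI (kv v) (tv a b v) (s + s'))⁻¹ - 1 =
          -((SI (kv v) (tv a b v) (s + s') - 1) * (SI (kv v) (tv a b v) (s + s'))⁻¹) := by
        field_simp
        ring
      rw [hid, norm_neg, norm_mul, norm_inv]
      have h3 : ‖SI (kv v) (tv a b v) (s + s')‖⁻¹ ≤ Lam rho0 ^ 2 := inv_le_of_inv_le₀ hL0 b1
      rw [card_kv, rpow_sq_eq (Nat.cast_nonneg _)] at b3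
      calc _ ≤ (7 * (qv v : ℝ) ^ (1 - 2 * σ)) * Lam rho0 ^ 2 :=
            mul_le_mul b3 h3 (inv_nonneg.2 (norm_nonneg _)) (by positivity)
        _ = _ := by ring
  exact ⟨(multipliable_of_bound hβ fun v => (key v).1).hasProd,
    tprod_ne_zero' hβ (fun v => (key v).1) fun v => (key v).2⟩

lemma hasProd_yB (a b : 𝓞 F) (m : Fin r → ℤ) {s : Fin r → ℂ} (hs : s ∈ Om r 1) :
    HasProd (fun v : HeightOneSpectrum (𝓞 F) => (yB a b m s v)⁻¹)
      (∏ p ∈ prs r, LSym a b (s p.1 + s p.2) ^ ex (fun j => - m j) p) := by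
  classical
  have h1 : ∀ p ∈ prs r, HasProd (fun v : HeightOneSpectrum (𝓞 F) =>
      symFactor a b v (s p.1 + s p.2) ^ ex (fun j => - m j) p)
      (LSym a b (s p.1 + s p.2) ^ ex (fun j => - m j) p) := by
    intro p _
    obtain ⟨h2, h3⟩ := hasProd_LSym a b (hs p.1) (hs p.2)
    exact hasProd_zpow h2 h3 _
  refine (hasProd_prod h1).congr_fun fun v => ?_
  unfold yB Yk
  by_cases h : 6 * (4 * a ^ 3 + 27 * b ^ 2) ∈ v.asIdeal
  · rw [if_pos h, inv_one]
    symm
    refine Finset.prod_eq_one fun p _ => ?_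
    rw [symFactor_eq, if_pos h, one_zpow]
  · rw [if_neg h, ← Finset.prod_inv_distrib]
    refine Finset.prod_congr rfl fun p _ => ?_
    rw [symFactor_eq, if_neg h, inv_zpow]

lemma hasProd_pB (a b : 𝓞 F) (m : Fin r → ℤ) {s : Fin r → ℂ} (hs : s ∈ Om r (3 / 2)) :
    HasProd (fun v : HeightOneSpectrum (𝓞 F) => pB a b m s v) (∏ j, Lser 6 a b (s j) ^ m j) := by
  classical
  have h1 := hasProd_pow (δ := (6 : 𝓞 F)) (fun w h => h) (α := a) (β := b) m hs
  refine h1.congr_fun fun v => ?_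
  unfold pB
  by_cases h : (6 : 𝓞 F) ∈ v.asIdeal
  · rw [if_pos h]
    refine (Finset.prod_eq_one fun j _ => ?_).symm
    unfold factorOff
    rw [if_pos h, one_zpow]
  · rw [if_neg h]
    unfold Ph
    refine Finset.prod_congr rfl fun j _ => ?_
    unfold factorOff
    rw [if_neg h]
    rfl

/-- the factorisation of the limit -/
lemma limB {a b : 𝓞 F} (hab : 4 * a ^ 3 + 27 * b ^ 2 ≠ 0) (hN : 2 ≤ N) (m : Fin r → ℤ)
    {s : Fin r → ℂ} (hs : s ∈ Om r (3 / 2)) :
    ∏' v : HeightOneSpectrum (𝓞 F), fmean (hB (N := N) a b m s v) =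
      (∏ j, Lser 6 a b (s j) ^ m j) *
        (((∏ p ∈ prs r, dedekindZeta F (s p.1 + s p.2 - 1) ^ ex m p) *
        (∏ p ∈ prs r, LSym a b (s p.1 + s p.2) ^ ex (fun j => - m j) p)) * HB a b N m s) := by
  classical
  obtain ⟨β, hβ, hb⟩ := lB_bound hab hN m (δ := 1 / 2) (by norm_num)
  have h1 : HasProd (fun v : HeightOneSpectrum (𝓞 F) => lB a b N m s v) (HB a b N m s) :=
    (multipliable_of_bound hβ fun v => hb s (fun k => by linarith [hs k]) v).hasProd
  have hs1 : s ∈ Om r 1 := fun k => by linarith [hs k]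
  have h2 := (hasProd_pB a b m hs).mul (((hasProd_Zl (K := F) m hs).mul (hasProd_yB a b m hs1)).mul h1)
  rw [← h2.tprod_eq]
  refine tprod_congr fun v => ?_
  rw [fmean_hB]
  have hs' : ∀ j, 3 / 4 ≤ (s j).re := fun j => by linarith [hs j]
  have hZ : Zk m s (qv v) ≠ 0 := Zk_ne m hs' (two_le_qv v)
  have hZ' : Zl m s v = Zk m s (qv v) := rfl
  have hy : yB a b m s v ≠ 0 := by
    unfold yB
    split_ifs with h
    · exact one_ne_zero
    · exact Yk_ne m hs' (six_kv (six_of h)) _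
  have hp : pB a b m s v ≠ 0 := by
    unfold pB
    split_ifs with h
    · exact one_ne_zero
    · exact Ph_ne m hs' (six_kv h) _
  rw [hZ']
  unfold lB
  field_simp

lemma hasProd_Zk (m : Fin r → ℤ) {s : Fin r → ℂ} (hs : s ∈ Om r 1) :
    HasProd (fun v : HeightOneSpectrum (𝓞 F) => (Zk m s (qv v))⁻¹)
      (∏ p ∈ prs r, dedekindZeta F (s p.1 + s p.2 - 1) ^ ex m p) := by
  have h1 : ∀ p ∈ prs r,
      HasProd (fun v : HeightOneSpectrum (𝓞 F) =>
        ((1 - (qv v : ℂ) ^ (-(s p.1 + s p.2 - 1)))⁻¹) ^ ex m p)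
        (dedekindZeta F (s p.1 + s p.2 - 1) ^ ex m p) := by
    intro p _
    have hw : 1 < (s p.1 + s p.2 - 1).re := by
      have := hs p.1
      have := hs p.2
      simp only [Complex.sub_re, Complex.add_re, Complex.one_re]
      linarith
    exact hasProd_zpow (hasProd_zeta hw) (zeta_ne_zero hw) _
  refine (hasProd_prod h1).congr_fun fun v => ?_
  unfold Zk
  rw [← Finset.prod_inv_distrib]
  refine Finset.prod_congr rfl fun p _ => ?_
  rw [inv_zpow]

/-- the mean of the quotients -/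
noncomputable def RB (a b : 𝓞 F) (N : ℕ) (m : Fin r → ℤ) (s : Fin r → ℂ) : ℂ :=
  ∏' v : HeightOneSpectrum (𝓞 F), eB a b N m s v / pB a b m s v

theorem rB_bound (a b : 𝓞 F) (hN : 0 < N) (m : Fin r → ℤ) {δ : ℝ} (hδ : 0 < δ) :
    ∃ β : HeightOneSpectrum (𝓞 F) → ℝ, Summable β ∧
      ∀ s : Fin r → ℂ, (∀ j, 1 + δ < (s j).re) → ∀ v,
        ‖eB a b N m s v / pB a b m s v - 1‖ ≤ β v := by
  classical
  obtain ⟨C1, hC1, h1⟩ := EB_est hN m
  have hL := one_le_Lam rho0
  refine ⟨fun v => (C1 * Lam rho0 ^ Nt m) *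
    ((qv v : ℝ) ^ (-(1 + 2 * δ)) + (qv v : ℝ) ^ (-(3 / 2 + δ))), ?_, ?_⟩
  · refine Summable.mul_left _ (Summable.add ?_ ?_)
    · exact summable_qv (by linarith)
    · exact summable_qv (by linarith)
  · intro s hs v
    have hs' : ∀ j, 3 / 4 ≤ (s j).re := fun j => by linarith [hs j]
    beta_reduce
    unfold eB pB
    by_cases h6 : (6 : 𝓞 F) ∈ v.asIdeal
    · rw [if_pos h6, if_pos h6, div_one, sub_self, norm_zero]
      positivity
    · rw [if_neg h6, if_neg h6]
      have h6' := six_kv h6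
      have e1 := h1 (kv v) h6' s (1 + δ) (by linarith) (fun j => (hs j).le) (tv a b v)
      rw [card_kv] at e1
      have e2 : (1 : ℝ) - 2 * (1 + δ) = -(1 + 2 * δ) := by ring
      have e3 : -(1 / 2 + (1 + δ)) = -(3 / 2 + δ) := by ring
      rw [e2, e3] at e1
      have hne := Ph_ne m hs' h6' (tv a b v)
      have hid : EB N m s (kv v) (tv a b v) / Ph m s (kv v) (tv a b v) - 1 =
          (EB N m s (kv v) (tv a b v) - Ph m s (kv v) (tv a b v)) *
            (Ph m s (kv v) (tv a b v))⁻¹ := by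
        field_simp
      rw [hid, norm_mul]
      have h3 : ‖(Ph m s (kv v) (tv a b v))⁻¹‖ ≤ Lam rho0 ^ Nt m := by
        rw [Ph_inv]
        have h3 := Ph_norm (fun j => - m j) hs' h6' (tv a b v)
        have h4 : Nt (fun j => - m j) = Nt m := by
          unfold Nt
          exact Finset.sum_congr rfl fun j _ => Int.natAbs_neg _
        rwa [h4] at h3
      calc _ ≤ (C1 * ((qv v : ℝ) ^ (-(1 + 2 * δ)) + (qv v : ℝ) ^ (-(3 / 2 + δ)))) *
            Lam rho0 ^ Nt m := mul_le_mul e1 h3 (norm_nonneg _) (by positivity)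
        _ = _ := by ring

theorem RB_diff (a b : 𝓞 F) (hN : 0 < N) (m : Fin r → ℤ) :
    DifferentiableOn ℂ (RB a b N m) (Om r 1) := by
  intro x hx
  obtain ⟨δ, hδ, hxδ⟩ := exists_delta hx
  obtain ⟨β, hβ, hb⟩ := rB_bound a b hN m hδ
  have h1 : TendstoUniformlyOn (fun (D : Finset (HeightOneSpectrum (𝓞 F))) s =>
      ∏ v ∈ D, eB a b N m s v / pB a b m s v) (RB a b N m) atTop (Om r (1 + δ)) :=
    tendstoUniformlyOn_prod hβ fun v s hs => hb s hs v
  have h2 := differentiableOn_of_tendstoUniformlyOn (U := Om r (1 + δ))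
    (V := Om r (1 + δ + δ)) hδ (isOpen_Om _ _) (fun y hy => ball_Om hy) (fun D => by
      intro y hy
      have hy' : y ∈ Om r (3 / 4) := fun k => by linarith [hy k]
      refine (diff_prod D fun v _ => ?_).differentiableWithinAt
      unfold eB pB
      by_cases h6 : (6 : 𝓞 F) ∈ v.asIdeal
      · simp only [if_pos h6]
        exact differentiableAt_const _
      · simp only [if_neg h6]
        have h7 : (fun s => EB N m s (kv v) (tv a b v) / Ph m s (kv v) (tv a b v)) =
            fun s => EB N m s (kv v) (tv a b v) * Ph (fun j => - m j) s (kv v) (tv a b v) := by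
          funext s
          rw [div_eq_mul_inv, Ph_inv]
        rw [h7]
        exact (EB_diff m hy' (six_kv h6) _).mul (Ph_diff _ hy' (six_kv h6) _)) h1
  exact ((h2 x hxδ).differentiableAt ((isOpen_Om _ _).mem_nhds hxδ)).differentiableWithinAt

/-- the factorisation for `Re s > 1` -/
lemma RB_eq {a b : 𝓞 F} (hab : 4 * a ^ 3 + 27 * b ^ 2 ≠ 0) (hN : 2 ≤ N) (m : Fin r → ℤ)
    {s : Fin r → ℂ} (hs : s ∈ Om r 1) :
    RB a b N m s = ((∏ p ∈ prs r, dedekindZeta F (s p.1 + s p.2 - 1) ^ ex m p) *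
        (∏ p ∈ prs r, LSym a b (s p.1 + s p.2) ^ ex (fun j => - m j) p)) * HB a b N m s := by
  classical
  obtain ⟨β, hβ, hb⟩ := lB_bound hab hN m (δ := 1 / 6) (by norm_num)
  have h1 : HasProd (fun v : HeightOneSpectrum (𝓞 F) => lB a b N m s v) (HB a b N m s) :=
    (multipliable_of_bound hβ fun v => hb s (fun k => by
      have := hs k
      norm_num
      exact this) v).hasProd
  have h2 := ((hasProd_Zk (F := F) m hs).mul (hasProd_yB a b m hs)).mul h1
  rw [← h2.tprod_eq]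
  refine tprod_congr fun v => ?_
  have hs' : ∀ j, 3 / 4 ≤ (s j).re := fun j => by linarith [hs j]
  have hZ : Zk m s (qv v) ≠ 0 := Zk_ne m hs' (two_le_qv v)
  have hy : yB a b m s v ≠ 0 := by
    unfold yB
    split_ifs with h
    · exact one_ne_zero
    · exact Yk_ne m hs' (six_kv (six_of h)) _
  unfold lB
  field_simp

end sym

section main

variable {F : Type} [Field F] [NumberField F] {ι : Type} [Fintype ι] [DecidableEq ι] {N r : ℕ}

lemma prod_eqB (ω : Module.Basis ι ℤ (𝓞 F)) (a b : 𝓞 F) (m : Fin r → ℤ) {s : Fin r → ℂ}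
    (hs : s ∈ Om r (3 / 2)) {x : Fin N × ι → ℤ} (hirr : Irreducible (fpoly (vec ω x))) :
    ∏' v : HeightOneSpectrum (𝓞 F), hB a b m s v (rd v (vec ω x)) =
      ∏ j, Lbase a b (vec ω x) (s j) ^ m j := by
  haveI : Fact (Irreducible (fpoly (vec ω x))) := ⟨hirr⟩
  have h1 := hasProd_hv (dt_theta (vec ω x)) (C a) (C b) m hs
  have h2 : ∀ j, Lbase a b (vec ω x) (s j) =
      Lser (6 * aeval (theta (vec ω x)) (derivative (mon (vec ω x))))
        (aeval (theta (vec ω x)) (C a)) (aeval (theta (vec ω x)) (C b)) (s j) := by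
    intro j
    unfold Lbase
    rw [dif_pos hirr, aeval_C, aeval_C]
  rw [Finset.prod_congr rfl fun j _ => by rw [h2 j], ← h1.tprod_eq]
  refine tprod_congr fun v => ?_
  unfold hB fb tv
  rw [mon_map, map_C, map_C]
  rfl

lemma vec_inj (ω : Module.Basis ι ℤ (𝓞 F)) :
    Function.Injective (vec ω : (Fin N × ι → ℤ) →+ (Fin N → 𝓞 F)) := by
  intro x y h
  funext z
  obtain ⟨j, l⟩ := z
  have h2 := congrFun h j
  rw [vec_apply, vec_apply] at h2
  exact congrFun (ω.equivFun.symm.injective h2) l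

lemma tendsto_uncurry1 :
    Tendsto (fun B : Fin N → ι → ℕ => (fun y : Fin N × ι => B y.1 y.2)) atTop atTop :=
  tendsto_atTop.2 fun b => (eventually_ge_atTop (fun j l => b (j, l))).mono
    fun B hB y => hB y.1 y.2

open Classical in
lemma famB_eq (ω : Module.Basis ι ℤ (𝓞 F)) (B : Fin N → ι → ℕ) :
    FamB ω B = (vec ω : (Fin N × ι → ℤ) →+ (Fin N → 𝓞 F)) ''
      (((box (fun y : Fin N × ι => B y.1 y.2)).filter fun x =>
        Irreducible (fpoly (vec ω x)) : Finset _) : Set _) := by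
  ext p
  rw [Set.mem_image]
  constructor
  · rintro ⟨h0, h3⟩
    obtain ⟨x, hx⟩ := vec_surj (J := Fin N) ω p
    refine ⟨x, ?_, hx⟩
    rw [Finset.mem_coe, Finset.mem_filter, hx, mem_box]
    refine ⟨?_, h3⟩
    rintro ⟨j, l⟩
    have hr : ω.repr (vec ω x j) l = x (j, l) := by
      rw [vec_apply, ← Module.Basis.equivFun_apply]
      exact congrFun (ω.equivFun.apply_symm_apply fun i => x (j, i)) l
    rw [← hr, hx]
    exact h0 j l
  · rintro ⟨x, hx, rfl⟩
    rw [Finset.mem_coe, Finset.mem_filter, mem_box] at hx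
    refine ⟨fun j l => ?_, hx.2⟩
    have hr : ω.repr (vec ω x j) l = x (j, l) := by
      rw [vec_apply, ← Module.Basis.equivFun_apply]
      exact congrFun (ω.equivFun.apply_symm_apply fun i => x (j, i)) l
    rw [hr]
    exact hx.1 (j, l)

/-- **The mean value theorem for one curve.** -/
theorem tendsto_mainB (ω : Module.Basis ι ℤ (𝓞 F)) {a b : 𝓞 F} (hab : 4 * a ^ 3 + 27 * b ^ 2 ≠ 0)
    (hN : 2 ≤ N) (m : Fin r → ℤ) {s : Fin r → ℂ} (hs : s ∈ Om r (3 / 2)) :
    Tendsto (fun B : Fin N → ι → ℕ => mean (FamB ω B) fun c => ∏ j, Lbase a b c (s j) ^ m j) atTop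
      (𝓝 ((∏ j, Lser 6 a b (s j) ^ m j) *
        (((∏ p ∈ prs r, dedekindZeta F (s p.1 + s p.2 - 1) ^ ex m p) *
        (∏ p ∈ prs r, LSym a b (s p.1 + s p.2) ^ ex (fun j => - m j) p)) * HB a b N m s))) := by
  classical
  obtain ⟨β, hβ, hb⟩ := hv_bound (F := F) N m hs
  have hb' : ∀ (v : HeightOneSpectrum (𝓞 F)) (t : Fin N → kv v), ‖hB a b m s v t - 1‖ ≤ β v :=
    fun v t => hb v _ _ _ (mon_monic _) (mon_natDegree _)
  have h1 := tendsto_all (J := Fin N) ω (fun v t => hB a b m s v t) hβ hb'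
  rw [limB hab hN m hs] at h1
  have hden : Tendsto (fun B : Fin N × ι → ℕ => avg (box B) (fun x =>
      if Irreducible (fpoly (vec ω x)) then (0 : ℂ) else 1)) atTop (𝓝 0) :=
    irr_density (J := Fin N) (n := N) ω (by omega) (e := id) Function.injective_id
  have h2 := tendsto_sub (fun B : Fin N × ι → ℕ => card_box_pos B)
    (fun x => Irreducible (fpoly (vec ω x)))
    (fun x => norm_tprod_le hβ (fun v => hb' v (rd v (vec ω x)))) h1 hden
  have h3 := h2.comp (tendsto_uncurry1 (ι := ι) (N := N))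
  refine h3.congr fun B => ?_
  rw [famB_eq, mean_image _ _ (vec_inj ω)]
  simp only [Function.comp_apply]
  unfold avg
  congr 1
  refine Finset.sum_congr rfl fun x hx => ?_
  exact prod_eqB ω a b m hs (Finset.mem_filter.1 hx).2

end main

end Pool.Agent.KS6_22.MF
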