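import Pool.Agent.KS6_22.MF.Root
import Pool.Agent.KS6_22.MF.Avg

/-!
# Almost all polynomials are irreducible

Owner helper22.
-/

set_option autoImplicit false
set_option linter.unusedSectionVars false
set_option linter.unusedVariables false
set_option linter.style.haveILetI false

open Polynomial Filter Topology NumberField IsDedekindDomain
open Pool.Agent.T6.H9.MV

namespace Pool.Agent.KS6_22.MF

section count

variable {k : Type} [Field k] [Finite k] {n : ℕ}

lemma sum_pow_le {q : ℕ} (hq : 4 ≤ q) {n : ℕ} (hn : 0 < n) :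
    2 * ∑ m ∈ Finset.Icc 1 (n / 2), q ^ m ≤ q ^ n := by
  have h1 : ∀ M : ℕ, ∑ m ∈ Finset.Icc 1 M, q ^ m ≤ 2 * q ^ M := by
    intro M
    induction M with
    | zero => simp
    | succ M ih =>
      rw [Finset.sum_Icc_succ_top (by omega)]
      have : q ^ (M + 1) = q * q ^ M := by ring
      nlinarith [Nat.one_le_pow M q (by omega)]
  rcases Nat.eq_zero_or_pos (n / 2) with h0 | h0
  · rw [h0]
    simp
  · have h2 := h1 (n / 2)
    have h3 : q ^ (n / 2 + 1) ≤ q ^ n := Nat.pow_le_pow_right (by omega) (by omega)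
    have h4 : q ^ (n / 2 + 1) = q * q ^ (n / 2) := by ring
    have h5 : 4 * q ^ (n / 2) ≤ q * q ^ (n / 2) := Nat.mul_le_mul_right _ hq
    omega

lemma exists_mon {f : k[X]} (hf : f.Monic) (hd : f.natDegree = n) : ∃ c : Fin n → k, mon c = f := by
  have h1 : (f - X ^ n).degree < (n : WithBot ℕ) := by
    have h2 : (f - X ^ n).degree < f.degree := by
      refine degree_sub_lt_left ?_ hf.ne_zero ?_
      · rw [degree_X_pow, degree_eq_natDegree hf.ne_zero, hd]
      · rw [hf.leadingCoeff, leadingCoeff_X_pow]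
    rwa [degree_eq_natDegree hf.ne_zero, hd] at h2
  obtain ⟨c, hc⟩ := exists_pol h1
  refine ⟨c, ?_⟩
  unfold mon
  rw [hc]
  ring

open Classical in
/-- the number of irreducible polynomials -/
theorem irr_count [Fintype k] (hn : 0 < n) (hq : 4 ≤ Nat.card k) :
    Nat.card k ^ n ≤ 2 * n * (Finset.univ.filter fun c : Fin n → k => Irreducible (mon c)).card := by
  obtain ⟨p, hp⟩ := CharP.exists k
  haveI : Fact (Nat.Prime p) := ⟨CharP.char_is_prime k p⟩
  haveI : NeZero n := ⟨hn.ne'⟩
  let E := FiniteField.Extension k p n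
  haveI : Fintype E := Fintype.ofFinite _
  have hE : Fintype.card E = Nat.card k ^ n := by
    rw [← Nat.card_eq_fintype_card]
    exact FiniteField.natCard_extension k p n
  have hint : ∀ α : E, IsIntegral k α := fun α => Algebra.IsIntegral.isIntegral α
  have hirr : ∀ α : E, Irreducible (minpoly k α) := fun α => minpoly.irreducible (hint α)
  have hdvd : ∀ α : E, (minpoly k α).natDegree ∣ n := by
    intro α
    have h1 := minpoly.degree_dvd (hint α)
    rwa [FiniteField.finrank_extension] at h1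
  -- the elements of smaller degree
  let N : ℕ → Finset E := fun m => ((X ^ (Nat.card k ^ m) - X : E[X]).roots).toFinset
  have hN : ∀ m, 0 < m → (N m).card ≤ Nat.card k ^ m := by
    intro m hm
    have h1 : 1 < Nat.card k ^ m := Nat.one_lt_pow hm.ne' (by omega)
    refine (Multiset.toFinset_card_le _).trans ((card_roots' _).trans ?_)
    rw [FiniteField.X_pow_card_sub_X_natDegree_eq E h1]
  have hmem : ∀ α : E, (minpoly k α).natDegree ≠ n →
      α ∈ (Finset.Icc 1 (n / 2)).biUnion N := by
    intro α hα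
    obtain ⟨j, hj⟩ := hdvd α
    set m := (minpoly k α).natDegree with hm
    have hm0 : 0 < m := (hirr α).natDegree_pos
    have hj2 : 2 ≤ j := by
      rcases Nat.lt_or_ge j 2 with h | h
      · interval_cases j
        · omega
        · exact absurd (by omega) hα
      · exact h
    rw [Finset.mem_biUnion]
    refine ⟨m, Finset.mem_Icc.2 ⟨hm0, ?_⟩, ?_⟩
    · rw [Nat.le_div_iff_mul_le (by norm_num)]
      calc m * 2 ≤ m * j := Nat.mul_le_mul_left _ hj2
        _ = n := hj.symm
    · have h1 : minpoly k α ∣ X ^ (Nat.card k ^ m) - X :=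
        (hirr α).natDegree_dvd_iff_dvd_X_pow_card_pow_sub_X.1 dvd_rfl
      have h2 : aeval α (X ^ (Nat.card k ^ m) - X : k[X]) = 0 :=
        (minpoly.dvd_iff).1 h1
      have h3 : (X ^ (Nat.card k ^ m) - X : E[X]) ≠ 0 :=
        FiniteField.X_pow_card_sub_X_ne_zero E (Nat.one_lt_pow hm0.ne' (by omega))
      change α ∈ ((X ^ (Nat.card k ^ m) - X : E[X]).roots).toFinset
      rw [Multiset.mem_toFinset, mem_roots h3, IsRoot.def]
      simpa using h2
  -- the elements of full degree
  set G : Finset E := Finset.univ.filter fun α => (minpoly k α).natDegree = n with hG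
  have h1 : Fintype.card E ≤ G.card + ∑ m ∈ Finset.Icc 1 (n / 2), Nat.card k ^ m := by
    have h2 : (Finset.univ : Finset E) ⊆ G ∪ (Finset.Icc 1 (n / 2)).biUnion N := by
      intro α _
      rw [Finset.mem_union]
      by_cases h : (minpoly k α).natDegree = n
      · left
        rw [hG, Finset.mem_filter]
        exact ⟨Finset.mem_univ _, h⟩
      · right
        exact hmem α h
    calc Fintype.card E = (Finset.univ : Finset E).card := rfl
      _ ≤ (G ∪ (Finset.Icc 1 (n / 2)).biUnion N).card := Finset.card_le_card h2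
      _ ≤ G.card + ((Finset.Icc 1 (n / 2)).biUnion N).card := Finset.card_union_le _ _
      _ ≤ G.card + ∑ m ∈ Finset.Icc 1 (n / 2), (N m).card :=
          Nat.add_le_add_left Finset.card_biUnion_le _
      _ ≤ _ := Nat.add_le_add_left (Finset.sum_le_sum fun m hm =>
          hN m (Finset.mem_Icc.1 hm).1) _
  have hmon : ∀ α : E, (minpoly k α).natDegree = n → ∃ c : Fin n → k, mon c = minpoly k α :=
    fun α h => exists_mon (minpoly.monic (hint α)) h
  let φ : E → (Fin n → k) := fun α => if h : (minpoly k α).natDegree = n then (hmon α h).choose else 0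
  have hφ : ∀ α : E, (minpoly k α).natDegree = n → mon (φ α) = minpoly k α := by
    intro α h
    simp only [φ, dif_pos h]
    exact (hmon α h).choose_spec
  have h2 : G.card ≤ n * (Finset.univ.filter fun c : Fin n → k => Irreducible (mon c)).card := by
    refine Finset.card_le_mul_card_image_of_maps_to (f := φ) ?_ n ?_
    · intro α hα
      rw [hG, Finset.mem_filter] at hα
      rw [Finset.mem_filter, hφ α hα.2]
      exact ⟨Finset.mem_univ _, hirr α⟩
    · intro c _
      have h3 : (G.filter fun α => φ α = c) ⊆ (((mon c).map (algebraMap k E)).roots).toFinset := by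
        intro α hα
        rw [Finset.mem_filter, hG, Finset.mem_filter] at hα
        have h4 := hφ α hα.1.2
        rw [hα.2] at h4
        rw [Multiset.mem_toFinset, mem_roots ((mon_monic c).map _).ne_zero, IsRoot.def,
          eval_map_algebraMap, h4]
        exact minpoly.aeval _ _
      refine (Finset.card_le_card h3).trans ((Multiset.toFinset_card_le _).trans
        ((card_roots' _).trans (le_of_eq ?_)))
      rw [(mon_monic c).natDegree_map, mon_natDegree]
  have h3 := sum_pow_le hq hn
  rw [hE] at h1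
  have h4 : 2 * Nat.card k ^ n ≤ 2 * G.card + Nat.card k ^ n := by omega
  have h5 : Nat.card k ^ n ≤ 2 * G.card := by omega
  calc Nat.card k ^ n ≤ 2 * G.card := h5
    _ ≤ 2 * (n * (Finset.univ.filter fun c : Fin n → k => Irreducible (mon c)).card) :=
        Nat.mul_le_mul_left _ h2
    _ = _ := by ring

open Classical in
/-- the proportion of the reducible polynomials -/
theorem irr_prob (hn : 0 < n) (hq : 4 ≤ Nat.card k) :
    ‖fmean (fun c : Fin n → k => if Irreducible (mon c) then (0 : ℂ) else 1)‖ ≤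
      1 - 1 / (2 * n) := by
  haveI := Fintype.ofFinite k
  have h1 := irr_count (k := k) hn hq
  set I := (Finset.univ.filter fun c : Fin n → k => Irreducible (mon c)).card with hI
  have hcard : Fintype.card (Fin n → k) = Nat.card k ^ n := by
    rw [Fintype.card_fun, Fintype.card_fin, ← Nat.card_eq_fintype_card]
  have h2 : (∑ c : Fin n → k, if Irreducible (mon c) then (0 : ℂ) else 1) =
      ((Nat.card k ^ n : ℕ) : ℂ) - (I : ℂ) := by
    have h3 : ∀ c : Fin n → k, (if Irreducible (mon c) then (0 : ℂ) else 1) =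
        1 - if Irreducible (mon c) then (1 : ℂ) else 0 := by
      intro c
      split_ifs <;> simp
    rw [Finset.sum_congr rfl fun c _ => h3 c, Finset.sum_sub_distrib, Finset.sum_boole,
      Finset.sum_const, Finset.card_univ, hcard]
    simp [hI]
  have hq0 : (0 : ℝ) < (Nat.card k : ℝ) ^ n := by
    have : (0 : ℝ) < Nat.card k := by exact_mod_cast (by omega : 0 < Nat.card k)
    positivity
  have hIle : (I : ℝ) ≤ (Nat.card k : ℝ) ^ n := by
    have : I ≤ Nat.card k ^ n := by
      rw [hI, ← hcard]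
      exact Finset.card_le_univ _
    exact_mod_cast this
  rw [fmean_eq, h2, hcard]
  have h4 : ((((Nat.card k ^ n : ℕ) : ℂ) - (I : ℂ)) / ((Nat.card k ^ n : ℕ) : ℂ)) =
      ((((Nat.card k : ℝ) ^ n - I) / (Nat.card k : ℝ) ^ n : ℝ) : ℂ) := by
    push_cast
    rfl
  rw [h4, Complex.norm_real, Real.norm_eq_abs, abs_of_nonneg (div_nonneg (by linarith) hq0.le),
    sub_div, div_self hq0.ne']
  have h5 : (Nat.card k : ℝ) ^ n ≤ 2 * n * I := by exact_mod_cast h1
  have hn0 : (0 : ℝ) < n := by exact_mod_cast hn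
  have h6 : 1 / (2 * (n : ℝ)) ≤ I / (Nat.card k : ℝ) ^ n := by
    rw [div_le_div_iff₀ (by positivity) hq0]
    linarith
  linarith

end count

section density

variable {K : Type} [Field K] [NumberField K] {ι : Type} [Fintype ι] [DecidableEq ι]
  {J : Type} [Fintype J] [DecidableEq J] {n : ℕ}

lemma exists_prime (S : Finset (HeightOneSpectrum (𝓞 K))) :
    ∃ v : HeightOneSpectrum (𝓞 K), v ∉ S := by
  classical
  set N : ℕ := ∏ v ∈ S, qv v with hN
  have hN0 : 0 < N := Finset.prod_pos fun v _ => Nat.pos_of_ne_zero (qv_ne_zero v)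
  have h1 : ¬ IsUnit (((N + 1 : ℕ)) : 𝓞 K) := by
    intro h
    have h2 : IsUnit (Algebra.norm ℤ (((N + 1 : ℕ)) : 𝓞 K)) := h.map _
    have h3 : (((N + 1 : ℕ)) : 𝓞 K) = algebraMap ℤ (𝓞 K) ((N + 1 : ℕ) : ℤ) := by simp
    rw [h3, Algebra.norm_algebraMap, isUnit_pow_iff (Module.finrank_pos).ne',
      Int.isUnit_iff] at h2
    omega
  obtain ⟨M, hM, hM1⟩ := exists_max_ideal_of_mem_nonunits h1
  have hM0 : M ≠ ⊥ := by
    rintro rfl
    rw [Ideal.mem_bot, Nat.cast_eq_zero] at hM1
    omega
  refine ⟨⟨M, hM.isPrime, hM0⟩, fun hS => ?_⟩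
  have h2 : ((N : ℕ) : 𝓞 K) ∈ M := by
    rw [hN, ← Finset.mul_prod_erase S _ hS, Nat.cast_mul]
    exact Ideal.mul_mem_right _ _ (Ideal.absNorm_mem M)
  have h3 : (1 : 𝓞 K) ∈ M := by
    have h4 : (1 : 𝓞 K) = ((N + 1 : ℕ) : 𝓞 K) - ((N : ℕ) : 𝓞 K) := by
      push_cast
      ring
    rw [h4]
    exact M.sub_mem hM1 h2
  exact hM.ne_top ((Ideal.eq_top_iff_one _).2 h3)

lemma small_fin : {v : HeightOneSpectrum (𝓞 K) | qv v < 4}.Finite := by
  have h1 : Summable fun v : HeightOneSpectrum (𝓞 K) => (qv v : ℝ) ^ (-(2 : ℝ)) :=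
    summable_qv (by norm_num)
  have h2 : ∀ᶠ v in Filter.cofinite, (qv v : ℝ) ^ (-(2 : ℝ)) < (4 : ℝ) ^ (-(2 : ℝ)) :=
    h1.tendsto_cofinite_zero.eventually (gt_mem_nhds (by positivity))
  refine Set.Finite.subset h2 fun v hv => ?_
  have hv' : qv v < 4 := hv
  change ¬ ((qv v : ℝ) ^ (-(2 : ℝ)) < (4 : ℝ) ^ (-(2 : ℝ)))
  rw [not_lt]
  have hpos : (0 : ℝ) < qv v := by exact_mod_cast Nat.pos_of_ne_zero (qv_ne_zero v)
  exact Real.rpow_le_rpow_of_nonpos hpos (by exact_mod_cast hv'.le) (by norm_num)

lemma exists_many (N : ℕ) : ∃ D : Finset (HeightOneSpectrum (𝓞 K)), D.card = N ∧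
    ∀ v ∈ D, 4 ≤ qv v := by
  classical
  induction N with
  | zero => exact ⟨∅, rfl, fun v hv => absurd hv (Finset.notMem_empty _)⟩
  | succ N ih =>
    obtain ⟨D, h1, h2⟩ := ih
    obtain ⟨v, hv⟩ := exists_prime (D ∪ (small_fin (K := K)).toFinset)
    rw [Finset.mem_union, not_or, Set.Finite.mem_toFinset] at hv
    refine ⟨insert v D, ?_, ?_⟩
    · rw [Finset.card_insert_of_notMem hv.1, h1]
    · intro w hw
      rcases Finset.mem_insert.1 hw with rfl | hw
      · exact not_lt.1 hv.2
      · exact h2 w hw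

/-- the restriction of a vector -/
def resE {R : Type} [AddCommGroup R] (e : Fin n → J) : (J → R) →+ (Fin n → R) where
  toFun p := fun i => p (e i)
  map_zero' := rfl
  map_add' _ _ := rfl

lemma resE_surj {R : Type} [AddCommGroup R] {e : Fin n → J} (he : Function.Injective e) :
    Function.Surjective (resE (R := R) e) := by
  intro c
  refine ⟨Function.extend e c 0, ?_⟩
  funext i
  exact he.extend_apply c 0 i

open Classical in
/-- **Almost all polynomials are irreducible.** -/
theorem irr_density (ω : Module.Basis ι ℤ (𝓞 K)) (hn : 0 < n) {e : Fin n → J}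
    (he : Function.Injective e) :
    Tendsto (fun B : J × ι → ℕ => avg (box B) (fun x =>
      if Irreducible ((mon fun i => vec ω x (e i)).map (algebraMap (𝓞 K) K)) then (0 : ℂ) else 1))
      atTop (𝓝 0) := by
  have hkey : ∀ (v : HeightOneSpectrum (𝓞 K)) (c : Fin n → 𝓞 K),
      Irreducible (mon fun i => Ideal.Quotient.mk v.asIdeal (c i)) →
        Irreducible ((mon c).map (algebraMap (𝓞 K) K)) := by
    intro v c h
    rw [← (mon_monic c).irreducible_iff_irreducible_map_fraction_map]
    refine (mon_monic c).irreducible_of_irreducible_map (Ideal.Quotient.mk v.asIdeal) _ ?_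
    rwa [mon_map]
  let g : ∀ v : HeightOneSpectrum (𝓞 K), (J → kv v) → ℂ := fun v t =>
    if Irreducible (mon fun i => t (e i)) then (0 : ℂ) else 1
  have hg : ∀ v : HeightOneSpectrum (𝓞 K), 4 ≤ qv v → ‖fmean (g v)‖ ≤ 1 - 1 / (2 * n) := by
    intro v hv
    haveI := v.isMaximal
    letI : Field (kv v) := Ideal.Quotient.field v.asIdeal
    have h1 := irr_prob (k := kv v) hn (by rw [card_kv]; exact hv)
    have h2 := fmean_comp (resE (R := kv v) e) (resE_surj he)
      (fun c : Fin n → kv v => if Irreducible (mon c) then (0 : ℂ) else 1)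
    rw [← h2] at h1
    exact h1
  set ρ : ℝ := 1 - 1 / (2 * n) with hρ
  have hn0 : (0 : ℝ) < n := by exact_mod_cast hn
  have hρ1 : ρ < 1 := by
    have : 0 < 1 / (2 * (n : ℝ)) := by positivity
    linarith
  have hρ0 : 0 ≤ ρ := by
    have h1 : (1 : ℝ) ≤ n := by exact_mod_cast hn
    have : 1 / (2 * (n : ℝ)) ≤ 1 := by
      rw [div_le_one (by positivity)]
      linarith
    linarith
  rw [Metric.tendsto_nhds]
  intro ε hε
  obtain ⟨N, hN⟩ := exists_pow_lt_of_lt_one (half_pos hε) hρ1
  obtain ⟨D, hD, hDq⟩ := exists_many (K := K) N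
  have h1 := tendsto_fin (J := J) ω g D
  have h2 : ‖∏ v ∈ D, fmean (g v)‖ < ε / 2 := by
    rw [norm_prod]
    refine lt_of_le_of_lt ?_ hN
    rw [← hD, ← Finset.prod_const]
    exact Finset.prod_le_prod (fun _ _ => norm_nonneg _) fun v hv => hg v (hDq v hv)
  filter_upwards [(Metric.tendsto_nhds.1 h1) (ε / 2) (half_pos hε)] with B hB
  have hc : (0 : ℝ) < (box B).card := by exact_mod_cast card_box_pos _
  have h3 : ‖avg (box B) (fun x => ∏ v ∈ D, g v (rd v (vec ω x)))‖ < ε := by
    have h4 := norm_sub_norm_le (avg (box B) (fun x => ∏ v ∈ D, g v (rd v (vec ω x))))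
      (∏ v ∈ D, fmean (g v))
    rw [dist_eq_norm] at hB
    linarith
  rw [dist_zero_right]
  refine lt_of_le_of_lt ?_ h3
  -- compare the two means
  have hreal : ∀ F : (J × ι → ℤ) → ℝ, avg (box B) (fun x => (F x : ℂ)) =
      (((∑ x ∈ box B, F x) / (box B).card : ℝ) : ℂ) := by
    intro F
    unfold avg
    push_cast
    rfl
  let F1 : (J × ι → ℤ) → ℝ := fun x =>
    if Irreducible ((mon fun i => vec ω x (e i)).map (algebraMap (𝓞 K) K)) then 0 else 1
  let F2 : (J × ι → ℤ) → ℝ := fun x =>
    ∏ v ∈ D, if Irreducible (mon fun i => rd v (vec ω x) (e i)) then 0 else 1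
  have e1 : (fun x => if Irreducible ((mon fun i => vec ω x (e i)).map (algebraMap (𝓞 K) K)) then
      (0 : ℂ) else 1) = fun x => (F1 x : ℂ) := by
    funext x
    simp only [F1]
    split_ifs <;> simp
  have e2 : (fun x => ∏ v ∈ D, g v (rd v (vec ω x))) = fun x => (F2 x : ℂ) := by
    funext x
    simp only [F2, g]
    push_cast
    refine Finset.prod_congr rfl fun v _ => ?_
    split_ifs <;> simp
  have hF : ∀ x, 0 ≤ F1 x ∧ F1 x ≤ F2 x := by
    intro x
    simp only [F1, F2]
    split_ifs with h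
    · refine ⟨le_rfl, Finset.prod_nonneg fun v _ => ?_⟩
      split_ifs <;> norm_num
    · refine ⟨zero_le_one, le_of_eq ?_⟩
      symm
      refine Finset.prod_eq_one fun v _ => ?_
      exact if_neg fun h' => h (hkey v _ h')
  rw [e1, e2, hreal, hreal, Complex.norm_real, Complex.norm_real, Real.norm_eq_abs,
    Real.norm_eq_abs, abs_of_nonneg, abs_of_nonneg]
  · exact div_le_div_of_nonneg_right (Finset.sum_le_sum fun x _ => (hF x).2) hc.le
  · exact div_nonneg (Finset.sum_nonneg fun x _ => (hF x).1.trans (hF x).2) hc.le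
  · exact div_nonneg (Finset.sum_nonneg fun x _ => (hF x).1) hc.le

end density

end Pool.Agent.KS6_22.MF
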