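import Pool.Agent.KS6_22.MF.Adj
import Pool.Agent.KS6_22.MF.Irr

/-!
# The L-function as an Euler product over the base field

Owner helper22.
-/

set_option autoImplicit false
set_option linter.unusedSectionVars false
set_option linter.unusedVariables false
set_option linter.style.haveILetI false

open Polynomial NumberField IsDedekindDomain
open Pool.Agent.T6.H9.MV (Lam one_le_Lam rho0 rho0_pos rho0_lt_one prs ex Np Nt
  norm_zpow_le fmean kv qv card_kv qv_ne_zero two_le_qv summable_qv Om multipliable_of_bound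
  tprod_ne_zero' hasProd_zpow exists_sigma six_ne)
open Pool.Agent.KS6_22.NB (Ab fib mem_fib fib_finite six_mem)

namespace Pool.Agent.KS6_22.MF

attribute [local instance] fldv

section one

variable {L : Type} [Field L] [NumberField L] {r : ℕ}

lemma six_kv {w : HeightOneSpectrum (𝓞 L)} (h6 : (6 : 𝓞 L) ∉ w.asIdeal) : (6 : kv w) ≠ 0 :=
  six_ne h6

lemma fac_bounds {δ α β : 𝓞 L} (hδ : ∀ w : HeightOneSpectrum (𝓞 L), (6 : 𝓞 L) ∈ w.asIdeal →
    δ ∈ w.asIdeal) (w : HeightOneSpectrum (𝓞 L)) {s : ℂ} (hs : 3 / 4 ≤ s.re) :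
    (Lam rho0)⁻¹ ≤ ‖factorOff δ α β w s‖ ∧ ‖factorOff δ α β w s‖ ≤ Lam rho0 := by
  have hL := one_le_Lam rho0
  unfold factorOff
  split_ifs with h
  · rw [norm_one]
    exact ⟨inv_le_one_of_one_le₀ hL, hL⟩
  · exact lf_bounds (k := kv w) (six_kv fun h6 => h (hδ w h6)) _ hs

lemma fac_sub_one {δ α β : 𝓞 L} (hδ : ∀ w : HeightOneSpectrum (𝓞 L), (6 : 𝓞 L) ∈ w.asIdeal →
    δ ∈ w.asIdeal) (w : HeightOneSpectrum (𝓞 L)) {s : ℂ} {σ : ℝ} (hσ : 3 / 4 ≤ σ)
    (hs : σ ≤ s.re) :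
    ‖factorOff δ α β w s - 1‖ ≤ 3 * Lam rho0 * (qv w : ℝ) ^ (1 / 2 - σ) := by
  have hL := one_le_Lam rho0
  unfold factorOff
  split_ifs with h
  · rw [sub_self, norm_zero]
    positivity
  · have h1 := lf_sub_one (k := kv w) (six_kv fun h6 => h (hδ w h6))
      (Ideal.Quotient.mk w.asIdeal α, Ideal.Quotient.mk w.asIdeal β) hσ hs
    rwa [card_kv] at h1

lemma fac_ne {δ α β : 𝓞 L} (hδ : ∀ w : HeightOneSpectrum (𝓞 L), (6 : 𝓞 L) ∈ w.asIdeal →
    δ ∈ w.asIdeal) (w : HeightOneSpectrum (𝓞 L)) {s : ℂ} (hs : 3 / 4 ≤ s.re) :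
    factorOff δ α β w s ≠ 0 := by
  have h := (fac_bounds hδ (α := α) (β := β) w hs).1
  have hL := one_le_Lam rho0
  exact norm_pos_iff.1 (lt_of_lt_of_le (by positivity) h)

lemma hasProd_L {δ α β : 𝓞 L} (hδ : ∀ w : HeightOneSpectrum (𝓞 L), (6 : 𝓞 L) ∈ w.asIdeal →
    δ ∈ w.asIdeal) {s : ℂ} (hs : 3 / 2 < s.re) :
    HasProd (fun w => factorOff δ α β w s) (Lser δ α β s) ∧ Lser δ α β s ≠ 0 := by
  have hβ : Summable fun w : HeightOneSpectrum (𝓞 L) =>
      3 * Lam rho0 * (qv w : ℝ) ^ (1 / 2 - s.re) := by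
    have h1 := summable_qv (K := L) (x := s.re - 1 / 2) (by linarith)
    refine (h1.mul_left (3 * Lam rho0)).congr fun v => ?_
    have : -(s.re - 1 / 2) = 1 / 2 - s.re := by ring
    rw [this]
  have hb : ∀ w, ‖factorOff δ α β w s - 1‖ ≤ 3 * Lam rho0 * (qv w : ℝ) ^ (1 / 2 - s.re) :=
    fun w => fac_sub_one hδ w (by linarith) le_rfl
  exact ⟨(multipliable_of_bound hβ hb).hasProd,
    tprod_ne_zero' hβ hb fun w => fac_ne hδ w (by linarith)⟩

lemma hasProd_pow {δ α β : 𝓞 L} (hδ : ∀ w : HeightOneSpectrum (𝓞 L), (6 : 𝓞 L) ∈ w.asIdeal →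
    δ ∈ w.asIdeal) (m : Fin r → ℤ) {s : Fin r → ℂ} (hs : s ∈ Om r (3 / 2)) :
    HasProd (fun w : HeightOneSpectrum (𝓞 L) => ∏ j, factorOff δ α β w (s j) ^ m j)
      (∏ j, Lser δ α β (s j) ^ m j) := by
  refine hasProd_prod fun j _ => ?_
  obtain ⟨h1, h2⟩ := hasProd_L hδ (α := α) (β := β) (hs j)
  exact hasProd_zpow h1 h2 (m j)

end one

section two

variable {F : Type} [Field F] [NumberField F] {L : Type} [Field L] [NumberField L] [Algebra F L]
  {r : ℕ}

open Classical in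
/-- the local function at `v` -/
noncomputable def hv (m : Fin r → ℤ) (s : Fin r → ℂ) (v : HeightOneSpectrum (𝓞 F))
    (f a b : (kv v)[X]) : ℂ :=
  if (6 : 𝓞 F) ∈ v.asIdeal then 1 else
    ∏ g ∈ SF f, Ph m s (AdjoinRoot g) (AdjoinRoot.mk g a, AdjoinRoot.mk g b)

lemma prod_fib {f : (𝓞 F)[X]} {θ : 𝓞 L} (hD : Dt f θ) (a b : (𝓞 F)[X]) (m : Fin r → ℤ)
    (s : Fin r → ℂ) (v : HeightOneSpectrum (𝓞 F)) :
    ∏ w ∈ fib L v, ∏ j, factorOff (6 * aeval θ (derivative f)) (aeval θ a) (aeval θ b) w (s j) ^ m j =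
      hv m s v (fb f v) (fb a v) (fb b v) := by
  classical
  unfold hv
  by_cases h6 : (6 : 𝓞 F) ∈ v.asIdeal
  · rw [if_pos h6]
    refine Finset.prod_eq_one fun w hw => Finset.prod_eq_one fun j _ => ?_
    have h : 6 * aeval θ (derivative f) ∈ w.asIdeal :=
      w.asIdeal.mul_mem_right _ ((six_mem (mem_fib.1 hw)).1 h6)
    unfold factorOff
    rw [if_pos h, one_zpow]
  · rw [if_neg h6]
    rw [← prod_above hD v a b (fun A _ t => Ph m s A t) (fun A B _ _ e t => Ph_equiv m s e t),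
      Finset.prod_filter]
    refine Finset.prod_congr rfl fun w hw => ?_
    have h6w : (6 : 𝓞 L) ∉ w.asIdeal := fun h => h6 ((six_mem (mem_fib.1 hw)).2 h)
    have hiff : 6 * aeval θ (derivative f) ∈ w.asIdeal ↔ ¬ Gd f θ w := by
      unfold Gd
      rw [not_not]
      constructor
      · intro h
        exact (w.isPrime.mem_or_mem h).resolve_left h6w
      · intro h
        exact w.asIdeal.mul_mem_left _ h
    unfold factorOff
    by_cases hg : Gd f θ w
    · rw [if_pos hg]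
      unfold Ph
      refine Finset.prod_congr rfl fun j _ => ?_
      rw [if_neg fun h => hiff.1 h hg]
    · rw [if_neg hg]
      refine Finset.prod_eq_one fun j _ => ?_
      rw [if_pos (hiff.2 hg), one_zpow]

/-- **The L-function over `L` as an Euler product over the primes of `F`.** -/
theorem hasProd_hv {f : (𝓞 F)[X]} {θ : 𝓞 L} (hD : Dt f θ) (a b : (𝓞 F)[X]) (m : Fin r → ℤ)
    {s : Fin r → ℂ} (hs : s ∈ Om r (3 / 2)) :
    HasProd (fun v : HeightOneSpectrum (𝓞 F) => hv m s v (fb f v) (fb a v) (fb b v))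
      (∏ j, Lser (6 * aeval θ (derivative f)) (aeval θ a) (aeval θ b) (s j) ^ m j) := by
  classical
  have hδ : ∀ w : HeightOneSpectrum (𝓞 L), (6 : 𝓞 L) ∈ w.asIdeal →
      6 * aeval θ (derivative f) ∈ w.asIdeal := fun w h => w.asIdeal.mul_mem_right _ h
  have h0 := hasProd_pow hδ (α := aeval θ a) (β := aeval θ b) m hs
  let e := Equiv.sigmaFiberEquiv (fun w : HeightOneSpectrum (𝓞 L) => w.under (𝓞 F))
  have h1 := e.hasProd_iff.2 h0
  haveI : ∀ v : HeightOneSpectrum (𝓞 F),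
      Fintype {w : HeightOneSpectrum (𝓞 L) // w.under (𝓞 F) = v} :=
    fun v => (fib_finite (L := L) v).fintype
  have h2 := h1.sigma fun v => hasProd_fintype _
  refine h2.congr_fun fun v => ?_
  rw [← prod_fib hD a b m s v]
  refine (Finset.prod_subtype (fib L v) (fun w => ?_) (fun w => ∏ j,
    factorOff (6 * aeval θ (derivative f)) (aeval θ a) (aeval θ b) w (s j) ^ m j))
  rw [mem_fib]
  rfl

end two

end Pool.Agent.KS6_22.MF
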