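import Pool.Agent.KS6_22.MF.Root
import Pool.Agent.KS6_22.NB.EC

/-!
# The primes above `v` and the simple factors of the polynomial modulo `v`

Owner helper22.
-/

set_option autoImplicit false
set_option linter.unusedSectionVars false
set_option linter.unusedVariables false
set_option linter.style.haveILetI false

open Polynomial NumberField IsDedekindDomain
open Pool.Agent.H921R2.TatePole (nm two_le_nm)
open Pool.Agent.T6.H9.MV (kv qv card_kv card_kv')
open Pool.Agent.KS6_22.NB (Ab rh' rh_inj fib mem_fib finite_kv)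

namespace Pool.Agent.KS6_22.MF

lemma lf_equiv {A B : Type} [CommRing A] [CommRing B] (e : A ≃+* B) (t : A × A) (s : ℂ) :
    lf A t s = lf B (e t.1, e t.2) s := by
  classical
  have h1 : Nat.card A = Nat.card B := Nat.card_congr e.toEquiv
  have h2 : Nat.card {P : A × A // P.2 ^ 2 = P.1 ^ 3 + t.1 * P.1 + t.2} =
      Nat.card {P : B × B // P.2 ^ 2 = P.1 ^ 3 + e t.1 * P.1 + e t.2} := by
    refine Nat.card_congr ((e.toEquiv.prodCongr e.toEquiv).subtypeEquiv fun P => ?_)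
    change _ ↔ (e P.2) ^ 2 = (e P.1) ^ 3 + e t.1 * e P.1 + e t.2
    rw [← map_pow, ← map_pow, ← map_mul, ← map_add, ← map_add]
    exact e.injective.eq_iff.symm
  have h3 : 4 * t.1 ^ 3 + 27 * t.2 ^ 2 = 0 ↔ 4 * (e t.1) ^ 3 + 27 * (e t.2) ^ 2 = 0 := by
    have h4 : 4 * (e t.1) ^ 3 + 27 * (e t.2) ^ 2 = e (4 * t.1 ^ 3 + 27 * t.2 ^ 2) := by
      rw [map_add, map_mul, map_mul, map_pow, map_pow, map_ofNat, map_ofNat]
    rw [h4]
    exact (map_eq_zero_iff e e.injective).symm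
  unfold lf
  simp only [h1, h2]
  by_cases h : 4 * t.1 ^ 3 + 27 * t.2 ^ 2 = 0
  · rw [if_pos h, if_pos (h3.1 h)]
  · rw [if_neg h, if_neg fun h' => h (h3.2 h')]

variable {F : Type} [Field F] [NumberField F] {L : Type} [Field L] [NumberField L] [Algebra F L]

/-- `θ` is a root of the monic polynomial `f`, its minimal polynomial over `F`, and
`f'(θ) 𝓞 L` is contained in `𝓞 F[θ]` -/
structure Dt (f : (𝓞 F)[X]) (θ : 𝓞 L) : Prop where
  monic : f.Monic
  root : aeval θ f = 0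
  min : ∀ P : (𝓞 F)[X], aeval θ P = 0 → f ∣ P
  cond : ∀ β : 𝓞 L, ∃ P : (𝓞 F)[X], aeval θ P = aeval θ (derivative f) * β

/-- a generator gives the data -/
theorem dt_of_gen {f : (𝓞 F)[X]} {θ : 𝓞 L} (hf : f.Monic) (hmin : minpoly (𝓞 F) θ = f)
    (htop : Algebra.adjoin F {algebraMap (𝓞 L) L θ} = ⊤) : Dt f θ where
  monic := hf
  root := by rw [← hmin]; exact minpoly.aeval _ _
  min P hP := by
    rw [← hmin]
    exact minpoly.isIntegrallyClosed_dvd (Algebra.IsIntegral.isIntegral θ) hP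
  cond β := by
    have h1 := conductor_mul_differentIdeal (𝓞 F) F L θ htop
    have h2 : aeval θ (derivative f) ∈ conductor (𝓞 F) θ := by
      have h3 : aeval θ (derivative f) ∈ Ideal.span {aeval θ (derivative (minpoly (𝓞 F) θ))} := by
        rw [hmin]
        exact Ideal.mem_span_singleton_self _
      rw [← h1] at h3
      exact Ideal.mul_le_left h3
    have h3 := mem_conductor_iff.1 h2 β
    rw [Algebra.adjoin_singleton_eq_range_aeval] at h3
    obtain ⟨P, hP⟩ := h3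
    exact ⟨P, hP⟩

section local_

variable {v : HeightOneSpectrum (𝓞 F)} {w : HeightOneSpectrum (𝓞 L)}

/-- the evaluation of polynomials over the residue field at the class of `θ` -/
noncomputable def psi (θ : 𝓞 L) (h : Ab v w) : (kv v)[X] →+* kv w :=
  eval₂RingHom (rh' h) (Ideal.Quotient.mk w.asIdeal θ)

lemma psi_map (θ : 𝓞 L) (h : Ab v w) (P : (𝓞 F)[X]) :
    psi θ h (P.map (Ideal.Quotient.mk v.asIdeal)) = Ideal.Quotient.mk w.asIdeal (aeval θ P) := by
  unfold psi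
  rw [coe_eval₂RingHom, eval₂_map, aeval_def, hom_eval₂]
  rfl

/-- the condition on `w` -/
def Gd (f : (𝓞 F)[X]) (θ : 𝓞 L) (w : HeightOneSpectrum (𝓞 L)) : Prop :=
  aeval θ (derivative f) ∉ w.asIdeal

lemma psi_surj {f : (𝓞 F)[X]} {θ : 𝓞 L} (hD : Dt f θ) (h : Ab v w) (hw : Gd f θ w) :
    Function.Surjective (psi θ h) := by
  haveI := w.isMaximal
  letI : Field (kv w) := Ideal.Quotient.field w.asIdeal
  haveI : Finite (kv w) := finite_kv w
  letI : Fintype (kv w) := Fintype.ofFinite _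
  intro z
  obtain ⟨β, rfl⟩ := Ideal.Quotient.mk_surjective z
  obtain ⟨P, hP⟩ := hD.cond β
  have h0 : Ideal.Quotient.mk w.asIdeal (aeval θ (derivative f)) ≠ 0 := by
    rw [Ne, Ideal.Quotient.eq_zero_iff_mem]
    exact hw
  have hc : 1 < Fintype.card (kv w) := Fintype.one_lt_card
  refine ⟨(P * (derivative f) ^ (Fintype.card (kv w) - 2)).map (Ideal.Quotient.mk v.asIdeal), ?_⟩
  rw [psi_map, map_mul, hP, map_pow, map_mul, map_mul, map_pow]
  have h1 : Ideal.Quotient.mk w.asIdeal (aeval θ (derivative f)) *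
      Ideal.Quotient.mk w.asIdeal (aeval θ (derivative f)) ^ (Fintype.card (kv w) - 2) = 1 := by
    rw [← pow_succ']
    have : Fintype.card (kv w) - 2 + 1 = Fintype.card (kv w) - 1 := by omega
    rw [this]
    exact FiniteField.pow_card_sub_one_eq_one _ h0
  linear_combination (Ideal.Quotient.mk w.asIdeal β) * h1

instance kv_nontrivial (v : HeightOneSpectrum (𝓞 F)) : Nontrivial (kv v) :=
  Ideal.Quotient.nontrivial_iff.2 v.isPrime.ne_top

instance kv_dom (v : HeightOneSpectrum (𝓞 F)) : IsDomain (kv v) := by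
  haveI := v.isPrime
  infer_instance

/-- the reduction of the polynomial -/
noncomputable abbrev fb (f : (𝓞 F)[X]) (v : HeightOneSpectrum (𝓞 F)) : (kv v)[X] :=
  f.map (Ideal.Quotient.mk v.asIdeal)

/-- the residue field is a field -/
@[reducible] noncomputable def fldv (v : HeightOneSpectrum (𝓞 F)) : Field (kv v) :=
  haveI := v.isMaximal
  Ideal.Quotient.field v.asIdeal

attribute [local instance] fldv

lemma fb_monic {f : (𝓞 F)[X]} (hf : f.Monic) (v : HeightOneSpectrum (𝓞 F)) : (fb f v).Monic :=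
  hf.map _

lemma exists_mk_map (P : (kv v)[X]) : ∃ Q : (𝓞 F)[X], Q.map (Ideal.Quotient.mk v.asIdeal) = P :=
  map_surjective _ Ideal.Quotient.mk_surjective P

/-- the simple factor of the reduction which vanishes at `θ` modulo `w` -/
lemma exists_factor {f : (𝓞 F)[X]} {θ : 𝓞 L} (hD : Dt f θ) (h : Ab v w) (hw : Gd f θ w) :
    ∃ g ∈ SF (fb f v), psi θ h g = 0 := by
  classical
  have hf0 : fb f v ≠ 0 := (fb_monic hD.monic v).ne_zero
  have h0 : psi θ h (fb f v) = 0 := by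
    rw [psi_map, hD.root, map_zero]
  have h1 : psi θ h (UniqueFactorizationMonoid.normalizedFactors (fb f v)).prod = 0 := by
    obtain ⟨u, hu⟩ := (UniqueFactorizationMonoid.prod_normalizedFactors hf0).symm
    rw [← hu, map_mul, h0, zero_mul]
  rw [map_multiset_prod, Multiset.prod_eq_zero_iff, Multiset.mem_map] at h1
  obtain ⟨g, hg, hg0⟩ := h1
  refine ⟨g, ?_, hg0⟩
  unfold SF
  rw [Finset.mem_filter, Multiset.mem_toFinset]
  refine ⟨hg, fun hd => hw ?_⟩
  obtain ⟨Q, hQ⟩ := hd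
  have h2 : psi θ h (derivative (fb f v)) = 0 := by
    rw [hQ, map_mul, hg0, zero_mul]
  rw [derivative_map, psi_map] at h2
  exact Ideal.Quotient.eq_zero_iff_mem.1 h2

lemma ker_psi {f : (𝓞 F)[X]} {θ : 𝓞 L} (hD : Dt f θ) (h : Ab v w) {g : (kv v)[X]}
    (hg : g ∈ SF (fb f v)) (hg0 : psi θ h g = 0) : Ideal.span {g} = RingHom.ker (psi θ h) := by
  have hf0 : fb f v ≠ 0 := (fb_monic hD.monic v).ne_zero
  have hirr := SF_irr hf0 hg
  have hmax : (Ideal.span {g}).IsMaximal := PrincipalIdealRing.isMaximal_of_irreducible hirr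
  refine hmax.eq_of_le (RingHom.ker_ne_top _) ?_
  rw [Ideal.span_singleton_le_iff_mem]
  exact hg0

lemma factor_unique {f : (𝓞 F)[X]} {θ : 𝓞 L} (hD : Dt f θ) (h : Ab v w) {g g' : (kv v)[X]}
    (hg : g ∈ SF (fb f v)) (hg0 : psi θ h g = 0) (hg' : g' ∈ SF (fb f v))
    (hg0' : psi θ h g' = 0) : g = g' := by
  have hf0 : fb f v ≠ 0 := (fb_monic hD.monic v).ne_zero
  have h1 : Ideal.span {g} = Ideal.span {g'} := by
    rw [ker_psi hD h hg hg0, ker_psi hD h hg' hg0']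
  exact eq_of_monic_of_associated ((mem_SF hf0).1 hg).1.2.1 ((mem_SF hf0).1 hg').1.2.1
    (Ideal.span_singleton_eq_span_singleton.1 h1)

/-- the residue field as a quotient of the polynomial ring -/
noncomputable def resIso {f : (𝓞 F)[X]} {θ : 𝓞 L} (hD : Dt f θ) (h : Ab v w) (hw : Gd f θ w)
    {g : (kv v)[X]} (hg : g ∈ SF (fb f v)) (hg0 : psi θ h g = 0) : AdjoinRoot g ≃+* kv w :=
  (Ideal.quotEquivOfEq (ker_psi hD h hg hg0)).trans
    (RingHom.quotientKerEquivOfSurjective (psi_surj hD h hw))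

lemma resIso_mk {f : (𝓞 F)[X]} {θ : 𝓞 L} (hD : Dt f θ) (h : Ab v w) (hw : Gd f θ w)
    {g : (kv v)[X]} (hg : g ∈ SF (fb f v)) (hg0 : psi θ h g = 0) (P : (kv v)[X]) :
    resIso hD h hw hg hg0 (AdjoinRoot.mk g P) = psi θ h P := rfl

/-- a simple factor gives a prime above `v` -/
lemma exists_above {f : (𝓞 F)[X]} {θ : 𝓞 L} (hD : Dt f θ) (v : HeightOneSpectrum (𝓞 F))
    {g : (kv v)[X]} (hg : g ∈ SF (fb f v)) :
    ∃ (w : HeightOneSpectrum (𝓞 L)) (h : Ab v w), Gd f θ w ∧ psi θ h g = 0 := by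
  have hf0 : fb f v ≠ 0 := (fb_monic hD.monic v).ne_zero
  have hg' := (mem_SF hf0).1 hg
  haveI : Fact (Irreducible g) := ⟨hg'.1.1⟩
  letI : Algebra (𝓞 F)[X] (𝓞 L) := (aeval θ).toRingHom.toAlgebra
  have halg : ∀ P : (𝓞 F)[X], algebraMap (𝓞 F)[X] (𝓞 L) P = aeval θ P := fun P => rfl
  have hint : Algebra.IsIntegral (𝓞 F)[X] (𝓞 L) := by
    refine ⟨fun β => ?_⟩
    obtain ⟨P, hP1, hP2⟩ := Algebra.IsIntegral.isIntegral (R := 𝓞 F) β
    refine ⟨P.map C, hP1.map _, ?_⟩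
    rw [eval₂_map]
    have : (algebraMap (𝓞 F)[X] (𝓞 L)).comp C = algebraMap (𝓞 F) (𝓞 L) := by
      ext y
      rw [RingHom.comp_apply, halg, aeval_C]
    rw [this]
    exact hP2
  set φ : (𝓞 F)[X] →+* AdjoinRoot g :=
    (AdjoinRoot.mk g).comp (mapRingHom (Ideal.Quotient.mk v.asIdeal)) with hφ
  have hφa : ∀ P : (𝓞 F)[X], φ P = AdjoinRoot.mk g (P.map (Ideal.Quotient.mk v.asIdeal)) :=
    fun P => rfl
  have hφk : ∀ P : (𝓞 F)[X], P ∈ RingHom.ker φ ↔ g ∣ P.map (Ideal.Quotient.mk v.asIdeal) := by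
    intro P
    rw [RingHom.mem_ker, hφa, AdjoinRoot.mk_eq_zero]
  have hprime : (RingHom.ker φ).IsPrime := RingHom.ker_isPrime φ
  have hker : (⊥ : Ideal (𝓞 L)).comap (algebraMap (𝓞 F)[X] (𝓞 L)) ≤ RingHom.ker φ := by
    intro P hP
    rw [Ideal.mem_comap, Ideal.mem_bot, halg] at hP
    obtain ⟨Q, rfl⟩ := hD.min P hP
    rw [hφk, Polynomial.map_mul]
    exact hg'.1.2.2.mul_right _
  obtain ⟨Q, -, hQ, hQc⟩ := Ideal.exists_ideal_over_prime_of_isIntegral (RingHom.ker φ) ⊥ hker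
  have hmem : ∀ P : (𝓞 F)[X], aeval θ P ∈ Q ↔ g ∣ P.map (Ideal.Quotient.mk v.asIdeal) := by
    intro P
    rw [← hφk, ← hQc, Ideal.mem_comap, halg]
  have hmemC : ∀ y : 𝓞 F, algebraMap (𝓞 F) (𝓞 L) y ∈ Q ↔ y ∈ v.asIdeal := by
    intro y
    have h1 := hmem (C y)
    rw [aeval_C, map_C] at h1
    rw [h1, ← Ideal.Quotient.eq_zero_iff_mem]
    constructor
    · intro hd
      by_contra hne
      have h2 : IsUnit (C (Ideal.Quotient.mk v.asIdeal y) : (kv v)[X]) :=
        isUnit_C.2 (IsUnit.mk0 _ hne)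
      exact hg'.1.1.not_isUnit (isUnit_of_dvd_unit hd h2)
    · intro h0
      rw [h0, C_0]
      exact dvd_zero _
  have hQ0 : Q ≠ ⊥ := by
    intro h0
    have h1 : ((nm v : ℕ) : 𝓞 F) ∈ v.asIdeal := Ideal.absNorm_mem v.asIdeal
    rw [← hmemC, h0, Ideal.mem_bot, map_natCast, Nat.cast_eq_zero] at h1
    have := two_le_nm v
    omega
  have hab : Ab v (⟨Q, hQ, hQ0⟩ : HeightOneSpectrum (𝓞 L)) := by
    apply HeightOneSpectrum.ext
    ext y
    exact hmemC y
  refine ⟨⟨Q, hQ, hQ0⟩, hab, ?_, ?_⟩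
  · change aeval θ (derivative f) ∉ Q
    rw [hmem, ← derivative_map]
    exact hg'.2
  · obtain ⟨P, rfl⟩ := exists_mk_map g
    rw [psi_map, Ideal.Quotient.eq_zero_iff_mem]
    exact (hmem P).2 dvd_rfl

/-- different primes have different factors -/
lemma above_unique {f : (𝓞 F)[X]} {θ : 𝓞 L} (hD : Dt f θ) {w' : HeightOneSpectrum (𝓞 L)}
    (h : Ab v w) (h' : Ab v w') (hw' : Gd f θ w') {g : (kv v)[X]} (hg : g ∈ SF (fb f v))
    (hg0 : psi θ h g = 0) (hg0' : psi θ h' g = 0) : w = w' := by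
  have h1 : w.asIdeal ≤ w'.asIdeal := by
    intro β hβ
    obtain ⟨P, hP⟩ := hD.cond β
    have h2 : aeval θ P ∈ w.asIdeal := by
      rw [hP]
      exact w.asIdeal.mul_mem_left _ hβ
    have h3 : P.map (Ideal.Quotient.mk v.asIdeal) ∈ RingHom.ker (psi θ h) := by
      rw [RingHom.mem_ker, psi_map, Ideal.Quotient.eq_zero_iff_mem]
      exact h2
    rw [← ker_psi hD h hg hg0, ker_psi hD h' hg hg0', RingHom.mem_ker, psi_map,
      Ideal.Quotient.eq_zero_iff_mem, hP] at h3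
    exact (w'.isPrime.mem_or_mem h3).resolve_left hw'
  apply HeightOneSpectrum.ext
  exact w.isMaximal.eq_of_le w'.isPrime.ne_top h1

open Classical in
/-- **The primes above `v` and the simple factors.** -/
theorem prod_above {f : (𝓞 F)[X]} {θ : 𝓞 L} (hD : Dt f θ) (v : HeightOneSpectrum (𝓞 F))
    (a b : (𝓞 F)[X]) (φ : ∀ (A : Type) [CommRing A], A × A → ℂ)
    (hφ : ∀ (A B : Type) [CommRing A] [CommRing B] (e : A ≃+* B) (t : A × A),
      φ A t = φ B (e t.1, e t.2)) :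
    ∏ w ∈ (fib L v).filter (Gd f θ), φ (kv w) (Ideal.Quotient.mk w.asIdeal (aeval θ a),
      Ideal.Quotient.mk w.asIdeal (aeval θ b)) =
    ∏ g ∈ SF (fb f v), φ (AdjoinRoot g) (AdjoinRoot.mk g (a.map (Ideal.Quotient.mk v.asIdeal)),
      AdjoinRoot.mk g (b.map (Ideal.Quotient.mk v.asIdeal))) := by
  have hJ : ∀ w : HeightOneSpectrum (𝓞 L), ∃ g : (kv v)[X], (Ab v w ∧ Gd f θ w) →
      g ∈ SF (fb f v) ∧ ∀ h : Ab v w, psi θ h g = 0 := by
    intro w
    by_cases hw : Ab v w ∧ Gd f θ w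
    · obtain ⟨g, h1, h2⟩ := exists_factor hD hw.1 hw.2
      exact ⟨g, fun _ => ⟨h1, fun _ => h2⟩⟩
    · exact ⟨0, fun h => absurd h hw⟩
  choose J hJ using hJ
  have hm : ∀ w, w ∈ (fib L v).filter (Gd f θ) → Ab v w ∧ Gd f θ w := by
    intro w hw
    rw [Finset.mem_filter, mem_fib] at hw
    exact hw
  refine Finset.prod_bij (fun w _ => J w) ?_ ?_ ?_ ?_
  · intro w hw
    exact (hJ w (hm w hw)).1
  · intro w hw w' hw' hww
    have h1 := hJ w (hm w hw)
    have h2 := hJ w' (hm w' hw')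
    have h3 : J w = J w' := hww
    refine above_unique hD (hm w hw).1 (hm w' hw').1 (hm w' hw').2 h1.1 (h1.2 _) ?_
    rw [h3]
    exact h2.2 _
  · intro g hg
    obtain ⟨w, h, hw, hg0⟩ := exists_above hD v hg
    have hmem : w ∈ (fib L v).filter (Gd f θ) := by
      rw [Finset.mem_filter, mem_fib]
      exact ⟨h, hw⟩
    refine ⟨w, hmem, ?_⟩
    have h1 := hJ w ⟨h, hw⟩
    exact factor_unique hD h h1.1 (h1.2 h) hg hg0
  · intro w hw
    have h1 := hJ w (hm w hw)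
    have h2 := hφ _ _ (resIso hD (hm w hw).1 (hm w hw).2 h1.1 (h1.2 _))
      (AdjoinRoot.mk (J w) (a.map (Ideal.Quotient.mk v.asIdeal)),
        AdjoinRoot.mk (J w) (b.map (Ideal.Quotient.mk v.asIdeal)))
    rw [h2]
    simp only [resIso_mk, psi_map]

end local_

end Pool.Agent.KS6_22.MF
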