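import Pool.Agent.KS6_22.MF.KD
import Pool.Graph.R_pool_sql_team_seeded_47a924f7.T6.H9.MV.Asm

/-!
# Local means over finite fields

Owner helper22.
-/

set_option autoImplicit false
set_option linter.unusedSectionVars false
set_option linter.unusedVariables false
set_option linter.style.haveILetI false

open Polynomial NumberField IsDedekindDomain
open Pool.Agent.T6.H9.MV (Good LD LD_bounds LD_Lam pair_Lam Lam one_le_Lam rho0 rho0_pos rho0_lt_one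
  rho0_sq rho0_sq_le prs ex Np Nt EPhi Phi local_estimate exists_prod_zpow_bound norm_zpow_le fmean
  fmean_eq trF epF good_fin card_pts Om LD_real_pos)

namespace Pool.Agent.KS6_22.MF

section one

variable {k : Type} [Field k] [Finite k] {r : ℕ}

lemma two_le_card : 2 ≤ Nat.card k := Finite.one_lt_card

/-- the local data over a finite field -/
theorem good_k [Fintype k] (h6 : (6 : k) ≠ 0) : ∃ tr ep : k × k → ℝ,
    Good (Nat.card k : ℝ) tr ep ∧ ∀ (t : k × k) (s : ℂ),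
      lf k t s = (LD (Nat.card k : ℝ) (tr t) (ep t) ((Nat.card k : ℂ) ^ (-s)))⁻¹ := by
  classical
  refine ⟨trF, epF, ?_, fun t s => ?_⟩
  · rw [Nat.card_eq_fintype_card]
    exact good_fin h6
  · unfold lf
    congr 1
    have hq0 : (Nat.card k : ℂ) ≠ 0 := card_ne
    have h1 : (Nat.card k : ℂ) ^ (1 - 2 * s) = (Nat.card k : ℂ) * ((Nat.card k : ℂ) ^ (-s)) ^ 2 := by
      rw [sub_eq_add_neg, Complex.cpow_add _ _ hq0, Complex.cpow_one, sq,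
        ← Complex.cpow_add _ _ hq0]
      congr 2
      ring
    have h2 := card_pts h6 t.1 t.2
    rw [← Nat.card_eq_fintype_card] at h2
    have h3 : (Nat.card {P : k × k // P.2 ^ 2 = P.1 ^ 3 + t.1 * P.1 + t.2} : ℂ) =
        (Nat.card k : ℂ) + ((Pool.Agent.T6.H9.MV.Sab t.1 t.2 : ℤ) : ℂ) := by
      exact_mod_cast h2
    unfold LD trF epF
    rw [h3, h1]
    by_cases h4 : 4 * t.1 ^ 3 + 27 * t.2 ^ 2 = 0
    · rw [if_pos h4, if_pos h4]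
      push_cast
      ring
    · rw [if_neg h4, if_neg h4]
      push_cast
      ring

lemma kap (q : ℕ) (hq : 2 ≤ q) (s : ℂ) : √(q : ℝ) * ‖(q : ℂ) ^ (-s)‖ = (q : ℝ) ^ (1 / 2 - s.re) := by
  have h0 : (0 : ℝ) < (q : ℝ) := by exact_mod_cast (by omega : 0 < q)
  rw [Complex.norm_natCast_cpow_of_pos (by omega), Complex.neg_re, Real.sqrt_eq_rpow,
    ← Real.rpow_add h0]
  congr 1

lemma kap_le (q : ℕ) (hq : 2 ≤ q) {s : ℂ} (hs : 3 / 4 ≤ s.re) :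
    √(q : ℝ) * ‖(q : ℂ) ^ (-s)‖ ≤ rho0 := by
  rw [kap q hq]
  refine le_trans ?_ rho0_sq_le
  rw [rho0_sq]
  have h1 : (1 : ℝ) ≤ q := by exact_mod_cast (by omega : 1 ≤ q)
  have h2 : (2 : ℝ) ≤ q := by exact_mod_cast hq
  calc (q : ℝ) ^ (1 / 2 - s.re) ≤ (q : ℝ) ^ (-(1 / 4) : ℝ) :=
        Real.rpow_le_rpow_of_exponent_le h1 (by linarith)
    _ ≤ _ := Real.rpow_le_rpow_of_nonpos (by norm_num) h2 (by norm_num)

/-- bounds for the local factor -/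
lemma lf_bounds (h6 : (6 : k) ≠ 0) (t : k × k) {s : ℂ} (hs : 3 / 4 ≤ s.re) :
    (Lam rho0)⁻¹ ≤ ‖lf k t s‖ ∧ ‖lf k t s‖ ≤ Lam rho0 := by
  haveI := Fintype.ofFinite k
  obtain ⟨tr, ep, hG, hlf⟩ := good_k h6
  have hL := one_le_Lam rho0
  have hL0 : 0 < Lam rho0 := by linarith
  have hq0 : (0 : ℝ) < Nat.card k := by exact_mod_cast (by have := two_le_card (k := k); omega :
    0 < Nat.card k)
  obtain ⟨b1, b2⟩ := LD_Lam hq0 (hG.bound t) (hG.eps t) (kap_le _ two_le_card hs) rho0_lt_one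
  rw [hlf, norm_inv]
  have hpos : 0 < ‖LD (Nat.card k : ℝ) (tr t) (ep t) ((Nat.card k : ℂ) ^ (-s))‖ :=
    lt_of_lt_of_le (by positivity) b1
  constructor
  · exact inv_anti₀ hpos b2
  · rw [inv_le_comm₀ hpos hL0]
    exact b1

lemma lf_ne (h6 : (6 : k) ≠ 0) (t : k × k) {s : ℂ} (hs : 3 / 4 ≤ s.re) : lf k t s ≠ 0 := by
  have h := (lf_bounds h6 t hs).1
  have hL := one_le_Lam rho0
  exact norm_pos_iff.1 (lt_of_lt_of_le (by positivity) h)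

lemma lf_sub_one (h6 : (6 : k) ≠ 0) (t : k × k) {s : ℂ} {σ : ℝ} (hσ : 3 / 4 ≤ σ) (hs : σ ≤ s.re) :
    ‖lf k t s - 1‖ ≤ 3 * Lam rho0 * (Nat.card k : ℝ) ^ (1 / 2 - σ) := by
  haveI := Fintype.ofFinite k
  obtain ⟨tr, ep, hG, hlf⟩ := good_k h6
  have hL := one_le_Lam rho0
  have h2 := two_le_card (k := k)
  have hq0 : (0 : ℝ) < Nat.card k := by exact_mod_cast (by omega : 0 < Nat.card k)
  have hq1 : (1 : ℝ) ≤ Nat.card k := by exact_mod_cast (by omega : 1 ≤ Nat.card k)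
  set T : ℂ := (Nat.card k : ℂ) ^ (-s) with hT
  have hκ : √(Nat.card k : ℝ) * ‖T‖ ≤ (Nat.card k : ℝ) ^ (1 / 2 - σ) := by
    rw [hT, kap _ h2]
    exact Real.rpow_le_rpow_of_exponent_le hq1 (by linarith)
  have hκ1 : (Nat.card k : ℝ) ^ (1 / 2 - σ) ≤ 1 := Real.rpow_le_one_of_one_le_of_nonpos hq1
    (by linarith)
  set κ : ℝ := (Nat.card k : ℝ) ^ (1 / 2 - σ) with hκd
  have hκ0 : 0 ≤ κ := by positivity
  have hx0 : 0 ≤ √(Nat.card k : ℝ) * ‖T‖ := by positivity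
  have h1 : ‖LD (Nat.card k) (tr t) (ep t) T - 1‖ ≤ 3 * κ := by
    unfold LD
    have h2 : (1 : ℂ) - (tr t : ℂ) * T + (ep t : ℂ) * ((Nat.card k : ℝ) : ℂ) * T ^ 2 - 1 =
        (ep t : ℂ) * ((Nat.card k : ℝ) : ℂ) * T ^ 2 - (tr t : ℂ) * T := by ring
    rw [h2]
    refine (norm_sub_le _ _).trans ?_
    have h3 : ‖(tr t : ℂ) * T‖ ≤ 2 * κ := by
      rw [norm_mul, Complex.norm_real, Real.norm_eq_abs]
      calc |tr t| * ‖T‖ ≤ (2 * √(Nat.card k : ℝ)) * ‖T‖ :=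
            mul_le_mul_of_nonneg_right (hG.bound t) (norm_nonneg _)
        _ = 2 * (√(Nat.card k : ℝ) * ‖T‖) := by ring
        _ ≤ 2 * κ := by linarith
    have h4 : ‖(ep t : ℂ) * ((Nat.card k : ℝ) : ℂ) * T ^ 2‖ ≤ κ := by
      have h5 : ‖(ep t : ℂ)‖ ≤ 1 := by
        rcases hG.eps t with h | ⟨h, _⟩ <;> rw [h] <;> simp
      have h6 : ‖((Nat.card k : ℝ) : ℂ) * T ^ 2‖ = (√(Nat.card k : ℝ) * ‖T‖) ^ 2 := by
        rw [norm_mul, norm_pow, mul_pow, Real.sq_sqrt hq0.le, Complex.norm_real,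
          Real.norm_eq_abs, abs_of_pos hq0]
      rw [mul_assoc, norm_mul, h6]
      calc ‖(ep t : ℂ)‖ * (√(Nat.card k : ℝ) * ‖T‖) ^ 2 ≤ 1 * (√(Nat.card k : ℝ) * ‖T‖) ^ 2 := by
            gcongr
        _ ≤ 1 * κ ^ 2 := by gcongr
        _ ≤ κ := by nlinarith
    linarith
  obtain ⟨b1, b2⟩ := lf_bounds h6 t (s := s) (by linarith)
  rw [hlf, norm_inv] at b1 b2
  have hne : LD (Nat.card k) (tr t) (ep t) T ≠ 0 := by
    intro h
    rw [h] at b1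
    simp only [norm_zero, inv_zero] at b1
    have : 0 < (Lam rho0)⁻¹ := by positivity
    linarith
  rw [hlf]
  have h5 : (LD (Nat.card k) (tr t) (ep t) T)⁻¹ - 1 =
      -(LD (Nat.card k) (tr t) (ep t) T - 1) * (LD (Nat.card k) (tr t) (ep t) T)⁻¹ := by
    field_simp
    ring
  rw [h5, norm_mul, norm_neg, norm_inv]
  calc ‖LD (Nat.card k) (tr t) (ep t) T - 1‖ * ‖LD (Nat.card k) (tr t) (ep t) T‖⁻¹
      ≤ (3 * κ) * Lam rho0 := mul_le_mul h1 b2 (by positivity) (by positivity)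
    _ = _ := by ring

/-- the local factor is positive at real points -/
lemma lf_real (h6 : (6 : k) ≠ 0) (t : k × k) {s : ℂ} (hs : 3 / 4 ≤ s.re) (hs0 : s.im = 0) :
    ∃ y : ℝ, 0 < y ∧ lf k t s = y := by
  haveI := Fintype.ofFinite k
  obtain ⟨tr, ep, hG, hlf⟩ := good_k h6
  have h2 := two_le_card (k := k)
  have hq0 : (0 : ℝ) < Nat.card k := by exact_mod_cast (by omega : 0 < Nat.card k)
  have hcp : (Nat.card k : ℂ) ^ (-s) = (((Nat.card k : ℝ) ^ (-s.re) : ℝ) : ℂ) := by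
    rw [Complex.ofReal_cpow hq0.le]
    have h1 : ((-s.re : ℝ) : ℂ) = -s := by
      apply Complex.ext
      · simp
      · simp [hs0]
    rw [h1]
    push_cast
    rfl
  have hk := kap_le (Nat.card k) h2 hs
  rw [hlf, hcp]
  rw [hcp, Complex.norm_real, Real.norm_eq_abs] at hk
  have h1 := LD_real_pos hq0 (hG.bound t) (hG.eps t) hk rho0_lt_one
  refine ⟨(1 - tr t * (Nat.card k : ℝ) ^ (-s.re) + ep t * Nat.card k *
    ((Nat.card k : ℝ) ^ (-s.re)) ^ 2)⁻¹, inv_pos.2 h1, ?_⟩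
  unfold LD
  push_cast
  rfl

/-- the local factor is holomorphic -/
lemma lf_diff (h6 : (6 : k) ≠ 0) (t : k × k) (j : Fin r) {x : Fin r → ℂ} (hx : 3 / 4 < (x j).re) :
    DifferentiableAt ℂ (fun s : Fin r → ℂ => lf k t (s j)) x := by
  haveI := Fintype.ofFinite k
  obtain ⟨tr, ep, hG, hlf⟩ := good_k h6
  have hne := lf_ne h6 t hx.le
  simp only [hlf] at hne ⊢
  have hne' : LD (Nat.card k) (tr t) (ep t) ((Nat.card k : ℂ) ^ (-(x j))) ≠ 0 := by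
    intro h
    rw [h, inv_zero] at hne
    exact hne rfl
  have h1 : DifferentiableAt ℂ (fun s : Fin r → ℂ => (Nat.card k : ℂ) ^ (-(s j))) x := by
    have h0 : (Nat.card k : ℂ) ≠ 0 := card_ne
    have hf : DifferentiableAt ℂ (fun s : Fin r → ℂ => -(s j)) x := by fun_prop
    exact hf.const_cpow (Or.inl h0)
  have h2 : DifferentiableAt ℂ
      (fun s : Fin r → ℂ => LD (Nat.card k) (tr t) (ep t) ((Nat.card k : ℂ) ^ (-(s j)))) x := by
    unfold LD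
    fun_prop
  exact h2.inv hne'

/-- the product of powers of local factors -/
noncomputable def Ph (n : Fin r → ℤ) (s : Fin r → ℂ) (A : Type) [CommRing A] (t : A × A) : ℂ :=
  ∏ j, lf A t (s j) ^ n j

lemma Ph_equiv (n : Fin r → ℤ) (s : Fin r → ℂ) {A B : Type} [CommRing A] [CommRing B]
    (e : A ≃+* B) (t : A × A) : Ph n s A t = Ph n s B (e t.1, e t.2) := by
  unfold Ph
  refine Finset.prod_congr rfl fun j _ => ?_
  rw [lf_equiv e]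

/-- the estimate of the local factors -/
theorem Ph_est (n : Fin r → ℤ) : ∃ C : ℝ, 0 ≤ C ∧ ∀ (k : Type) [Field k] [Finite k],
    (6 : k) ≠ 0 → ∀ (s : Fin r → ℂ) (σ : ℝ), 3 / 4 ≤ σ → (∀ j, σ ≤ (s j).re) → ∀ t : k × k,
      ‖Ph n s k t - 1‖ ≤ C * (Nat.card k : ℝ) ^ (1 / 2 - σ) := by
  obtain ⟨C, hC0, hC⟩ := exists_prod_zpow_bound n (one_le_Lam rho0)
  have hL := one_le_Lam rho0
  refine ⟨C * (3 * Lam rho0), by positivity, ?_⟩
  intro k _ _ h6 s σ hσ hs t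
  unfold Ph
  refine (hC (fun j => lf k t (s j)) (3 * Lam rho0 * (Nat.card k : ℝ) ^ (1 / 2 - σ))
    (by positivity) fun j => ?_).trans (le_of_eq (by ring))
  obtain ⟨b1, b2⟩ := lf_bounds h6 t (s := s j) (hσ.trans (hs j))
  exact ⟨b1, b2, lf_sub_one h6 t hσ (hs j)⟩

lemma Ph_norm (n : Fin r → ℤ) {s : Fin r → ℂ} (hs : ∀ j, 3 / 4 ≤ (s j).re) (h6 : (6 : k) ≠ 0)
    (t : k × k) : ‖Ph n s k t‖ ≤ Lam rho0 ^ Nt n := by
  unfold Ph
  rw [norm_prod, Nt, ← Finset.prod_pow_eq_pow_sum]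
  refine Finset.prod_le_prod (fun _ _ => norm_nonneg _) fun j _ => ?_
  obtain ⟨b1, b2⟩ := lf_bounds h6 t (hs j)
  exact norm_zpow_le b1 b2 (one_le_Lam _) _

lemma Ph_ne (n : Fin r → ℤ) {s : Fin r → ℂ} (hs : ∀ j, 3 / 4 ≤ (s j).re) (h6 : (6 : k) ≠ 0)
    (t : k × k) : Ph n s k t ≠ 0 :=
  Finset.prod_ne_zero_iff.2 fun j _ => zpow_ne_zero _ (lf_ne h6 t (hs j))

lemma Ph_inv (n : Fin r → ℤ) (s : Fin r → ℂ) (A : Type) [CommRing A] (t : A × A) :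
    (Ph n s A t)⁻¹ = Ph (fun j => - n j) s A t := by
  unfold Ph
  rw [← Finset.prod_inv_distrib]
  refine Finset.prod_congr rfl fun j _ => ?_
  rw [zpow_neg]

lemma Ph_real (n : Fin r → ℤ) {s : Fin r → ℂ} (hs : ∀ j, 3 / 4 ≤ (s j).re)
    (hs0 : ∀ j, (s j).im = 0) (h6 : (6 : k) ≠ 0) (t : k × k) :
    ∃ y : ℝ, 0 < y ∧ Ph n s k t = y := by
  choose y hy0 hy using fun j => lf_real h6 t (hs j) (hs0 j)
  refine ⟨∏ j, y j ^ n j, Finset.prod_pos fun j _ => zpow_pos (hy0 j) _, ?_⟩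
  unfold Ph
  push_cast
  exact Finset.prod_congr rfl fun j _ => by rw [hy j]

lemma Ph_diff (n : Fin r → ℤ) {x : Fin r → ℂ} (hx : x ∈ Om r (3 / 4)) (h6 : (6 : k) ≠ 0)
    (t : k × k) : DifferentiableAt ℂ (fun s => Ph n s k t) x := by
  unfold Ph
  refine Pool.Agent.T6.H9.MV.diff_prod _ fun j _ => ?_
  exact (lf_diff h6 t j (hx j)).zpow (Or.inl (lf_ne h6 t (hx j).le))

/-- the local mean -/
noncomputable def Mk (n : Fin r → ℤ) (s : Fin r → ℂ) (A : Type) [CommRing A] : ℂ :=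
  fmean (Ph n s A)

/-- the local factors of the zeta functions -/
noncomputable def Zk (n : Fin r → ℤ) (s : Fin r → ℂ) (q : ℕ) : ℂ :=
  ∏ p ∈ prs r, (1 - (q : ℂ) ^ (-(s p.1 + s p.2 - 1))) ^ ex n p

lemma cpow_two' {q : ℕ} (hq : 2 ≤ q) (s s' : ℂ) :
    (q : ℂ) * ((q : ℂ) ^ (-s) * (q : ℂ) ^ (-s')) = (q : ℂ) ^ (-(s + s' - 1)) := by
  have h0 : (q : ℂ) ≠ 0 := by exact_mod_cast (by omega : q ≠ 0)
  rw [← Complex.cpow_add _ _ h0]
  nth_rewrite 1 [← Complex.cpow_one (q : ℂ)]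
  rw [← Complex.cpow_add _ _ h0]
  congr 1
  ring

lemma Zf_bounds {q : ℕ} (hq : 2 ≤ q) {s s' : ℂ} (hs : 3 / 4 ≤ s.re) (hs' : 3 / 4 ≤ s'.re) :
    (Lam rho0)⁻¹ ≤ ‖1 - (q : ℂ) ^ (-(s + s' - 1))‖ ∧
      ‖1 - (q : ℂ) ^ (-(s + s' - 1))‖ ≤ Lam rho0 := by
  rw [← cpow_two' hq s s']
  have hq0 : (0 : ℝ) < q := by exact_mod_cast (by omega : 0 < q)
  have := pair_Lam (q := (q : ℝ)) (T := (q : ℂ) ^ (-s)) (T' := (q : ℂ) ^ (-s'))
    hq0 (kap_le q hq hs) (kap_le q hq hs') rho0_lt_one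
  simpa using this

lemma Zf_sub_one {q : ℕ} (hq : 2 ≤ q) {s s' : ℂ} {σ : ℝ} (hs : σ ≤ s.re) (hs' : σ ≤ s'.re) :
    ‖1 - (q : ℂ) ^ (-(s + s' - 1)) - 1‖ ≤ (q : ℝ) ^ (1 - 2 * σ) := by
  have h1 : 1 - (q : ℂ) ^ (-(s + s' - 1)) - 1 = - (q : ℂ) ^ (-(s + s' - 1)) := by ring
  rw [h1, norm_neg, Complex.norm_natCast_cpow_of_pos (by omega)]
  refine Real.rpow_le_rpow_of_exponent_le (by exact_mod_cast (by omega : 1 ≤ q)) ?_
  simp only [Complex.neg_re, Complex.sub_re, Complex.add_re, Complex.one_re]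
  linarith

lemma Zk_norm (n : Fin r → ℤ) {s : Fin r → ℂ} (hs : ∀ j, 3 / 4 ≤ (s j).re) {q : ℕ} (hq : 2 ≤ q) :
    ‖Zk n s q‖ ≤ Lam rho0 ^ Np n := by
  unfold Zk
  rw [norm_prod, Np, ← Finset.prod_pow_eq_pow_sum]
  refine Finset.prod_le_prod (fun _ _ => norm_nonneg _) fun p _ => ?_
  obtain ⟨b1, b2⟩ := Zf_bounds hq (hs p.1) (hs p.2)
  exact norm_zpow_le b1 b2 (one_le_Lam _) _

lemma Zk_ne (n : Fin r → ℤ) {s : Fin r → ℂ} (hs : ∀ j, 3 / 4 ≤ (s j).re) {q : ℕ} (hq : 2 ≤ q) :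
    Zk n s q ≠ 0 := by
  refine Finset.prod_ne_zero_iff.2 fun p _ => zpow_ne_zero _ ?_
  have h := (Zf_bounds hq (hs p.1) (hs p.2)).1
  have hL := one_le_Lam rho0
  exact norm_pos_iff.1 (lt_of_lt_of_le (by positivity) h)

lemma Zk_inv (n : Fin r → ℤ) {s : Fin r → ℂ} (hs : ∀ j, 3 / 4 ≤ (s j).re) {q : ℕ} (hq : 2 ≤ q) :
    ‖(Zk n s q)⁻¹‖ ≤ Lam rho0 ^ Np n := by
  unfold Zk
  rw [← Finset.prod_inv_distrib, norm_prod, Np, ← Finset.prod_pow_eq_pow_sum]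
  refine Finset.prod_le_prod (fun _ _ => norm_nonneg _) fun p _ => ?_
  obtain ⟨b1, b2⟩ := Zf_bounds hq (hs p.1) (hs p.2)
  rw [← zpow_neg]
  have := norm_zpow_le b1 b2 (one_le_Lam _) (-(ex n p))
  rwa [Int.natAbs_neg] at this

end one

end Pool.Agent.KS6_22.MF
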