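import Pool.Graph.R_pool_sql_team_seeded_47a924f7.T6.H9.MV.Fin

/-!
# The number of points of an elliptic curve over the quadratic extension of a finite field

Owner helper22.

`a₂ = a ^ 2 - 2 q`. The inequality follows from the theorem of Hasse and Weil (in the library), and
the equality from the mean over all curves.
-/

set_option autoImplicit false
set_option linter.unusedSectionVars false
set_option linter.unusedVariables false
set_option linter.style.haveILetI false

open Polynomial Finset
open Pool.Agent.T6.H9.MV (Sab two_ne three_ne ringChar_ne chi_sum Sab_param disc_param param_disc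
  card_disc sum_Sab_sq)
open Pool.Agent.H341R2.Sharp (T A T_eq_sum n_mul_A A_eq_zero A_zero T_bound exists_r root_norm
  qc_norm)

namespace Pool.Agent.KS6_22.MF

section quad

variable {k : Type} [Field k] [Fintype k] [DecidableEq k] {E : Type} [Field E] [Fintype E]
  [DecidableEq E] [Algebra k E]

/-- the cubic polynomial -/
noncomputable def cub (a b : k) : k[X] := X ^ 3 + C a * X + C b

lemma cub_natDegree (a b : k) : (cub a b).natDegree = 3 := by
  unfold cub
  compute_degree!

lemma cub_monic (a b : k) : (cub a b).Monic := by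
  unfold cub
  monicity!

lemma cub_ns (a b : k) : ∀ (c : k) (h : k[X]), cub a b ≠ C c * h ^ 2 := by
  intro c q hq
  have hdeg := cub_natDegree a b
  have hc : c ≠ 0 := by
    rintro rfl
    rw [C_0, zero_mul] at hq
    rw [hq] at hdeg
    simp at hdeg
  have hqd : 2 * q.natDegree = 3 := by
    rw [hq, natDegree_C_mul hc, natDegree_pow] at hdeg
    exact hdeg
  omega

lemma T_one (h6 : (6 : k) ≠ 0) (a b : k) : T (cub a b) 1 = Sab a b := by
  have h2 := T_eq_sum (F := k) (E := k) (ringChar_ne h6) (cub a b)
  rw [Module.finrank_self] at h2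
  rw [h2, Sab]
  refine Finset.sum_congr rfl fun x _ => ?_
  unfold cub
  simp

lemma T_two (h6 : (6 : k) ≠ 0) (hE : Module.finrank k E = 2) (a b : k) :
    T (cub a b) 2 = Sab (algebraMap k E a) (algebraMap k E b) := by
  have h2 := T_eq_sum (F := k) (E := E) (ringChar_ne h6) (cub a b)
  rw [hE] at h2
  rw [h2, Sab]
  refine Finset.sum_congr rfl fun x _ => ?_
  unfold cub
  simp

lemma A_one (h6 : (6 : k) ≠ 0) (a b : k) : A (cub a b) 1 = Sab a b := by
  have h1 := n_mul_A (cub a b) 1
  rw [Icc_self, sum_singleton, Nat.sub_self, A_zero, one_mul] at h1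
  rw [← T_one h6, ← h1]
  simp

lemma two_A (h6 : (6 : k) ≠ 0) (hE : Module.finrank k E = 2) (a b : k) :
    2 * A (cub a b) 2 = Sab a b ^ 2 + Sab (algebraMap k E a) (algebraMap k E b) := by
  have h1 := n_mul_A (cub a b) 2
  have h2 : Icc 1 2 = ({1, 2} : Finset ℕ) := by decide
  rw [h2, sum_insert (by decide), sum_singleton] at h1
  have h3 : (2 - 1 : ℕ) = 1 := rfl
  have h4 : (2 - 2 : ℕ) = 0 := rfl
  rw [h3, h4, A_zero, A_one h6, T_one h6, T_two (E := E) h6 hE] at h1
  push_cast at h1
  linear_combination h1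

/-- **The inequality** -/
theorem A_two_le (h6 : (6 : k) ≠ 0) (a b : k) : |(A (cub a b) 2 : ℝ)| ≤ Fintype.card k := by
  set f := cub a b with hf
  have hF := ringChar_ne h6
  have hm := cub_monic a b
  have hd : f.natDegree = 3 := cub_natDegree a b
  have hns := cub_ns a b
  obtain ⟨r, hr, hlam⟩ := exists_r hF hm (by rw [← hf, hd]; norm_num) hns
  have hA : ∀ n, 3 ≤ n → A f n = 0 := fun n hn =>
    A_eq_zero f r hm hr hlam n (by rw [hd]; exact hn)
  set p : ℂ[X] := ∑ n ∈ range 3, C (A f n : ℂ) * X ^ n with hp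
  have hcoeff : ∀ n, p.coeff n = (A f n : ℂ) := by
    intro n
    rw [hp, finsetSum_coeff]
    simp_rw [coeff_C_mul_X_pow]
    by_cases hn : n < 3
    · rw [sum_eq_single n]
      · simp
      · intro m _ hm
        rw [if_neg (Ne.symm hm)]
      · intro h
        exact absurd (mem_range.2 hn) h
    · rw [hA n (by omega)]
      rw [sum_eq_zero]
      · simp
      · intro m hm
        rw [mem_range] at hm
        rw [if_neg (by omega)]
  have hq0 : 0 < Real.sqrt (Fintype.card k) := Real.sqrt_pos.2 (by exact_mod_cast Fintype.card_pos)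
  have hp0 : p.coeff 0 = 1 := by
    rw [hcoeff, A_zero]
    simp
  have hroot := root_norm p hp0 (fun m => (T f m : ℂ)) (Real.sqrt (Fintype.card k)) (5 * 3) hq0
    (by positivity) (by
      intro m hm'
      have := (T_bound hF hm (by rw [← hf, hd]; norm_num) hns m hm').1
      rw [Complex.norm_intCast]
      rw [← hf, hd] at this
      exact_mod_cast this) (by
      intro n
      rw [hcoeff]
      have := n_mul_A f n
      simp_rw [hcoeff]
      exact_mod_cast this)
  by_cases hA2 : A f 2 = 0
  · rw [hA2]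
    simp
  have hA2' : (A f 2 : ℂ) ≠ 0 := by exact_mod_cast hA2
  have hdeg : p.natDegree = 2 := by
    refine natDegree_eq_of_le_of_coeff_ne_zero ?_ (by rw [hcoeff]; exact hA2')
    rw [natDegree_le_iff_coeff_eq_zero]
    intro n hn
    rw [hcoeff, hA n hn]
    simp
  have hpne : p ≠ 0 := by
    rintro h
    rw [h] at hp0
    simp at hp0
  have hs := (IsAlgClosed.splits p).coeff_zero_eq_leadingCoeff_mul_prod_roots
  rw [hp0, leadingCoeff, hdeg, hcoeff] at hs
  have hcard : p.roots.card = 2 := by
    rw [← hdeg]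
    exact (IsAlgClosed.splits p).natDegree_eq_card_roots.symm
  obtain ⟨z, w, hzw⟩ := Multiset.card_eq_two.1 hcard
  rw [hzw] at hs
  have hz : 1 ≤ Real.sqrt (Fintype.card k) * ‖z‖ := hroot z (by
    have : z ∈ p.roots := by rw [hzw]; simp
    exact (mem_roots hpne).1 this)
  have hw : 1 ≤ Real.sqrt (Fintype.card k) * ‖w‖ := hroot w (by
    have : w ∈ p.roots := by rw [hzw]; simp
    exact (mem_roots hpne).1 this)
  have h1 : ‖(A f 2 : ℂ)‖ * (‖z‖ * ‖w‖) = 1 := by
    have h2 := congrArg norm hs
    simp only [Multiset.insert_eq_cons, Multiset.prod_cons, Multiset.prod_singleton, norm_mul,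
      norm_pow, norm_neg, norm_one, one_pow, one_mul] at h2
    linarith
  rw [Complex.norm_intCast] at h1
  have h3 : (Real.sqrt (Fintype.card k)) ^ 2 = Fintype.card k := Real.sq_sqrt (by positivity)
  have h4 : 1 ≤ (Fintype.card k : ℝ) * (‖z‖ * ‖w‖) := by
    rw [← h3]
    calc (1 : ℝ) = 1 * 1 := by ring
      _ ≤ (Real.sqrt (Fintype.card k) * ‖z‖) * (Real.sqrt (Fintype.card k) * ‖w‖) :=
          mul_le_mul hz hw zero_le_one (by positivity)
      _ = _ := by ring
  calc |(A f 2 : ℝ)| = |(A f 2 : ℝ)| * 1 := by ring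
    _ ≤ |(A f 2 : ℝ)| * ((Fintype.card k : ℝ) * (‖z‖ * ‖w‖)) :=
        mul_le_mul_of_nonneg_left h4 (abs_nonneg _)
    _ = (Fintype.card k : ℝ) * (|(A f 2 : ℝ)| * (‖z‖ * ‖w‖)) := by ring
    _ = Fintype.card k := by rw [h1, mul_one]

lemma card_E (hE : Module.finrank k E = 2) : Fintype.card E = Fintype.card k ^ 2 := by
  rw [Module.card_eq_pow_finrank (K := k) (V := E), hE]

lemma six_E (h6 : (6 : k) ≠ 0) : (6 : E) ≠ 0 := by
  have h1 : (6 : E) = algebraMap k E 6 := (map_ofNat _ 6).symm
  rw [h1]
  exact fun h => h6 ((algebraMap k E).injective (by rw [h, map_zero]))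

lemma chi_base (h6 : (6 : k) ≠ 0) (hE : Module.finrank k E = 2) (z : k) :
    quadraticChar E (algebraMap k E z) = if z = 0 then 0 else 1 := by
  rw [qc_norm (ringChar_ne h6), Algebra.norm_algebraMap, hE]
  split_ifs with h
  · rw [h, zero_pow (by norm_num), MulChar.map_zero]
  · exact quadraticChar_sq_one' h

/-- the singular curves -/
lemma Sab_sing_quad (h6 : (6 : k) ≠ 0) (hE : Module.finrank k E = 2) {a b : k}
    (h : 4 * a ^ 3 + 27 * b ^ 2 = 0) :
    Sab (algebraMap k E a) (algebraMap k E b) = - Sab a b ^ 2 := by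
  obtain ⟨t, ha, hb⟩ := disc_param h6 h
  have h1 : algebraMap k E a = -3 * (algebraMap k E t) ^ 2 := by
    rw [ha, map_mul, map_neg, map_ofNat, map_pow]
  have h2 : algebraMap k E b = 2 * (algebraMap k E t) ^ 3 := by
    rw [hb, map_mul, map_ofNat, map_pow]
  rw [h1, h2, Sab_param (six_E h6), ha, hb, Sab_param h6]
  have h3 : (3 * algebraMap k E t) = algebraMap k E (3 * t) := by rw [map_mul, map_ofNat]
  rw [h3, chi_base h6 hE]
  split_ifs with h4
  · rw [h4, MulChar.map_zero]
    simp
  · have := quadraticChar_sq_one (F := k) h4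
    rw [neg_sq, this]

/-- the mean over all curves -/
lemma sum_Sab_quad (h6 : (6 : k) ≠ 0) (hE : Module.finrank k E = 2) :
    ∑ p : k × k, Sab (algebraMap k E p.1) (algebraMap k E p.2) =
      ((Fintype.card k : ℤ) - 1) * (Fintype.card k : ℤ) ^ 2 := by
  unfold Sab
  rw [Finset.sum_comm]
  have hx : ∀ x : E, ∑ p : k × k,
      quadraticChar E (x ^ 3 + algebraMap k E p.1 * x + algebraMap k E p.2) =
      if x ∈ Set.range (algebraMap k E) then
        ((Fintype.card k : ℤ) - 1) * (Fintype.card k : ℤ) else 0 := by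
    intro x
    by_cases h : x ∈ Set.range (algebraMap k E)
    · rw [if_pos h]
      obtain ⟨y, rfl⟩ := h
      rw [Fintype.sum_prod_type]
      have h1 : ∀ a : k, ∑ b : k, quadraticChar E ((algebraMap k E y) ^ 3 +
          algebraMap k E a * algebraMap k E y + algebraMap k E b) = (Fintype.card k : ℤ) - 1 := by
        intro a
        have h2 : ∀ b : k, quadraticChar E ((algebraMap k E y) ^ 3 +
            algebraMap k E a * algebraMap k E y + algebraMap k E b) =
            if y ^ 3 + a * y + b = 0 then 0 else 1 := by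
          intro b
          rw [← chi_base (E := E) h6 hE]
          congr 1
          simp
        rw [Finset.sum_congr rfl fun b _ => h2 b]
        have h3 : ∑ b : k, (if y ^ 3 + a * y + b = 0 then (0 : ℤ) else 1) =
            ∑ c : k, if c = 0 then (0 : ℤ) else 1 :=
          Equiv.sum_comp (Equiv.addLeft (y ^ 3 + a * y)) (fun c => if c = 0 then (0 : ℤ) else 1)
        rw [h3]
        have h4 : ∀ c : k, (if c = 0 then (0 : ℤ) else 1) = 1 - if c = 0 then 1 else 0 := by
          intro c
          split_ifs <;> simp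
        rw [Finset.sum_congr rfl fun c _ => h4 c, Finset.sum_sub_distrib]
        simp
      rw [Finset.sum_congr rfl fun a _ => h1 a, Finset.sum_const, Finset.card_univ, nsmul_eq_mul,
        mul_comm]
    · rw [if_neg h]
      have hinj : Function.Injective
          (fun p : k × k => x ^ 3 + algebraMap k E p.1 * x + algebraMap k E p.2) := by
        rintro ⟨a, b⟩ ⟨a', b'⟩ hab
        simp only at hab
        have h1 : algebraMap k E (a - a') * x = algebraMap k E (b' - b) := by
          rw [map_sub, map_sub]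
          linear_combination hab
        have h2 : a - a' = 0 := by
          by_contra h2
          refine h ⟨(b' - b) / (a - a'), ?_⟩
          have h3 : algebraMap k E (a - a') ≠ 0 := by
            intro h4
            exact h2 ((algebraMap k E).injective (by rw [h4, map_zero]))
          rw [map_div₀, div_eq_iff h3, ← h1, mul_comm]
        rw [h2, map_zero, zero_mul] at h1
        have h3 : b' - b = 0 := (algebraMap k E).injective (by rw [← h1, map_zero])
        exact Prod.ext (sub_eq_zero.1 h2) (sub_eq_zero.1 h3).symm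
      have hbij : Function.Bijective
          (fun p : k × k => x ^ 3 + algebraMap k E p.1 * x + algebraMap k E p.2) := by
        rw [Fintype.bijective_iff_injective_and_card]
        refine ⟨hinj, ?_⟩
        rw [Fintype.card_prod, card_E (k := k) (E := E) hE, sq]
      rw [← chi_sum (six_E (k := k) (E := E) h6)]
      exact (Equiv.ofBijective _ hbij).sum_comp (fun z => quadraticChar E z)
  rw [Finset.sum_congr rfl fun x _ => hx x]
  rw [← Finset.sum_filter]
  have hc : (univ.filter fun x : E => x ∈ Set.range (algebraMap k E)).card = Fintype.card k := by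
    rw [← Finset.card_univ (α := k)]
    symm
    refine Finset.card_bij (fun t _ => algebraMap k E t) ?_ ?_ ?_
    · intro t _
      rw [Finset.mem_filter]
      exact ⟨Finset.mem_univ _, t, rfl⟩
    · intro t _ t' _ h
      exact (algebraMap k E).injective h
    · intro y hy
      obtain ⟨t, ht⟩ := (Finset.mem_filter.1 hy).2
      exact ⟨t, Finset.mem_univ _, ht⟩
  rw [Finset.sum_const, hc, nsmul_eq_mul]
  ring

/-- **The equality** -/
theorem Sab_quad (h6 : (6 : k) ≠ 0) (hE : Module.finrank k E = 2) (a b : k) :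
    Sab (algebraMap k E a) (algebraMap k E b) =
      (if 4 * a ^ 3 + 27 * b ^ 2 = 0 then 0 else 2 * (Fintype.card k : ℤ)) - Sab a b ^ 2 := by
  by_cases h : 4 * a ^ 3 + 27 * b ^ 2 = 0
  · rw [if_pos h, Sab_sing_quad h6 hE h]
    ring
  · rw [if_neg h]
    -- the nonnegative function
    have hle : ∀ p : k × k, A (cub p.1 p.2) 2 ≤ (Fintype.card k : ℤ) := by
      intro p
      have h1 := (le_abs_self _).trans (A_two_le h6 p.1 p.2)
      exact_mod_cast h1
    have hsing : ∀ p : k × k, 4 * p.1 ^ 3 + 27 * p.2 ^ 2 = 0 → A (cub p.1 p.2) 2 = 0 := by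
      intro p hp
      have h1 := two_A (E := E) h6 hE p.1 p.2
      rw [Sab_sing_quad h6 hE hp] at h1
      omega
    have hsum : ∑ p : k × k, A (cub p.1 p.2) 2 =
        ((Fintype.card k : ℤ) - 1) * (Fintype.card k : ℤ) ^ 2 := by
      have h1 : ∑ p : k × k, 2 * A (cub p.1 p.2) 2 =
          2 * (((Fintype.card k : ℤ) - 1) * (Fintype.card k : ℤ) ^ 2) := by
        rw [Finset.sum_congr rfl fun p _ => two_A (E := E) h6 hE p.1 p.2, Finset.sum_add_distrib,
          sum_Sab_sq h6, sum_Sab_quad h6 hE]
        ring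
      rw [← Finset.mul_sum] at h1
      omega
    have hzero : ∑ p ∈ univ.filter (fun p : k × k => ¬ 4 * p.1 ^ 3 + 27 * p.2 ^ 2 = 0),
        ((Fintype.card k : ℤ) - A (cub p.1 p.2) 2) = 0 := by
      have h1 : ∑ p ∈ univ.filter (fun p : k × k => ¬ 4 * p.1 ^ 3 + 27 * p.2 ^ 2 = 0),
          A (cub p.1 p.2) 2 = ∑ p : k × k, A (cub p.1 p.2) 2 := by
        rw [← Finset.sum_filter_add_sum_filter_not univ
          (fun p : k × k => 4 * p.1 ^ 3 + 27 * p.2 ^ 2 = 0) (fun p => A (cub p.1 p.2) 2),
          Finset.sum_eq_zero (s := univ.filter fun p : k × k => 4 * p.1 ^ 3 + 27 * p.2 ^ 2 = 0)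
            (fun p hp => hsing p (Finset.mem_filter.1 hp).2), zero_add]
      have h2 := Finset.card_filter_add_card_filter_not (s := (univ : Finset (k × k)))
        (fun p : k × k => 4 * p.1 ^ 3 + 27 * p.2 ^ 2 = 0)
      rw [card_disc h6, Finset.card_univ, Fintype.card_prod] at h2
      have h3 : ((univ.filter (fun p : k × k => ¬ 4 * p.1 ^ 3 + 27 * p.2 ^ 2 = 0)).card : ℤ) =
          (Fintype.card k : ℤ) * Fintype.card k - Fintype.card k := by
        have : ((Fintype.card k + (univ.filter
          (fun p : k × k => ¬ 4 * p.1 ^ 3 + 27 * p.2 ^ 2 = 0)).card : ℕ) : ℤ) =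
          ((Fintype.card k * Fintype.card k : ℕ) : ℤ) := by rw [h2]
        push_cast at this
        linarith
      rw [Finset.sum_sub_distrib, h1, hsum, Finset.sum_const, nsmul_eq_mul, h3]
      ring
    have h1 := (Finset.sum_eq_zero_iff_of_nonneg (fun p _ => by
      have := hle p
      omega)).1 hzero (a, b) (Finset.mem_filter.2 ⟨Finset.mem_univ _, h⟩)
    have h2 := two_A (E := E) h6 hE a b
    simp only at h1
    linarith

end quad

end Pool.Agent.KS6_22.MF
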