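import Pool.Agent.KS6_22.MF.Exp
import Pool.Agent.KS6_22.MF.Quad

/-!
# The local factors up to second and third order

Owner helper22.
-/

set_option autoImplicit false
set_option linter.unusedSectionVars false
set_option linter.unusedVariables false
set_option linter.style.haveILetI false

open Polynomial NumberField IsDedekindDomain
open Pool.Agent.T6.H9.MV (Good LD LD_bounds LD_Lam pair_Lam Lam one_le_Lam rho0 rho0_pos rho0_lt_one
  rho0_sq rho0_sq_le prs ex Np Nt exists_prod_zpow_bound norm_zpow_le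
  norm_zpow_sub_one fmean fmean_eq fmean_comp fmean_pi fmean_sub trF epF good_fin card_pts Om
  LD_real_pos Sab quad_identity)

namespace Pool.Agent.KS6_22.MF

section tr

/-- the trace of Frobenius -/
noncomputable def trk (A : Type) [CommRing A] (t : A × A) : ℝ :=
  (Nat.card A : ℝ) - (Nat.card {P : A × A // P.2 ^ 2 = P.1 ^ 3 + t.1 * P.1 + t.2} : ℝ)

open Classical in
/-- the indicator of good reduction -/
noncomputable def epk (A : Type) [CommRing A] (t : A × A) : ℝ :=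
  if 4 * t.1 ^ 3 + 27 * t.2 ^ 2 = 0 then 0 else 1

lemma lf_eq (A : Type) [CommRing A] [Finite A] (t : A × A) (s : ℂ) :
    lf A t s = (LD (Nat.card A : ℝ) (trk A t) (epk A t) ((Nat.card A : ℂ) ^ (-s)))⁻¹ := by
  have hq0 : (Nat.card A : ℂ) ≠ 0 := by exact_mod_cast (Nat.card_pos (α := A)).ne'
  have h1 : (Nat.card A : ℂ) ^ (1 - 2 * s) = (Nat.card A : ℂ) * ((Nat.card A : ℂ) ^ (-s)) ^ 2 := by
    rw [sub_eq_add_neg, Complex.cpow_add _ _ hq0, Complex.cpow_one, sq,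
      ← Complex.cpow_add _ _ hq0]
    congr 2
    ring
  unfold lf LD trk epk
  rw [h1]
  congr 1
  by_cases h4 : 4 * t.1 ^ 3 + 27 * t.2 ^ 2 = 0
  · rw [if_pos h4, if_pos h4]
    push_cast
    ring
  · rw [if_neg h4, if_neg h4]
    push_cast
    ring

variable {k : Type} [Field k] [Finite k]

lemma trk_eq [Fintype k] [DecidableEq k] (h6 : (6 : k) ≠ 0) (t : k × k) :
    trk k t = -(Sab t.1 t.2 : ℝ) := by
  have h2 := card_pts h6 t.1 t.2
  rw [← Nat.card_eq_fintype_card] at h2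
  have h3 : (Nat.card {P : k × k // P.2 ^ 2 = P.1 ^ 3 + t.1 * P.1 + t.2} : ℝ) =
      (Nat.card k : ℝ) + (Sab t.1 t.2 : ℝ) := by
    exact_mod_cast h2
  unfold trk
  rw [h3]
  ring

lemma good_trk [Fintype k] (h6 : (6 : k) ≠ 0) : Good (Nat.card k : ℝ) (trk k) (epk k) := by
  classical
  have h1 : trk k = trF := by
    funext t
    rw [trk_eq h6]
    rfl
  have h2 : epk k = epF := by
    funext t
    unfold epk epF
    split_ifs <;> rfl
  rw [h1, h2, Nat.card_eq_fintype_card]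
  exact good_fin h6

variable {A : Type} [Field A] [Finite A] [Algebra k A]

lemma epk_alg (t : k × k) : epk A (algebraMap k A t.1, algebraMap k A t.2) = epk k t := by
  have h1 : (4 * (algebraMap k A t.1) ^ 3 + 27 * (algebraMap k A t.2) ^ 2 = 0) ↔
      4 * t.1 ^ 3 + 27 * t.2 ^ 2 = 0 := by
    have h2 : 4 * (algebraMap k A t.1) ^ 3 + 27 * (algebraMap k A t.2) ^ 2 =
        algebraMap k A (4 * t.1 ^ 3 + 27 * t.2 ^ 2) := by
      rw [map_add, map_mul, map_mul, map_pow, map_pow, map_ofNat, map_ofNat]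
    rw [h2]
    constructor
    · intro h
      exact (algebraMap k A).injective (by rw [h, map_zero])
    · intro h
      rw [h, map_zero]
  unfold epk
  by_cases h : 4 * t.1 ^ 3 + 27 * t.2 ^ 2 = 0
  · rw [if_pos h, if_pos (h1.2 h)]
  · rw [if_neg h, if_neg fun h' => h (h1.1 h')]

/-- **The trace over the quadratic extension** -/
theorem trk_quad (h6 : (6 : k) ≠ 0) (hA : Module.finrank k A = 2) (t : k × k) :
    trk A (algebraMap k A t.1, algebraMap k A t.2) =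
      trk k t ^ 2 - 2 * Nat.card k * epk k t := by
  classical
  haveI := Fintype.ofFinite k
  haveI := Fintype.ofFinite A
  have h6' : (6 : A) ≠ 0 := six_E h6
  rw [trk_eq h6' (algebraMap k A t.1, algebraMap k A t.2), trk_eq h6 t,
    Sab_quad (E := A) h6 hA t.1 t.2]
  unfold epk
  by_cases h : 4 * t.1 ^ 3 + 27 * t.2 ^ 2 = 0
  · rw [if_pos h, if_pos h]
    push_cast
    ring
  · rw [if_neg h, if_neg h, Nat.card_eq_fintype_card]
    push_cast
    ring

end tr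

section second

variable {r : ℕ}

lemma LD_second {q a e κ : ℝ} {T : ℂ} (hq : 0 < q) (h : |a| ≤ 2 * √q)
    (he : e = 1 ∨ (e = 0 ∧ |a| ≤ √q)) (hT : √q * ‖T‖ ≤ κ) (hκ : κ ≤ rho0) :
    ‖(LD q a e T)⁻¹ - 1 - a * T‖ ≤ 7 * Lam rho0 * κ ^ 2 := by
  have hκ0 : 0 ≤ κ := (by positivity : 0 ≤ √q * ‖T‖).trans hT
  have hκ1 : κ ≤ 1 := hκ.trans rho0_lt_one.le
  obtain ⟨b1, b2⟩ := LD_Lam hq h he (hT.trans hκ) rho0_lt_one
  have hL := one_le_Lam rho0
  have hne : LD q a e T ≠ 0 := norm_pos_iff.1 (lt_of_lt_of_le (by positivity) b1)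
  have hid : (LD q a e T)⁻¹ - 1 - a * T =
      (-(e * (q * T ^ 2)) + (a * T) ^ 2 - e * ((a * T) * (q * T ^ 2))) * (LD q a e T)⁻¹ := by
    have h1 : -(e * (q * T ^ 2)) + (a * T) ^ 2 - e * ((a * T) * (q * T ^ 2)) =
        1 - LD q a e T - a * T * LD q a e T := by
      unfold LD
      ring
    rw [h1]
    field_simp
  have haT : ‖(a : ℂ) * T‖ ≤ 2 * κ := by
    rw [norm_mul, Complex.norm_real, Real.norm_eq_abs]
    calc |a| * ‖T‖ ≤ (2 * √q) * ‖T‖ := mul_le_mul_of_nonneg_right h (norm_nonneg _)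
      _ = 2 * (√q * ‖T‖) := by ring
      _ ≤ _ := by linarith
  have hqT : ‖(q : ℂ) * T ^ 2‖ ≤ κ ^ 2 := by
    rw [norm_mul, norm_pow, Complex.norm_real, Real.norm_eq_abs, abs_of_pos hq]
    calc q * ‖T‖ ^ 2 = (√q * ‖T‖) ^ 2 := by rw [mul_pow, Real.sq_sqrt hq.le]
      _ ≤ κ ^ 2 := pow_le_pow_left₀ (by positivity) hT 2
  have heN : ‖(e : ℂ)‖ ≤ 1 := by
    rw [Complex.norm_real, Real.norm_eq_abs]
    rcases he with he | ⟨he, -⟩ <;> rw [he] <;> norm_num
  rw [hid, norm_mul]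
  have hnum : ‖-(e * (q * T ^ 2)) + (a * T) ^ 2 - e * ((a * T) * (q * T ^ 2))‖ ≤ 7 * κ ^ 2 := by
    refine (norm_sub_le _ _).trans ?_
    have t1 : ‖-((e : ℂ) * (q * T ^ 2)) + (a * T) ^ 2‖ ≤ 1 * κ ^ 2 + (2 * κ) ^ 2 := by
      refine (norm_add_le _ _).trans ?_
      rw [norm_neg, norm_mul, norm_pow]
      gcongr
    have t2 : ‖(e : ℂ) * ((a * T) * (q * T ^ 2))‖ ≤ 1 * ((2 * κ) * κ ^ 2) := by
      rw [norm_mul, norm_mul]
      gcongr
    have hκ3 : κ * κ ^ 2 ≤ 1 * κ ^ 2 := mul_le_mul_of_nonneg_right hκ1 (by positivity)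
    nlinarith
  have hinv : ‖(LD q a e T)⁻¹‖ ≤ Lam rho0 := by
    rw [norm_inv]
    exact inv_le_of_inv_le₀ (by linarith) b1
  calc _ ≤ (7 * κ ^ 2) * Lam rho0 := mul_le_mul hnum hinv (norm_nonneg _) (by positivity)
    _ = _ := by ring

/-- the local factor up to second order -/
theorem Ph_second (m : Fin r → ℤ) : ∃ C : ℝ, 0 ≤ C ∧ ∀ (k : Type) [Field k] [Finite k],
    (6 : k) ≠ 0 → ∀ (s : Fin r → ℂ) (σ : ℝ), 3 / 4 ≤ σ → (∀ j, σ ≤ (s j).re) → ∀ t : k × k,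
      ‖Ph m s k t - 1 - ∑ j, m j * (trk k t * (Nat.card k : ℂ) ^ (-(s j)))‖ ≤
        C * ((Nat.card k : ℝ) ^ (1 / 2 - σ)) ^ 2 := by
  classical
  have hL := one_le_Lam rho0
  obtain ⟨C, hC0, hC⟩ := prod_zpow_second m hL (K := 7 * Lam rho0) (by positivity) Finset.univ
  refine ⟨C, hC0, ?_⟩
  intro k _ _ h6 s σ hσ hs t
  haveI := Fintype.ofFinite k
  have hG := good_trk h6
  have hq2 := two_le_card (k := k)
  have hq0 : (0 : ℝ) < Nat.card k := by exact_mod_cast (by omega : 0 < Nat.card k)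
  have hq1 : (1 : ℝ) ≤ Nat.card k := by exact_mod_cast (by omega : 1 ≤ Nat.card k)
  have hy1 : (Nat.card k : ℝ) ^ (1 / 2 - σ) ≤ 1 :=
    Real.rpow_le_one_of_one_le_of_nonpos hq1 (by linarith)
  unfold Ph
  refine hC (fun j => lf k t (s j)) (fun j => trk k t * (Nat.card k : ℂ) ^ (-(s j)))
    ((Nat.card k : ℝ) ^ (1 / 2 - σ)) (by positivity) hy1 fun j _ => ?_
  obtain ⟨b1, b2⟩ := lf_bounds h6 t (hσ.trans (hs j))
  refine ⟨b1, b2, ?_, ?_⟩
  · refine (lf_sub_one h6 t hσ (hs j)).trans ?_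
    have : 0 ≤ (Nat.card k : ℝ) ^ (1 / 2 - σ) := by positivity
    nlinarith
  · have hT : √(Nat.card k : ℝ) * ‖(Nat.card k : ℂ) ^ (-(s j))‖ ≤
        (Nat.card k : ℝ) ^ (1 / 2 - σ) := by
      rw [kap _ hq2]
      exact Real.rpow_le_rpow_of_exponent_le hq1 (by linarith [hs j])
    have hκ : (Nat.card k : ℝ) ^ (1 / 2 - σ) ≤ rho0 := by
      refine le_trans ?_ rho0_sq_le
      rw [rho0_sq]
      have h2 : (2 : ℝ) ≤ Nat.card k := by exact_mod_cast hq2
      calc (Nat.card k : ℝ) ^ (1 / 2 - σ) ≤ (Nat.card k : ℝ) ^ (-(1 / 4) : ℝ) :=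
            Real.rpow_le_rpow_of_exponent_le hq1 (by linarith)
        _ ≤ _ := Real.rpow_le_rpow_of_nonpos (by norm_num) h2 (by norm_num)
    beta_reduce
    rw [lf_eq]
    exact LD_second hq0 (hG.bound t) (hG.eps t) hT hκ

/-- the product of the local factors over the quadratic extension -/
noncomputable def Ph2 (m : Fin r → ℤ) (s : Fin r → ℂ) (k : Type) [Field k] (t : k × k) : ℂ :=
  ∏ j, ((LD ((Nat.card k : ℝ) ^ 2) (trk k t ^ 2 - 2 * Nat.card k * epk k t) (epk k t)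
    (((Nat.card k : ℂ) ^ (-(s j))) ^ 2))⁻¹) ^ m j

variable {k : Type} [Field k] [Finite k]

lemma Ph_quad (m : Fin r → ℤ) (s : Fin r → ℂ) (h6 : (6 : k) ≠ 0) {g : k[X]} (hg : Irreducible g)
    (hm : g.Monic) (h2 : g.natDegree = 2) (t : k × k) :
    Ph m s (AdjoinRoot g) (AdjoinRoot.of g t.1, AdjoinRoot.of g t.2) = Ph2 m s k t := by
  haveI : Fact (Irreducible g) := ⟨hg⟩
  haveI := adj_finite hm
  have hfr : Module.finrank k (AdjoinRoot g) = 2 := by
    rw [← h2]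
    exact finrank_quotient_span_eq_natDegree
  have htr := trk_quad (A := AdjoinRoot g) h6 hfr t
  have hep := epk_alg (A := AdjoinRoot g) t
  have hcard : Nat.card (AdjoinRoot g) = Nat.card k ^ 2 := by rw [adj_card hm, h2]
  unfold Ph Ph2
  refine Finset.prod_congr rfl fun j _ => ?_
  congr 1
  rw [lf_eq]
  have e1 : trk (AdjoinRoot g) (AdjoinRoot.of g t.1, AdjoinRoot.of g t.2) =
      trk k t ^ 2 - 2 * Nat.card k * epk k t := htr
  have e2 : epk (AdjoinRoot g) (AdjoinRoot.of g t.1, AdjoinRoot.of g t.2) = epk k t := hep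
  rw [e1, e2, hcard]
  congr 2
  · push_cast
    rfl
  · push_cast
    rw [sq, sq, Complex.natCast_mul_natCast_cpow]

lemma exists_quad (k : Type) [Field k] [Finite k] :
    ∃ g : k[X], Irreducible g ∧ g.Monic ∧ g.natDegree = 2 := by
  haveI := Fintype.ofFinite k
  have hq2 := two_le_card (k := k)
  have h1 := card_Q2 (k := k)
  have h2 : (Q2 k).Nonempty := by
    rw [← Finset.card_pos]
    by_contra h
    have h3 : (Q2 k).card = 0 := by omega
    rw [h3, Nat.cast_zero] at h1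
    have hq : (Nat.card k : ℂ) ≠ 0 := card_ne
    have h4 : (1 : ℂ) / 2 - 1 / (2 * (Nat.card k : ℂ)) = 0 := by
      rcases mul_eq_zero.1 h1.symm with h | h
      · exact absurd h (pow_ne_zero _ hq)
      · exact h
    have h5 : (Nat.card k : ℂ) = 1 := by
      field_simp at h4
      linear_combination h4
    have h6 : Nat.card k = 1 := by exact_mod_cast h5
    omega
  obtain ⟨g, hg⟩ := h2
  rw [mem_Q2] at hg
  exact ⟨g, hg.2.1, hg.1, hg.2.2⟩

theorem Ph2_est (m : Fin r → ℤ) : ∃ C : ℝ, 0 ≤ C ∧ ∀ (k : Type) [Field k] [Finite k],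
    (6 : k) ≠ 0 → ∀ (s : Fin r → ℂ) (σ : ℝ), 3 / 4 ≤ σ → (∀ j, σ ≤ (s j).re) → ∀ t : k × k,
      ‖Ph2 m s k t - 1‖ ≤ C * ((Nat.card k : ℝ) ^ (1 / 2 - σ)) ^ 2 ∧
      ‖Ph2 m s k t - 1 - ∑ j, m j * ((trk k t ^ 2 - 2 * Nat.card k * epk k t : ℝ) *
        ((Nat.card k : ℂ) ^ (-(s j))) ^ 2)‖ ≤ C * ((Nat.card k : ℝ) ^ (1 / 2 - σ)) ^ 4 := by
  obtain ⟨C1, hC1, h1⟩ := Ph_est m
  obtain ⟨C2, hC2, h2⟩ := Ph_second m
  refine ⟨C1 + C2, by positivity, ?_⟩
  intro k _ _ h6 s σ hσ hs t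
  obtain ⟨g, hg, hm, hd⟩ := exists_quad k
  haveI : Fact (Irreducible g) := ⟨hg⟩
  haveI := adj_finite hm
  have hfr : Module.finrank k (AdjoinRoot g) = 2 := by
    rw [← hd]
    exact finrank_quotient_span_eq_natDegree
  have htr := trk_quad (A := AdjoinRoot g) h6 hfr t
  have hcard : Nat.card (AdjoinRoot g) = Nat.card k ^ 2 := by rw [adj_card hm, hd]
  have e1 := h1 (AdjoinRoot g) (adj_six hg h6) s σ hσ hs (AdjoinRoot.of g t.1, AdjoinRoot.of g t.2)
  have e2 := h2 (AdjoinRoot g) (adj_six hg h6) s σ hσ hs (AdjoinRoot.of g t.1, AdjoinRoot.of g t.2)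
  have e3 : trk (AdjoinRoot g) (AdjoinRoot.of g t.1, AdjoinRoot.of g t.2) =
      trk k t ^ 2 - 2 * Nat.card k * epk k t := htr
  rw [Ph_quad m s h6 hg hm hd] at e1 e2
  rw [e3] at e2
  have hq0 : (0 : ℝ) ≤ Nat.card k := Nat.cast_nonneg _
  have hpow : ((Nat.card k ^ 2 : ℕ) : ℝ) ^ (1 / 2 - σ) = ((Nat.card k : ℝ) ^ (1 / 2 - σ)) ^ 2 := by
    push_cast
    rw [← Real.rpow_natCast, ← Real.rpow_natCast, ← Real.rpow_mul hq0, ← Real.rpow_mul hq0,
      mul_comm]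
  have hcp : ∀ j, ((Nat.card k ^ 2 : ℕ) : ℂ) ^ (-(s j)) = ((Nat.card k : ℂ) ^ (-(s j))) ^ 2 := by
    intro j
    rw [sq, Nat.cast_mul, Complex.natCast_mul_natCast_cpow, sq]
  rw [hcard, hpow] at e1 e2
  simp only [hcp] at e2
  constructor
  · refine e1.trans ?_
    have : 0 ≤ ((Nat.card k : ℝ) ^ (1 / 2 - σ)) ^ 2 := by positivity
    nlinarith
  · refine e2.trans ?_
    have : 0 ≤ ((Nat.card k : ℝ) ^ (1 / 2 - σ)) ^ 4 := by positivity
    nlinarith [mul_nonneg hC1 this, mul_nonneg hC2 this]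

end second

section three

variable {r : ℕ}

/-- **The mean over all fields for one curve, up to third order** -/
theorem EB_third {N : ℕ} (hN : 2 ≤ N) (m : Fin r → ℤ) : ∃ C : ℝ, 0 ≤ C ∧
    ∀ (k : Type) [Field k] [Finite k], (6 : k) ≠ 0 → ∀ (s : Fin r → ℂ) (σ : ℝ), 3 / 4 ≤ σ →
      (∀ j, σ ≤ (s j).re) → ∀ t : k × k,
      ‖EB N m s k t - (1 + (Ph m s k t - 1) + 1 / 2 * (Ph m s k t - 1) ^ 2 +
        1 / 2 * (Ph2 m s k t - 1))‖ ≤
        C * (((Nat.card k : ℝ) ^ (1 / 2 - σ)) ^ 3 + (Nat.card k : ℝ) ^ (1 / 2 - σ) / Nat.card k) := by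
  obtain ⟨C1, hC1, h1⟩ := Ph_est m
  obtain ⟨C2, hC2, h2⟩ := Ph2_est m
  set C := C1 + C2 with hC
  have hC0 : 0 ≤ C := by positivity
  refine ⟨K0 N C + (C + (N + 1) * C ^ 2 + 2 * C), ?_, ?_⟩
  · unfold K0
    positivity
  intro k _ _ h6 s σ hσ hs t
  have hq2 := two_le_card (k := k)
  have hq1 : (1 : ℝ) ≤ Nat.card k := by exact_mod_cast (by omega : 1 ≤ Nat.card k)
  set κ : ℝ := (Nat.card k : ℝ) ^ (1 / 2 - σ) with hκ
  have hκ0 : 0 ≤ κ := by positivity
  have hκ1 : κ ≤ 1 := Real.rpow_le_one_of_one_le_of_nonpos hq1 (by linarith)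
  have h := mean_factors_third (k := k) hN
    (fun g => Ph m s (AdjoinRoot g) (AdjoinRoot.of g t.1, AdjoinRoot.of g t.2) - 1)
    (Ph m s k t - 1) (Ph2 m s k t - 1) hC0 hκ0 hκ1 (by
      refine (h1 k h6 s σ hσ hs t).trans ?_
      rw [hC]
      nlinarith) (by
      refine (h2 k h6 s σ hσ hs t).1.trans ?_
      rw [hC]
      nlinarith [sq_nonneg κ]) (fun g hg hm hd => by
      beta_reduce
      rw [Ph_equiv m s (adjIso hg hm hd)]
      rfl) (fun g hg hm hd => by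
      beta_reduce
      rw [Ph_quad m s h6 hg hm hd]) (fun g hg hm hd => by
      haveI : Fact (Irreducible g) := ⟨hg⟩
      haveI := adj_finite hm
      have e1 := h1 (AdjoinRoot g) (adj_six hg h6) s σ hσ hs
        (AdjoinRoot.of g t.1, AdjoinRoot.of g t.2)
      have e2 : (Nat.card (AdjoinRoot g) : ℝ) ^ (1 / 2 - σ) ≤ κ ^ 3 := by
        have e3 := pow_deg hm (x := σ - 1 / 2) (by linarith) hd
        have e4 : -(σ - 1 / 2) = 1 / 2 - σ := by ring
        rw [e4] at e3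
        refine e3.trans (le_of_eq ?_)
        rw [hκ, ← Real.rpow_natCast, ← Real.rpow_mul (by linarith)]
        congr 1
        push_cast
        ring
      refine e1.trans ?_
      have h5 : 0 ≤ κ ^ 3 := by positivity
      have h6 : C1 * (Nat.card (AdjoinRoot g) : ℝ) ^ (1 / 2 - σ) ≤ C1 * κ ^ 3 :=
        mul_le_mul_of_nonneg_left e2 hC1
      rw [hC]
      nlinarith)
  have e1 : (fun c : Fin N → k => ∏ g ∈ SF (mon c),
      (1 + (Ph m s (AdjoinRoot g) (AdjoinRoot.of g t.1, AdjoinRoot.of g t.2) - 1))) =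
      fun c => ∏ g ∈ SF (mon c),
        Ph m s (AdjoinRoot g) (AdjoinRoot.of g t.1, AdjoinRoot.of g t.2) := by
    funext c
    exact Finset.prod_congr rfl fun g _ => by ring
  rw [e1] at h
  exact h

end three

end Pool.Agent.KS6_22.MF
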