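import Pool.Agent.KS6_22.MF.Def
import Pool.Graph.R_pool_sql_team_seeded_47a924f7.T6.H9.MV.Box

/-!
# Polynomials with given coefficients and their simple irreducible factors

Owner helper22.
-/

set_option autoImplicit false
set_option linter.unusedSectionVars false
set_option linter.unusedVariables false
set_option linter.style.haveILetI false

open Polynomial
open Pool.Agent.T6.H9.MV (fmean fmean_eq fmean_comp fmean_pi fmean_sub)

namespace Pool.Agent.KS6_22.MF

section ring

variable {R : Type} [CommRing R] {n : ℕ}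

lemma pol_degree_lt (a : Fin n → R) : (pol a).degree < n := degree_sum_fin_lt a

lemma mon_monic (c : Fin n → R) : (mon c).Monic := monic_X_pow_add (pol_degree_lt c)

lemma mon_natDegree [Nontrivial R] (c : Fin n → R) : (mon c).natDegree = n := by
  unfold mon
  rw [natDegree_add_eq_left_of_degree_lt, natDegree_X_pow]
  rw [degree_X_pow]
  exact pol_degree_lt c

lemma pol_map {S : Type} [CommRing S] (φ : R →+* S) (a : Fin n → R) :
    (pol a).map φ = pol fun i => φ (a i) := by
  unfold pol
  rw [Polynomial.map_sum]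
  refine Finset.sum_congr rfl fun i _ => ?_
  rw [Polynomial.map_mul, Polynomial.map_pow, map_C, map_X]

lemma mon_map {S : Type} [CommRing S] (φ : R →+* S) (c : Fin n → R) :
    (mon c).map φ = mon fun i => φ (c i) := by
  unfold mon
  rw [Polynomial.map_add, Polynomial.map_pow, map_X, pol_map]

lemma pol_add (a b : Fin n → R) : pol (a + b) = pol a + pol b := by
  unfold pol
  rw [← Finset.sum_add_distrib]
  refine Finset.sum_congr rfl fun i _ => ?_
  rw [Pi.add_apply, C_add, add_mul]

lemma pol_zero : pol (0 : Fin n → R) = 0 := by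
  unfold pol
  refine Finset.sum_eq_zero fun i _ => ?_
  rw [Pi.zero_apply, C_0, zero_mul]

lemma exists_pol {A : R[X]} (h : A.degree < n) : ∃ a : Fin n → R, pol a = A := by
  refine ⟨fun i => A.coeff i, ?_⟩
  unfold pol
  ext j
  rw [finsetSum_coeff]
  simp only [coeff_C_mul, coeff_X_pow]
  by_cases hj : j < n
  · rw [Finset.sum_eq_single (⟨j, hj⟩ : Fin n)]
    · simp
    · intro b _ hb
      have : j ≠ (b : ℕ) := fun h' => hb (Fin.ext h'.symm)
      rw [if_neg this, mul_zero]
    · intro h'
      exact absurd (Finset.mem_univ _) h'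
  · have h1 : A.coeff j = 0 := by
      refine coeff_eq_zero_of_degree_lt (h.trans_le ?_)
      exact_mod_cast not_lt.1 hj
    rw [h1]
    refine Finset.sum_eq_zero fun b _ => ?_
    have : j ≠ (b : ℕ) := by
      have := b.2
      omega
    rw [if_neg this, mul_zero]

end ring

section field

variable {k : Type} [Field k] {n : ℕ}

open Classical in
/-- the simple irreducible factors -/
noncomputable def SF (f : k[X]) : Finset k[X] :=
  (UniqueFactorizationMonoid.normalizedFactors f).toFinset.filter fun g => ¬ g ∣ derivative f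

lemma mem_SF {f : k[X]} (hf : f ≠ 0) {g : k[X]} :
    g ∈ SF f ↔ (Irreducible g ∧ g.Monic ∧ g ∣ f) ∧ ¬ g ∣ derivative f := by
  classical
  unfold SF
  rw [Finset.mem_filter, Multiset.mem_toFinset,
    UniqueFactorizationMonoid.mem_normalizedFactors_iff' hf]
  constructor
  · rintro ⟨⟨h1, h2, h3⟩, h4⟩
    exact ⟨⟨h1, (normalize_eq_self_iff_monic h1.ne_zero).1 h2, h3⟩, h4⟩
  · rintro ⟨⟨h1, h2, h3⟩, h4⟩
    exact ⟨⟨h1, (normalize_eq_self_iff_monic h1.ne_zero).2 h2, h3⟩, h4⟩

lemma SF_irr {f : k[X]} (hf : f ≠ 0) {g : k[X]} (hg : g ∈ SF f) : Irreducible g :=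
  ((mem_SF hf).1 hg).1.1

lemma eq_of_dvd {g h : k[X]} (hg : Irreducible g) (hgm : g.Monic) (hh : Irreducible h)
    (hhm : h.Monic) (hd : g ∣ h) : g = h :=
  eq_of_monic_of_associated hgm hhm (hg.associated_of_dvd hh hd)

lemma coprime_of_ne {g h : k[X]} (hg : Irreducible g) (hgm : g.Monic) (hh : Irreducible h)
    (hhm : h.Monic) (hne : g ≠ h) : IsCoprime g h :=
  (hg.coprime_iff_not_dvd).2 fun hd => hne (eq_of_dvd hg hgm hh hhm hd)

lemma card_SF_le {f : k[X]} (hf : f ≠ 0) : (SF f).card ≤ f.natDegree := by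
  classical
  have h1 : (∏ g ∈ SF f, g) ∣ f := by
    refine Finset.prod_dvd_of_coprime (fun g hg h hh hne => ?_) fun g hg => ((mem_SF hf).1 hg).1.2.2
    have hg' := (mem_SF hf).1 hg
    have hh' := (mem_SF hf).1 hh
    exact coprime_of_ne hg'.1.1 hg'.1.2.1 hh'.1.1 hh'.1.2.1 hne
  have h2 : (∏ g ∈ SF f, g).natDegree = ∑ g ∈ SF f, g.natDegree :=
    natDegree_prod _ _ fun g hg => (SF_irr hf hg).ne_zero
  calc (SF f).card = ∑ g ∈ SF f, 1 := by simp
    _ ≤ ∑ g ∈ SF f, g.natDegree := Finset.sum_le_sum fun g hg => (SF_irr hf hg).natDegree_pos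
    _ = (∏ g ∈ SF f, g).natDegree := h2.symm
    _ ≤ f.natDegree := natDegree_le_of_dvd h1 hf

/-- the reductions of polynomials of degree less than `n` modulo the factors of a polynomial of
degree `n` -/
noncomputable def toQ (n : ℕ) (D : Finset k[X]) : (Fin n → k) →+ (∀ g : D, AdjoinRoot g.1) where
  toFun a := fun g => AdjoinRoot.mk g.1 (pol a)
  map_zero' := by
    funext g
    rw [pol_zero, map_zero]
    rfl
  map_add' a b := by
    funext g
    rw [pol_add, map_add]
    rfl

lemma toQ_surj {f : k[X]} (hf : f.Monic) (hn : f.natDegree = n) :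
    Function.Surjective (toQ n (SF f)) := by
  classical
  intro t
  have hf0 := hf.ne_zero
  have hz : ∀ g : SF f, ∃ z : k[X], AdjoinRoot.mk g.1 z = t g := fun g => AdjoinRoot.mk_surjective _
  choose z hz using hz
  obtain ⟨A, hA⟩ := IsDedekindDomain.exists_forall_sub_mem_ideal (s := SF f)
    (fun g => Ideal.span {g}) (fun _ => 1)
    (fun g hg => by
      rw [Ideal.prime_iff_isPrime]
      · exact (Ideal.span_singleton_prime (SF_irr hf0 hg).ne_zero).2 (SF_irr hf0 hg).prime
      · rw [Ne, Ideal.span_singleton_eq_bot]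
        exact (SF_irr hf0 hg).ne_zero)
    (fun g hg h hh hne he => hne (by
      have hg' := (mem_SF hf0).1 hg
      have hh' := (mem_SF hf0).1 hh
      exact eq_of_monic_of_associated hg'.1.2.1 hh'.1.2.1
        (Ideal.span_singleton_eq_span_singleton.1 he))) z
  have hdeg : (A %ₘ f).degree < n := by
    have h1 := degree_modByMonic_lt A hf
    rwa [degree_eq_natDegree hf0, hn] at h1
  obtain ⟨a, ha⟩ := exists_pol hdeg
  refine ⟨a, ?_⟩
  funext g
  change AdjoinRoot.mk g.1 (pol a) = t g
  rw [ha, ← hz g, AdjoinRoot.mk_eq_mk]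
  have h1 := hA g.1 g.2
  rw [pow_one, Ideal.mem_span_singleton] at h1
  have h2 : g.1 ∣ A %ₘ f - A := by
    have h3 : A %ₘ f - A = -(f * (A /ₘ f)) := by
      have := modByMonic_add_div A f
      linear_combination this
    rw [h3]
    exact ((((mem_SF hf0).1 g.2).1.2.2).mul_right _).neg_right
  have h3 : A %ₘ f - z g = (A %ₘ f - A) + (A - z g) := by ring
  rw [h3]
  exact dvd_add h2 h1

/-- the reductions of pairs -/
noncomputable def toQ2 (n : ℕ) (D : Finset k[X]) : (Fin n → k) × (Fin n → k) →+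
    (∀ g : D, AdjoinRoot g.1 × AdjoinRoot g.1) where
  toFun a := fun g => (AdjoinRoot.mk g.1 (pol a.1), AdjoinRoot.mk g.1 (pol a.2))
  map_zero' := by
    funext g
    rw [Prod.fst_zero, Prod.snd_zero, pol_zero, map_zero]
    rfl
  map_add' a b := by
    funext g
    rw [Prod.fst_add, Prod.snd_add, pol_add, pol_add, map_add, map_add]
    rfl

lemma toQ2_surj {f : k[X]} (hf : f.Monic) (hn : f.natDegree = n) :
    Function.Surjective (toQ2 n (SF f)) := by
  intro t
  obtain ⟨a, ha⟩ := toQ_surj hf hn fun g => (t g).1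
  obtain ⟨b, hb⟩ := toQ_surj hf hn fun g => (t g).2
  refine ⟨(a, b), ?_⟩
  funext g
  exact Prod.ext (congrFun ha g) (congrFun hb g)

/-- the mean of a product of functions of the reductions modulo the simple factors -/
theorem fmean_factors [Finite k] {f : k[X]} (hf : f.Monic) (hn : f.natDegree = n)
    (Φ : ∀ g : k[X], AdjoinRoot g × AdjoinRoot g → ℂ) :
    fmean (fun a : (Fin n → k) × (Fin n → k) =>
      ∏ g ∈ SF f, Φ g (AdjoinRoot.mk g (pol a.1), AdjoinRoot.mk g (pol a.2))) =
      ∏ g ∈ SF f, fmean (Φ g) := by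
  classical
  have hs := toQ2_surj hf hn
  haveI : ∀ g : SF f, Finite (AdjoinRoot g.1 × AdjoinRoot g.1) := by
    intro g
    refine Finite.of_surjective (fun a => toQ2 n (SF f) a g) fun t => ?_
    obtain ⟨a, ha⟩ := hs (Pi.single g t)
    refine ⟨a, ?_⟩
    change toQ2 n (SF f) a g = t
    rw [ha, Pi.single_eq_same]
  have h1 := fmean_comp (toQ2 n (SF f)) hs (fun t => ∏ g : SF f, Φ g.1 (t g))
  rw [fmean_pi (fun g : SF f => Φ g.1)] at h1
  rw [← Finset.prod_coe_sort (SF f) (fun g => fmean (Φ g)), ← h1]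
  congr 1
  funext a
  exact (Finset.prod_coe_sort (SF f)
    (fun g => Φ g (AdjoinRoot.mk g (pol a.1), AdjoinRoot.mk g (pol a.2)))).symm

end field

end Pool.Agent.KS6_22.MF
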