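import Pool.Agent.KS6_22.MF.Poly

/-!
# The mean number of simple roots of a random polynomial

Owner helper22.
-/

set_option autoImplicit false
set_option linter.unusedSectionVars false
set_option linter.unusedVariables false
set_option linter.style.haveILetI false

open Polynomial
open Pool.Agent.T6.H9.MV (fmean fmean_eq fmean_comp fmean_pi fmean_sub fmean_ite)

namespace Pool.Agent.KS6_22.MF

section fm

variable {α : Type} [Finite α]

lemma fmean_sum {ι : Type} (s : Finset ι) (f : ι → α → ℂ) :
    fmean (fun t => ∑ i ∈ s, f i t) = ∑ i ∈ s, fmean (f i) := by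
  classical
  haveI := Fintype.ofFinite α
  rw [fmean_eq, Finset.sum_comm, Finset.sum_div]
  refine Finset.sum_congr rfl fun i _ => ?_
  rw [fmean_eq]

lemma fmean_add (f g : α → ℂ) : fmean (fun t => f t + g t) = fmean f + fmean g := by
  haveI := Fintype.ofFinite α
  rw [fmean_eq, fmean_eq, fmean_eq, Finset.sum_add_distrib, add_div]

lemma fmean_mul_const (f : α → ℂ) (c : ℂ) : fmean (fun t => f t * c) = fmean f * c := by
  haveI := Fintype.ofFinite α
  rw [fmean_eq, fmean_eq, ← Finset.sum_mul]
  ring

lemma fmean_const [Nonempty α] (c : ℂ) : fmean (fun _ : α => c) = c := by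
  haveI := Fintype.ofFinite α
  have hc : (Fintype.card α : ℂ) ≠ 0 := by exact_mod_cast Fintype.card_ne_zero
  rw [fmean_eq, Finset.sum_const, Finset.card_univ, nsmul_eq_mul]
  field_simp

lemma norm_fmean_le [Nonempty α] {f : α → ℂ} {M : ℝ} (h : ∀ t, ‖f t‖ ≤ M) : ‖fmean f‖ ≤ M := by
  haveI := Fintype.ofFinite α
  have hc : (0 : ℝ) < (Fintype.card α : ℝ) := by exact_mod_cast Fintype.card_pos
  rw [fmean_eq, norm_div, Complex.norm_natCast, div_le_iff₀ hc]
  refine (norm_sum_le _ _).trans ((Finset.sum_le_sum fun t _ => h t).trans (le_of_eq ?_))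
  rw [Finset.sum_const, Finset.card_univ, nsmul_eq_mul, mul_comm]

lemma fmean_prod {β : Type} [Finite β] (f : α × β → ℂ) :
    fmean f = fmean (fun a => fmean (fun b => f (a, b))) := by
  haveI := Fintype.ofFinite α
  haveI := Fintype.ofFinite β
  rw [fmean_eq, fmean_eq, Fintype.card_prod]
  have h : ∀ a : α, fmean (fun b => f (a, b)) = (∑ b, f (a, b)) / (Fintype.card β : ℂ) :=
    fun a => fmean_eq _
  rw [Finset.sum_congr rfl fun a _ => h a, ← Finset.sum_div, div_div, Fintype.sum_prod_type]
  congr 1
  push_cast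
  ring

lemma fmean_equiv {β : Type} [Finite β] (e : α ≃ β) (f : β → ℂ) :
    fmean (fun a => f (e a)) = fmean f := by
  haveI := Fintype.ofFinite α
  haveI := Fintype.ofFinite β
  rw [fmean_eq, fmean_eq, Fintype.card_congr e]
  congr 1
  exact e.sum_comp f

end fm

section field

variable {k : Type} [Field k] [Finite k] {n : ℕ}

/-- the value -/
noncomputable def ev1 (n : ℕ) (α : k) : (Fin n → k) →+ k where
  toFun a := (pol a).eval α
  map_zero' := by rw [pol_zero, eval_zero]
  map_add' a b := by rw [pol_add, eval_add]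

lemma ev1_surj (hn : 0 < n) (α : k) : Function.Surjective (ev1 n α) := by
  intro y
  obtain ⟨a, ha⟩ := exists_pol (n := n) (A := C y) (degree_C_le.trans_lt (by exact_mod_cast hn))
  refine ⟨a, ?_⟩
  change (pol a).eval α = y
  rw [ha, eval_C]

/-- the value and the derivative -/
noncomputable def ev2 (n : ℕ) (α : k) : (Fin n → k) →+ k × k where
  toFun a := ((pol a).eval α, (derivative (pol a)).eval α)
  map_zero' := by
    rw [pol_zero, derivative_zero, eval_zero]
    rfl
  map_add' a b := by
    rw [pol_add, derivative_add, eval_add, eval_add]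
    rfl

lemma ev2_surj (hn : 2 ≤ n) (α : k) : Function.Surjective (ev2 n α) := by
  rintro ⟨y, z⟩
  have hd : (C z * (X - C α) + C y : k[X]).degree < n := by
    have h1 : (C z * (X - C α) + C y : k[X]).degree ≤ 1 := by
      refine (degree_add_le _ _).trans (max_le ?_ ?_)
      · refine (degree_mul_le _ _).trans ?_
        calc (C z).degree + (X - C α).degree ≤ 0 + 1 :=
              add_le_add degree_C_le (degree_X_sub_C_le α)
          _ = 1 := by norm_num
      · exact degree_C_le.trans (by norm_num)
    refine h1.trans_lt ?_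
    exact_mod_cast hn
  obtain ⟨a, ha⟩ := exists_pol hd
  refine ⟨a, ?_⟩
  change ((pol a).eval α, (derivative (pol a)).eval α) = (y, z)
  rw [ha]
  simp

lemma card_ne : (Nat.card k : ℂ) ≠ 0 := by
  exact_mod_cast (Nat.card_pos (α := k)).ne'

open Classical in
lemma prob_root (hn : 0 < n) (α : k) :
    fmean (fun c : Fin n → k => if (mon c).eval α = 0 then (1 : ℂ) else 0) =
      1 / (Nat.card k : ℂ) := by
  have h1 := fmean_comp (ev1 n α) (ev1_surj hn α) (fun y => if y = -α ^ n then (1 : ℂ) else 0)
  rw [fmean_ite] at h1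
  rw [← h1]
  congr 1
  funext c
  have h2 : (mon c).eval α = 0 ↔ ev1 n α c = -α ^ n := by
    unfold mon
    rw [eval_add, eval_pow, eval_X, eq_neg_iff_add_eq_zero, add_comm]
    rfl
  by_cases h : (mon c).eval α = 0
  · rw [if_pos h, if_pos (h2.1 h)]
  · rw [if_neg h, if_neg fun h' => h (h2.2 h')]

open Classical in
lemma prob_double (hn : 0 < n) (α : k) :
    ‖fmean (fun c : Fin n → k => if (mon c).eval α = 0 ∧ (derivative (mon c)).eval α = 0 then
      (1 : ℂ) else 0)‖ ≤ 1 / (Nat.card k : ℝ) ^ 2 := by
  rcases Nat.lt_or_ge n 2 with h2 | h2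
  · have hn1 : n = 1 := by omega
    subst hn1
    have h3 : ∀ c : Fin 1 → k, ¬ ((mon c).eval α = 0 ∧ (derivative (mon c)).eval α = 0) := by
      rintro c ⟨-, h⟩
      have h4 : derivative (mon c) = 1 := by
        unfold mon pol
        simp
      rw [h4, eval_one] at h
      exact one_ne_zero h
    have h4 : (fun c : Fin 1 → k => if (mon c).eval α = 0 ∧ (derivative (mon c)).eval α = 0 then
      (1 : ℂ) else 0) = fun _ => 0 := by
      funext c
      rw [if_neg (h3 c)]
    rw [h4, fmean_const, norm_zero]
    positivity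
  · have h1 := fmean_comp (ev2 n α) (ev2_surj h2 α)
      (fun y => if y = (-α ^ n, -((n : k) * α ^ (n - 1))) then (1 : ℂ) else 0)
    have h5 : fmean (fun y : k × k => if y = (-α ^ n, -((n : k) * α ^ (n - 1))) then (1 : ℂ) else 0) =
        1 / (Nat.card (k × k) : ℂ) := by
      have := fmean_ite ((-α ^ n, -((n : k) * α ^ (n - 1))) : k × k)
      convert this
    rw [h5] at h1
    have h3 : (fun c : Fin n → k => if (mon c).eval α = 0 ∧ (derivative (mon c)).eval α = 0 then
        (1 : ℂ) else 0) = fun c => if ev2 n α c = (-α ^ n, -((n : k) * α ^ (n - 1))) then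
          (1 : ℂ) else 0 := by
      funext c
      have h4 : ((mon c).eval α = 0 ∧ (derivative (mon c)).eval α = 0) ↔
          ev2 n α c = (-α ^ n, -((n : k) * α ^ (n - 1))) := by
        change _ ↔ ((pol c).eval α, (derivative (pol c)).eval α) = _
        rw [Prod.mk.injEq, eq_neg_iff_add_eq_zero, eq_neg_iff_add_eq_zero]
        unfold mon
        rw [eval_add, eval_pow, eval_X, derivative_add, derivative_X_pow, eval_add, eval_mul,
          eval_pow, eval_X, eval_C]
        rw [add_comm (α ^ n), add_comm (_ * _)]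
      by_cases h : (mon c).eval α = 0 ∧ (derivative (mon c)).eval α = 0
      · rw [if_pos h, if_pos (h4.1 h)]
      · rw [if_neg h, if_neg fun h' => h (h4.2 h')]
    rw [h3, h1, norm_div, norm_one, Complex.norm_natCast, Nat.card_prod]
    push_cast
    rw [sq]

open Classical in
/-- the simple factors of degree one -/
noncomputable def S1 (f : k[X]) : Finset k[X] := (SF f).filter fun g => g.natDegree = 1

open Classical in
lemma card_S1 {f : k[X]} (hf : f.Monic) [Fintype k] : (S1 f).card =
    (Finset.univ.filter fun α : k => f.eval α = 0 ∧ (derivative f).eval α ≠ 0).card := by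
  symm
  refine Finset.card_bij (fun α _ => X - C α) ?_ ?_ ?_
  · intro α hα
    rw [Finset.mem_filter] at hα
    unfold S1
    rw [Finset.mem_filter, mem_SF hf.ne_zero]
    refine ⟨⟨⟨irreducible_X_sub_C α, monic_X_sub_C α, dvd_iff_isRoot.2 hα.2.1⟩, fun h => ?_⟩,
      natDegree_X_sub_C α⟩
    exact hα.2.2 (dvd_iff_isRoot.1 h)
  · intro α _ β _ h
    have h1 : X - C α = X - C β := h
    have h2 : C α = C β := by linear_combination -h1
    exact C_injective h2
  · intro g hg
    unfold S1 at hg
    rw [Finset.mem_filter, mem_SF hf.ne_zero] at hg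
    obtain ⟨⟨⟨h1, h2, h3⟩, h4⟩, h5⟩ := hg
    have h6 := h2.eq_X_add_C h5
    refine ⟨-g.coeff 0, ?_, ?_⟩
    · rw [Finset.mem_filter]
      have h7 : g = X - C (-g.coeff 0) := by rw [C_neg, sub_neg_eq_add]; exact h6
      refine ⟨Finset.mem_univ _, ?_, fun h8 => h4 ?_⟩
      · rw [h7] at h3
        exact dvd_iff_isRoot.1 h3
      · rw [h7]
        exact dvd_iff_isRoot.2 h8
    · rw [C_neg, sub_neg_eq_add]
      exact h6.symm

/-- **The mean number of simple roots** -/
theorem mean_S1 (hn : 0 < n) :
    ‖fmean (fun c : Fin n → k => ((S1 (mon c)).card : ℂ)) - 1‖ ≤ 1 / (Nat.card k : ℝ) := by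
  classical
  haveI := Fintype.ofFinite k
  have h1 : (fun c : Fin n → k => ((S1 (mon c)).card : ℂ)) = fun c => ∑ α : k,
      ((if (mon c).eval α = 0 then (1 : ℂ) else 0) -
        if (mon c).eval α = 0 ∧ (derivative (mon c)).eval α = 0 then (1 : ℂ) else 0) := by
    funext c
    rw [card_S1 (mon_monic c), Finset.card_filter]
    push_cast
    refine Finset.sum_congr rfl fun α _ => ?_
    by_cases h2 : (mon c).eval α = 0
    · by_cases h3 : (derivative (mon c)).eval α = 0
      · simp [h2, h3]
      · simp [h2, h3]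
    · simp [h2]
  have hq : (Nat.card k : ℂ) ≠ 0 := card_ne
  have hq0 : (0 : ℝ) < Nat.card k := by exact_mod_cast Nat.card_pos (α := k)
  have h2 : fmean (fun c : Fin n → k => ((S1 (mon c)).card : ℂ)) - 1 =
      - ∑ α : k, fmean (fun c : Fin n → k =>
        if (mon c).eval α = 0 ∧ (derivative (mon c)).eval α = 0 then (1 : ℂ) else 0) := by
    rw [h1, fmean_sum]
    rw [Finset.sum_congr rfl fun α _ => fmean_sub (fun c : Fin n → k =>
      if (mon c).eval α = 0 then (1 : ℂ) else 0) (fun c => if (mon c).eval α = 0 ∧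
        (derivative (mon c)).eval α = 0 then (1 : ℂ) else 0)]
    rw [Finset.sum_sub_distrib, Finset.sum_congr rfl fun α _ => prob_root hn α, Finset.sum_const,
      Finset.card_univ, ← Nat.card_eq_fintype_card, nsmul_eq_mul]
    field_simp
    ring
  rw [h2, norm_neg]
  refine (norm_sum_le _ _).trans ((Finset.sum_le_sum fun α _ => prob_double hn α).trans
    (le_of_eq ?_))
  rw [Finset.sum_const, Finset.card_univ, ← Nat.card_eq_fintype_card, nsmul_eq_mul]
  field_simp

end field

end Pool.Agent.KS6_22.MF
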