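import Pool.Agent.KS6_22.MF.Fin

/-!
# Second moments of the numbers of linear and quadratic factors of a random polynomial

Owner helper22.
-/

set_option autoImplicit false
set_option linter.unusedSectionVars false
set_option linter.unusedVariables false
set_option linter.style.haveILetI false

open Polynomial
open Pool.Agent.T6.H9.MV (fmean fmean_eq fmean_comp fmean_pi fmean_sub fmean_ite)

namespace Pool.Agent.KS6_22.MF

section ind

variable {α : Type} [Finite α]

lemma norm_fmean_ind (P : α → Prop) [DecidablePred P] {g : α → ℂ} {M : ℝ} (hM : ∀ t, ‖g t‖ ≤ M) :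
    ‖fmean (fun t => (if P t then (1 : ℂ) else 0) * g t)‖ ≤
      M * ‖fmean (fun t => if P t then (1 : ℂ) else 0)‖ := by
  haveI := Fintype.ofFinite α
  rw [fmean_eq, fmean_eq, norm_div, norm_div, ← mul_div_assoc]
  refine div_le_div_of_nonneg_right ?_ (norm_nonneg _)
  have h1 : ‖∑ t, if P t then (1 : ℂ) else 0‖ = ∑ t, if P t then (1 : ℝ) else 0 := by
    have h2 : (∑ t, if P t then (1 : ℂ) else 0) = ((∑ t, if P t then (1 : ℝ) else 0 : ℝ) : ℂ) := by
      rw [Complex.ofReal_sum]
      exact Finset.sum_congr rfl fun t _ => by split_ifs <;> simp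
    rw [h2, Complex.norm_real, Real.norm_eq_abs, abs_of_nonneg]
    exact Finset.sum_nonneg fun t _ => by split_ifs <;> norm_num
  rw [h1, Finset.mul_sum]
  refine (norm_sum_le _ _).trans (Finset.sum_le_sum fun t _ => ?_)
  rw [norm_mul]
  split_ifs
  · rw [norm_one, one_mul, mul_one]
    exact hM t
  · rw [norm_zero, zero_mul, mul_zero]

lemma norm_fmean_mono (P Q : α → Prop) [DecidablePred P] [DecidablePred Q] (h : ∀ t, P t → Q t) :
    ‖fmean (fun t => if P t then (1 : ℂ) else 0)‖ ≤
      ‖fmean (fun t => if Q t then (1 : ℂ) else 0)‖ := by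
  haveI := Fintype.ofFinite α
  rw [fmean_eq, fmean_eq, norm_div, norm_div]
  refine div_le_div_of_nonneg_right ?_ (norm_nonneg _)
  have h1 : ∀ (R : α → Prop) [DecidablePred R],
      ‖∑ t, if R t then (1 : ℂ) else 0‖ = ∑ t, if R t then (1 : ℝ) else 0 := by
    intro R _
    have h2 : (∑ t, if R t then (1 : ℂ) else 0) = ((∑ t, if R t then (1 : ℝ) else 0 : ℝ) : ℂ) := by
      rw [Complex.ofReal_sum]
      exact Finset.sum_congr rfl fun t _ => by split_ifs <;> simp
    rw [h2, Complex.norm_real, Real.norm_eq_abs, abs_of_nonneg]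
    exact Finset.sum_nonneg fun t _ => by split_ifs <;> norm_num
  rw [h1, h1]
  refine Finset.sum_le_sum fun t _ => ?_
  by_cases hp : P t
  · rw [if_pos hp, if_pos (h t hp)]
  · rw [if_neg hp]
    split_ifs <;> norm_num

end ind

section field

variable {k : Type} [Field k] [Finite k] {n : ℕ}

open Classical in
/-- the probability of a divisor -/
theorem prob_dvd {G : k[X]} (hG : G.Monic) (hd : G.natDegree ≤ n) :
    fmean (fun c : Fin n → k => if G ∣ mon c then (1 : ℂ) else 0) =
      1 / (Nat.card k : ℂ) ^ G.natDegree := by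
  haveI := adj_finite hG
  have h1 := fmean_comp (toR n G) (toR_surj hG hd)
    (fun y => if y = - AdjoinRoot.mk G (X ^ n) then (1 : ℂ) else 0)
  rw [fmean_ite, adj_card hG] at h1
  push_cast at h1
  rw [← h1]
  congr 1
  funext c
  have h2 : G ∣ mon c ↔ toR n G c = - AdjoinRoot.mk G (X ^ n) := by
    rw [← AdjoinRoot.mk_eq_zero]
    unfold mon
    rw [map_add, eq_neg_iff_add_eq_zero, add_comm]
    rfl
  by_cases h : G ∣ mon c
  · rw [if_pos h, if_pos (h2.1 h)]
  · rw [if_neg h, if_neg fun h' => h (h2.2 h')]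

open Classical in
theorem prob_dvd_le {G : k[X]} (hG : G.Monic) :
    ‖fmean (fun c : Fin n → k => if G ∣ mon c then (1 : ℂ) else 0)‖ ≤
      1 / (Nat.card k : ℝ) ^ G.natDegree := by
  rcases le_or_gt G.natDegree n with h | h
  · rw [prob_dvd hG h, norm_div, norm_one, norm_pow, Complex.norm_natCast]
  · have h1 : (fun c : Fin n → k => if G ∣ mon c then (1 : ℂ) else 0) = fun _ => 0 := by
      funext c
      rw [if_neg]
      intro h2
      have h3 := natDegree_le_of_dvd h2 (mon_monic c).ne_zero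
      rw [mon_natDegree] at h3
      omega
    rw [h1, fmean_const, norm_zero]
    positivity

open Classical in
lemma prob_two (hn : 2 ≤ n) {α β : k} (h : α ≠ β) :
    fmean (fun c : Fin n → k => (if (mon c).eval α = 0 then (1 : ℂ) else 0) *
      (if (mon c).eval β = 0 then (1 : ℂ) else 0)) = 1 / (Nat.card k : ℂ) ^ 2 := by
  have hG : ((X - C α) * (X - C β) : k[X]).Monic := (monic_X_sub_C α).mul (monic_X_sub_C β)
  have hd : ((X - C α) * (X - C β) : k[X]).natDegree = 2 := by
    rw [(monic_X_sub_C α).natDegree_mul (monic_X_sub_C β), natDegree_X_sub_C, natDegree_X_sub_C]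
  have h1 := prob_dvd (n := n) hG (by rw [hd]; exact hn)
  rw [hd] at h1
  rw [← h1]
  congr 1
  funext c
  have h2 : (X - C α) * (X - C β) ∣ mon c ↔ (mon c).eval α = 0 ∧ (mon c).eval β = 0 := by
    constructor
    · intro h3
      exact ⟨dvd_iff_isRoot.1 ((dvd_mul_right _ _).trans h3),
        dvd_iff_isRoot.1 ((dvd_mul_left _ _).trans h3)⟩
    · rintro ⟨h3, h4⟩
      refine IsCoprime.mul_dvd ?_ (dvd_iff_isRoot.2 h3) (dvd_iff_isRoot.2 h4)
      exact isCoprime_X_sub_C_of_isUnit_sub (sub_ne_zero.2 h).isUnit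
  by_cases h3 : (mon c).eval α = 0
  · by_cases h4 : (mon c).eval β = 0
    · rw [if_pos h3, if_pos h4, if_pos (h2.2 ⟨h3, h4⟩), one_mul]
    · rw [if_neg h4, mul_zero, if_neg fun h5 => h4 (h2.1 h5).2]
  · rw [if_neg h3, zero_mul, if_neg fun h5 => h3 (h2.1 h5).1]

open Classical in
/-- the number of roots -/
noncomputable def t1 [Fintype k] (f : k[X]) : ℂ := ∑ α : k, if f.eval α = 0 then (1 : ℂ) else 0

open Classical in
/-- the number of multiple roots -/
noncomputable def d1 [Fintype k] (f : k[X]) : ℂ :=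
  ∑ α : k, if f.eval α = 0 ∧ (derivative f).eval α = 0 then (1 : ℂ) else 0

lemma card_S1' [Fintype k] {f : k[X]} (hf : f.Monic) : ((S1 f).card : ℂ) = t1 f - d1 f := by
  classical
  rw [card_S1 hf, Finset.card_filter]
  unfold t1 d1
  rw [← Finset.sum_sub_distrib]
  push_cast
  refine Finset.sum_congr rfl fun α _ => ?_
  by_cases h2 : f.eval α = 0
  · by_cases h3 : (derivative f).eval α = 0
    · simp [h2, h3]
    · simp [h2, h3]
  · simp [h2]

lemma t1_eq [Fintype k] {f : k[X]} (hf : f ≠ 0) : ∃ m : ℕ, m ≤ f.natDegree ∧ t1 f = m ∧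
    (m = 0 ↔ ∀ α, f.eval α ≠ 0) := by
  classical
  refine ⟨(Finset.univ.filter fun α : k => f.eval α = 0).card, ?_, ?_, ?_⟩
  · have h1 : (Finset.univ.filter fun α : k => f.eval α = 0) ⊆ f.roots.toFinset := by
      intro α hα
      rw [Multiset.mem_toFinset, mem_roots hf]
      exact (Finset.mem_filter.1 hα).2
    exact (Finset.card_le_card h1).trans ((Multiset.toFinset_card_le _).trans (card_roots' f))
  · unfold t1
    rw [Finset.card_filter]
    push_cast
    rfl
  · rw [Finset.card_eq_zero, Finset.filter_eq_empty_iff]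
    simp

lemma mean_t1 [Fintype k] (hn : 0 < n) : fmean (fun c : Fin n → k => t1 (mon c)) = 1 := by
  classical
  unfold t1
  have hq : (Nat.card k : ℂ) ≠ 0 := card_ne
  rw [fmean_sum, Finset.sum_congr rfl fun α _ => prob_root hn α, Finset.sum_const,
    Finset.card_univ, ← Nat.card_eq_fintype_card, nsmul_eq_mul]
  field_simp

lemma mean_t1_sq [Fintype k] (hn : 2 ≤ n) :
    fmean (fun c : Fin n → k => t1 (mon c) ^ 2) = 2 - 1 / (Nat.card k : ℂ) := by
  classical
  have hq : (Nat.card k : ℂ) ≠ 0 := card_ne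
  have h1 : (fun c : Fin n → k => t1 (mon c) ^ 2) = fun c => ∑ α : k, ∑ β : k,
      (if (mon c).eval α = 0 then (1 : ℂ) else 0) * (if (mon c).eval β = 0 then (1 : ℂ) else 0) := by
    funext c
    unfold t1
    rw [sq, Finset.sum_mul_sum]
  rw [h1, fmean_sum]
  have h2 : ∀ α : k, fmean (fun c : Fin n → k => ∑ β : k,
      (if (mon c).eval α = 0 then (1 : ℂ) else 0) * (if (mon c).eval β = 0 then (1 : ℂ) else 0)) =
      1 / (Nat.card k : ℂ) + ((Nat.card k : ℂ) - 1) * (1 / (Nat.card k : ℂ) ^ 2) := by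
    intro α
    rw [fmean_sum]
    have h3 : ∀ β : k, fmean (fun c : Fin n → k => (if (mon c).eval α = 0 then (1 : ℂ) else 0) *
        (if (mon c).eval β = 0 then (1 : ℂ) else 0)) = 1 / (Nat.card k : ℂ) ^ 2 +
        if β = α then 1 / (Nat.card k : ℂ) - 1 / (Nat.card k : ℂ) ^ 2 else 0 := by
      intro β
      by_cases hβ : β = α
      · subst hβ
        rw [if_pos rfl]
        have h4 : (fun c : Fin n → k => (if (mon c).eval β = 0 then (1 : ℂ) else 0) *
            (if (mon c).eval β = 0 then (1 : ℂ) else 0)) =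
            fun c => if (mon c).eval β = 0 then (1 : ℂ) else 0 := by
          funext c
          split_ifs <;> simp
        rw [h4, prob_root (by omega)]
        ring
      · rw [if_neg hβ, add_zero]
        exact prob_two hn (Ne.symm hβ)
    rw [Finset.sum_congr rfl fun β _ => h3 β, Finset.sum_add_distrib, Finset.sum_const,
      Finset.card_univ, ← Nat.card_eq_fintype_card, nsmul_eq_mul, Finset.sum_ite_eq',
      if_pos (Finset.mem_univ _)]
    ring
  rw [Finset.sum_congr rfl fun α _ => h2 α, Finset.sum_const, Finset.card_univ,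
    ← Nat.card_eq_fintype_card, nsmul_eq_mul]
  field_simp
  ring

/-- **The second moment of the number of simple roots** -/
theorem mean_S1_sq (hn : 2 ≤ n) :
    ‖fmean (fun c : Fin n → k => ((S1 (mon c)).card : ℂ) ^ 2) - 2‖ ≤
      (2 * n + 1) / (Nat.card k : ℝ) := by
  classical
  haveI := Fintype.ofFinite k
  have hq0 : (0 : ℝ) < Nat.card k := by exact_mod_cast Nat.card_pos (α := k)
  have h1 : (fun c : Fin n → k => ((S1 (mon c)).card : ℂ) ^ 2) = fun c => t1 (mon c) ^ 2 -
      ∑ α : k, (if (mon c).eval α = 0 ∧ (derivative (mon c)).eval α = 0 then (1 : ℂ) else 0) *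
        (t1 (mon c) + ((S1 (mon c)).card : ℂ)) := by
    funext c
    have h2 : ∑ α : k, (if (mon c).eval α = 0 ∧ (derivative (mon c)).eval α = 0 then (1 : ℂ) else 0) *
        (t1 (mon c) + ((S1 (mon c)).card : ℂ)) = d1 (mon c) *
          (t1 (mon c) + ((S1 (mon c)).card : ℂ)) := by
      rw [← Finset.sum_mul]
      rfl
    rw [h2, card_S1' (mon_monic c)]
    ring
  rw [h1, fmean_sub (fun c : Fin n → k => t1 (mon c) ^ 2), mean_t1_sq hn, fmean_sum]
  have hM : ∀ c : Fin n → k, ‖t1 (mon c) + ((S1 (mon c)).card : ℂ)‖ ≤ 2 * n := by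
    intro c
    obtain ⟨m, hm, hm', -⟩ := t1_eq (mon_monic c).ne_zero
    rw [mon_natDegree] at hm
    rw [hm']
    refine (norm_add_le _ _).trans ?_
    rw [Complex.norm_natCast, Complex.norm_natCast]
    have h2 : (S1 (mon c)).card ≤ n := by
      unfold S1
      refine (Finset.card_filter_le _ _).trans ?_
      have := card_SF_le (mon_monic c).ne_zero
      rwa [mon_natDegree] at this
    have h3 : (m : ℝ) ≤ n := by exact_mod_cast hm
    have h4 : ((S1 (mon c)).card : ℝ) ≤ n := by exact_mod_cast h2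
    linarith
  have h2 : ‖∑ α : k, fmean (fun c : Fin n → k =>
      (if (mon c).eval α = 0 ∧ (derivative (mon c)).eval α = 0 then (1 : ℂ) else 0) *
        (t1 (mon c) + ((S1 (mon c)).card : ℂ)))‖ ≤ 2 * n / (Nat.card k : ℝ) := by
    refine (norm_sum_le _ _).trans ?_
    have h3 : ∀ α : k, ‖fmean (fun c : Fin n → k =>
        (if (mon c).eval α = 0 ∧ (derivative (mon c)).eval α = 0 then (1 : ℂ) else 0) *
        (t1 (mon c) + ((S1 (mon c)).card : ℂ)))‖ ≤ 2 * n * (1 / (Nat.card k : ℝ) ^ 2) := by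
      intro α
      have h4 := norm_fmean_ind (fun c : Fin n → k =>
        (mon c).eval α = 0 ∧ (derivative (mon c)).eval α = 0) hM
      exact h4.trans (mul_le_mul_of_nonneg_left (prob_double (by omega) α) (by positivity))
    refine (Finset.sum_le_sum fun α _ => h3 α).trans (le_of_eq ?_)
    rw [Finset.sum_const, Finset.card_univ, ← Nat.card_eq_fintype_card, nsmul_eq_mul]
    field_simp
  have h3 : 2 - 1 / (Nat.card k : ℂ) - ∑ α : k, fmean (fun c : Fin n → k =>
      (if (mon c).eval α = 0 ∧ (derivative (mon c)).eval α = 0 then (1 : ℂ) else 0) *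
        (t1 (mon c) + ((S1 (mon c)).card : ℂ))) - 2 = - (1 / (Nat.card k : ℂ) +
      ∑ α : k, fmean (fun c : Fin n → k =>
      (if (mon c).eval α = 0 ∧ (derivative (mon c)).eval α = 0 then (1 : ℂ) else 0) *
        (t1 (mon c) + ((S1 (mon c)).card : ℂ)))) := by ring
  rw [h3, norm_neg]
  refine (norm_add_le _ _).trans ?_
  have h4 : ‖1 / (Nat.card k : ℂ)‖ = 1 / (Nat.card k : ℝ) := by
    rw [norm_div, norm_one, Complex.norm_natCast]
  rw [h4]
  calc _ ≤ 1 / (Nat.card k : ℝ) + 2 * n / (Nat.card k : ℝ) := by linarith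
    _ = _ := by ring

/-! ### quadratic factors -/

open Classical in
/-- the monic irreducible polynomials of degree two -/
noncomputable def Q2 (k : Type) [Field k] [Fintype k] : Finset k[X] :=
  (Finset.univ.filter fun c : Fin 2 → k => Irreducible (mon c)).image mon

lemma mem_Q2 [Fintype k] {g : k[X]} : g ∈ Q2 k ↔ g.Monic ∧ Irreducible g ∧ g.natDegree = 2 := by
  classical
  unfold Q2
  rw [Finset.mem_image]
  constructor
  · rintro ⟨c, hc, rfl⟩
    exact ⟨mon_monic c, (Finset.mem_filter.1 hc).2, mon_natDegree c⟩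
  · rintro ⟨h1, h2, h3⟩
    obtain ⟨c, hc⟩ := exists_mon h1 h3
    refine ⟨c, Finset.mem_filter.2 ⟨Finset.mem_univ _, ?_⟩, hc⟩
    rw [hc]
    exact h2

lemma mon_inj : Function.Injective (mon : (Fin n → k) → k[X]) := by
  intro c d h
  funext i
  have h1 : ∀ c : Fin n → k, (mon c).coeff i = c i := by
    intro c
    unfold mon pol
    rw [coeff_add, coeff_X_pow, if_neg (ne_of_lt i.2), zero_add, finsetSum_coeff,
      Finset.sum_eq_single i]
    · simp
    · intro b _ hb
      rw [coeff_C_mul, coeff_X_pow, if_neg fun h => hb (Fin.ext h.symm), mul_zero]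
    · intro h
      exact absurd (Finset.mem_univ _) h
  rw [← h1 c, ← h1 d, h]

lemma irr_two [Fintype k] (c : Fin 2 → k) [Decidable (Irreducible (mon c))] :
    (if Irreducible (mon c) then (1 : ℂ) else 0) =
      1 - 3 / 2 * t1 (mon c) + 1 / 2 * t1 (mon c) ^ 2 := by
  obtain ⟨m, hm, hm', hm0⟩ := t1_eq (mon_monic c).ne_zero
  rw [mon_natDegree] at hm
  have hirr : Irreducible (mon c) ↔ m = 0 := by
    rw [hm0]
    have h2 := mon_natDegree c
    rw [(mon_monic c).irreducible_iff_roots_eq_zero_of_degree_le_three (by omega) (by omega)]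
    constructor
    · intro h α hα
      have h3 : α ∈ (mon c).roots := (mem_roots (mon_monic c).ne_zero).2 hα
      rw [h] at h3
      simp at h3
    · intro h
      rw [Multiset.eq_zero_iff_forall_notMem]
      intro α hα
      exact h α ((mem_roots (mon_monic c).ne_zero).1 hα)
  rw [hm']
  by_cases h : Irreducible (mon c)
  · rw [if_pos h, hirr.1 h]
    simp
  · rw [if_neg h]
    have h3 : m ≠ 0 := fun h' => h (hirr.2 h')
    interval_cases m
    · exact absurd rfl h3
    · norm_num
    · norm_num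

/-- the number of monic irreducible polynomials of degree two -/
lemma card_Q2 [Fintype k] :
    ((Q2 k).card : ℂ) = (Nat.card k : ℂ) ^ 2 * (1 / 2 - 1 / (2 * (Nat.card k : ℂ))) := by
  classical
  have hq : (Nat.card k : ℂ) ≠ 0 := card_ne
  have h1 : fmean (fun c : Fin 2 → k => if Irreducible (mon c) then (1 : ℂ) else 0) =
      1 / 2 - 1 / (2 * (Nat.card k : ℂ)) := by
    have h2 : (fun c : Fin 2 → k => if Irreducible (mon c) then (1 : ℂ) else 0) =
        fun c => (1 - t1 (mon c) * (3 / 2)) + t1 (mon c) ^ 2 * (1 / 2) := by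
      funext c
      rw [irr_two]
      ring
    rw [h2, fmean_add, fmean_mul_const, mean_t1_sq le_rfl,
      fmean_sub (fun _ : Fin 2 → k => (1 : ℂ)), fmean_const, fmean_mul_const,
      mean_t1 (by norm_num)]
    field_simp
    ring
  have h3 : ((Q2 k).card : ℂ) = ∑ c : Fin 2 → k, if Irreducible (mon c) then (1 : ℂ) else 0 := by
    unfold Q2
    rw [Finset.card_image_of_injective _ mon_inj, Finset.card_filter]
    push_cast
    rfl
  rw [fmean_eq, ← h3] at h1
  have h4 : (Fintype.card (Fin 2 → k) : ℂ) = (Nat.card k : ℂ) ^ 2 := by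
    rw [Fintype.card_fun, Fintype.card_fin, Nat.card_eq_fintype_card]
    push_cast
    rfl
  rw [h4, div_eq_iff (pow_ne_zero _ hq)] at h1
  rw [h1]
  ring

open Classical in
/-- the simple irreducible factors of degree two -/
noncomputable def S2 (f : k[X]) : Finset k[X] := (SF f).filter fun g => g.natDegree = 2

lemma sq_dvd {f g : k[X]} (hg : Irreducible g) (h1 : g ∣ f) (h2 : g ∣ derivative f) :
    g ^ 2 ∣ f := by
  obtain ⟨h, rfl⟩ := h1
  have hs : g.Separable := PerfectField.separable_of_irreducible hg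
  rw [derivative_mul] at h2
  have h3 : g ∣ derivative g * h := (dvd_add_left (dvd_mul_right g _)).1 h2
  have h4 : g ∣ h := hs.dvd_of_dvd_mul_left h3
  rw [sq]
  exact mul_dvd_mul_left g h4

/-- **The mean number of simple quadratic factors** -/
theorem mean_S2 (hn : 2 ≤ n) :
    ‖fmean (fun c : Fin n → k => ((S2 (mon c)).card : ℂ)) - 1 / 2‖ ≤ 2 / (Nat.card k : ℝ) := by
  classical
  haveI := Fintype.ofFinite k
  have hq : (Nat.card k : ℂ) ≠ 0 := card_ne
  have hq2 := two_le_card (k := k)
  have hq0 : (0 : ℝ) < Nat.card k := by exact_mod_cast Nat.card_pos (α := k)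
  have hq1 : (1 : ℝ) ≤ Nat.card k := by exact_mod_cast (by omega : 1 ≤ Nat.card k)
  have h1 : (fun c : Fin n → k => ((S2 (mon c)).card : ℂ)) = fun c => ∑ g ∈ Q2 k,
      ((if g ∣ mon c then (1 : ℂ) else 0) -
        if g ∣ mon c ∧ g ∣ derivative (mon c) then (1 : ℂ) else 0) := by
    funext c
    have h2 : S2 (mon c) = (Q2 k).filter fun g => g ∣ mon c ∧ ¬ g ∣ derivative (mon c) := by
      ext g
      unfold S2
      rw [Finset.mem_filter, Finset.mem_filter, mem_SF (mon_monic c).ne_zero, mem_Q2]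
      tauto
    rw [h2, Finset.card_filter]
    push_cast
    refine Finset.sum_congr rfl fun g _ => ?_
    by_cases h3 : g ∣ mon c
    · by_cases h4 : g ∣ derivative (mon c)
      · simp [h3, h4]
      · simp [h3, h4]
    · simp [h3]
  rw [h1, fmean_sum]
  rw [Finset.sum_congr rfl fun g _ => fmean_sub (fun c : Fin n → k =>
    if g ∣ mon c then (1 : ℂ) else 0) (fun c => if g ∣ mon c ∧ g ∣ derivative (mon c) then
      (1 : ℂ) else 0)]
  rw [Finset.sum_sub_distrib]
  have h2 : ∑ g ∈ Q2 k, fmean (fun c : Fin n → k => if g ∣ mon c then (1 : ℂ) else 0) =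
      1 / 2 - 1 / (2 * (Nat.card k : ℂ)) := by
    have h3 : ∀ g ∈ Q2 k, fmean (fun c : Fin n → k => if g ∣ mon c then (1 : ℂ) else 0) =
        1 / (Nat.card k : ℂ) ^ 2 := by
      intro g hg
      rw [mem_Q2] at hg
      rw [prob_dvd hg.1 (by rw [hg.2.2]; exact hn), hg.2.2]
    rw [Finset.sum_congr rfl h3, Finset.sum_const, nsmul_eq_mul, card_Q2]
    field_simp
  have h4 : ‖∑ g ∈ Q2 k, fmean (fun c : Fin n → k =>
      if g ∣ mon c ∧ g ∣ derivative (mon c) then (1 : ℂ) else 0)‖ ≤ 1 / (Nat.card k : ℝ) := by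
    refine (norm_sum_le _ _).trans ?_
    have h5 : ∀ g ∈ Q2 k, ‖fmean (fun c : Fin n → k =>
        if g ∣ mon c ∧ g ∣ derivative (mon c) then (1 : ℂ) else 0)‖ ≤
        1 / (Nat.card k : ℝ) ^ 4 := by
      intro g hg
      rw [mem_Q2] at hg
      have h6 := prob_dvd_le (n := n) (hg.1.pow 2)
      rw [hg.1.natDegree_pow, hg.2.2] at h6
      refine (norm_fmean_mono (fun c : Fin n → k => g ∣ mon c ∧ g ∣ derivative (mon c))
        (fun c => g ^ 2 ∣ mon c) ?_).trans h6
      rintro c ⟨h7, h8⟩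
      exact sq_dvd hg.2.1 h7 h8
    refine (Finset.sum_le_sum h5).trans ?_
    rw [Finset.sum_const, nsmul_eq_mul]
    have h6 : ((Q2 k).card : ℝ) ≤ (Nat.card k : ℝ) ^ 2 := by
      have h7 : (Q2 k).card ≤ Nat.card k ^ 2 := by
        unfold Q2
        refine Finset.card_image_le.trans ((Finset.card_filter_le _ _).trans ?_)
        rw [Finset.card_univ, Fintype.card_fun, Fintype.card_fin, Nat.card_eq_fintype_card]
      exact_mod_cast h7
    calc ((Q2 k).card : ℝ) * (1 / (Nat.card k : ℝ) ^ 4)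
        ≤ (Nat.card k : ℝ) ^ 2 * (1 / (Nat.card k : ℝ) ^ 4) :=
          mul_le_mul_of_nonneg_right h6 (by positivity)
      _ = 1 / (Nat.card k : ℝ) ^ 2 := by field_simp
      _ ≤ 1 / (Nat.card k : ℝ) := by
          refine one_div_le_one_div_of_le hq0 ?_
          nlinarith
  rw [h2]
  have h5 : 1 / 2 - 1 / (2 * (Nat.card k : ℂ)) - ∑ g ∈ Q2 k, fmean (fun c : Fin n → k =>
      if g ∣ mon c ∧ g ∣ derivative (mon c) then (1 : ℂ) else 0) - 1 / 2 =
      -(1 / (2 * (Nat.card k : ℂ)) + ∑ g ∈ Q2 k, fmean (fun c : Fin n → k =>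
      if g ∣ mon c ∧ g ∣ derivative (mon c) then (1 : ℂ) else 0)) := by ring
  rw [h5, norm_neg]
  refine (norm_add_le _ _).trans ?_
  have h6 : ‖1 / (2 * (Nat.card k : ℂ))‖ ≤ 1 / (Nat.card k : ℝ) := by
    rw [norm_div, norm_one, norm_mul, Complex.norm_natCast]
    refine one_div_le_one_div_of_le hq0 ?_
    have : ‖(2 : ℂ)‖ = 2 := by norm_num
    rw [this]
    linarith
  calc _ ≤ 1 / (Nat.card k : ℝ) + 1 / (Nat.card k : ℝ) := add_le_add h6 h4
    _ = _ := by ring

end field

end Pool.Agent.KS6_22.MF
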