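import Pool.Agent.KS6_22.MF.Sec

/-!
# The mean of a product over the simple factors up to third order

Owner helper22.
-/

set_option autoImplicit false
set_option linter.unusedSectionVars false
set_option linter.unusedVariables false
set_option linter.style.haveILetI false

open Polynomial
open Pool.Agent.T6.H9.MV (fmean fmean_eq fmean_comp fmean_pi fmean_sub fmean_ite)

namespace Pool.Agent.KS6_22.MF

lemma pow_third (x : ℂ) {y : ℝ} (hy : ‖x‖ ≤ y) (R : ℕ) :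
    ‖(1 + x) ^ R - 1 - R * x - (R * ((R : ℂ) - 1) / 2) * x ^ 2‖ ≤
      (R : ℝ) ^ 3 * y ^ 3 * (1 + y) ^ R := by
  have hy0 : 0 ≤ y := (norm_nonneg _).trans hy
  induction R with
  | zero => simp
  | succ R ih =>
    have h1 : (1 + x) ^ (R + 1) - 1 - ((R + 1 : ℕ) : ℂ) * x -
        (((R + 1 : ℕ) : ℂ) * (((R + 1 : ℕ) : ℂ) - 1) / 2) * x ^ 2 =
        ((1 + x) ^ R - 1 - R * x - (R * ((R : ℂ) - 1) / 2) * x ^ 2) * (1 + x) +
          (R * ((R : ℂ) - 1) / 2) * x ^ 3 := by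
      push_cast
      ring
    rw [h1]
    have h2 : ‖1 + x‖ ≤ 1 + y := by
      refine (norm_add_le _ _).trans ?_
      rw [norm_one]
      linarith
    have h3 : ‖(R * ((R : ℂ) - 1) / 2)‖ ≤ (R : ℝ) ^ 2 := by
      rcases Nat.eq_zero_or_pos R with h | h
      · rw [h]
        simp
      · have h4 : (R * ((R : ℂ) - 1) / 2) = ((R * ((R : ℝ) - 1) / 2 : ℝ) : ℂ) := by push_cast; rfl
        have h5 : (1 : ℝ) ≤ R := by exact_mod_cast h
        rw [h4, Complex.norm_real, Real.norm_eq_abs, abs_of_nonneg (by nlinarith)]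
        nlinarith
    have h4 : (1 : ℝ) ≤ (1 + y) ^ (R + 1) := one_le_pow₀ (by linarith)
    calc ‖((1 + x) ^ R - 1 - R * x - (R * ((R : ℂ) - 1) / 2) * x ^ 2) * (1 + x) +
          (R * ((R : ℂ) - 1) / 2) * x ^ 3‖
        ≤ ‖(1 + x) ^ R - 1 - R * x - (R * ((R : ℂ) - 1) / 2) * x ^ 2‖ * ‖1 + x‖ +
          ‖(R * ((R : ℂ) - 1) / 2)‖ * ‖x‖ ^ 3 := by
          refine (norm_add_le _ _).trans ?_
          rw [norm_mul, norm_mul, norm_pow]
      _ ≤ ((R : ℝ) ^ 3 * y ^ 3 * (1 + y) ^ R) * (1 + y) + (R : ℝ) ^ 2 * y ^ 3 := by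
          gcongr
      _ = (R : ℝ) ^ 3 * y ^ 3 * (1 + y) ^ (R + 1) + (R : ℝ) ^ 2 * y ^ 3 * 1 := by ring
      _ ≤ (R : ℝ) ^ 3 * y ^ 3 * (1 + y) ^ (R + 1) +
            (R : ℝ) ^ 2 * y ^ 3 * (1 + y) ^ (R + 1) := by gcongr
      _ ≤ ((R + 1 : ℕ) : ℝ) ^ 3 * y ^ 3 * (1 + y) ^ (R + 1) := by
          have h5 : (0 : ℝ) ≤ y ^ 3 * (1 + y) ^ (R + 1) := by positivity
          have h6 : (R : ℝ) ^ 3 + (R : ℝ) ^ 2 ≤ ((R + 1 : ℕ) : ℝ) ^ 3 := by
            push_cast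
            have h7 : (0 : ℝ) ≤ R := Nat.cast_nonneg _
            have h8 : (0 : ℝ) ≤ (R : ℝ) ^ 2 := sq_nonneg _
            nlinarith
          nlinarith [mul_le_mul_of_nonneg_right h6 h5]

lemma pow_second (x : ℂ) {y : ℝ} (hy : ‖x‖ ≤ y) (R : ℕ) :
    ‖(1 + x) ^ R - 1 - R * x‖ ≤ (R : ℝ) ^ 2 * y ^ 2 * (1 + y) ^ R := by
  have hy0 : 0 ≤ y := (norm_nonneg _).trans hy
  have h := prod_second (Finset.range R) (fun _ => x) hy0 (fun _ _ => hy)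
  rw [Finset.prod_const, Finset.sum_const, Finset.card_range, nsmul_eq_mul] at h
  exact h

lemma norm_one_add_pow (x : ℂ) {y : ℝ} (hy : ‖x‖ ≤ y) (R : ℕ) : ‖(1 + x) ^ R‖ ≤ (1 + y) ^ R := by
  rw [norm_pow]
  refine pow_le_pow_left₀ (norm_nonneg _) ?_ _
  refine (norm_add_le _ _).trans ?_
  rw [norm_one]
  linarith

lemma prod_first {ι : Type} [DecidableEq ι] (S : Finset ι) (x : ι → ℂ) {y : ℝ} (hy : 0 ≤ y)
    (h : ∀ i ∈ S, ‖x i‖ ≤ y) :
    ‖∏ i ∈ S, (1 + x i) - 1‖ ≤ (S.card : ℝ) * y * (1 + y) ^ S.card := by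
  induction S using Finset.induction_on with
  | empty => simp
  | insert j S hj ih =>
    have ih' := ih fun i hi => h i (Finset.mem_insert_of_mem hi)
    have hj' := h j (Finset.mem_insert_self _ _)
    rw [Finset.prod_insert hj, Finset.card_insert_of_notMem hj]
    have h1 : (1 + x j) * ∏ i ∈ S, (1 + x i) - 1 =
        (∏ i ∈ S, (1 + x i) - 1) * (1 + x j) + x j := by ring
    rw [h1]
    have h3 : ‖1 + x j‖ ≤ 1 + y := by
      refine (norm_add_le _ _).trans ?_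
      rw [norm_one]
      linarith
    have h4 : (1 : ℝ) ≤ (1 + y) ^ (S.card + 1) := one_le_pow₀ (by linarith)
    calc ‖(∏ i ∈ S, (1 + x i) - 1) * (1 + x j) + x j‖
        ≤ ‖∏ i ∈ S, (1 + x i) - 1‖ * ‖1 + x j‖ + ‖x j‖ := by
          refine (norm_add_le _ _).trans ?_
          rw [norm_mul]
      _ ≤ ((S.card : ℝ) * y * (1 + y) ^ S.card) * (1 + y) + y := by gcongr
      _ = (S.card : ℝ) * y * (1 + y) ^ (S.card + 1) + y * 1 := by ring
      _ ≤ (S.card : ℝ) * y * (1 + y) ^ (S.card + 1) + y * (1 + y) ^ (S.card + 1) := by gcongr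
      _ = ((S.card + 1 : ℕ) : ℝ) * y * (1 + y) ^ (S.card + 1) := by
          push_cast
          ring

section mean

/-- the constant of the pointwise estimate -/
noncomputable def K0 (n : ℕ) (C : ℝ) : ℝ :=
  (n : ℝ) ^ 3 * C ^ 3 * ((1 + C) ^ n) ^ 3 +
    (1 + (n * C + (n : ℝ) ^ 2 * C ^ 2)) * ((n : ℝ) ^ 2 * C ^ 2 * ((1 + C) ^ n) ^ 2) +
    (1 + (n * C + (n : ℝ) ^ 2 * C ^ 2)) * (1 + n * C) * (n * C * (1 + C) ^ n) +
    (n * C + (n : ℝ) ^ 2 * C ^ 2) * (n * C)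

/-- the pointwise estimate in terms of the three products -/
lemma three_parts {n : ℕ} {C κ : ℝ} (hC : 0 ≤ C) (hκ : 0 ≤ κ) (hκ1 : κ ≤ 1) {x₁ x₂ P3 : ℂ}
    (h1 : ‖x₁‖ ≤ C * κ) (h2 : ‖x₂‖ ≤ C * κ ^ 2) {R1 R2 R3 : ℕ} (hR1 : R1 ≤ n) (hR2 : R2 ≤ n)
    (hR3 : R3 ≤ n) (h3 : ‖P3 - 1‖ ≤ (R3 : ℝ) * (C * κ ^ 3) * (1 + C * κ ^ 3) ^ R3) 
    (h3' : ‖P3‖ ≤ (1 + C) ^ n) :
    ‖(1 + x₁) ^ R1 * (1 + x₂) ^ R2 * P3 -
      (1 + R1 * x₁ + (R1 * ((R1 : ℂ) - 1) / 2) * x₁ ^ 2 + R2 * x₂)‖ ≤ K0 n C * κ ^ 3 := by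
  have hn0 : (0 : ℝ) ≤ n := Nat.cast_nonneg _
  have hR1' : (R1 : ℝ) ≤ n := by exact_mod_cast hR1
  have hR2' : (R2 : ℝ) ≤ n := by exact_mod_cast hR2
  have hR3' : (R3 : ℝ) ≤ n := by exact_mod_cast hR3
  have hκ2 : κ ^ 2 ≤ κ := by nlinarith
  have hκ3 : κ ^ 3 ≤ κ ^ 2 := by nlinarith [sq_nonneg κ]
  have hκ4 : κ ^ 4 ≤ κ ^ 3 := by nlinarith [pow_nonneg hκ 3]
  have hM1 : 1 ≤ (1 + C) ^ n := one_le_pow₀ (by linarith)
  have hpow : ∀ (R : ℕ) (y : ℝ), R ≤ n → 0 ≤ y → y ≤ C → (1 + y) ^ R ≤ (1 + C) ^ n := by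
    intro R y hR hy hyC
    exact (pow_le_pow_left₀ (by linarith) (by linarith) R).trans
      (pow_le_pow_right₀ (by linarith) hR)
  set M : ℝ := (1 + C) ^ n with hM
  set A1 : ℂ := 1 + R1 * x₁ + (R1 * ((R1 : ℂ) - 1) / 2) * x₁ ^ 2 with hA1
  set A2 : ℂ := 1 + R2 * x₂ with hA2
  have e1 : ‖(1 + x₁) ^ R1 - A1‖ ≤ (n : ℝ) ^ 3 * C ^ 3 * M * κ ^ 3 := by
    have h := pow_third x₁ h1 R1
    have h' : (1 + x₁) ^ R1 - A1 =
        (1 + x₁) ^ R1 - 1 - R1 * x₁ - (R1 * ((R1 : ℂ) - 1) / 2) * x₁ ^ 2 := by rw [hA1]; ring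
    rw [h']
    refine h.trans ?_
    have h4 := hpow R1 (C * κ) hR1 (by positivity) (by nlinarith)
    calc (R1 : ℝ) ^ 3 * (C * κ) ^ 3 * (1 + C * κ) ^ R1 ≤ (n : ℝ) ^ 3 * (C * κ) ^ 3 * M := by gcongr
      _ = _ := by ring
  have e2 : ‖(1 + x₂) ^ R2 - A2‖ ≤ (n : ℝ) ^ 2 * C ^ 2 * M * κ ^ 3 := by
    have h := pow_second x₂ h2 R2
    have h' : (1 + x₂) ^ R2 - A2 = (1 + x₂) ^ R2 - 1 - R2 * x₂ := by rw [hA2]; ring
    rw [h']
    refine h.trans ?_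
    have h4 := hpow R2 (C * κ ^ 2) hR2 (by positivity) (by nlinarith)
    calc (R2 : ℝ) ^ 2 * (C * κ ^ 2) ^ 2 * (1 + C * κ ^ 2) ^ R2
        ≤ (n : ℝ) ^ 2 * (C * κ ^ 2) ^ 2 * M := by gcongr
      _ = (n : ℝ) ^ 2 * C ^ 2 * M * κ ^ 4 := by ring
      _ ≤ _ := by gcongr
  have e3 : ‖P3 - 1‖ ≤ n * C * M * κ ^ 3 := by
    refine h3.trans ?_
    have h4 := hpow R3 (C * κ ^ 3) hR3 (by positivity) (by nlinarith)
    calc (R3 : ℝ) * (C * κ ^ 3) * (1 + C * κ ^ 3) ^ R3 ≤ n * (C * κ ^ 3) * M := by gcongr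
      _ = _ := by ring
  have b2 : ‖(1 + x₂) ^ R2‖ ≤ M :=
    (norm_one_add_pow x₂ h2 R2).trans (hpow R2 (C * κ ^ 2) hR2 (by positivity) (by nlinarith))
  have hcoef : ‖(R1 * ((R1 : ℂ) - 1) / 2)‖ ≤ (n : ℝ) ^ 2 := by
    rcases Nat.eq_zero_or_pos R1 with h | h
    · rw [h]
      simp
    · have h4 : (R1 * ((R1 : ℂ) - 1) / 2) = ((R1 * ((R1 : ℝ) - 1) / 2 : ℝ) : ℂ) := by push_cast; rfl
      have h5 : (1 : ℝ) ≤ R1 := by exact_mod_cast h
      rw [h4, Complex.norm_real, Real.norm_eq_abs, abs_of_nonneg (by nlinarith)]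
      nlinarith
  set D : ℝ := n * C + (n : ℝ) ^ 2 * C ^ 2 with hD
  have hD0 : 0 ≤ D := by positivity
  have a1 : ‖A1 - 1‖ ≤ D * κ := by
    have h' : A1 - 1 = R1 * x₁ + (R1 * ((R1 : ℂ) - 1) / 2) * x₁ ^ 2 := by rw [hA1]; ring
    rw [h']
    refine (norm_add_le _ _).trans ?_
    rw [norm_mul, norm_mul, norm_pow, Complex.norm_natCast]
    calc (R1 : ℝ) * ‖x₁‖ + ‖(R1 * ((R1 : ℂ) - 1) / 2)‖ * ‖x₁‖ ^ 2
        ≤ n * (C * κ) + (n : ℝ) ^ 2 * (C * κ) ^ 2 := by gcongr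
      _ = n * C * κ + (n : ℝ) ^ 2 * C ^ 2 * κ ^ 2 := by ring
      _ ≤ n * C * κ + (n : ℝ) ^ 2 * C ^ 2 * κ := by gcongr
      _ = D * κ := by rw [hD]; ring
  have a2 : ‖A2 - 1‖ ≤ n * C * κ ^ 2 := by
    have h' : A2 - 1 = R2 * x₂ := by rw [hA2]; ring
    rw [h', norm_mul, Complex.norm_natCast]
    calc (R2 : ℝ) * ‖x₂‖ ≤ n * (C * κ ^ 2) := by gcongr
      _ = _ := by ring
  have c1 : ‖A1‖ ≤ 1 + D := by
    have h' : A1 = 1 + (A1 - 1) := by ring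
    rw [h']
    refine (norm_add_le _ _).trans ?_
    rw [norm_one]
    nlinarith
  have c2 : ‖A2‖ ≤ 1 + n * C := by
    have h' : A2 = 1 + (A2 - 1) := by ring
    rw [h']
    refine (norm_add_le _ _).trans ?_
    rw [norm_one]
    have : n * C * κ ^ 2 ≤ n * C * 1 := by
      refine mul_le_mul_of_nonneg_left (by nlinarith) (by positivity)
    linarith
  have hid : (1 + x₁) ^ R1 * (1 + x₂) ^ R2 * P3 -
      (1 + R1 * x₁ + (R1 * ((R1 : ℂ) - 1) / 2) * x₁ ^ 2 + R2 * x₂) =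
      ((1 + x₁) ^ R1 - A1) * (1 + x₂) ^ R2 * P3 + A1 * ((1 + x₂) ^ R2 - A2) * P3 +
        A1 * A2 * (P3 - 1) + (A1 - 1) * (A2 - 1) := by
    rw [hA1, hA2]
    ring
  rw [hid]
  have t1' : ‖((1 + x₁) ^ R1 - A1) * (1 + x₂) ^ R2 * P3‖ ≤
      ((n : ℝ) ^ 3 * C ^ 3 * M * κ ^ 3) * M * M := by
    rw [norm_mul, norm_mul]
    gcongr
  have t2 : ‖A1 * ((1 + x₂) ^ R2 - A2) * P3‖ ≤ (1 + D) * ((n : ℝ) ^ 2 * C ^ 2 * M * κ ^ 3) * M := by
    rw [norm_mul, norm_mul]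
    gcongr
  have t3 : ‖A1 * A2 * (P3 - 1)‖ ≤ (1 + D) * (1 + n * C) * (n * C * M * κ ^ 3) := by
    rw [norm_mul, norm_mul]
    gcongr
  have t4 : ‖(A1 - 1) * (A2 - 1)‖ ≤ (D * κ) * (n * C * κ ^ 2) := by
    rw [norm_mul]
    gcongr
  calc _ ≤ ((n : ℝ) ^ 3 * C ^ 3 * M * κ ^ 3) * M * M +
        (1 + D) * ((n : ℝ) ^ 2 * C ^ 2 * M * κ ^ 3) * M +
        (1 + D) * (1 + n * C) * (n * C * M * κ ^ 3) + (D * κ) * (n * C * κ ^ 2) := by
        refine (norm_add_le _ _).trans (add_le_add ?_ t4)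
        refine (norm_add_le _ _).trans (add_le_add ?_ t3)
        exact (norm_add_le _ _).trans (add_le_add t1' t2)
    _ = K0 n C * κ ^ 3 := by
        unfold K0
        rw [hD, hM]
        ring

variable {k : Type} [Field k] [Finite k] {n : ℕ}

/-- **The mean over all polynomials of a product over the simple factors, up to third order.** -/
theorem mean_factors_third (hn : 2 ≤ n) (x : k[X] → ℂ) (x₁ x₂ : ℂ) {C κ : ℝ} (hC : 0 ≤ C)
    (hκ : 0 ≤ κ) (hκ1 : κ ≤ 1) (h1 : ‖x₁‖ ≤ C * κ) (h2 : ‖x₂‖ ≤ C * κ ^ 2)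
    (hx1 : ∀ g : k[X], Irreducible g → g.Monic → g.natDegree = 1 → x g = x₁)
    (hx2 : ∀ g : k[X], Irreducible g → g.Monic → g.natDegree = 2 → x g = x₂)
    (hx3 : ∀ g : k[X], Irreducible g → g.Monic → 3 ≤ g.natDegree → ‖x g‖ ≤ C * κ ^ 3) :
    ‖fmean (fun c : Fin n → k => ∏ g ∈ SF (mon c), (1 + x g)) -
      (1 + x₁ + 1 / 2 * x₁ ^ 2 + 1 / 2 * x₂)‖ ≤
      (K0 n C + (C + (n + 1) * C ^ 2 + 2 * C)) * (κ ^ 3 + κ / Nat.card k) := by
  classical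
  have hq0 : (0 : ℝ) < Nat.card k := by exact_mod_cast Nat.card_pos (α := k)
  have hfac : ∀ (c : Fin n → k) (g : k[X]), g ∈ SF (mon c) → Irreducible g ∧ g.Monic := by
    intro c g hg
    have := (mem_SF (mon_monic c).ne_zero).1 hg
    exact ⟨this.1.1, this.1.2.1⟩
  have hcard : ∀ c : Fin n → k, (SF (mon c)).card ≤ n := by
    intro c
    have h := card_SF_le (mon_monic c).ne_zero
    rwa [mon_natDegree] at h
  -- the pointwise estimate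
  have hpt : ∀ c : Fin n → k, ‖∏ g ∈ SF (mon c), (1 + x g) -
      (1 + ((S1 (mon c)).card : ℂ) * x₁ +
        (((S1 (mon c)).card : ℂ) * (((S1 (mon c)).card : ℂ) - 1) / 2) * x₁ ^ 2 +
        ((S2 (mon c)).card : ℂ) * x₂)‖ ≤ K0 n C * κ ^ 3 := by
    intro c
    set S3 : Finset k[X] := ((SF (mon c)).filter fun g => ¬ g.natDegree = 1).filter
      fun g => ¬ g.natDegree = 2 with hS3
    have e1 : ∏ g ∈ SF (mon c), (1 + x g) =
        (1 + x₁) ^ (S1 (mon c)).card * (1 + x₂) ^ (S2 (mon c)).card * ∏ g ∈ S3, (1 + x g) := by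
      rw [← Finset.prod_filter_mul_prod_filter_not (SF (mon c)) (fun g => g.natDegree = 1),
        ← Finset.prod_filter_mul_prod_filter_not ((SF (mon c)).filter fun g => ¬ g.natDegree = 1)
          (fun g => g.natDegree = 2), ← mul_assoc]
      congr 1
      congr 1
      · unfold S1
        rw [← Finset.prod_const]
        refine Finset.prod_congr rfl fun g hg => ?_
        rw [Finset.mem_filter] at hg
        rw [hx1 g (hfac c g hg.1).1 (hfac c g hg.1).2 hg.2]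
      · have e2 : ((SF (mon c)).filter fun g => ¬ g.natDegree = 1).filter
            (fun g => g.natDegree = 2) = S2 (mon c) := by
          unfold S2
          ext g
          rw [Finset.mem_filter, Finset.mem_filter, Finset.mem_filter]
          constructor
          · exact fun h => ⟨h.1.1, h.2⟩
          · exact fun h => ⟨⟨h.1, by omega⟩, h.2⟩
        rw [e2, ← Finset.prod_const]
        refine Finset.prod_congr rfl fun g hg => ?_
        unfold S2 at hg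
        rw [Finset.mem_filter] at hg
        rw [hx2 g (hfac c g hg.1).1 (hfac c g hg.1).2 hg.2]
    have h3 : ∀ g ∈ S3, ‖x g‖ ≤ C * κ ^ 3 := by
      intro g hg
      rw [hS3, Finset.mem_filter, Finset.mem_filter] at hg
      have h4 := (hfac c g hg.1.1).1.natDegree_pos
      exact hx3 g (hfac c g hg.1.1).1 (hfac c g hg.1.1).2 (by omega)
    have hS1 : (S1 (mon c)).card ≤ n := (Finset.card_filter_le _ _).trans (hcard c)
    have hS2 : (S2 (mon c)).card ≤ n := (Finset.card_filter_le _ _).trans (hcard c)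
    have hS3' : S3.card ≤ n :=
      ((Finset.card_filter_le _ _).trans (Finset.card_filter_le _ _)).trans (hcard c)
    rw [e1]
    refine three_parts hC hκ hκ1 h1 h2 hS1 hS2 hS3' (prod_first S3 x (by positivity) h3) ?_
    rw [norm_prod]
    have hκ3 : κ ^ 3 ≤ 1 := pow_le_one₀ hκ hκ1
    calc ∏ g ∈ S3, ‖1 + x g‖ ≤ ∏ g ∈ S3, (1 + C) := by
          refine Finset.prod_le_prod (fun _ _ => norm_nonneg _) fun g hg => ?_
          refine (norm_add_le _ _).trans ?_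
          rw [norm_one]
          have := h3 g hg
          nlinarith
      _ = (1 + C) ^ S3.card := by rw [Finset.prod_const]
      _ ≤ (1 + C) ^ n := pow_le_pow_right₀ (by linarith) hS3'
  -- the mean
  set m1 := fmean (fun c : Fin n → k => ((S1 (mon c)).card : ℂ)) with hm1
  set m2 := fmean (fun c : Fin n → k => ((S1 (mon c)).card : ℂ) ^ 2) with hm2
  set m3 := fmean (fun c : Fin n → k => ((S2 (mon c)).card : ℂ)) with hm3
  have e1 : fmean (fun c : Fin n → k => 1 + ((S1 (mon c)).card : ℂ) * x₁ +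
      (((S1 (mon c)).card : ℂ) * (((S1 (mon c)).card : ℂ) - 1) / 2) * x₁ ^ 2 +
        ((S2 (mon c)).card : ℂ) * x₂) = 1 + m1 * x₁ + (m2 - m1) * (x₁ ^ 2 / 2) + m3 * x₂ := by
    have e2 : (fun c : Fin n → k => 1 + ((S1 (mon c)).card : ℂ) * x₁ +
      (((S1 (mon c)).card : ℂ) * (((S1 (mon c)).card : ℂ) - 1) / 2) * x₁ ^ 2 +
        ((S2 (mon c)).card : ℂ) * x₂) = fun c => ((1 + ((S1 (mon c)).card : ℂ) * x₁) +
      (((S1 (mon c)).card : ℂ) ^ 2 - ((S1 (mon c)).card : ℂ)) * (x₁ ^ 2 / 2)) +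
        ((S2 (mon c)).card : ℂ) * x₂ := by
      funext c
      ring
    rw [e2, fmean_add, fmean_add, fmean_add (fun _ : Fin n → k => (1 : ℂ)), fmean_const,
      fmean_mul_const, fmean_mul_const,
      fmean_sub (fun c : Fin n → k => ((S1 (mon c)).card : ℂ) ^ 2), fmean_mul_const]
  have e2 : fmean (fun c : Fin n → k => ∏ g ∈ SF (mon c), (1 + x g)) -
      (1 + x₁ + 1 / 2 * x₁ ^ 2 + 1 / 2 * x₂) =
      fmean (fun c : Fin n → k => ∏ g ∈ SF (mon c), (1 + x g) -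
      (1 + ((S1 (mon c)).card : ℂ) * x₁ +
        (((S1 (mon c)).card : ℂ) * (((S1 (mon c)).card : ℂ) - 1) / 2) * x₁ ^ 2 +
        ((S2 (mon c)).card : ℂ) * x₂)) +
      ((m1 - 1) * x₁ + ((m2 - 2) - (m1 - 1)) * (x₁ ^ 2 / 2) + (m3 - 1 / 2) * x₂) := by
    rw [fmean_sub (fun c : Fin n → k => ∏ g ∈ SF (mon c), (1 + x g)), e1]
    ring
  rw [e2]
  refine (norm_add_le _ _).trans ?_
  have a1 : ‖m1 - 1‖ ≤ 1 / (Nat.card k : ℝ) := mean_S1 (by omega)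
  have a2 : ‖m2 - 2‖ ≤ (2 * n + 1) / (Nat.card k : ℝ) := mean_S1_sq hn
  have a3 : ‖m3 - 1 / 2‖ ≤ 2 / (Nat.card k : ℝ) := mean_S2 hn
  have b1 : ‖(m1 - 1) * x₁‖ ≤ 1 / (Nat.card k : ℝ) * (C * κ) := by
    rw [norm_mul]
    exact mul_le_mul a1 h1 (norm_nonneg _) (by positivity)
  have b2 : ‖((m2 - 2) - (m1 - 1)) * (x₁ ^ 2 / 2)‖ ≤
      ((2 * n + 1) / (Nat.card k : ℝ) + 1 / (Nat.card k : ℝ)) * ((C * κ) ^ 2 / 2) := by
    rw [norm_mul, norm_div, norm_pow]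
    have : ‖(2 : ℂ)‖ = 2 := by norm_num
    rw [this]
    refine mul_le_mul ((norm_sub_le _ _).trans (add_le_add a2 a1)) ?_ (by positivity)
      (by positivity)
    gcongr
  have b3 : ‖(m3 - 1 / 2) * x₂‖ ≤ 2 / (Nat.card k : ℝ) * (C * κ ^ 2) := by
    rw [norm_mul]
    exact mul_le_mul a3 h2 (norm_nonneg _) (by positivity)
  have hκ2 : κ ^ 2 ≤ κ := by nlinarith
  have hn0 : (0 : ℝ) ≤ n := Nat.cast_nonneg _
  have b4 : ‖(m1 - 1) * x₁ + ((m2 - 2) - (m1 - 1)) * (x₁ ^ 2 / 2) + (m3 - 1 / 2) * x₂‖ ≤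
      (C + (n + 1) * C ^ 2 + 2 * C) * (κ / Nat.card k) := by
    refine (norm_add_le _ _).trans ?_
    refine (add_le_add ((norm_add_le _ _).trans (add_le_add b1 b2)) b3).trans ?_
    have c1 : ((2 * n + 1) / (Nat.card k : ℝ) + 1 / (Nat.card k : ℝ)) * ((C * κ) ^ 2 / 2) =
        ((n + 1) * C ^ 2) * (κ ^ 2 / Nat.card k) := by ring
    have c2 : 2 / (Nat.card k : ℝ) * (C * κ ^ 2) = (2 * C) * (κ ^ 2 / Nat.card k) := by ring
    have c3 : κ ^ 2 / (Nat.card k : ℝ) ≤ κ / Nat.card k := div_le_div_of_nonneg_right hκ2 hq0.le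
    rw [c1, c2]
    calc _ ≤ 1 / (Nat.card k : ℝ) * (C * κ) + ((n + 1) * C ^ 2) * (κ / Nat.card k) +
          (2 * C) * (κ / Nat.card k) := by gcongr
      _ = _ := by ring
  have hK0 : 0 ≤ K0 n C := by
    unfold K0
    positivity
  have b5 := norm_fmean_le hpt
  have hE : 0 ≤ C + (n + 1) * C ^ 2 + 2 * C := by positivity
  have hp1 : 0 ≤ κ ^ 3 := by positivity
  have hp2 : 0 ≤ κ / (Nat.card k : ℝ) := by positivity
  calc _ ≤ K0 n C * κ ^ 3 + (C + (n + 1) * C ^ 2 + 2 * C) * (κ / Nat.card k) :=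
        add_le_add b5 b4
    _ ≤ _ := by nlinarith [mul_nonneg hK0 hp2, mul_nonneg hE hp1]

end mean

end Pool.Agent.KS6_22.MF
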